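import Pool.Agent.L0h43.TA.Gal

/-!
# The average of the singular series over the extensions of a set
-/

set_option autoImplicit false

namespace Pool.Agent.L0h43.TB

open Finset Filter Topology Pool.Agent.H387R2
open Pool.Agent.L0h43.TA
open Pool.Agent.H386R2.HL

lemma ext_sum (W : ℕ) (A T : Finset ℕ) (r : ℕ) :
    ∑ D ∈ A.powersetCard r, (Uni.gT W (T ∪ D) : ℝ) =
      ∑ ν ∈ (range W).filter (fun ν => ∀ t ∈ T, Nat.Coprime W (ν + t)),
        (((A.filter (fun a => Nat.Coprime W (ν + a))).card.choose r : ℕ) : ℝ) := by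
  classical
  have h := Uni.sum_choose ((range W).filter (fun ν => ∀ t ∈ T, Nat.Coprime W (ν + t))) A r
    (fun ν a => Nat.Coprime W (ν + a))
  have h2 : ∀ D ∈ A.powersetCard r, Uni.gT W (T ∪ D) =
      (((range W).filter (fun ν => ∀ t ∈ T, Nat.Coprime W (ν + t))).filter
        (fun ν => ∀ t ∈ D, Nat.Coprime W (ν + t))).card := by
    intro D _
    unfold Uni.gT
    congr 1
    ext m
    simp only [mem_filter, mem_range, mem_union]
    constructor
    · rintro ⟨h1, h2⟩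
      exact ⟨⟨h1, fun t ht => h2 t (Or.inl ht)⟩, fun t ht => h2 t (Or.inr ht)⟩
    · rintro ⟨⟨h1, h2⟩, h3⟩
      refine ⟨h1, fun t ht => ?_⟩
      rcases ht with ht | ht
      · exact h2 t ht
      · exact h3 t ht
  rw [sum_congr rfl (fun D hD => by rw [h2 D hD])]
  exact_mod_cast h.symm

/-- the average, truncated -/
lemma avg_aux (r y u H M : ℕ) (T : Finset ℕ) (hT : ∀ t ∈ T, t ≤ M) (hM : u + H ≤ M) {K : ℝ} (hK : 1 ≤ K)
    (htt : ∀ n : ℕ, 1 ≤ n → n ≤ M → tt y n ≤ K) :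
    (r.factorial : ℝ) * ∑ D ∈ (Ioc u (u + H) \ T).powersetCard r, Uni.CT (T ∪ D) ≤
      K ^ ((T.card + r) * (T.card + r)) * ((H : ℝ) + Uni.WW y) ^ r * sy (Uni.en T) y := by
  classical
  obtain ⟨W, hW⟩ : ∃ W, W = Uni.WW y := ⟨_, rfl⟩
  rw [Uni.sy_en, ← hW]
  have hWpos : 0 < W := by rw [hW]; exact Uni.WW_pos y
  have hW0 : (0 : ℝ) < W := by exact_mod_cast hWpos
  have hφpos : 0 < Nat.totient W := Nat.totient_pos.2 hWpos
  have hφ0 : (0 : ℝ) < Nat.totient W := by exact_mod_cast hφpos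
  have hK0 : (0 : ℝ) < K := by linarith
  have h1 : ∀ D ∈ (Ioc u (u + H) \ T).powersetCard r, Uni.CT (T ∪ D) ≤
      K ^ ((T.card + r) * (T.card + r)) *
        (((W : ℝ) / Nat.totient W) ^ (T.card + r) * (Uni.gT W (T ∪ D) / W)) := by
    intro D hD
    rw [mem_powersetCard] at hD
    have hdis : Disjoint T D := by
      rw [disjoint_left]
      intro t ht hD2
      exact (Finset.mem_sdiff.1 (hD.1 hD2)).2 ht
    have hcard : (T ∪ D).card = T.card + r := by
      rw [card_union_of_disjoint hdis, hD.2]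
    have := Uni.CT_le (T ∪ D) y hK (M := M) (fun t ht => by
      rw [mem_union] at ht
      rcases ht with ht | ht
      · exact hT t ht
      · have := (mem_Ioc.1 (Finset.mem_sdiff.1 (hD.1 ht)).1).2
        omega) htt
    rw [hcard, ← hW] at this
    exact this
  have h2 := sum_le_sum h1
  rw [← mul_sum, ← mul_sum, ← sum_div, ext_sum W] at h2
  set z : ℝ := (Nat.totient W : ℝ) * (H / W + 1) with hz
  have h3 : ∀ ν ∈ (range W).filter (fun ν => ∀ t ∈ T, Nat.Coprime W (ν + t)), (r.factorial : ℝ) *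
      ((((Ioc u (u + H) \ T).filter (fun a => Nat.Coprime W (ν + a))).card.choose r : ℕ) : ℝ) ≤ z ^ r := by
    intro ν _
    refine (choose_le_pow' _ r).trans (pow_le_pow_left₀ (Nat.cast_nonneg _) ?_ r)
    refine le_trans ?_ (cop_up W ν u H hWpos)
    have : ((Ioc u (u + H) \ T).filter (fun a => Nat.Coprime W (ν + a))).card ≤
        ((Ioc u (u + H)).filter (fun a => Nat.Coprime W (ν + a))).card :=
      card_le_card (filter_subset_filter _ sdiff_subset)
    exact_mod_cast this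
  have h4 := sum_le_sum h3
  rw [sum_const, nsmul_eq_mul, ← mul_sum] at h4
  have hgT : ((range W).filter (fun ν => ∀ t ∈ T, Nat.Coprime W (ν + t))).card = Uni.gT W T := rfl
  rw [hgT] at h4
  have hfac : (0 : ℝ) < r.factorial := by exact_mod_cast r.factorial_pos
  have h5 := mul_le_mul_of_nonneg_left h2 hfac.le
  refine h5.trans ?_
  have h6 : K ^ ((T.card + r) * (T.card + r)) * (((W : ℝ) / Nat.totient W) ^ (T.card + r) * (((r.factorial : ℝ) *
        ∑ ν ∈ (range W).filter (fun ν => ∀ t ∈ T, Nat.Coprime W (ν + t)),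
        (((((Ioc u (u + H) \ T).filter (fun a => Nat.Coprime W (ν + a))).card.choose r : ℕ) : ℝ))) / W)) ≤
      K ^ ((T.card + r) * (T.card + r)) * (((W : ℝ) / Nat.totient W) ^ (T.card + r) *
      ((Uni.gT W T * z ^ r) / W)) := by
    apply mul_le_mul_of_nonneg_left _ (by positivity)
    apply mul_le_mul_of_nonneg_left _ (by positivity)
    exact div_le_div_of_nonneg_right h4 hW0.le
  calc _ = K ^ ((T.card + r) * (T.card + r)) * (((W : ℝ) / Nat.totient W) ^ (T.card + r) * (((r.factorial : ℝ) *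
        ∑ ν ∈ (range W).filter (fun ν => ∀ t ∈ T, Nat.Coprime W (ν + t)),
        (((((Ioc u (u + H) \ T).filter (fun a => Nat.Coprime W (ν + a))).card.choose r : ℕ) : ℝ))) / W)) := by
        ring
    _ ≤ _ := h6
    _ = _ := by
        have e : z = (Nat.totient W : ℝ) / W * (H + W) := by
          rw [hz]; field_simp
        rw [e, mul_pow, div_pow, div_pow, div_pow, pow_add, pow_add]
        field_simp

/-- **the average of the singular series over the extensions in a window** -/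
theorem avg_up (j r : ℕ) (ε A : ℝ) (hε : 0 < ε) (hA : 0 ≤ A) : ∃ L₀ : ℝ, ∀ L : ℝ, L₀ ≤ L → ∀ T : Finset ℕ,
    T.card = j → (∀ t ∈ T, (t : ℝ) ≤ L ^ A) → ∀ u H : ℕ, L ≤ H → ((u + H : ℕ) : ℝ) ≤ L ^ A →
      (r.factorial : ℝ) * ∑ D ∈ (Ioc u (u + H) \ T).powersetCard r, Uni.CT (T ∪ D) ≤
        (1 + ε) * (H : ℝ) ^ r * Uni.CT T := by
  have tL : Tendsto (fun L : ℝ => Real.log L / 4) atTop atTop :=
    Real.tendsto_log_atTop.atTop_div_const (by norm_num)
  have ty : Tendsto (fun L : ℝ => ⌊Real.log L / 4⌋₊) atTop atTop := tendsto_nat_floor_atTop.comp tL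
  have tyR : Tendsto (fun L : ℝ => ((⌊Real.log L / 4⌋₊ : ℕ) : ℝ)) atTop atTop :=
    tendsto_natCast_atTop_atTop.comp ty
  have tly : Tendsto (fun L : ℝ => Real.log ((⌊Real.log L / 4⌋₊ : ℕ) : ℝ)) atTop atTop :=
    Real.tendsto_log_atTop.comp tyR
  have t1 : Tendsto (fun L : ℝ => Real.exp (16 * A / Real.log ((⌊Real.log L / 4⌋₊ : ℕ) : ℝ)) ^ ((j + r) * (j + r)) *
      (1 + (L ^ (1 / 2 : ℝ))⁻¹) ^ r) atTop (𝓝 (Real.exp 0 ^ ((j + r) * (j + r)) * (1 + 0) ^ r)) := by
    apply Tendsto.mul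
    · apply Tendsto.pow
      apply (Real.continuous_exp.tendsto 0).comp
      exact tly.const_div_atTop _
    · apply Tendsto.pow
      apply Tendsto.const_add
      exact (tendsto_rpow_atTop (by norm_num : (0 : ℝ) < 1 / 2)).inv_tendsto_atTop
  have t2 : Tendsto (fun L : ℝ => (1 + ε) * (1 - (j : ℝ) ^ 2 / ((⌊Real.log L / 4⌋₊ : ℕ) : ℝ))) atTop
      (𝓝 ((1 + ε) * (1 - 0))) := by
    apply Tendsto.const_mul
    apply Tendsto.const_sub
    exact tyR.const_div_atTop _
  have h1 : Real.exp 0 ^ ((j + r) * (j + r)) * (1 + 0) ^ r < (1 + ε) * (1 - 0) := by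
    simp; exact hε
  obtain ⟨L₀, hL₀⟩ := eventually_atTop.1 ((t1.eventually_lt t2 h1).and ((ty.eventually_ge_atTop (j + 2)).and
    (eventually_ge_atTop 1)))
  refine ⟨L₀, ?_⟩
  intro L hL T hTj hTA u H hLH hHA
  obtain ⟨h2, h3, h4⟩ := hL₀ L hL
  obtain ⟨y, hy⟩ : ∃ y : ℕ, y = ⌊Real.log L / 4⌋₊ := ⟨_, rfl⟩
  rw [← hy] at h2 h3
  have hL0 : 0 < L := by linarith
  have hlL0 : 0 ≤ Real.log L := Real.log_nonneg h4
  have hy2 : (2 : ℝ) ≤ y := by
    have : 2 ≤ y := by omega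
    exact_mod_cast this
  have hy0 : (0 : ℝ) < y := by linarith
  have hlogy : 0 < Real.log y := Real.log_pos (by linarith)
  have hyL : (y : ℝ) ≤ Real.log L / 4 := by rw [hy]; exact Nat.floor_le (by positivity)
  have hyL2 : Real.log L ≤ 8 * y := by
    have : Real.log L / 4 < y + 1 := by rw [hy]; exact Nat.lt_floor_add_one _
    linarith
  have hK1 : 1 ≤ Real.exp (16 * A / Real.log y) := Real.one_le_exp (by positivity)
  have hLA0 : 0 ≤ L ^ A := by positivity
  have haux := avg_aux r y u H ⌊L ^ A⌋₊ T (fun t ht => Nat.le_floor (hTA t ht)) (Nat.le_floor hHA) hK1 (by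
    intro n hn1 hn2
    refine (Uni.tt_le y n (by omega) hn1).trans (Real.exp_le_exp.2 ?_)
    rw [div_le_div_iff₀ (by positivity) hlogy]
    have hn3 : (n : ℝ) ≤ L ^ A := (Nat.le_floor_iff hLA0).1 hn2
    have h5 : Real.log n ≤ A * Real.log L := by
      have := Real.log_le_log (by exact_mod_cast hn1) hn3
      rwa [Real.log_rpow hL0] at this
    have h6 : 2 * Real.log n ≤ 16 * A * y := by
      have : A * Real.log L ≤ A * (8 * y) := mul_le_mul_of_nonneg_left hyL2 hA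
      linarith
    calc 2 * Real.log n * Real.log y ≤ 16 * A * y * Real.log y := mul_le_mul_of_nonneg_right h6 hlogy.le
      _ = _ := by ring)
  obtain ⟨s0, hs0⟩ : ∃ s0, s0 = sy (Uni.en T) y := ⟨_, rfl⟩
  rw [← hs0, hTj] at haux
  refine haux.trans ?_
  have hH0 : (0 : ℝ) < H := by linarith
  have hsy : 0 ≤ s0 := by rw [hs0]; exact sy_nonneg (Uni.en T) y
  have hlo : (1 - (j : ℝ) ^ 2 / y) * s0 ≤ Uni.CT T := by
    have h1 := Pool.Agent.Helper22K9.Trp.CT_ge' T y (by omega) (by rw [hTj]; omega)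
    rw [← Uni.sy_en, ← hs0] at h1
    have e : ((T.card : ℕ) : ℝ) = j := by rw [hTj]
    rw [e] at h1
    exact h1
  have hW : ((Uni.WW y : ℕ) : ℝ) ≤ (H : ℝ) * (L ^ (1 / 2 : ℝ))⁻¹ := by
    have h5 : L * (L ^ (1 / 2 : ℝ))⁻¹ = L ^ (1 / 2 : ℝ) := by
      rw [← div_eq_mul_inv, div_eq_iff (by positivity), ← Real.rpow_add hL0]
      norm_num
    have h6 : L ^ (1 / 2 : ℝ) ≤ (H : ℝ) * (L ^ (1 / 2 : ℝ))⁻¹ :=
      (le_of_eq h5.symm).trans (mul_le_mul_of_nonneg_right hLH (by positivity))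
    refine le_trans ?_ h6
    calc ((Uni.WW y : ℕ) : ℝ) ≤ ((4 ^ y : ℕ) : ℝ) := by exact_mod_cast Helper22K9.Trp.WW_le y
      _ = (4 : ℝ) ^ y := by push_cast; rfl
      _ ≤ (Real.exp 2) ^ y := by
          apply pow_le_pow_left₀ (by norm_num)
          have h3 := Real.exp_one_gt_d9
          have h4 : Real.exp 2 = Real.exp 1 ^ 2 := by rw [← Real.exp_nat_mul]; norm_num
          rw [h4]
          calc (4 : ℝ) ≤ 2.7182818283 ^ 2 := by norm_num
            _ ≤ _ := by gcongr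
      _ = Real.exp (y * 2) := by rw [← Real.exp_nat_mul]
      _ ≤ Real.exp (Real.log L * (1 / 2)) := Real.exp_le_exp.2 (by linarith)
      _ = _ := by rw [Real.rpow_def_of_pos hL0]
  have h5 : (H : ℝ) + Uni.WW y ≤ H * (1 + (L ^ (1 / 2 : ℝ))⁻¹) := by
    rw [mul_add, mul_one]
    linarith
  calc Real.exp (16 * A / Real.log y) ^ ((j + r) * (j + r)) * ((H : ℝ) + Uni.WW y) ^ r * s0 ≤
      Real.exp (16 * A / Real.log y) ^ ((j + r) * (j + r)) * (H * (1 + (L ^ (1 / 2 : ℝ))⁻¹)) ^ r *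
        s0 := by
        apply mul_le_mul_of_nonneg_right _ hsy
        apply mul_le_mul_of_nonneg_left _ (by positivity)
        exact pow_le_pow_left₀ (by positivity) h5 _
    _ = (Real.exp (16 * A / Real.log y) ^ ((j + r) * (j + r)) * (1 + (L ^ (1 / 2 : ℝ))⁻¹) ^ r) *
        ((H : ℝ) ^ r * s0) := by rw [mul_pow]; ring
    _ ≤ ((1 + ε) * (1 - (j : ℝ) ^ 2 / y)) * ((H : ℝ) ^ r * s0) :=
        mul_le_mul_of_nonneg_right h2.le (by positivity)
    _ = (1 + ε) * (H : ℝ) ^ r * ((1 - (j : ℝ) ^ 2 / y) * s0) := by ring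
    _ ≤ _ := mul_le_mul_of_nonneg_left hlo (by positivity)

end Pool.Agent.L0h43.TB
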