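import Pool.Agent.L0h43.TB.One
import Pool.Agent.L0h43.TB.Avg

/-!
# `r` more primes in a window
-/

set_option autoImplicit false

namespace Pool.Agent.L0h43.TB

open Finset Filter Topology Pool.Agent.H387R2
open Pool.Agent.L0h43.TA
open Pool.Agent.H386R2.HL

/-- adding one element to a set -/
lemma sum_ins (X : Finset ℕ) (r : ℕ) (f : Finset ℕ → ℝ) :
    ((r + 1 : ℕ) : ℝ) * ∑ D ∈ X.powersetCard (r + 1), f D =
      ∑ D ∈ X.powersetCard r, ∑ h ∈ X \ D, f (insert h D) := by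
  classical
  have h1 : ((r + 1 : ℕ) : ℝ) * ∑ D ∈ X.powersetCard (r + 1), f D =
      ∑ D ∈ X.powersetCard (r + 1), ∑ _h ∈ D, f D := by
    rw [mul_sum]
    apply sum_congr rfl
    intro D hD
    rw [sum_const, nsmul_eq_mul, (mem_powersetCard.1 hD).2]
  rw [h1, sum_sigma', sum_sigma']
  symm
  refine sum_bij' (fun x _ => ⟨insert x.2 x.1, x.2⟩) (fun y _ => ⟨y.1.erase y.2, y.2⟩) ?_ ?_ ?_ ?_ ?_
  · intro x hx
    rw [mem_sigma, mem_powersetCard, Finset.mem_sdiff] at hx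
    rw [mem_sigma, mem_powersetCard]
    refine ⟨⟨?_, ?_⟩, mem_insert_self _ _⟩
    · intro a ha
      rcases mem_insert.1 ha with rfl | ha
      · exact hx.2.1
      · exact hx.1.1 ha
    · rw [card_insert_of_notMem hx.2.2, hx.1.2]
  · intro y hy
    rw [mem_sigma, mem_powersetCard] at hy
    rw [mem_sigma, mem_powersetCard, Finset.mem_sdiff]
    refine ⟨⟨(erase_subset _ _).trans hy.1.1, ?_⟩, hy.1.1 hy.2, notMem_erase _ _⟩
    rw [card_erase_of_mem hy.2, hy.1.2]
    rfl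
  · intro x hx
    rw [mem_sigma, mem_powersetCard, Finset.mem_sdiff] at hx
    simp only
    rw [erase_insert hx.2.2]
  · intro y hy
    rw [mem_sigma] at hy
    simp only
    rw [insert_erase hy.2]
  · intro x _
    rfl

/-- **`r` more primes in a window, for every set `T` of shifts** -/
theorem more (r : ℕ) : ∀ (j : ℕ) (ε : ℝ), 0 < ε → ∃ K : ℝ, 1 ≤ K ∧ ∀ A : ℝ, 0 ≤ A → ∃ N₀ : ℕ, ∀ N : ℕ, N₀ ≤ N →
    ∀ T : Finset ℕ, T.card = j → (∀ t ∈ T, (t : ℝ) ≤ Real.log N ^ A) → ∀ u H : ℕ, K * Real.log N ≤ H →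
      ((u + H : ℕ) : ℝ) ≤ Real.log N ^ A →
      (r.factorial : ℝ) * ∑ D ∈ (Ioc u (u + H) \ T).powersetCard r, (pc N 1 0 (T ∪ D) : ℝ) ≤
        (4 ^ r + ε) * (H / Real.log N) ^ r * pc N 1 0 T +
          ε * (H / Real.log N) ^ r * (N / Real.log N ^ j * Uni.CT T) := by
  induction r with
  | zero =>
    intro j ε hε
    refine ⟨1, le_rfl, fun A _ => ⟨3, fun N hN T _ _ u H _ _ => ?_⟩⟩
    have h1 := Uni.CT_nonneg T
    have hN3 : (3 : ℝ) ≤ N := by exact_mod_cast hN
    have hL0 : 0 < Real.log N := Real.log_pos (by linarith)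
    simp only [powersetCard_zero, sum_singleton, union_empty, Nat.factorial_zero, Nat.cast_one, pow_zero,
      one_mul, mul_one]
    have h2 : (0 : ℝ) ≤ pc N 1 0 T := Nat.cast_nonneg _
    have h3 : 0 ≤ ε * (N / Real.log N ^ j * Uni.CT T) := by positivity
    have h4 : 0 ≤ ε * pc N 1 0 T := by positivity
    linarith
  | succ r ih =>
    intro j ε hε
    obtain ⟨η, hη⟩ : ∃ η : ℝ, η = min 1 (ε / (7 + 4 ^ r)) := ⟨_, rfl⟩
    have hη0 : 0 < η := by rw [hη]; exact lt_min one_pos (by positivity)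
    have hη1 : η ≤ 1 := by rw [hη]; exact min_le_left _ _
    have hηε : η * (7 + 4 ^ r) ≤ ε := by
      rw [← le_div_iff₀ (by positivity), hη]; exact min_le_right _ _
    obtain ⟨K1, hK1, h1⟩ := one_more (j + r) η hη0
    obtain ⟨K2, hK2, h2⟩ := ih j η hη0
    refine ⟨max K1 K2, hK1.trans (le_max_left _ _), fun A hA => ?_⟩
    obtain ⟨N1, hN1⟩ := h1 A hA
    obtain ⟨N2, hN2⟩ := h2 A hA
    obtain ⟨L₀, hL₀⟩ := avg_up j r 1 A one_pos hA
    have tL : Tendsto (fun N : ℕ => Real.log (N : ℝ)) atTop atTop :=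
      Real.tendsto_log_atTop.comp tendsto_natCast_atTop_atTop
    obtain ⟨N₀, hN₀⟩ := eventually_atTop.1 ((tL.eventually_ge_atTop (max 1 L₀)).and
      (eventually_ge_atTop (max N1 (max N2 3))))
    refine ⟨N₀, fun N hN T hTj hTA u H hKH hHA => ?_⟩
    obtain ⟨l1, l2⟩ := hN₀ N hN
    have hL1 : 1 ≤ Real.log N := (le_max_left _ _).trans l1
    have hLL₀ : L₀ ≤ Real.log N := (le_max_right _ _).trans l1
    have hNN1 : N1 ≤ N := (le_max_left _ _).trans l2
    have hNN2 : N2 ≤ N := (le_max_left _ _).trans ((le_max_right _ _).trans l2)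
    set L := Real.log (N : ℝ) with hL
    have hL0 : 0 < L := by linarith
    have hKH1 : K1 * L ≤ H := (mul_le_mul_of_nonneg_right (le_max_left _ _) hL0.le).trans hKH
    have hKH2 : K2 * L ≤ H := (mul_le_mul_of_nonneg_right (le_max_right _ _) hL0.le).trans hKH
    have hLH : L ≤ H := (le_mul_of_one_le_left hL0.le hK1).trans hKH1
    have hH0 : (0 : ℝ) < H := by linarith
    have hCT := Uni.CT_nonneg T
    have e1 : ((r + 1).factorial : ℝ) * ∑ D ∈ (Ioc u (u + H) \ T).powersetCard (r + 1), (pc N 1 0 (T ∪ D) : ℝ) =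
        (r.factorial : ℝ) * ∑ D ∈ (Ioc u (u + H) \ T).powersetCard r,
          ∑ h ∈ Ioc u (u + H) \ (T ∪ D), (pc N 1 0 (insert h (T ∪ D)) : ℝ) := by
      rw [Nat.factorial_succ, Nat.cast_mul, mul_comm ((r + 1 : ℕ) : ℝ), mul_assoc,
        sum_ins _ r (fun D => (pc N 1 0 (T ∪ D) : ℝ))]
      congr 1
      apply sum_congr rfl
      intro D _
      have e2 : (Ioc u (u + H) \ T) \ D = Ioc u (u + H) \ (T ∪ D) := by
        ext a
        simp only [Finset.mem_sdiff, mem_union]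
        tauto
      rw [e2]
      apply sum_congr rfl
      intro h _
      rw [union_insert]
    rw [e1]
    have h3 : ∀ D ∈ (Ioc u (u + H) \ T).powersetCard r,
        ∑ h ∈ Ioc u (u + H) \ (T ∪ D), (pc N 1 0 (insert h (T ∪ D)) : ℝ) ≤
        (4 + η) * (H / L) * pc N 1 0 (T ∪ D) + η * (H / L) * (N / L ^ (j + r) * Uni.CT (T ∪ D)) := by
      intro D hD
      rw [mem_powersetCard] at hD
      have hdis : Disjoint T D := by
        rw [disjoint_left]
        intro t ht hD2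
        exact (Finset.mem_sdiff.1 (hD.1 hD2)).2 ht
      have hcard : (T ∪ D).card = j + r := by
        rw [card_union_of_disjoint hdis, hD.2, hTj]
      apply hN1 N hNN1 (T ∪ D) hcard _ u H hKH1 hHA
      intro t ht
      rw [mem_union] at ht
      rcases ht with ht | ht
      · exact hTA t ht
      · have h5 : (t : ℝ) ≤ ((u + H : ℕ) : ℝ) := by
          exact_mod_cast (mem_Ioc.1 (Finset.mem_sdiff.1 (hD.1 ht)).1).2
        exact h5.trans hHA
    have h4 := mul_le_mul_of_nonneg_left (sum_le_sum h3) (show (0 : ℝ) ≤ r.factorial by positivity)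
    refine h4.trans ?_
    have h5 := hN2 N hNN2 T hTj hTA u H hKH2 hHA
    have h6 := hL₀ L hLL₀ T hTj hTA u H hLH hHA
    rw [sum_add_distrib, ← mul_sum, ← mul_sum, ← mul_sum]
    set Sp := ∑ D ∈ (Ioc u (u + H) \ T).powersetCard r, (pc N 1 0 (T ∪ D) : ℝ) with hSp
    set Sc := ∑ D ∈ (Ioc u (u + H) \ T).powersetCard r, Uni.CT (T ∪ D) with hSc
    have hP0 : (0 : ℝ) ≤ pc N 1 0 T := Nat.cast_nonneg _
    set E := (N : ℝ) / L ^ j * Uni.CT T with hE
    have hE0 : 0 ≤ E := by positivity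
    have h7 : (4 + η) * (H / L) * ((r.factorial : ℝ) * Sp) ≤ (4 + η) * (H / L) *
        ((4 ^ r + η) * (H / L) ^ r * pc N 1 0 T + η * (H / L) ^ r * E) :=
      mul_le_mul_of_nonneg_left h5 (by positivity)
    have h8 : η * (H / L) * (N / L ^ (j + r)) * ((r.factorial : ℝ) * Sc) ≤
        η * (H / L) * (N / L ^ (j + r)) * ((1 + 1) * (H : ℝ) ^ r * Uni.CT T) :=
      mul_le_mul_of_nonneg_left h6 (by positivity)
    have e3 : (r.factorial : ℝ) * ((4 + η) * (H / L) * Sp + η * (H / L) * (N / L ^ (j + r) * Sc)) =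
        (4 + η) * (H / L) * ((r.factorial : ℝ) * Sp) + η * (H / L) * (N / L ^ (j + r)) * ((r.factorial : ℝ) * Sc) := by
      ring
    rw [e3]
    have e4 : (4 + η) * (H / L) * ((4 ^ r + η) * (H / L) ^ r * pc N 1 0 T + η * (H / L) ^ r * E) +
        η * (H / L) * (N / L ^ (j + r)) * ((1 + 1) * (H : ℝ) ^ r * Uni.CT T) =
        ((4 + η) * (4 ^ r + η)) * ((H / L) ^ (r + 1) * pc N 1 0 T) +
          ((4 + η) * η + 2 * η) * ((H / L) ^ (r + 1) * E) := by
      have e5 : (N : ℝ) / L ^ (j + r) * H ^ r = (H / L) ^ r * (N / L ^ j) := by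
        rw [pow_add, div_pow]
        field_simp
      have e6 : η * (H / L) * (N / L ^ (j + r)) * ((1 + 1) * (H : ℝ) ^ r * Uni.CT T) =
          2 * η * (H / L) * (N / L ^ (j + r) * H ^ r) * Uni.CT T := by ring
      rw [e6, e5, hE]
      ring
    have h4r : (0 : ℝ) < 4 ^ r := by positivity
    have h9 : (4 + η) * (4 ^ r + η) ≤ 4 ^ (r + 1) + ε := by
      have : (4 + η) * (4 ^ r + η) = 4 ^ (r + 1) + (4 * η + 4 ^ r * η + η * η) := by rw [pow_succ]; ring
      rw [this]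
      have : η * η ≤ η * 1 := mul_le_mul_of_nonneg_left hη1 hη0.le
      nlinarith
    have h10 : (4 + η) * η + 2 * η ≤ ε := by
      have : η * η ≤ η * 1 := mul_le_mul_of_nonneg_left hη1 hη0.le
      nlinarith
    have h11 : 0 ≤ ((H : ℝ) / L) ^ (r + 1) * pc N 1 0 T := by positivity
    have h12 : 0 ≤ ((H : ℝ) / L) ^ (r + 1) * E := by positivity
    have h13 := mul_le_mul_of_nonneg_right h9 h11
    have h14 := mul_le_mul_of_nonneg_right h10 h12
    calc (4 + η) * (H / L) * ((r.factorial : ℝ) * Sp) + η * (H / L) * (N / L ^ (j + r)) * ((r.factorial : ℝ) * Sc) ≤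
        (4 + η) * (H / L) * ((4 ^ r + η) * (H / L) ^ r * pc N 1 0 T + η * (H / L) ^ r * E) +
        η * (H / L) * (N / L ^ (j + r)) * ((1 + 1) * (H : ℝ) ^ r * Uni.CT T) := add_le_add h7 h8
      _ = _ := e4
      _ ≤ (4 ^ (r + 1) + ε) * ((H / L) ^ (r + 1) * pc N 1 0 T) + ε * ((H / L) ^ (r + 1) * E) :=
          add_le_add h13 h14
      _ = _ := by ring

end Pool.Agent.L0h43.TB
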