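import Pool.Agent.L0h43.TB.OneV
import Pool.Agent.L0h43.TB.More

/-!
# Real `x`
-/

set_option autoImplicit false

namespace Pool.Agent.L0h43.TB

open Finset Filter Topology Pool.Agent.H387R2
open Pool.Agent.L0h43.TA
open Pool.Agent.H386R2.HL

/-- the number of `1 ≤ m ≤ x` with all `m + t` prime -/
noncomputable def cnt (x : ℝ) (T : Finset ℕ) : ℕ :=
  ((Icc 1 ⌊x⌋₊).filter (fun m => ∀ t ∈ T, (m + t).Prime)).card

open Classical in
/-- the number of `1 ≤ m ≤ x` with all `m + t` prime and more than `X` primes in `m + (u, u + H]` -/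
noncomputable def bad (x : ℝ) (T : Finset ℕ) (u H : ℕ) (X : ℝ) : ℕ :=
  ((Icc 1 ⌊x⌋₊).filter (fun m => (∀ t ∈ T, (m + t).Prime) ∧
    X < (((Ioc u (u + H)).filter (fun h => (m + h).Prime)).card : ℝ))).card

lemma pc_le_cnt (x : ℝ) (T : Finset ℕ) : pc ⌊x⌋₊ 1 0 T ≤ cnt x T := by
  classical
  unfold pc cnt
  apply card_le_card
  intro n hn
  rw [mem_filter, mem_Ioc] at hn
  rw [mem_filter, mem_Icc]
  exact ⟨⟨by omega, hn.1.2⟩, hn.2.2⟩

lemma cnt_le_pc (x : ℝ) (T : Finset ℕ) : cnt x T ≤ pc ⌊x⌋₊ 1 0 T + Nat.sqrt ⌊x⌋₊ := by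
  classical
  have h : (Icc 1 ⌊x⌋₊).filter (fun m => ∀ t ∈ T, (m + t).Prime) ⊆
      (Ioc (Nat.sqrt ⌊x⌋₊) ⌊x⌋₊).filter (fun n => n % 1 = 0 ∧ ∀ t ∈ T, (n + t).Prime) ∪ Icc 1 (Nat.sqrt ⌊x⌋₊) := by
    intro n hn
    rw [mem_filter, mem_Icc] at hn
    rw [mem_union, mem_filter, mem_Ioc, mem_Icc]
    by_cases h1 : n ≤ Nat.sqrt ⌊x⌋₊
    · right; exact ⟨hn.1.1, h1⟩
    · left; exact ⟨⟨by omega, hn.1.2⟩, Nat.mod_one n, hn.2⟩
  have h2 := (card_le_card h).trans (card_union_le _ _)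
  rw [Nat.card_Icc, Nat.add_sub_cancel] at h2
  exact h2

lemma bad_le_BS (x : ℝ) (T : Finset ℕ) (u H : ℕ) (X Y : ℝ) (hXY : Y ≤ X) :
    bad x T u H X ≤ (BS ⌊x⌋₊ T u H Y).card + Nat.sqrt ⌊x⌋₊ := by
  classical
  have h : (Icc 1 ⌊x⌋₊).filter (fun m => (∀ t ∈ T, (m + t).Prime) ∧
      X < (((Ioc u (u + H)).filter (fun h => (m + h).Prime)).card : ℝ)) ⊆
      BS ⌊x⌋₊ T u H Y ∪ Icc 1 (Nat.sqrt ⌊x⌋₊) := by
    intro n hn
    rw [mem_filter, mem_Icc] at hn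
    rw [mem_union, mem_Icc]
    by_cases h1 : n ≤ Nat.sqrt ⌊x⌋₊
    · right; exact ⟨hn.1.1, h1⟩
    · left
      unfold BS
      rw [mem_filter, mem_Ioc]
      exact ⟨⟨by omega, hn.1.2⟩, hn.2.1, lt_of_le_of_lt hXY hn.2.2⟩
  have h2 := (card_le_card h).trans (card_union_le _ _)
  rw [Nat.card_Icc, Nat.add_sub_cancel] at h2
  unfold bad
  refine le_trans (le_of_eq ?_) h2
  congr 1

/-- passing from `⌊x⌋` to `x` -/
lemma ev_real (η A : ℝ) (hη : 0 < η) (hA : 0 ≤ A) (N₀ : ℕ) : ∀ᶠ x : ℝ in atTop, N₀ ≤ ⌊x⌋₊ ∧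
    1 ≤ Real.log (⌊x⌋₊ : ℝ) ∧ Real.log (⌊x⌋₊ : ℝ) ≤ Real.log x ∧ Real.log x ≤ (1 + η) * Real.log (⌊x⌋₊ : ℝ) ∧
    Real.log x ^ A ≤ Real.log (⌊x⌋₊ : ℝ) ^ (A + 1) ∧ (⌊x⌋₊ : ℝ) ≤ x ∧ 1 ≤ x := by
  have tf : Tendsto (fun x : ℝ => ⌊x⌋₊) atTop atTop := tendsto_nat_floor_atTop
  have tlog : Tendsto (fun x : ℝ => Real.log (⌊x⌋₊ : ℝ)) atTop atTop :=
    Real.tendsto_log_atTop.comp (tendsto_natCast_atTop_atTop.comp tf)
  filter_upwards [tf.eventually_ge_atTop N₀, tlog.eventually_ge_atTop (max 1 (max (Real.log 2 / η)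
    (max (2 ^ A) (Real.log 2)))), eventually_ge_atTop (2 : ℝ)] with x h1 h2 h3
  have hL1 : 1 ≤ Real.log (⌊x⌋₊ : ℝ) := (le_max_left _ _).trans h2
  have hL2 : Real.log 2 / η ≤ Real.log (⌊x⌋₊ : ℝ) := ((le_max_left _ _).trans (le_max_right _ _)).trans h2
  have hL3 : (2 : ℝ) ^ A ≤ Real.log (⌊x⌋₊ : ℝ) :=
    ((le_max_left _ _).trans ((le_max_right _ _).trans (le_max_right _ _))).trans h2
  have hL4 : Real.log 2 ≤ Real.log (⌊x⌋₊ : ℝ) :=
    ((le_max_right _ _).trans ((le_max_right _ _).trans (le_max_right _ _))).trans h2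
  have hx0 : (0 : ℝ) < x := by linarith
  have hfl : (⌊x⌋₊ : ℝ) ≤ x := Nat.floor_le hx0.le
  have hfl1 : 1 ≤ ⌊x⌋₊ := Nat.one_le_floor_iff _ |>.2 (by linarith)
  have hfl0 : (0 : ℝ) < (⌊x⌋₊ : ℝ) := by exact_mod_cast hfl1
  have hlog1 : Real.log (⌊x⌋₊ : ℝ) ≤ Real.log x := Real.log_le_log hfl0 hfl
  have hlog2 : Real.log x ≤ Real.log 2 + Real.log (⌊x⌋₊ : ℝ) := by
    rw [← Real.log_mul (by norm_num) hfl0.ne']
    apply Real.log_le_log hx0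
    have h4 : x < (⌊x⌋₊ : ℝ) + 1 := Nat.lt_floor_add_one _
    have h5 : (1 : ℝ) ≤ (⌊x⌋₊ : ℝ) := by exact_mod_cast hfl1
    linarith
  refine ⟨h1, hL1, hlog1, ?_, ?_, hfl, by linarith⟩
  · rw [div_le_iff₀ hη] at hL2
    linarith
  · have h6 : Real.log x ≤ 2 * Real.log (⌊x⌋₊ : ℝ) := by linarith
    have hL0 : 0 < Real.log (⌊x⌋₊ : ℝ) := by linarith
    calc Real.log x ^ A ≤ (2 * Real.log (⌊x⌋₊ : ℝ)) ^ A := Real.rpow_le_rpow (by linarith) h6 hA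
      _ = 2 ^ A * Real.log (⌊x⌋₊ : ℝ) ^ A := Real.mul_rpow (by norm_num) hL0.le
      _ ≤ Real.log (⌊x⌋₊ : ℝ) * Real.log (⌊x⌋₊ : ℝ) ^ A := mul_le_mul_of_nonneg_right hL3 (by positivity)
      _ = _ := by rw [Real.rpow_add hL0, Real.rpow_one, mul_comm]

lemma choose_eta (n : ℕ) (κ : ℝ) (hκ : 0 < κ) (hκ1 : κ ≤ 1) : ∃ η : ℝ, 0 < η ∧ η ≤ 1 ∧ (1 + η) ^ n ≤ 1 + κ := by
  have h2 : (1 : ℝ) ≤ 2 ^ n := one_le_pow₀ (by norm_num)
  refine ⟨κ / 2 ^ n, by positivity, ?_, ?_⟩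
  · rw [div_le_one (by positivity)]; linarith
  · refine (pow_lin n (by positivity) (by rw [div_le_one (by positivity)]; linarith)).trans ?_
    rw [mul_div_cancel₀ _ (by positivity)]

/-- the powers of the logarithm are small -/
lemma ev_small (c : ℝ) (hc : 0 < c) (B : ℝ) : ∀ᶠ x : ℝ in atTop, Real.log x ^ B ≤ c * x ^ (1 / 2 : ℝ) := by
  have h := (isLittleO_log_rpow_rpow_atTop B (s := 1 / 2) (by norm_num)).def hc
  filter_upwards [h, Real.tendsto_log_atTop.eventually_ge_atTop 0, eventually_ge_atTop 0] with x h1 h2 h3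
  rw [Real.norm_of_nonneg (by positivity), Real.norm_of_nonneg (by positivity)] at h1
  exact h1

theorem U_more (k r : ℕ) (ε : ℝ) (hε : 0 < ε) : ∃ K : ℝ, 1 ≤ K ∧ ∀ A : ℝ, 0 ≤ A → ∀ᶠ x : ℝ in atTop,
    ∀ T : Finset ℕ, T.card = k → (∀ t ∈ T, (t : ℝ) ≤ Real.log x ^ A) → ∀ u H : ℕ, K * Real.log x ≤ H →
      ((u + H : ℕ) : ℝ) ≤ Real.log x ^ A →
      (r.factorial : ℝ) * ∑ D ∈ (Ioc u (u + H) \ T).powersetCard r, (cnt x (T ∪ D) : ℝ) ≤
        (4 ^ r + ε) * (H / Real.log x) ^ r * cnt x T +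
          ε * (H / Real.log x) ^ r * ((Uni.CT T + 1) * (x / Real.log x ^ k)) := by
  obtain ⟨ε', hε'⟩ : ∃ ε' : ℝ, ε' = min 1 (ε / 4) := ⟨_, rfl⟩
  have hε'0 : 0 < ε' := by rw [hε']; exact lt_min one_pos (by positivity)
  have hε'1 : ε' ≤ 1 := by rw [hε']; exact min_le_left _ _
  have hε'ε : ε' ≤ ε / 4 := by rw [hε']; exact min_le_right _ _
  have h4r : (1 : ℝ) ≤ 4 ^ r := one_le_pow₀ (by norm_num)
  obtain ⟨κ, hκ⟩ : ∃ κ : ℝ, κ = min 1 (ε / (2 * (4 ^ r + 1))) := ⟨_, rfl⟩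
  have hκ0 : 0 < κ := by rw [hκ]; exact lt_min one_pos (by positivity)
  have hκ1 : κ ≤ 1 := by rw [hκ]; exact min_le_left _ _
  have hκε : κ * (2 * (4 ^ r + 1)) ≤ ε := by
    rw [← le_div_iff₀ (by positivity), hκ]; exact min_le_right _ _
  obtain ⟨η, hη0, hη1, hη⟩ := choose_eta (k + r) κ hκ0 hκ1
  obtain ⟨K, hK, H0⟩ := more r k ε' hε'0
  refine ⟨K, hK, fun A hA => ?_⟩
  obtain ⟨N₀, hN₀⟩ := H0 (A + 1) (by linarith)
  filter_upwards [ev_real η A hη0 hA N₀, ev_small (ε / 2) (by positivity) ((k + r : ℕ) : ℝ)] with x h1 h2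
  obtain ⟨a1, a2, a3, a4, a5, a6, a7⟩ := h1
  intro T hTk hTA u H hKH hHA
  obtain ⟨N, hN⟩ : ∃ N, N = ⌊x⌋₊ := ⟨_, rfl⟩
  rw [← hN] at a1 a2 a3 a4 a5 a6
  set L := Real.log (N : ℝ) with hL
  set l := Real.log x with hl
  have hL0 : 0 < L := by linarith
  have hl0 : 0 < l := by linarith
  have hx0 : 0 < x := by linarith
  have hKL : K * L ≤ H := (mul_le_mul_of_nonneg_left a3 (by linarith)).trans hKH
  have hmain := hN₀ N a1 T hTk (fun t ht => (hTA t ht).trans a5) u H hKL (hHA.trans a5)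
  rw [← hL] at hmain
  have hH0 : (0 : ℝ) < H := lt_of_lt_of_le (by positivity) hKL
  have hCT := Uni.CT_nonneg T
  have h1η : (1 : ℝ) ≤ 1 + η := by linarith
  have hq : (H : ℝ) / L ≤ (1 + η) * (H / l) := by
    rw [mul_div_assoc', div_le_div_iff₀ hL0 hl0]
    calc (H : ℝ) * l ≤ H * ((1 + η) * L) := mul_le_mul_of_nonneg_left a4 hH0.le
      _ = _ := by ring
  have hqr : ((H : ℝ) / L) ^ r ≤ (1 + η) ^ r * (H / l) ^ r := by
    rw [← mul_pow]; exact pow_le_pow_left₀ (by positivity) hq r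
  have hxk : (N : ℝ) / L ^ k ≤ (1 + η) ^ k * (x / l ^ k) := by
    rw [mul_div_assoc', div_le_div_iff₀ (by positivity) (by positivity)]
    have : l ^ k ≤ ((1 + η) * L) ^ k := pow_le_pow_left₀ hl0.le a4 k
    calc (N : ℝ) * l ^ k ≤ x * ((1 + η) * L) ^ k := mul_le_mul a6 this (by positivity) hx0.le
      _ = _ := by rw [mul_pow]; ring
  have hηr : (1 + η) ^ r ≤ 1 + κ := (pow_le_pow_right₀ h1η (by omega)).trans hη
  have hcT : (pc N 1 0 T : ℝ) ≤ cnt x T := by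
    rw [hN]; exact_mod_cast pc_le_cnt x T
  have hcT0 : (0 : ℝ) ≤ cnt x T := Nat.cast_nonneg _
  -- the left side
  have hleft : (r.factorial : ℝ) * ∑ D ∈ (Ioc u (u + H) \ T).powersetCard r, (cnt x (T ∪ D) : ℝ) ≤
      (r.factorial : ℝ) * ∑ D ∈ (Ioc u (u + H) \ T).powersetCard r, (pc N 1 0 (T ∪ D) : ℝ) +
        (H : ℝ) ^ r * x ^ (1 / 2 : ℝ) := by
    have h3 : ∀ D ∈ (Ioc u (u + H) \ T).powersetCard r, (cnt x (T ∪ D) : ℝ) ≤ (pc N 1 0 (T ∪ D) : ℝ) +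
        x ^ (1 / 2 : ℝ) := by
      intro D _
      have h4 := cnt_le_pc x (T ∪ D)
      rw [← hN] at h4
      have h5 : (cnt x (T ∪ D) : ℝ) ≤ (pc N 1 0 (T ∪ D) : ℝ) + (Nat.sqrt N : ℝ) := by exact_mod_cast h4
      have h6 : (Nat.sqrt N : ℝ) ≤ x ^ (1 / 2 : ℝ) := by
        rw [← Real.sqrt_eq_rpow]
        refine (Real.nat_sqrt_le_real_sqrt).trans (Real.sqrt_le_sqrt a6)
      linarith
    have h7 := mul_le_mul_of_nonneg_left (sum_le_sum h3) (show (0 : ℝ) ≤ r.factorial by positivity)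
    refine h7.trans ?_
    rw [sum_add_distrib, sum_const, nsmul_eq_mul, mul_add, ← mul_assoc]
    apply add_le_add le_rfl
    apply mul_le_mul_of_nonneg_right _ (by positivity)
    rw [card_powersetCard]
    refine (choose_le_pow' _ r).trans (pow_le_pow_left₀ (Nat.cast_nonneg _) ?_ r)
    have h8 : (Ioc u (u + H) \ T).card ≤ H := by
      refine (card_le_card sdiff_subset).trans ?_
      rw [Nat.card_Ioc]; omega
    exact_mod_cast h8
  refine hleft.trans ?_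
  have hsq : (H : ℝ) ^ r * x ^ (1 / 2 : ℝ) ≤ ε / 2 * (H / l) ^ r * (x / l ^ k) := by
    rw [Real.rpow_natCast] at h2
    have h3 : l ^ (k + r) * x ^ (1 / 2 : ℝ) ≤ ε / 2 * x := by
      calc l ^ (k + r) * x ^ (1 / 2 : ℝ) ≤ (ε / 2 * x ^ (1 / 2 : ℝ)) * x ^ (1 / 2 : ℝ) :=
            mul_le_mul_of_nonneg_right h2 (by positivity)
        _ = ε / 2 * (x ^ (1 / 2 : ℝ) * x ^ (1 / 2 : ℝ)) := by ring
        _ = ε / 2 * x := by
            rw [← Real.rpow_add hx0]; norm_num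
    have e : ε / 2 * (H / l) ^ r * (x / l ^ k) = (H : ℝ) ^ r * (ε / 2 * x) / l ^ (k + r) := by
      rw [div_pow, pow_add]
      field_simp
    rw [e, le_div_iff₀ (by positivity)]
    calc (H : ℝ) ^ r * x ^ (1 / 2 : ℝ) * l ^ (k + r) = (H : ℝ) ^ r * (l ^ (k + r) * x ^ (1 / 2 : ℝ)) := by ring
      _ ≤ _ := mul_le_mul_of_nonneg_left h3 (by positivity)
  have h5 : (4 ^ r + ε') * (H / L) ^ r * pc N 1 0 T ≤ (4 ^ r + ε) * (H / l) ^ r * cnt x T := by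
    have h6 : (4 ^ r + ε') * (H / L) ^ r ≤ (4 ^ r + ε) * (H / l) ^ r := by
      calc (4 ^ r + ε') * (H / L) ^ r ≤ (4 ^ r + ε') * ((1 + κ) * (H / l) ^ r) := by
            apply mul_le_mul_of_nonneg_left _ (by positivity)
            exact hqr.trans (mul_le_mul_of_nonneg_right hηr (by positivity))
        _ = ((4 ^ r + ε') * (1 + κ)) * (H / l) ^ r := by ring
        _ ≤ _ := by
            apply mul_le_mul_of_nonneg_right _ (by positivity)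
            nlinarith
    exact mul_le_mul h6 hcT (Nat.cast_nonneg _) (by positivity)
  have h6 : ε' * (H / L) ^ r * (N / L ^ k * Uni.CT T) ≤ ε / 2 * (H / l) ^ r * (Uni.CT T * (x / l ^ k)) := by
    have h7 : ((H : ℝ) / L) ^ r * (N / L ^ k) ≤ (1 + κ) * ((H / l) ^ r * (x / l ^ k)) := by
      calc ((H : ℝ) / L) ^ r * (N / L ^ k) ≤ ((1 + η) ^ r * (H / l) ^ r) * ((1 + η) ^ k * (x / l ^ k)) :=
            mul_le_mul hqr hxk (by positivity) (by positivity)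
        _ = (1 + η) ^ (k + r) * ((H / l) ^ r * (x / l ^ k)) := by rw [pow_add]; ring
        _ ≤ _ := mul_le_mul_of_nonneg_right hη (by positivity)
    have h8 : ε' * (1 + κ) ≤ ε / 2 := by nlinarith
    calc ε' * (H / L) ^ r * (N / L ^ k * Uni.CT T) = (ε' * Uni.CT T) * ((H / L) ^ r * (N / L ^ k)) := by ring
      _ ≤ (ε' * Uni.CT T) * ((1 + κ) * ((H / l) ^ r * (x / l ^ k))) := mul_le_mul_of_nonneg_left h7 (by positivity)
      _ = (ε' * (1 + κ)) * ((H / l) ^ r * (Uni.CT T * (x / l ^ k))) := by ring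
      _ ≤ ε / 2 * ((H / l) ^ r * (Uni.CT T * (x / l ^ k))) := mul_le_mul_of_nonneg_right h8 (by positivity)
      _ = _ := by ring
  have h7 : 0 ≤ ((H : ℝ) / l) ^ r * (x / l ^ k) := by positivity
  have h8 : 0 ≤ ((H : ℝ) / l) ^ r * (Uni.CT T * (x / l ^ k)) := by positivity
  have e9 : ε * (H / l) ^ r * ((Uni.CT T + 1) * (x / l ^ k)) =
      ε * ((H / l) ^ r * (Uni.CT T * (x / l ^ k))) + ε * ((H / l) ^ r * (x / l ^ k)) := by ring
  rw [e9]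
  have e10 : ε / 2 * (H / l) ^ r * (x / l ^ k) = ε / 2 * ((H / l) ^ r * (x / l ^ k)) := by ring
  have e11 : ε / 2 * (H / l) ^ r * (Uni.CT T * (x / l ^ k)) = ε / 2 * ((H / l) ^ r * (Uni.CT T * (x / l ^ k))) := by
    ring
  rw [e10] at hsq
  rw [e11] at h6
  have h12 : 0 ≤ ε * ((H / l) ^ r * (x / l ^ k)) := by positivity
  have h13 : 0 ≤ ε * ((H / l) ^ r * (Uni.CT T * (x / l ^ k))) := by positivity
  linarith

theorem U_ae (k : ℕ) (ε : ℝ) (hε : 0 < ε) : ∃ K : ℝ, 1 ≤ K ∧ ∀ A : ℝ, 0 ≤ A → ∀ᶠ x : ℝ in atTop,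
    ∀ T : Finset ℕ, T.card = k → (∀ t ∈ T, (t : ℝ) ≤ Real.log x ^ A) → ∀ u H : ℕ, K * Real.log x ≤ H →
      ((u + H : ℕ) : ℝ) ≤ Real.log x ^ A →
      (bad x T u H ((4 + ε) * (H / Real.log x)) : ℝ) ≤ ε * ((Uni.CT T + 1) * (x / Real.log x ^ k)) := by
  obtain ⟨ε', hε'⟩ : ∃ ε' : ℝ, ε' = min 1 (ε / 4) := ⟨_, rfl⟩
  have hε'0 : 0 < ε' := by rw [hε']; exact lt_min one_pos (by positivity)
  have hε'1 : ε' ≤ 1 := by rw [hε']; exact min_le_left _ _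
  have hε'ε : ε' ≤ ε / 4 := by rw [hε']; exact min_le_right _ _
  obtain ⟨κ, hκ⟩ : ∃ κ : ℝ, κ = min 1 (ε / 10) := ⟨_, rfl⟩
  have hκ0 : 0 < κ := by rw [hκ]; exact lt_min one_pos (by positivity)
  have hκ1 : κ ≤ 1 := by rw [hκ]; exact min_le_left _ _
  have hκε : κ ≤ ε / 10 := by rw [hκ]; exact min_le_right _ _
  obtain ⟨η, hη0, hη1, hη⟩ := choose_eta (k + 1) κ hκ0 hκ1
  obtain ⟨K, hK, H0⟩ := one_ae k ε' hε'0
  refine ⟨K, hK, fun A hA => ?_⟩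
  obtain ⟨N₀, hN₀⟩ := H0 (A + 1) (by linarith)
  filter_upwards [ev_real η A hη0 hA N₀, ev_small (ε / 2) (by positivity) ((k : ℕ) : ℝ)] with x h1 h2
  obtain ⟨a1, a2, a3, a4, a5, a6, a7⟩ := h1
  intro T hTk hTA u H hKH hHA
  obtain ⟨N, hN⟩ : ∃ N, N = ⌊x⌋₊ := ⟨_, rfl⟩
  rw [← hN] at a1 a2 a3 a4 a5 a6
  set L := Real.log (N : ℝ) with hL
  set l := Real.log x with hl
  have hL0 : 0 < L := by linarith
  have hl0 : 0 < l := by linarith
  have hx0 : 0 < x := by linarith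
  have hKL : K * L ≤ H := (mul_le_mul_of_nonneg_left a3 (by linarith)).trans hKH
  have hmain := hN₀ N a1 T hTk (fun t ht => (hTA t ht).trans a5) u H hKL (hHA.trans a5)
  rw [← hL] at hmain
  have hH0 : (0 : ℝ) < H := lt_of_lt_of_le (by positivity) hKL
  have hCT := Uni.CT_nonneg T
  have h1η : (1 : ℝ) ≤ 1 + η := by linarith
  have hq : (H : ℝ) / L ≤ (1 + η) * (H / l) := by
    rw [mul_div_assoc', div_le_div_iff₀ hL0 hl0]
    calc (H : ℝ) * l ≤ H * ((1 + η) * L) := mul_le_mul_of_nonneg_left a4 hH0.le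
      _ = _ := by ring
  have hxk : (N : ℝ) / L ^ k ≤ (1 + η) ^ k * (x / l ^ k) := by
    rw [mul_div_assoc', div_le_div_iff₀ (by positivity) (by positivity)]
    have : l ^ k ≤ ((1 + η) * L) ^ k := pow_le_pow_left₀ hl0.le a4 k
    calc (N : ℝ) * l ^ k ≤ x * ((1 + η) * L) ^ k := mul_le_mul a6 this (by positivity) hx0.le
      _ = _ := by rw [mul_pow]; ring
  have hηk : (1 + η) ^ k ≤ 1 + κ := (pow_le_pow_right₀ h1η (by omega)).trans hη
  have hη1' : 1 + η ≤ 1 + κ := by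
    have := (pow_le_pow_right₀ h1η (show 1 ≤ k + 1 by omega)).trans hη
    rwa [pow_one] at this
  have hthr : (4 + ε') * ((H : ℝ) / L) ≤ (4 + ε) * (H / l) := by
    calc (4 + ε') * ((H : ℝ) / L) ≤ (4 + ε') * ((1 + κ) * (H / l)) := by
          apply mul_le_mul_of_nonneg_left _ (by positivity)
          exact hq.trans (mul_le_mul_of_nonneg_right hη1' (by positivity))
      _ = ((4 + ε') * (1 + κ)) * (H / l) := by ring
      _ ≤ _ := by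
          apply mul_le_mul_of_nonneg_right _ (by positivity)
          nlinarith
  have h3 := bad_le_BS x T u H _ _ hthr
  rw [← hN] at h3
  have h4 : (bad x T u H ((4 + ε) * (H / l)) : ℝ) ≤
      ((BS N T u H ((4 + ε') * (H / L))).card : ℝ) + (Nat.sqrt N : ℝ) := by exact_mod_cast h3
  refine h4.trans ?_
  have h6 : (Nat.sqrt N : ℝ) ≤ x ^ (1 / 2 : ℝ) := by
    rw [← Real.sqrt_eq_rpow]
    refine (Real.nat_sqrt_le_real_sqrt).trans (Real.sqrt_le_sqrt a6)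
  have hsq : x ^ (1 / 2 : ℝ) ≤ ε / 2 * (x / l ^ k) := by
    rw [Real.rpow_natCast] at h2
    rw [mul_div_assoc', le_div_iff₀ (by positivity)]
    calc x ^ (1 / 2 : ℝ) * l ^ k ≤ x ^ (1 / 2 : ℝ) * (ε / 2 * x ^ (1 / 2 : ℝ)) :=
          mul_le_mul_of_nonneg_left h2 (by positivity)
      _ = ε / 2 * (x ^ (1 / 2 : ℝ) * x ^ (1 / 2 : ℝ)) := by ring
      _ = ε / 2 * x := by
          rw [← Real.rpow_add hx0]; norm_num
  have h7 : ε' * (N / L ^ k * Uni.CT T) ≤ ε / 2 * (Uni.CT T * (x / l ^ k)) := by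
    have h8 : ε' * (1 + κ) ≤ ε / 2 := by nlinarith
    calc ε' * (N / L ^ k * Uni.CT T) = (ε' * Uni.CT T) * (N / L ^ k) := by ring
      _ ≤ (ε' * Uni.CT T) * ((1 + κ) * (x / l ^ k)) := by
          apply mul_le_mul_of_nonneg_left _ (by positivity)
          exact hxk.trans (mul_le_mul_of_nonneg_right hηk (by positivity))
      _ = (ε' * (1 + κ)) * (Uni.CT T * (x / l ^ k)) := by ring
      _ ≤ _ := mul_le_mul_of_nonneg_right h8 (by positivity)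
  have h9 : 0 ≤ x / l ^ k := by positivity
  have h10 : 0 ≤ Uni.CT T * (x / l ^ k) := by positivity
  have e9 : ε * ((Uni.CT T + 1) * (x / l ^ k)) = ε * (Uni.CT T * (x / l ^ k)) + ε * (x / l ^ k) := by ring
  rw [e9]
  have h12 : 0 ≤ ε * (x / l ^ k) := by positivity
  have h13 : 0 ≤ ε * (Uni.CT T * (x / l ^ k)) := by positivity
  linarith

end Pool.Agent.L0h43.TB
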