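import Pool.Agent.L0h43.TB.Ind2
import Pool.Agent.L0h43.TB.Fin

/-!
# Almost all sets of shifts
-/

set_option autoImplicit false

namespace Pool.Agent.L0h43.TB

open Finset Filter Topology Pool.Agent.H387R2
open Pool.Agent.L0h43.TA
open Pool.Agent.H386R2.HL

theorem W_all (k : ℕ) (ε : ℝ) (hε : 0 < ε) : ∃ K : ℝ, 1 ≤ K ∧ ∀ A : ℝ, 0 ≤ A → ∀ᶠ x : ℝ in atTop,
    ∀ u H : ℕ, K * Real.log x ≤ H → ((u + H : ℕ) : ℝ) ≤ Real.log x ^ A → ∀ g : Finset ℕ → ℝ,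
      (∀ D, 0 ≤ g D) → (∀ D, g D ≤ 1) →
      ∑ D ∈ (Ioc u (u + H)).powersetCard k, g D * (cnt x (insert 0 D) : ℝ) ≤
        (4 ^ k * ∑ D ∈ (Ioc u (u + H)).powersetCard k, g D * Uni.CT (insert 0 D) + ε * (H : ℝ) ^ k) *
          (x / Real.log x ^ (k + 1)) := by
  have h4k : (1 : ℝ) ≤ 4 ^ k := one_le_pow₀ (by norm_num)
  obtain ⟨κ, hκ⟩ : ∃ κ : ℝ, κ = min 1 (ε / (8 * 4 ^ k)) := ⟨_, rfl⟩
  have hκ0 : 0 < κ := by rw [hκ]; exact lt_min one_pos (by positivity)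
  have hκ1 : κ ≤ 1 := by rw [hκ]; exact min_le_left _ _
  have hκε : κ * (8 * 4 ^ k) ≤ ε := by
    rw [← le_div_iff₀ (by positivity), hκ]; exact min_le_right _ _
  obtain ⟨η, hη0, hη1, hη⟩ := choose_eta (k + 1) κ hκ0 hκ1
  obtain ⟨K, hK, H0⟩ := claim k (ε / 8) (by positivity) 0
  refine ⟨K, hK, fun A hA => ?_⟩
  obtain ⟨N₀, hN₀⟩ := H0 (A + 1) (by linarith)
  obtain ⟨L₀, hL₀⟩ := avg0 k A hA
  filter_upwards [ev_real η A hη0 hA (max N₀ 3), ev_small (ε / 2) (by positivity) ((k + 1 : ℕ) : ℝ),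
    Real.tendsto_log_atTop.eventually_ge_atTop L₀] with x h1 h2 hlL₀
  obtain ⟨a1, a2, a3, a4, a5, a6, a7⟩ := h1
  intro u H hKH hHA g hg0 hg1
  obtain ⟨N, hN⟩ : ∃ N, N = ⌊x⌋₊ := ⟨_, rfl⟩
  rw [← hN] at a1 a2 a3 a4 a5 a6
  set L := Real.log (N : ℝ) with hL
  set l := Real.log x with hl
  have hL0 : 0 < L := by linarith
  have hl0 : 0 < l := by linarith
  have hx0 : 0 < x := by linarith
  have hKL : K * L ≤ H := (mul_le_mul_of_nonneg_left a3 (by linarith)).trans hKH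
  have hlH : l ≤ H := (le_mul_of_one_le_left hl0.le hK).trans hKH
  have hN3 : 3 ≤ N := (le_max_right _ _).trans a1
  have hmain := hN₀ N ((le_max_left _ _).trans a1) 0 (Uni.WW_pos 0) u H hKL (hHA.trans a5) g hg0 hg1
  rw [← hL, WW_zero] at hmain
  have hH0 : (0 : ℝ) < H := lt_of_lt_of_le (by positivity) hKL
  have h1η : (1 : ℝ) ≤ 1 + η := by linarith
  obtain ⟨S, hS⟩ : ∃ S, S = (Ioc u (u + H)).powersetCard k := ⟨_, rfl⟩
  have e1 : ((Ioc u (u + H)).powersetCard k).filter (fun D => OK 1 0 (insert 0 D)) = S := by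
    rw [hS]
    apply filter_true_of_mem
    intro D _
    exact OK_one _ _
  rw [e1] at hmain
  have hsum := hL₀ l hlL₀ u H hlH hHA
  rw [← hS] at hsum ⊢
  have hxk : (N : ℝ) / L ^ (k + 1) ≤ (1 + κ) * (x / l ^ (k + 1)) := by
    have h3 : (N : ℝ) / L ^ (k + 1) ≤ (1 + η) ^ (k + 1) * (x / l ^ (k + 1)) := by
      rw [mul_div_assoc', div_le_div_iff₀ (by positivity) (by positivity)]
      have : l ^ (k + 1) ≤ ((1 + η) * L) ^ (k + 1) := pow_le_pow_left₀ hl0.le a4 _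
      calc (N : ℝ) * l ^ (k + 1) ≤ x * ((1 + η) * L) ^ (k + 1) := mul_le_mul a6 this (by positivity) hx0.le
        _ = _ := by rw [mul_pow]; ring
    exact h3.trans (mul_le_mul_of_nonneg_right hη (by positivity))
  have hEw : ∀ D ∈ S, Ew N 1 (insert 0 D) = N / L ^ (k + 1) * Uni.CT (insert 0 D) := by
    intro D hD
    rw [hS] at hD
    unfold Ew
    rw [gT_one, card_ins0 hD, ← hL, Nat.cast_one, div_one]
  have e2 : ∑ D ∈ S, g D * Ew N 1 (insert 0 D) = N / L ^ (k + 1) * ∑ D ∈ S, g D * Uni.CT (insert 0 D) := by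
    rw [mul_sum]
    apply sum_congr rfl
    intro D hD
    rw [hEw D hD]; ring
  rw [e2] at hmain
  obtain ⟨G, hG⟩ : ∃ G, G = ∑ D ∈ S, g D * Uni.CT (insert 0 D) := ⟨_, rfl⟩
  rw [← hG] at hmain ⊢
  have hG0 : 0 ≤ G := by rw [hG]; exact sum_nonneg fun D _ => mul_nonneg (hg0 D) (Uni.CT_nonneg _)
  have hG2 : G ≤ 2 * (H : ℝ) ^ k := by
    rw [hG]
    refine le_trans (sum_le_sum fun D _ => ?_) hsum
    exact mul_le_of_le_one_left (Uni.CT_nonneg _) (hg1 D)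
  have hleft : ∑ D ∈ S, g D * (cnt x (insert 0 D) : ℝ) ≤
      ∑ D ∈ S, g D * (pc N 1 0 (insert 0 D) : ℝ) + (H : ℝ) ^ k * x ^ (1 / 2 : ℝ) := by
    have h3 : ∀ D ∈ S, g D * (cnt x (insert 0 D) : ℝ) ≤ g D * (pc N 1 0 (insert 0 D) : ℝ) +
        x ^ (1 / 2 : ℝ) := by
      intro D _
      have h4 := cnt_le_pc x (insert 0 D)
      rw [← hN] at h4
      have h5 : (cnt x (insert 0 D) : ℝ) ≤ (pc N 1 0 (insert 0 D) : ℝ) + (Nat.sqrt N : ℝ) := by exact_mod_cast h4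
      have h6 : (Nat.sqrt N : ℝ) ≤ x ^ (1 / 2 : ℝ) := by
        rw [← Real.sqrt_eq_rpow]
        refine (Real.nat_sqrt_le_real_sqrt).trans (Real.sqrt_le_sqrt a6)
      have h7 := mul_le_mul_of_nonneg_left (h5.trans (add_le_add le_rfl h6)) (hg0 D)
      rw [mul_add] at h7
      have h8 : g D * x ^ (1 / 2 : ℝ) ≤ x ^ (1 / 2 : ℝ) := mul_le_of_le_one_left (by positivity) (hg1 D)
      linarith
    refine (sum_le_sum h3).trans ?_
    rw [sum_add_distrib, sum_const, nsmul_eq_mul]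
    apply add_le_add le_rfl
    apply mul_le_mul_of_nonneg_right _ (by positivity)
    rw [hS, card_powersetCard, Nat.card_Ioc, Nat.add_sub_cancel_left]
    have h9 := choose_le_pow' H k
    have h10 : (1 : ℝ) ≤ k.factorial := by exact_mod_cast k.factorial_pos
    have h11 : (0 : ℝ) ≤ (H.choose k : ℝ) := Nat.cast_nonneg _
    have h12 := mul_le_mul_of_nonneg_right h10 h11
    rw [one_mul] at h12
    exact h12.trans h9
  refine hleft.trans ?_
  have hsq : (H : ℝ) ^ k * x ^ (1 / 2 : ℝ) ≤ ε / 2 * ((H : ℝ) ^ k * (x / l ^ (k + 1))) := by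
    rw [Real.rpow_natCast] at h2
    have h3 : x ^ (1 / 2 : ℝ) ≤ ε / 2 * (x / l ^ (k + 1)) := by
      rw [mul_div_assoc', le_div_iff₀ (by positivity)]
      calc x ^ (1 / 2 : ℝ) * l ^ (k + 1) ≤ x ^ (1 / 2 : ℝ) * (ε / 2 * x ^ (1 / 2 : ℝ)) :=
            mul_le_mul_of_nonneg_left h2 (by positivity)
        _ = ε / 2 * (x ^ (1 / 2 : ℝ) * x ^ (1 / 2 : ℝ)) := by ring
        _ = ε / 2 * x := by
            rw [← Real.rpow_add hx0]; norm_num
    calc (H : ℝ) ^ k * x ^ (1 / 2 : ℝ) ≤ (H : ℝ) ^ k * (ε / 2 * (x / l ^ (k + 1))) :=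
          mul_le_mul_of_nonneg_left h3 (by positivity)
      _ = _ := by ring
  obtain ⟨P, hP⟩ : ∃ P, P = x / l ^ (k + 1) := ⟨_, rfl⟩
  rw [← hP] at hsq hxk ⊢
  have hP0 : 0 ≤ P := by rw [hP]; positivity
  have h5 : 4 ^ k * (N / L ^ (k + 1) * G) ≤ 4 ^ k * G * P + ε / 4 * ((H : ℝ) ^ k * P) := by
    calc 4 ^ k * (N / L ^ (k + 1) * G) ≤ 4 ^ k * (((1 + κ) * P) * G) := by
          apply mul_le_mul_of_nonneg_left _ (by positivity)
          exact mul_le_mul_of_nonneg_right hxk hG0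
      _ = 4 ^ k * G * P + (κ * 4 ^ k) * (G * P) := by ring
      _ ≤ 4 ^ k * G * P + (κ * 4 ^ k) * ((2 * (H : ℝ) ^ k) * P) := by
          apply add_le_add le_rfl
          apply mul_le_mul_of_nonneg_left _ (by positivity)
          exact mul_le_mul_of_nonneg_right hG2 hP0
      _ = 4 ^ k * G * P + (κ * (8 * 4 ^ k)) / 4 * ((H : ℝ) ^ k * P) := by ring
      _ ≤ _ := by
          apply add_le_add le_rfl
          apply mul_le_mul_of_nonneg_right _ (by positivity)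
          exact div_le_div_of_nonneg_right hκε (by norm_num)
  have h6 : ε / 8 * ((H : ℝ) ^ k * (N / L ^ (k + 1))) ≤ ε / 4 * ((H : ℝ) ^ k * P) := by
    calc ε / 8 * ((H : ℝ) ^ k * (N / L ^ (k + 1))) ≤ ε / 8 * ((H : ℝ) ^ k * (2 * P)) := by
          apply mul_le_mul_of_nonneg_left _ (by positivity)
          apply mul_le_mul_of_nonneg_left _ (by positivity)
          refine hxk.trans ?_
          exact mul_le_mul_of_nonneg_right (by linarith) hP0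
      _ = _ := by ring
  have e3 : (4 ^ k * G + ε * (H : ℝ) ^ k) * P = 4 ^ k * G * P + ε * ((H : ℝ) ^ k * P) := by ring
  rw [e3]
  linarith

lemma CT_zero_of {T : Finset ℕ} {p : Nat.Primes} (h : Uni.locT T p = 0) : Uni.CT T = 0 :=
  (Uni.CT_hasProd T).unique (hasProd_zero_of_exists_eq_zero ⟨p, h⟩)

/-- positive singular series are bounded below -/
lemma CT_pos_low (n : ℕ) : ∃ c : ℝ, 0 < c ∧ ∀ T : Finset ℕ, T.card = n → Uni.CT T ≠ 0 → c ≤ Uni.CT T := by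
  obtain ⟨w, hw⟩ : ∃ w, w = 2 * n ^ 2 + 1 := ⟨_, rfl⟩
  refine ⟨1 / (2 * (Uni.WW w : ℝ)), by have := Uni.WW_pos w; positivity, ?_⟩
  intro T hT hCT
  have hg : 0 < Uni.gT (Uni.WW w) T := by
    rw [Nat.pos_iff_ne_zero]
    intro h0
    apply hCT
    have h := Uni.sy_en T w
    rw [h0, Nat.cast_zero, zero_div, mul_zero] at h
    unfold sy at h
    rw [prod_eq_zero_iff] at h
    obtain ⟨p, hp, hp0⟩ := h
    rw [Uni.loc_en] at hp0
    exact CT_zero_of (p := ⟨p, Nat.prime_of_mem_primesBelow hp⟩) hp0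
  have h1 := CT_low T (w := w) (by omega) (by rw [hT]; omega) hg
  refine h1.trans ?_
  apply div_le_self (Uni.CT_nonneg T)
  exact_mod_cast hg

lemma pow_le_choose (k H : ℕ) (h : 2 * k ≤ H) : (H : ℝ) ^ k ≤ 2 ^ k * k.factorial * (H.choose k : ℝ) := by
  have h1 := Nat.pow_sub_le_descFactorial H k
  rw [Nat.descFactorial_eq_factorial_mul_choose] at h1
  have h2 : (H : ℝ) ≤ 2 * ((H + 1 - k : ℕ) : ℝ) := by
    have : H ≤ 2 * (H + 1 - k) := by omega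
    exact_mod_cast this
  calc (H : ℝ) ^ k ≤ (2 * ((H + 1 - k : ℕ) : ℝ)) ^ k := pow_le_pow_left₀ (Nat.cast_nonneg _) h2 k
    _ = 2 ^ k * ((H + 1 - k : ℕ) : ℝ) ^ k := mul_pow _ _ _
    _ ≤ 2 ^ k * ((k.factorial * H.choose k : ℕ) : ℝ) := by
        apply mul_le_mul_of_nonneg_left _ (by positivity)
        exact_mod_cast h1
    _ = _ := by push_cast; ring

open Classical in
theorem AE_all (k : ℕ) (ε : ℝ) (hε : 0 < ε) : ∃ K : ℝ, 1 ≤ K ∧ ∀ A : ℝ, 0 ≤ A → ∀ᶠ x : ℝ in atTop,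
    ∀ u H : ℕ, K * Real.log x ≤ H → ((u + H : ℕ) : ℝ) ≤ Real.log x ^ A →
      ((((Ioc u (u + H)).powersetCard k).filter (fun D => Uni.CT (insert 0 D) ≠ 0 ∧
        (4 ^ k + ε) * Uni.CT (insert 0 D) * (x / Real.log x ^ (k + 1)) < (cnt x (insert 0 D) : ℝ))).card : ℝ) ≤
        ε * (H.choose k : ℝ) := by
  obtain ⟨c, hc, hlow⟩ := CT_pos_low (k + 1)
  obtain ⟨e, he⟩ : ∃ e : ℝ, e = ε ^ 2 * c / (2 ^ k * k.factorial) := ⟨_, rfl⟩
  have hf0 : (0 : ℝ) < k.factorial := by exact_mod_cast k.factorial_pos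
  have he0 : 0 < e := by rw [he]; positivity
  obtain ⟨K, hK, H0⟩ := W_all k e he0
  refine ⟨K, hK, fun A hA => ?_⟩
  filter_upwards [H0 A hA, Real.tendsto_log_atTop.eventually_ge_atTop (max 1 (2 * k : ℝ)),
    eventually_gt_atTop 0] with x hx hlog hx0
  intro u H hKH hHA
  have hl1 : 1 ≤ Real.log x := (le_max_left _ _).trans hlog
  have hl2 : (2 * k : ℝ) ≤ Real.log x := (le_max_right _ _).trans hlog
  have hl0 : 0 < Real.log x := by linarith
  have hlH : Real.log x ≤ H := (le_mul_of_one_le_left hl0.le hK).trans hKH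
  have hkH : 2 * k ≤ H := by
    have : ((2 * k : ℕ) : ℝ) ≤ H := by push_cast; linarith
    exact_mod_cast this
  have hchoose := pow_le_choose k H hkH
  have hmain := hx u H hKH hHA (fun D => if Uni.CT (insert 0 D) ≠ 0 ∧
        (4 ^ k + ε) * Uni.CT (insert 0 D) * (x / Real.log x ^ (k + 1)) < (cnt x (insert 0 D) : ℝ) then 1 else 0)
    (fun D => by split_ifs <;> norm_num) (fun D => by split_ifs <;> norm_num)
  simp only [ite_mul, one_mul, zero_mul] at hmain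
  rw [← sum_filter, ← sum_filter] at hmain
  obtain ⟨P, hP⟩ : ∃ P, P = x / Real.log x ^ (k + 1) := ⟨_, rfl⟩
  have hP0 : 0 < P := by rw [hP]; positivity
  rw [← hP] at hmain ⊢
  obtain ⟨B, hB⟩ : ∃ B, B = ((Ioc u (u + H)).powersetCard k).filter (fun D => Uni.CT (insert 0 D) ≠ 0 ∧
        (4 ^ k + ε) * Uni.CT (insert 0 D) * P < (cnt x (insert 0 D) : ℝ)) := ⟨_, rfl⟩
  rw [← hB] at hmain ⊢
  have h1 : (4 ^ k + ε) * (∑ D ∈ B, Uni.CT (insert 0 D)) * P ≤ ∑ D ∈ B, (cnt x (insert 0 D) : ℝ) := by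
    rw [mul_sum, sum_mul]
    apply sum_le_sum
    intro D hD
    rw [hB, mem_filter] at hD
    exact hD.2.2.le
  have h2 : (4 ^ k + ε) * (∑ D ∈ B, Uni.CT (insert 0 D)) ≤ 4 ^ k * (∑ D ∈ B, Uni.CT (insert 0 D)) + e * (H : ℝ) ^ k :=
    le_of_mul_le_mul_right (h1.trans hmain) hP0
  have h3 : (B.card : ℝ) * c ≤ ∑ D ∈ B, Uni.CT (insert 0 D) := by
    rw [← nsmul_eq_mul, ← sum_const]
    apply sum_le_sum
    intro D hD
    rw [hB, mem_filter] at hD
    exact hlow _ (card_ins0 hD.1) hD.2.1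
  have h4 : ε * ((B.card : ℝ) * c) ≤ e * (H : ℝ) ^ k := by
    have := mul_le_mul_of_nonneg_left h3 hε.le
    linarith
  have h5 : e * (H : ℝ) ^ k ≤ ε ^ 2 * c * (H.choose k : ℝ) := by
    refine (mul_le_mul_of_nonneg_left hchoose he0.le).trans (le_of_eq ?_)
    rw [he]
    field_simp
  have h6 : ε * c * (B.card : ℝ) ≤ ε * c * (ε * (H.choose k : ℝ)) := by
    calc ε * c * (B.card : ℝ) = ε * ((B.card : ℝ) * c) := by ring
      _ ≤ _ := h4.trans h5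
      _ = _ := by ring
  exact le_of_mul_le_mul_left h6 (by positivity)

end Pool.Agent.L0h43.TB
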