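import Pool.Agent.W23.UBb
import Pool.Agent.H96R2.EQP.A
import Pool.Agent.L0h43.TB.Ind3

/-!
# Pairs of primes in a class: Selberg's sieve with the theorem of Bombieri and Vinogradov
-/

set_option autoImplicit false

namespace Pool.Agent.L0h43.TB

open Finset Filter Topology Pool.Agent.H387R2
open Pool.Agent.L0h43.TA
open Pool.Agent.H386R2.HL
open Pool.Agent.Helper923.PPS (PP PP_squarefree prime_dvd_PP dvd_PP_of_squarefree coprime_of_dvd_PP selS)

/-- `1/φ` as an arithmetic function -/
noncomputable def phi1 : ArithmeticFunction ℝ where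
  toFun n := ((Nat.totient n : ℕ) : ℝ)⁻¹
  map_zero' := by simp

theorem phi1_apply (n : ℕ) : phi1 n = ((Nat.totient n : ℕ) : ℝ)⁻¹ := rfl

theorem phi1_mult : phi1.IsMultiplicative := by
  refine ⟨by simp [phi1_apply], ?_⟩
  intro m n h
  rw [phi1_apply, phi1_apply, phi1_apply, Nat.totient_mul h]
  push_cast
  rw [mul_inv]

/-- the sieve problem for `n + b` with `n ≤ N`, `n` in the class `ν` modulo `W`, `n + a` prime -/
noncomputable def bs (N W ν a b R q : ℕ) (hq : Even q) : BoundingSieve where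
  support := Icc (1 + b) (N + b)
  prodPrimes := PP q R
  prodPrimes_squarefree := PP_squarefree q R
  weights := fun m => if (m - b) % W = ν ∧ (m - b + a).Prime then 1 else 0
  weights_nonneg := fun m => by split_ifs <;> norm_num
  totalMass := H343E.pi1 (N + a) / Nat.totient W
  nu := phi1
  nu_mult := phi1_mult
  nu_pos_of_prime := by
    intro p hp _
    rw [phi1_apply, Nat.totient_prime hp]
    have : 0 < p - 1 := by have := hp.two_le; omega
    have : (0 : ℝ) < ((p - 1 : ℕ) : ℝ) := by exact_mod_cast this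
    positivity
  nu_lt_one_of_prime := by
    intro p hp hpd
    rw [phi1_apply, Nat.totient_prime hp]
    have h1 := ((prime_dvd_PP hp).1 hpd).2
    have h2 : p ≠ 2 := by
      rintro rfl
      exact h1 hq.two_dvd
    have h3 : 2 ≤ p - 1 := by have := hp.two_le; omega
    have h4 : (2 : ℝ) ≤ ((p - 1 : ℕ) : ℝ) := by exact_mod_cast h3
    exact inv_lt_one_of_one_lt₀ (by linarith)

lemma pc_le_sifted {N W ν a b R q : ℕ} (hq : Even q) (hR : R ≤ Nat.sqrt N) :
    (pc N W ν {a, b} : ℝ) ≤ (bs N W ν a b R q hq).siftedSum := by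
  classical
  have e : (bs N W ν a b R q hq).siftedSum =
      (((Icc (1 + b) (N + b)).filter (fun m => Nat.Coprime (PP q R) m ∧ (m - b) % W = ν ∧
        (m - b + a).Prime)).card : ℝ) := by
    unfold BoundingSieve.siftedSum
    rw [card_filter]
    push_cast
    apply sum_congr rfl
    intro m _
    change (if Nat.Coprime (PP q R) m then (if (m - b) % W = ν ∧ (m - b + a).Prime then (1 : ℝ) else 0) else 0) = _
    by_cases h1 : Nat.Coprime (PP q R) m
    · by_cases h2 : (m - b) % W = ν ∧ (m - b + a).Prime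
      · rw [if_pos h1, if_pos h2, if_pos ⟨h1, h2⟩]
      · rw [if_pos h1, if_neg h2, if_neg (fun h => h2 h.2)]
    · rw [if_neg h1, if_neg (fun h => h1 h.1)]
  rw [e]
  unfold pc
  rw [Nat.cast_le]
  apply card_le_card_of_injOn (fun n => n + b)
  · intro n hn
    rw [mem_coe, mem_filter, mem_Ioc] at hn
    rw [mem_coe]
    change n + b ∈ _
    rw [mem_filter, mem_Icc, Nat.add_sub_cancel]
    have hb := hn.2.2 b (mem_insert_of_mem (mem_singleton_self b))
    refine ⟨⟨by omega, by omega⟩, ?_, hn.2.1, hn.2.2 a (mem_insert_self _ _)⟩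
    rw [Nat.coprime_comm, hb.coprime_iff_not_dvd, prime_dvd_PP hb]
    omega
  · intro x _ y _ hxy
    simp only at hxy
    omega

lemma multSum_eq {N W ν a b R q d c : ℕ} (hq : Even q) (hν : ν < W) (hWd : Nat.Coprime W d) (_hd : 0 < d)
    (hc1 : c ≡ ν + a [MOD W]) (hc2 : c + b ≡ a [MOD d]) :
    |(bs N W ν a b R q hq).multSum d - H343E.piAP (N + a) (W * d) c| ≤ a := by
  classical
  have e : (bs N W ν a b R q hq).multSum d =
      (((Icc (1 + b) (N + b)).filter (fun m => d ∣ m ∧ (m - b) % W = ν ∧ (m - b + a).Prime)).card : ℝ) := by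
    unfold BoundingSieve.multSum
    rw [card_filter]
    push_cast
    apply sum_congr rfl
    intro m _
    change (if d ∣ m then (if (m - b) % W = ν ∧ (m - b + a).Prime then (1 : ℝ) else 0) else 0) = _
    by_cases h1 : d ∣ m
    · by_cases h2 : (m - b) % W = ν ∧ (m - b + a).Prime
      · rw [if_pos h1, if_pos h2, if_pos ⟨h1, h2⟩]
      · rw [if_pos h1, if_neg h2, if_neg (fun h => h2 h.2)]
    · rw [if_neg h1, if_neg (fun h => h1 h.1)]
  have e2 : ((Icc (1 + b) (N + b)).filter (fun m => d ∣ m ∧ (m - b) % W = ν ∧ (m - b + a).Prime)).card =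
      ((Icc (1 + a) (N + a)).filter (fun p => p.Prime ∧ p ≡ c [MOD (W * d)])).card := by
    apply card_bij (fun m _ => m - b + a)
    · intro m hm
      rw [mem_filter, mem_Icc] at hm
      rw [mem_filter, mem_Icc]
      refine ⟨⟨by omega, by omega⟩, hm.2.2.2, ?_⟩
      rw [← Nat.modEq_and_modEq_iff_modEq_mul hWd]
      constructor
      · have h1 : m - b ≡ ν [MOD W] := by
          unfold Nat.ModEq
          rw [hm.2.2.1, Nat.mod_eq_of_lt hν]
        exact (h1.add_right a).trans hc1.symm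
      · have h1 : m - b + a + b ≡ c + b [MOD d] := by
          have h2 : m - b + a + b = m + a := by omega
          rw [h2]
          have h3 : m ≡ 0 [MOD d] := (Nat.modEq_zero_iff_dvd.2 hm.2.1)
          have h4 := h3.add_right a
          rw [zero_add] at h4
          exact h4.trans hc2.symm
        exact Nat.ModEq.add_right_cancel' b h1
    · intro x hx y hy hxy
      rw [mem_filter, mem_Icc] at hx hy
      omega
    · intro p hp
      rw [mem_filter, mem_Icc] at hp
      obtain ⟨hp1, hp2⟩ := (Nat.modEq_and_modEq_iff_modEq_mul hWd).2 hp.2.2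
      have e3 : p - a + b - b + a = p := by omega
      refine ⟨p - a + b, ?_, e3⟩
      rw [mem_filter, mem_Icc, e3]
      refine ⟨⟨by omega, by omega⟩, ?_, ?_, hp.2.1⟩
      · rw [← Nat.modEq_zero_iff_dvd]
        have h1 : p - a + b + a ≡ 0 + a [MOD d] := by
          have h2 : p - a + b + a = p + b := by omega
          rw [h2, zero_add]
          exact (hp2.add_right b).trans hc2
        exact Nat.ModEq.add_right_cancel' a h1
      · have h1 : p - a + a ≡ ν + a [MOD W] := by
          have h2 : p - a + a = p := by omega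
          rw [h2]
          exact hp1.trans hc1
        have h2 := Nat.ModEq.add_right_cancel' a h1
        rw [Nat.add_sub_cancel]
        unfold Nat.ModEq at h2
        rw [h2, Nat.mod_eq_of_lt hν]
  rw [e, e2]
  unfold H343E.piAP
  have h1 : (Icc (1 + a) (N + a)).filter (fun p => p.Prime ∧ p ≡ c [MOD (W * d)]) ⊆
      (Icc 1 (N + a)).filter (fun p => p.Prime ∧ p ≡ c [MOD (W * d)]) := by
    apply filter_subset_filter
    apply Icc_subset_Icc (by omega) le_rfl
  have h2 : (Icc 1 (N + a)).filter (fun p => p.Prime ∧ p ≡ c [MOD (W * d)]) ⊆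
      (Icc (1 + a) (N + a)).filter (fun p => p.Prime ∧ p ≡ c [MOD (W * d)]) ∪ Icc 1 a := by
    intro p hp
    rw [mem_filter, mem_Icc] at hp
    rw [mem_union, mem_filter, mem_Icc, mem_Icc]
    by_cases h : p ≤ a
    · right; exact ⟨hp.1.1, h⟩
    · left; exact ⟨⟨by omega, hp.1.2⟩, hp.2⟩
  have h3 := card_le_card h1
  have h4 := (card_le_card h2).trans (card_union_le _ _)
  rw [Nat.card_Icc, Nat.add_sub_cancel] at h4
  have h3' : (((Icc (1 + a) (N + a)).filter (fun p => p.Prime ∧ p ≡ c [MOD (W * d)])).card : ℝ) ≤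
      (((Icc 1 (N + a)).filter (fun p => p.Prime ∧ p ≡ c [MOD (W * d)])).card : ℝ) := by exact_mod_cast h3
  have h4' : (((Icc 1 (N + a)).filter (fun p => p.Prime ∧ p ≡ c [MOD (W * d)])).card : ℝ) ≤
      (((Icc (1 + a) (N + a)).filter (fun p => p.Prime ∧ p ≡ c [MOD (W * d)])).card : ℝ) + a := by
    exact_mod_cast h4
  rw [abs_le]
  constructor <;> linarith

/-- the remainder -/
lemma bs_rem {N W ν a b R d : ℕ} (hq : Even (W * ds a b)) (hν : ν < W) (hcop : Nat.Coprime W (ν + a))
    (hd : d ∣ PP (W * ds a b) R) : ∃ c : ℕ, c.Coprime (W * d) ∧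
    |(bs N W ν a b R (W * ds a b) hq).rem d| ≤
      |H343E.piAP (N + a) (W * d) c - H343E.pi1 (N + a) / Nat.totient (W * d)| + a := by
  have hdq := coprime_of_dvd_PP hd
  have hWd : Nat.Coprime W d := (Nat.Coprime.coprime_dvd_right (Dvd.intro _ rfl) hdq).symm
  have hd0 : 0 < d := Nat.pos_of_ne_zero (ne_zero_of_dvd_ne_zero (PP_squarefree _ R).ne_zero hd)
  obtain ⟨c, hc1, hc2⟩ := Nat.chineseRemainder hWd (ν + a) (a + (d - 1) * b)
  have hc3 : c + b ≡ a [MOD d] := by
    have h1 := hc2.add_right b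
    refine h1.trans ?_
    have h2 : a + (d - 1) * b + b = a + d * b := by
      obtain ⟨e, rfl⟩ : ∃ e, d = e + 1 := ⟨d - 1, by omega⟩
      rw [Nat.add_sub_cancel]
      ring
    rw [h2]
    unfold Nat.ModEq
    rw [Nat.add_mul_mod_self_left]
  refine ⟨c, ?_, ?_⟩
  · apply Nat.Coprime.mul_right
    · unfold Nat.Coprime
      rw [hc1.gcd_eq]
      exact hcop.symm
    · rw [Nat.coprime_iff_gcd_eq_one]
      by_contra hne
      obtain ⟨p, hp, hpd⟩ := Nat.exists_prime_and_dvd hne
      have hpc : p ∣ c := hpd.trans (Nat.gcd_dvd_left _ _)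
      have hpd' : p ∣ d := hpd.trans (Nat.gcd_dvd_right _ _)
      have h1 : c + b ≡ a [MOD p] := hc3.of_dvd hpd'
      have h2 : c + b ≡ 0 + b [MOD p] := (Nat.modEq_zero_iff_dvd.2 hpc).add_right b
      rw [zero_add] at h2
      have h3 : p ∣ ds a b := ds_dvd.2 (h1.symm.trans h2)
      have h4 := hp.coprime_iff_not_dvd.1 (Nat.Coprime.coprime_dvd_left hpd' hdq)
      exact h4 (h3.trans (Dvd.intro_left _ rfl))
  · have h1 := multSum_eq (N := N) (R := R) hq hν hWd hd0 hc1 hc3
    have e1 : (bs N W ν a b R (W * ds a b) hq).rem d = (bs N W ν a b R (W * ds a b) hq).multSum d -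
        H343E.pi1 (N + a) / Nat.totient (W * d) := by
      unfold BoundingSieve.rem
      change _ - ((Nat.totient d : ℕ) : ℝ)⁻¹ * (H343E.pi1 (N + a) / Nat.totient W) = _
      rw [Nat.totient_mul hWd]
      push_cast
      rw [mul_comm (Nat.totient W : ℝ), div_mul_eq_div_div, div_eq_inv_mul _ (Nat.totient d : ℝ)]
      ring
    rw [e1]
    have h2 := abs_add_le ((bs N W ν a b R (W * ds a b) hq).multSum d - H343E.piAP (N + a) (W * d) c)
      (H343E.piAP (N + a) (W * d) c - H343E.pi1 (N + a) / Nat.totient (W * d))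
    rw [sub_add_sub_cancel] at h2
    linarith

/-- the Selberg sum -/
lemma bs_sel {N W ν a b R q : ℕ} (hq : Even q) (hq1 : 1 ≤ q) :
    ((Nat.totient q : ℝ) / q) * Real.log ((R : ℝ) + 1) ≤ selS (bs N W ν a b R q hq) (R : ℝ) := by
  refine (Pool.Agent.W23.UB.phi_sum_ge hq1).trans ?_
  unfold selS
  have h1 : ∀ l ∈ Pool.Agent.W23.UB.SQ q R, ((Nat.totient l : ℝ))⁻¹ ≤ (bs N W ν a b R q hq).selbergTerms l := by
    intro l hl
    rw [Pool.Agent.W23.UB.mem_SQ] at hl
    rw [BoundingSieve.selbergTerms_apply]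
    change _ ≤ ((Nat.totient l : ℕ) : ℝ)⁻¹ * ∏ p ∈ l.primeFactors, (1 - ((Nat.totient p : ℕ) : ℝ)⁻¹)⁻¹
    apply le_mul_of_one_le_right (by positivity)
    have hprod : ∏ _p ∈ l.primeFactors, (1 : ℝ) ≤ ∏ p ∈ l.primeFactors, (1 - ((Nat.totient p : ℕ) : ℝ)⁻¹)⁻¹ := by
      apply Finset.prod_le_prod (fun _ _ => zero_le_one)
      intro p hp
      have hpp := (Nat.mem_primeFactors.1 hp).1
      rw [Nat.totient_prime hpp]
      have h2 : (1 : ℝ) ≤ ((p - 1 : ℕ) : ℝ) := by
        have := hpp.two_le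
        exact_mod_cast (by omega : 1 ≤ p - 1)
      have hp2 : p ≠ 2 := by
        rintro rfl
        have h3 : 2 ∣ l := (Nat.mem_primeFactors.1 hp).2.1
        have h4 := hpp.coprime_iff_not_dvd.1 (Nat.Coprime.coprime_dvd_left h3 hl.2.2)
        exact h4 hq.two_dvd
      have h3 : (2 : ℝ) ≤ ((p - 1 : ℕ) : ℝ) := by
        have := hpp.two_le
        exact_mod_cast (by omega : 2 ≤ p - 1)
      have h4 : (((p - 1 : ℕ) : ℝ))⁻¹ ≤ 1 / 2 := by
        rw [← one_div]
        exact one_div_le_one_div_of_le (by norm_num) h3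
      have h5 : 0 ≤ (((p - 1 : ℕ) : ℝ))⁻¹ := by positivity
      rw [one_le_inv₀ (by linarith)]
      linarith
    rw [Finset.prod_const_one] at hprod
    exact hprod
  refine (sum_le_sum h1).trans ?_
  apply sum_le_sum_of_subset_of_nonneg
  · intro l hl
    rw [Pool.Agent.W23.UB.mem_SQ] at hl
    rw [mem_filter, Nat.mem_divisors]
    exact ⟨⟨dvd_PP_of_squarefree hl.2.1 hl.1.2 hl.2.2, (PP_squarefree q R).ne_zero⟩,
      by exact_mod_cast hl.1.2⟩
  · intro l hl _
    rw [mem_filter, Nat.mem_divisors] at hl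
    exact (BoundingSieve.selbergTerms_pos hl.1.1).le

end Pool.Agent.L0h43.TB
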