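import Pool.Agent.L0h43.TB.BDa

/-!
# Pairs of primes in a class: the singular series of a pair
-/

set_option autoImplicit false

namespace Pool.Agent.L0h43.TB

open Finset Filter Topology Pool.Agent.H387R2
open Pool.Agent.L0h43.TA
open Pool.Agent.H386R2.HL

lemma div_totient {q : ℕ} (hq : 0 < q) : (q : ℝ) / Nat.totient q = ∏ p ∈ q.primeFactors, (1 - 1 / (p : ℝ))⁻¹ := by
  have h3 := congrArg (fun z : ℚ => (z : ℝ)) (Nat.totient_eq_mul_prod_factors q)
  push_cast at h3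
  have hq0 : (0 : ℝ) < q := by exact_mod_cast hq
  simp only [one_div]
  rw [h3, Finset.prod_inv_distrib]
  have h4 : (0 : ℝ) < ∏ p ∈ q.primeFactors, (1 - (p : ℝ)⁻¹) := by
    apply prod_pos
    intro p hp
    have h5 := (Nat.mem_primeFactors.1 hp).1.one_lt
    have h6 : (1 : ℝ) < p := by exact_mod_cast h5
    rw [sub_pos]
    exact inv_lt_one_of_one_lt₀ h6
  field_simp

lemma sum_inv_sq' (y : ℕ) (hy : 2 ≤ y) (S : Finset ℕ) (hS : ∀ p ∈ S, y < p) :
    ∑ p ∈ S, 1 / ((p : ℝ) - 1) ^ 2 ≤ 1 / ((y : ℝ) - 1) := by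
  have hy2 : (2:ℝ) ≤ y := by exact_mod_cast hy
  have h1 : ∀ Z : ℕ, ∑ p ∈ Ioc y (y + Z), 1 / ((p : ℝ) - 1) ^ 2 ≤ 1 / ((y : ℝ) - 1) - 1 / ((y : ℝ) + Z - 1) := by
    intro Z
    induction Z with
    | zero => simp
    | succ Z ih =>
      rw [← add_assoc, sum_Ioc_succ_top (by omega)]
      have hz : (0:ℝ) ≤ Z := Nat.cast_nonneg Z
      have h2 : 1 / (((y + Z + 1 : ℕ) : ℝ) - 1) ^ 2 ≤ 1 / ((y : ℝ) + Z - 1) - 1 / ((y : ℝ) + (Z + 1 : ℕ) - 1) := by
        push_cast
        have a1 : (0:ℝ) < (y:ℝ) + Z - 1 := by linarith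
        have a2 : (0:ℝ) < (y:ℝ) + (Z + 1) - 1 := by linarith
        have a3 : ((y:ℝ) + Z + 1 - 1) = (y:ℝ) + (Z + 1) - 1 := by ring
        rw [a3, div_sub_div _ _ a1.ne' a2.ne']
        have a4 : (1 * ((y:ℝ) + (Z + 1) - 1) - ((y:ℝ) + Z - 1) * 1) = 1 := by ring
        rw [a4]
        apply one_div_le_one_div_of_le (by positivity)
        nlinarith
      linarith
  set Z := S.sup id with hZ
  have h3 : S ⊆ Ioc y (y + Z) := by
    intro p hp
    rw [mem_Ioc]
    refine ⟨hS p hp, ?_⟩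
    have : p ≤ Z := le_sup (f := id) hp
    omega
  refine (sum_le_sum_of_subset_of_nonneg h3 fun p _ _ => by positivity).trans ((h1 Z).trans ?_)
  have hz : (0:ℝ) ≤ Z := Nat.cast_nonneg Z
  have : 0 ≤ 1 / ((y:ℝ) + Z - 1) := by
    apply div_nonneg zero_le_one; linarith
  linarith

lemma primeFactors_WW (w : ℕ) : (Uni.WW w).primeFactors = (w + 1).primesBelow := by
  unfold Uni.WW
  apply Nat.primeFactors_prod
  intro p hp
  exact Nat.prime_of_mem_primesBelow hp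

lemma loc_pair {a b p : ℕ} (hab : a ≠ b) (hp3 : 3 ≤ p) :
    (if p ∣ ds a b then (1 - 1 / (p : ℝ))⁻¹ else 1) * (1 - 1 / ((p : ℝ) - 1) ^ 2) ≤ Uni.locT {a, b} p := by
  have hp0 : (3 : ℝ) ≤ p := by exact_mod_cast hp3
  have hcard : ({a, b} : Finset ℕ).card = 2 := card_pair hab
  unfold Uni.locT Uni.nuT
  rw [hcard, image_insert, image_singleton]
  have h1 : 0 < 1 - 1 / (p : ℝ) := by
    rw [sub_pos, div_lt_one (by linarith)]; linarith
  have h2 : 0 ≤ 1 / ((p : ℝ) - 1) ^ 2 := by positivity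
  by_cases h : p ∣ ds a b
  · rw [if_pos h]
    have h3 : a % p = b % p := ds_dvd.1 h
    rw [h3, pair_eq_singleton, card_singleton, Nat.cast_one]
    have e : (1 - 1 / (p : ℝ)) / (1 - 1 / (p : ℝ)) ^ 2 = (1 - 1 / (p : ℝ))⁻¹ := by
      rw [pow_two, div_mul_cancel_left₀ h1.ne']
    rw [e]
    have h4 : 0 < (1 - 1 / (p : ℝ))⁻¹ := inv_pos.2 h1
    exact mul_le_of_le_one_right h4.le (by linarith)
  · rw [if_neg h, one_mul]
    have h3 : a % p ≠ b % p := fun hh => h (ds_dvd.2 hh)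
    rw [card_pair h3]
    push_cast
    rw [le_div_iff₀ (by positivity)]
    have h5 : (0 : ℝ) < (p : ℝ) - 1 := by linarith
    have e : (1 - 1 / ((p : ℝ) - 1) ^ 2) * (1 - 1 / (p : ℝ)) ^ 2 = 1 - 2 / p := by
      field_simp
      ring
    rw [e]

lemma CT_pair {w a b : ℕ} (hab : a ≠ b) (hw : 4 ≤ w) :
    (1 - 3 / (w : ℝ)) * ((((Uni.WW w * ds a b : ℕ) : ℝ) / Nat.totient (Uni.WW w * ds a b)) *
      ((Uni.WW w : ℝ) / Nat.totient (Uni.WW w)) * (Uni.gT (Uni.WW w) {a, b} / Uni.WW w)) ≤ Uni.CT {a, b} := by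
  classical
  obtain ⟨W, hW⟩ : ∃ W, W = Uni.WW w := ⟨_, rfl⟩
  have hWpos : 0 < W := by rw [hW]; exact Uni.WW_pos w
  have hW0 : (0 : ℝ) < W := by exact_mod_cast hWpos
  have hφ0 : (0 : ℝ) < Nat.totient W := by exact_mod_cast Nat.totient_pos.2 hWpos
  have hds := ds_pos hab
  have hw0 : (4 : ℝ) ≤ w := by exact_mod_cast hw
  have hcard : ({a, b} : Finset ℕ).card = 2 := card_pair hab
  obtain ⟨y, hy⟩ : ∃ y, y = 4 * w + ds a b := ⟨_, rfl⟩
  have hyw : w ≤ y := by omega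
  have h1 := Pool.Agent.Helper22K9.Trp.CT_ge' {a, b} y (by omega) (by rw [hcard]; omega)
  rw [← Uni.sy_en] at h1
  obtain ⟨sY, hsY⟩ : ∃ sY, sY = sy (Uni.en {a, b}) y := ⟨_, rfl⟩
  obtain ⟨sw, hsw⟩ : ∃ sw, sw = sy (Uni.en {a, b}) w := ⟨_, rfl⟩
  rw [← hsY, hcard] at h1
  -- split the product
  obtain ⟨S, hS⟩ : ∃ S, S = ((y + 1).primesBelow).filter (fun p => w < p) := ⟨_, rfl⟩
  have hsplit : (y + 1).primesBelow = (w + 1).primesBelow ∪ S := by
    rw [hS]
    ext p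
    simp only [mem_union, Nat.mem_primesBelow, mem_filter]
    constructor
    · rintro ⟨c1, c2⟩
      rcases Nat.lt_or_ge w p with h | h
      · right; exact ⟨⟨c1, c2⟩, h⟩
      · left; exact ⟨by omega, c2⟩
    · rintro (⟨c1, c2⟩ | ⟨⟨c1, c2⟩, _⟩)
      · exact ⟨by omega, c2⟩
      · exact ⟨c1, c2⟩
  have hdis : Disjoint ((w + 1).primesBelow) S := by
    rw [disjoint_left, hS]
    intro p hp hp2
    rw [Nat.mem_primesBelow] at hp
    have := (mem_filter.1 hp2).2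
    omega
  have e1 : sY = sw * ∏ p ∈ S, Uni.locT {a, b} p := by
    rw [hsY, hsw]
    unfold sy
    rw [hsplit, prod_union hdis]
    congr 1
    apply prod_congr rfl
    intro p _
    rw [Uni.loc_en]
  have e2 := Uni.sy_en {a, b} w
  rw [← hsw, hcard, ← hW] at e2
  -- the large primes
  obtain ⟨F, hF⟩ : ∃ F, F = (ds a b).primeFactors.filter (fun p => w < p) := ⟨_, rfl⟩
  have hFS : F = S.filter (fun p => p ∣ ds a b) := by
    rw [hF, hS]
    ext p
    simp only [mem_filter, Nat.mem_primeFactors, Nat.mem_primesBelow]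
    constructor
    · rintro ⟨⟨c1, c2, c3⟩, c4⟩
      have := Nat.le_of_dvd (by omega) c2
      exact ⟨⟨⟨by omega, c1⟩, c4⟩, c2⟩
    · rintro ⟨⟨⟨c1, c2⟩, c3⟩, c4⟩
      exact ⟨⟨c2, c4, by omega⟩, c3⟩
  have hSp : ∀ p ∈ S, p.Prime ∧ w < p := by
    intro p hp
    rw [hS, mem_filter, Nat.mem_primesBelow] at hp
    exact ⟨hp.1.2, hp.2⟩
  have h2 : (∏ p ∈ F, (1 - 1 / (p : ℝ))⁻¹) * (1 - 2 / w) ≤ ∏ p ∈ S, Uni.locT {a, b} p := by
    have h3 : ∏ p ∈ S, ((if p ∣ ds a b then (1 - 1 / (p : ℝ))⁻¹ else 1) * (1 - 1 / ((p : ℝ) - 1) ^ 2)) ≤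
        ∏ p ∈ S, Uni.locT {a, b} p := by
      apply Finset.prod_le_prod
      · intro p hp
        have h4 := hSp p hp
        have h5 : (4 : ℝ) < p := by
          have : w < p := h4.2
          have : (w : ℝ) < p := by exact_mod_cast this
          linarith
        have h6 : 1 / ((p : ℝ) - 1) ^ 2 ≤ 1 := by
          rw [div_le_one (pow_pos (by linarith) 2)]
          nlinarith
        have h7 : 0 < 1 - 1 / (p : ℝ) := by
          rw [sub_pos, div_lt_one (by linarith)]; linarith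
        apply mul_nonneg _ (by linarith)
        split_ifs
        · exact (inv_pos.2 h7).le
        · exact zero_le_one
      · intro p hp
        have h4 := hSp p hp
        exact loc_pair hab (by omega)
    refine le_trans ?_ h3
    rw [prod_mul_distrib, hFS, prod_filter]
    have h8 : (1 : ℝ) - 2 / w ≤ ∏ p ∈ S, (1 - 1 / ((p : ℝ) - 1) ^ 2) := by
      have h9 := MB.one_sub_sum_le S (fun p : ℕ => 1 / ((p : ℝ) - 1) ^ 2) (fun p _ => by positivity) (fun p hp => by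
        have h4 := hSp p hp
        have h5 : (4 : ℝ) < p := by
          have : (w : ℝ) < p := by exact_mod_cast h4.2
          linarith
        rw [div_le_one (pow_pos (by linarith) 2)]
        nlinarith)
      have h10 := sum_inv_sq' w (by omega) S (fun p hp => (hSp p hp).2)
      have h11 : 1 / ((w : ℝ) - 1) ≤ 2 / w := by
        rw [div_le_div_iff₀ (by linarith) (by linarith)]
        linarith
      linarith
    apply mul_le_mul_of_nonneg_left h8
    apply prod_nonneg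
    intro p hp
    have h4 := hSp p hp
    have h7 : 0 < 1 - 1 / (p : ℝ) := by
      have : (1 : ℝ) < p := by exact_mod_cast h4.1.one_lt
      rw [sub_pos, div_lt_one (by linarith)]; linarith
    split_ifs
    · exact (inv_pos.2 h7).le
    · exact zero_le_one
  have e3 : (((W * ds a b : ℕ) : ℝ) / Nat.totient (W * ds a b)) = (W : ℝ) / Nat.totient W *
      ∏ p ∈ F, (1 - 1 / (p : ℝ))⁻¹ := by
    rw [div_totient (Nat.mul_pos hWpos hds), div_totient hWpos, Nat.primeFactors_mul hWpos.ne' (by omega)]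
    have h5 : W.primeFactors ∪ (ds a b).primeFactors = W.primeFactors ∪ F := by
      rw [hF, hW, primeFactors_WW]
      ext p
      simp only [mem_union, Nat.mem_primesBelow, mem_filter, Nat.mem_primeFactors]
      constructor
      · rintro (c | ⟨c1, c2, c3⟩)
        · left; exact c
        · rcases Nat.lt_or_ge w p with h | h
          · right; exact ⟨⟨c1, c2, c3⟩, h⟩
          · left; exact ⟨by omega, c1⟩
      · rintro (c | ⟨c, _⟩)
        · left; exact c
        · right; exact c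
    have h6 : Disjoint W.primeFactors F := by
      rw [disjoint_left, hF, hW, primeFactors_WW]
      intro p hp hp2
      rw [Nat.mem_primesBelow] at hp
      have := (mem_filter.1 hp2).2
      omega
    rw [h5, prod_union h6]
  rw [← hW, e3]
  have hF0 : (0 : ℝ) ≤ ∏ p ∈ F, (1 - 1 / (p : ℝ))⁻¹ := by
    apply prod_nonneg
    intro p hp
    rw [hFS, mem_filter] at hp
    have h4 := hSp p hp.1
    have h7 : 0 < 1 - 1 / (p : ℝ) := by
      have : (1 : ℝ) < p := by exact_mod_cast h4.1.one_lt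
      rw [sub_pos, div_lt_one (by linarith)]; linarith
    exact (inv_pos.2 h7).le
  have hy0 : (0 : ℝ) < y := by
    have : 0 < y := by omega
    exact_mod_cast this
  have h4y : 4 / (y : ℝ) ≤ 1 / w := by
    rw [div_le_div_iff₀ hy0 (by linarith)]
    have : ((4 * w : ℕ) : ℝ) ≤ y := by exact_mod_cast (by omega : 4 * w ≤ y)
    push_cast at this
    linarith
  have hg0 : 0 ≤ ((W : ℝ) / Nat.totient W) ^ 2 * (Uni.gT W {a, b} / W) := by positivity
  have h2w : 2 / (w : ℝ) ≤ 1 / 2 := by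
    rw [div_le_div_iff₀ (by linarith) (by norm_num)]; linarith
  have h1w : 1 / (w : ℝ) ≤ 1 / 4 := one_div_le_one_div_of_le (by norm_num) hw0
  have h10 : (1 - 3 / (w : ℝ)) ≤ (1 - 4 / (y : ℝ)) * (1 - 2 / w) := by
    have : (1 - 1 / (w : ℝ)) * (1 - 2 / w) ≤ (1 - 4 / (y : ℝ)) * (1 - 2 / w) :=
      mul_le_mul_of_nonneg_right (by linarith) (by linarith)
    have e : (1 - 1 / (w : ℝ)) * (1 - 2 / w) = 1 - 3 / w + 2 / w * (1 / w) := by ring
    have : 0 ≤ 2 / (w : ℝ) * (1 / w) := by positivity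
    linarith
  refine le_trans ?_ h1
  push_cast
  rw [e1, e2]
  have h4y' : 0 ≤ 1 - 2 ^ 2 / (y : ℝ) := by
    have : (2 : ℝ) ^ 2 / y = 4 / y := by norm_num
    rw [this]
    linarith
  calc (1 - 3 / (w : ℝ)) * ((W : ℝ) / Nat.totient W * (∏ p ∈ F, (1 - 1 / (p : ℝ))⁻¹) *
        ((W : ℝ) / Nat.totient W) * (Uni.gT W {a, b} / W)) =
      (1 - 3 / (w : ℝ)) * ((((W : ℝ) / Nat.totient W) ^ 2 * (Uni.gT W {a, b} / W)) * ∏ p ∈ F, (1 - 1 / (p : ℝ))⁻¹) := by
        ring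
    _ ≤ ((1 - 4 / (y : ℝ)) * (1 - 2 / w)) * ((((W : ℝ) / Nat.totient W) ^ 2 * (Uni.gT W {a, b} / W)) *
          ∏ p ∈ F, (1 - 1 / (p : ℝ))⁻¹) := mul_le_mul_of_nonneg_right h10 (by positivity)
    _ = (1 - 2 ^ 2 / (y : ℝ)) * ((((W : ℝ) / Nat.totient W) ^ 2 * (Uni.gT W {a, b} / W)) *
          ((∏ p ∈ F, (1 - 1 / (p : ℝ))⁻¹) * (1 - 2 / w))) := by ring
    _ ≤ _ := by
        apply mul_le_mul_of_nonneg_left _ h4y'
        exact mul_le_mul_of_nonneg_left h2 hg0

end Pool.Agent.L0h43.TB
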