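import Pool.Agent.L0h43.TB.BDb

/-!
# Pairs of primes in a class: the bound `4 + ε`
-/

set_option autoImplicit false

namespace Pool.Agent.L0h43.TB

open Finset Filter Topology Pool.Agent.H387R2
open Pool.Agent.L0h43.TA
open Pool.Agent.H386R2.HL
open Pool.Agent.Helper923.PPS (PP PP_squarefree prime_dvd_PP dvd_PP_of_squarefree coprime_of_dvd_PP selS selS_pos)

lemma ev_logpow (C : ℝ) (B : ℝ) (s : ℝ) (hs : 0 < s) : ∀ᶠ x : ℝ in atTop, C * Real.log x ^ B ≤ x ^ s := by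
  obtain ⟨D, hD⟩ : ∃ D, D = |C| + 1 := ⟨_, rfl⟩
  have hD0 : 0 < D := by rw [hD]; positivity
  have h := (isLittleO_log_rpow_rpow_atTop B (s := s) hs).def (c := D⁻¹) (by positivity)
  filter_upwards [h, Real.tendsto_log_atTop.eventually_ge_atTop 0, eventually_ge_atTop 0] with x h1 h2 h3
  rw [Real.norm_of_nonneg (by positivity), Real.norm_of_nonneg (by positivity), inv_mul_eq_div,
    le_div_iff₀ hD0] at h1
  have h4 : C ≤ D := by rw [hD]; linarith [le_abs_self C]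
  have h5 : 0 ≤ Real.log x ^ B := by positivity
  nlinarith

lemma err_sum {W q R x a : ℕ} (hW : 0 < W) (M : ℕ → ℝ) (hM : ∀ q, 0 ≤ M q)
    (hWR : ∀ d : ℕ, (d : ℝ) ≤ (R : ℝ) ^ 2 → W * d ≤ x) {k : ℕ}
    (hk : ∑ e ∈ Icc 1 (R ^ 2), (3 : ℝ) ^ e.primeFactors.card / (Nat.totient e : ℝ) ≤ (1 + Real.log (R ^ 2 : ℕ)) ^ (2 ^ k)) :
    ∑ d ∈ (Nat.divisors (PP q R)).filter (fun d : ℕ => (d : ℝ) ≤ (R : ℝ) ^ 2),
      (3 : ℝ) ^ d.primeFactors.card * (M (W * d) + a) ≤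
    ∑ e ∈ Icc 1 x, (3 : ℝ) ^ e.primeFactors.card * M e + a * ((R : ℝ) ^ 2 * (1 + Real.log (R ^ 2 : ℕ)) ^ (2 ^ k)) := by
  classical
  have hP0 : PP q R ≠ 0 := (PP_squarefree q R).ne_zero
  simp only [mul_add]
  rw [sum_add_distrib]
  apply add_le_add
  · have h1 : ∑ d ∈ (Nat.divisors (PP q R)).filter (fun d : ℕ => (d : ℝ) ≤ (R : ℝ) ^ 2),
        (3 : ℝ) ^ d.primeFactors.card * M (W * d) ≤
        ∑ d ∈ (Nat.divisors (PP q R)).filter (fun d : ℕ => (d : ℝ) ≤ (R : ℝ) ^ 2),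
        (3 : ℝ) ^ (W * d).primeFactors.card * M (W * d) := by
      apply sum_le_sum
      intro d hd
      rw [mem_filter, Nat.mem_divisors] at hd
      have hd0 : d ≠ 0 := ne_zero_of_dvd_ne_zero hP0 hd.1.1
      apply mul_le_mul_of_nonneg_right _ (hM _)
      apply pow_le_pow_right₀ (by norm_num)
      apply card_le_card
      exact Nat.primeFactors_mono (Dvd.intro_left _ rfl) (Nat.mul_ne_zero hW.ne' hd0)
    refine h1.trans ?_
    have h2 : ∑ d ∈ (Nat.divisors (PP q R)).filter (fun d : ℕ => (d : ℝ) ≤ (R : ℝ) ^ 2),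
        (3 : ℝ) ^ (W * d).primeFactors.card * M (W * d) =
        ∑ e ∈ ((Nat.divisors (PP q R)).filter (fun d : ℕ => (d : ℝ) ≤ (R : ℝ) ^ 2)).image (fun d => W * d),
          (3 : ℝ) ^ e.primeFactors.card * M e := by
      rw [sum_image]
      intro x _ y _ hxy
      exact Nat.eq_of_mul_eq_mul_left hW hxy
    rw [h2]
    apply sum_le_sum_of_subset_of_nonneg
    · intro e he
      obtain ⟨d, hd, rfl⟩ := mem_image.1 he
      rw [mem_filter, Nat.mem_divisors] at hd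
      have hd0 : d ≠ 0 := ne_zero_of_dvd_ne_zero hP0 hd.1.1
      rw [mem_Icc]
      exact ⟨Nat.mul_pos hW (Nat.pos_of_ne_zero hd0), hWR d hd.2⟩
    · intro e _ _
      have := hM e
      positivity
  · have h1 : ∀ d ∈ (Nat.divisors (PP q R)).filter (fun d : ℕ => (d : ℝ) ≤ (R : ℝ) ^ 2),
        (3 : ℝ) ^ d.primeFactors.card * (a : ℝ) ≤
          (a : ℝ) * ((R : ℝ) ^ 2 * ((3 : ℝ) ^ d.primeFactors.card / (Nat.totient d : ℝ))) := by
      intro d hd
      rw [mem_filter, Nat.mem_divisors] at hd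
      have hd0 : 0 < d := Nat.pos_of_ne_zero (ne_zero_of_dvd_ne_zero hP0 hd.1.1)
      have hφ : (0 : ℝ) < Nat.totient d := by exact_mod_cast Nat.totient_pos.2 hd0
      have hφd : (Nat.totient d : ℝ) ≤ (R : ℝ) ^ 2 := (show (Nat.totient d : ℝ) ≤ d by
        exact_mod_cast Nat.totient_le d).trans hd.2
      have h2 : (1 : ℝ) ≤ (R : ℝ) ^ 2 / Nat.totient d := by rw [one_le_div hφ]; exact hφd
      have h3 : 0 ≤ (a : ℝ) * (3 : ℝ) ^ d.primeFactors.card := by positivity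
      calc (3 : ℝ) ^ d.primeFactors.card * (a : ℝ) = (a : ℝ) * (3 : ℝ) ^ d.primeFactors.card * 1 := by ring
        _ ≤ (a : ℝ) * (3 : ℝ) ^ d.primeFactors.card * ((R : ℝ) ^ 2 / Nat.totient d) :=
            mul_le_mul_of_nonneg_left h2 h3
        _ = _ := by ring
    refine (sum_le_sum h1).trans ?_
    rw [← mul_sum, ← mul_sum]
    apply mul_le_mul_of_nonneg_left _ (Nat.cast_nonneg _)
    apply mul_le_mul_of_nonneg_left _ (by positivity)
    refine le_trans ?_ hk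
    apply sum_le_sum_of_subset_of_nonneg
    · intro d hd
      rw [mem_filter, Nat.mem_divisors] at hd
      have hd0 : 0 < d := Nat.pos_of_ne_zero (ne_zero_of_dvd_ne_zero hP0 hd.1.1)
      rw [mem_Icc]
      exact ⟨hd0, by exact_mod_cast hd.2⟩
    · intro d _ _
      positivity

theorem pair_raw (W : ℕ) (hW : 0 < W) (hWe : Even W) (δ : ℝ) (hδ : 0 < δ) (hδ4 : δ < 1 / 4) (A : ℝ) :
    ∃ N₀ : ℕ, ∀ N : ℕ, N₀ ≤ N → ∀ a b : ℕ, a ≠ b → (a : ℝ) ≤ Real.log N ^ A → ∀ ν : ℕ, ν < W →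
      Nat.Coprime W (ν + a) →
      (pc N W ν {a, b} : ℝ) ≤ H343E.pi1 (N + a) / Nat.totient W *
        ((((W * ds a b : ℕ) : ℝ) / Nat.totient (W * ds a b)) / ((1 / 4 - δ) * Real.log N)) + 3 * (N / Real.log N ^ 4) := by
  classical
  obtain ⟨B, x0, hB⟩ := Pool.Agent.H96R2.EQP.weighted 3 (by norm_num) 4
  obtain ⟨k, hk⟩ := Pool.Agent.H398R2.BV.sum_pow_omega_div_totient 3 (by norm_num)
  have tN : Tendsto (fun N : ℕ => (N : ℝ)) atTop atTop := tendsto_natCast_atTop_atTop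
  have hW0 : (0 : ℝ) < W := by exact_mod_cast hW
  obtain ⟨N₀, hN₀⟩ := eventually_atTop.1 ((tN.eventually (ev_logpow (2 ^ B * W ^ 2 * 2) (B : ℝ) (4 * δ) (by positivity))).and
    ((tN.eventually (ev_logpow W 0 (1 / 2) (by norm_num))).and
    ((tN.eventually (ev_logpow (2 ^ (2 ^ k)) (A + 4 + (2 ^ k : ℕ)) (1 / 2) (by norm_num))).and
    ((tN.eventually (ev_logpow 1 A 1 one_pos)).and
    ((tN.eventually (Real.tendsto_log_atTop.eventually_ge_atTop 1)).and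
    (eventually_ge_atTop (max x0 3)))))))
  refine ⟨N₀, fun N hN a b hab haA ν hν hcop => ?_⟩
  obtain ⟨g1, g2, g3, g4, g5, g6⟩ := hN₀ N hN
  have hNx0 : x0 ≤ N := (le_max_left _ _).trans g6
  have hN3 : 3 ≤ N := (le_max_right _ _).trans g6
  set L := Real.log (N : ℝ) with hL
  have hL0 : 0 < L := by linarith
  have hN0 : (0 : ℝ) < N := by
    have : 0 < N := by omega
    exact_mod_cast this
  have hN1 : (1 : ℝ) ≤ N := by
    have : 1 ≤ N := by omega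
    exact_mod_cast this
  rw [Real.rpow_one, one_mul] at g4
  rw [Real.rpow_zero, mul_one] at g2
  have haN : (a : ℝ) ≤ N := haA.trans g4
  obtain ⟨Y, hY⟩ : ∃ Y : ℝ, Y = (N : ℝ) ^ (1 / 4 - δ) := ⟨_, rfl⟩
  have hY1 : 1 ≤ Y := by rw [hY]; exact Real.one_le_rpow hN1 (by linarith)
  obtain ⟨R, hR⟩ : ∃ R, R = ⌊Y⌋₊ := ⟨_, rfl⟩
  have hR1 : 1 ≤ R := by rw [hR]; exact Nat.le_floor (by exact_mod_cast hY1)
  have hRY : (R : ℝ) ≤ Y := by rw [hR]; exact Nat.floor_le (by linarith)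
  have hYR : Y < R + 1 := by rw [hR]; exact Nat.lt_floor_add_one Y
  have hR1' : (1 : ℝ) ≤ R := by exact_mod_cast hR1
  have hR2 : (R : ℝ) ^ 2 ≤ (N : ℝ) ^ (1 / 2 - 2 * δ) := by
    calc (R : ℝ) ^ 2 ≤ Y ^ 2 := pow_le_pow_left₀ (Nat.cast_nonneg _) hRY 2
      _ = _ := by
        rw [hY, ← Real.rpow_natCast, ← Real.rpow_mul hN0.le]
        congr 1
        push_cast
        ring
  have hR3 : (N : ℝ) ^ (1 / 2 - 2 * δ) ≤ (N : ℝ) ^ (1 / 2 : ℝ) :=
    Real.rpow_le_rpow_of_exponent_le hN1 (by linarith)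
  have hhalf : (N : ℝ) ^ (1 / 2 : ℝ) * (N : ℝ) ^ (1 / 2 : ℝ) = N := by
    rw [← Real.rpow_add hN0]; norm_num
  have hhalf1 : (1 : ℝ) ≤ (N : ℝ) ^ (1 / 2 : ℝ) := Real.one_le_rpow hN1 (by norm_num)
  have hR4 : (R : ℝ) ^ 2 ≤ N := by
    refine (hR2.trans hR3).trans ?_
    nlinarith
  have hRs : R ≤ Nat.sqrt N := by
    rw [Nat.le_sqrt]
    have : ((R * R : ℕ) : ℝ) ≤ N := by push_cast; nlinarith
    exact_mod_cast this
  obtain ⟨q, hq⟩ : ∃ q, q = W * ds a b := ⟨_, rfl⟩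
  have hds := ds_pos hab
  have hqe : Even (W * ds a b) := hWe.mul_right _
  have hq1 : 1 ≤ W * ds a b := Nat.mul_pos hW hds
  obtain ⟨x, hx⟩ : ∃ x, x = N + a := ⟨_, rfl⟩
  obtain ⟨M, hM0, hM1, hM2⟩ := hB x (by omega)
  have hxN : (N : ℝ) ≤ x := by rw [hx]; push_cast; linarith [Nat.cast_nonneg (α := ℝ) a]
  have hx2N : (x : ℝ) ≤ 2 * N := by rw [hx]; push_cast; linarith
  have hlogx : Real.log x ≤ 2 * L := by
    have h1 : (x : ℝ) ≤ (N : ℝ) ^ 2 := by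
      have : (3 : ℝ) ≤ N := by exact_mod_cast hN3
      nlinarith
    calc Real.log x ≤ Real.log ((N : ℝ) ^ 2) := Real.log_le_log (by linarith) h1
      _ = 2 * L := by rw [Real.log_pow, ← hL]; norm_num
  have hlogx1 : L ≤ Real.log x := Real.log_le_log hN0 hxN
  -- the moduli
  have hmod : ∀ d : ℕ, (d : ℝ) ≤ (R : ℝ) ^ 2 → W * d ≤ x ∧ Real.log x ^ B * ((W * d : ℕ) : ℝ) ^ 2 < x := by
    intro d hd
    constructor
    · have h1 : ((W * d : ℕ) : ℝ) ≤ x := by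
        push_cast
        calc (W : ℝ) * d ≤ (N : ℝ) ^ (1 / 2 : ℝ) * (N : ℝ) ^ (1 / 2 : ℝ) :=
              mul_le_mul g2 ((hd.trans hR2).trans hR3) (Nat.cast_nonneg _) (by linarith)
          _ = N := hhalf
          _ ≤ x := hxN
      exact_mod_cast h1
    · have h1 : Real.log x ^ B ≤ 2 ^ B * L ^ B := by
        rw [← mul_pow]; exact pow_le_pow_left₀ (by linarith) hlogx B
      have h2 : ((W * d : ℕ) : ℝ) ^ 2 ≤ W ^ 2 * (N : ℝ) ^ (1 - 4 * δ) := by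
        push_cast
        rw [mul_pow]
        apply mul_le_mul_of_nonneg_left _ (by positivity)
        calc (d : ℝ) ^ 2 ≤ ((N : ℝ) ^ (1 / 2 - 2 * δ)) ^ 2 :=
              pow_le_pow_left₀ (Nat.cast_nonneg _) (hd.trans hR2) 2
          _ = _ := by
            rw [← Real.rpow_natCast, ← Real.rpow_mul hN0.le]
            congr 1
            push_cast
            ring
      have h3 : (N : ℝ) ^ (1 - 4 * δ) * (N : ℝ) ^ (4 * δ) = N := by
        rw [← Real.rpow_add hN0]; norm_num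
      have h4 : 0 < (N : ℝ) ^ (1 - 4 * δ) := by positivity
      rw [Real.rpow_natCast] at g1
      have h5 : 0 < 2 ^ B * (W : ℝ) ^ 2 * L ^ B * (N : ℝ) ^ (1 - 4 * δ) := by positivity
      calc Real.log x ^ B * ((W * d : ℕ) : ℝ) ^ 2 ≤ (2 ^ B * L ^ B) * (W ^ 2 * (N : ℝ) ^ (1 - 4 * δ)) :=
            mul_le_mul h1 h2 (by positivity) (by positivity)
        _ = 2 ^ B * (W : ℝ) ^ 2 * L ^ B * (N : ℝ) ^ (1 - 4 * δ) := by ring
        _ < 2 ^ B * (W : ℝ) ^ 2 * 2 * L ^ B * (N : ℝ) ^ (1 - 4 * δ) := by linarith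
        _ ≤ (N : ℝ) ^ (4 * δ) * (N : ℝ) ^ (1 - 4 * δ) := mul_le_mul_of_nonneg_right g1 h4.le
        _ = N := by rw [mul_comm, h3]
        _ ≤ x := hxN
  -- Selberg
  have hsel := Pool.Agent.W23.UB.selberg (s := bs N W ν a b R (W * ds a b) hqe) (R : ℝ) hR1'
  have h1 := (pc_le_sifted (N := N) (W := W) (ν := ν) (a := a) (b := b) hqe hRs).trans hsel
  have hP0 : PP (W * ds a b) R ≠ 0 := (PP_squarefree _ R).ne_zero
  have h2 : ∑ d ∈ (Nat.divisors (bs N W ν a b R (W * ds a b) hqe).prodPrimes).filter (fun d : ℕ => (d : ℝ) ≤ (R : ℝ) ^ 2),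
      (3 : ℝ) ^ d.primeFactors.card * |(bs N W ν a b R (W * ds a b) hqe).rem d| ≤
      ∑ d ∈ (Nat.divisors (PP (W * ds a b) R)).filter (fun d : ℕ => (d : ℝ) ≤ (R : ℝ) ^ 2),
        (3 : ℝ) ^ d.primeFactors.card * (M (W * d) + a) := by
    apply sum_le_sum
    intro d hd
    have hd' : d ∈ (Nat.divisors (PP (W * ds a b) R)).filter (fun d : ℕ => (d : ℝ) ≤ (R : ℝ) ^ 2) := hd
    rw [mem_filter, Nat.mem_divisors] at hd'
    have hd0 : 0 < d := Nat.pos_of_ne_zero (ne_zero_of_dvd_ne_zero hP0 hd'.1.1)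
    apply mul_le_mul_of_nonneg_left _ (by positivity)
    obtain ⟨c, hc1, hc2⟩ := bs_rem (N := N) (R := R) hqe hν hcop hd'.1.1
    refine hc2.trans ?_
    rw [← hx]
    have h3 := hmod d hd'.2
    exact add_le_add (hM1 (W * d) c (Nat.mul_pos hW hd0) hc1 h3.2 h3.1) le_rfl
  have h3 := err_sum (W := W) (q := W * ds a b) (R := R) (x := x) (a := a) hW M hM0 (fun d hd => (hmod d hd).1)
    (hk (R ^ 2))
  -- the small term
  have h4 : (a : ℝ) * ((R : ℝ) ^ 2 * (1 + Real.log (R ^ 2 : ℕ)) ^ (2 ^ k)) ≤ N / L ^ 4 := by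
    have h5 : Real.log (R ^ 2 : ℕ) ≤ L := by
      apply Real.log_le_log (by push_cast; positivity)
      push_cast
      exact hR4
    have h5' : 0 ≤ Real.log (R ^ 2 : ℕ) := by
      apply Real.log_nonneg
      push_cast
      exact one_le_pow₀ hR1'
    have h6 : (1 + Real.log (R ^ 2 : ℕ)) ^ (2 ^ k) ≤ 2 ^ (2 ^ k) * L ^ (2 ^ k) := by
      rw [← mul_pow]
      exact pow_le_pow_left₀ (by linarith) (by linarith) _
    have h7 : (R : ℝ) ^ 2 ≤ (N : ℝ) ^ (1 / 2 : ℝ) := hR2.trans hR3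
    rw [le_div_iff₀ (by positivity)]
    have e1 : L ^ (A + 4 + ((2 ^ k : ℕ) : ℝ)) = L ^ A * L ^ 4 * L ^ (2 ^ k) := by
      rw [Real.rpow_add hL0, Real.rpow_add hL0, Real.rpow_natCast]
      norm_num
    rw [e1] at g3
    calc (a : ℝ) * ((R : ℝ) ^ 2 * (1 + Real.log (R ^ 2 : ℕ)) ^ (2 ^ k)) * L ^ 4 ≤
        L ^ A * ((N : ℝ) ^ (1 / 2 : ℝ) * (2 ^ (2 ^ k) * L ^ (2 ^ k))) * L ^ 4 := by
          apply mul_le_mul_of_nonneg_right _ (by positivity)
          apply mul_le_mul haA _ (by positivity) (by positivity)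
          exact mul_le_mul h7 h6 (by positivity) (by positivity)
      _ = (2 ^ (2 ^ k) * (L ^ A * L ^ 4 * L ^ (2 ^ k))) * (N : ℝ) ^ (1 / 2 : ℝ) := by ring
      _ ≤ (N : ℝ) ^ (1 / 2 : ℝ) * (N : ℝ) ^ (1 / 2 : ℝ) := mul_le_mul_of_nonneg_right g3 (by linarith)
      _ = N := hhalf
  have h5 : (x : ℝ) / Real.log x ^ 4 ≤ 2 * (N / L ^ 4) := by
    have h6 : L ^ 4 ≤ Real.log x ^ 4 := pow_le_pow_left₀ hL0.le hlogx1 4
    calc (x : ℝ) / Real.log x ^ 4 ≤ (2 * N) / L ^ 4 := by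
          apply div_le_div₀ (by positivity) hx2N (by positivity) h6
      _ = _ := by ring
  -- the main term
  have hS := bs_sel (N := N) (W := W) (ν := ν) (a := a) (b := b) (R := R) hqe hq1
  have hφq : (0 : ℝ) < Nat.totient (W * ds a b) := by exact_mod_cast Nat.totient_pos.2 hq1
  have hq0 : (0 : ℝ) < ((W * ds a b : ℕ) : ℝ) := by exact_mod_cast hq1
  have hlogR : (1 / 4 - δ) * L ≤ Real.log ((R : ℝ) + 1) := by
    have h6 : Real.log Y ≤ Real.log ((R : ℝ) + 1) := Real.log_le_log (by linarith) hYR.le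
    rw [hY, Real.log_rpow hN0] at h6
    exact h6
  have hpos : 0 < (1 / 4 - δ) * L := mul_pos (by linarith) hL0
  have hS2 : ((Nat.totient (W * ds a b) : ℝ) / ((W * ds a b : ℕ) : ℝ)) * ((1 / 4 - δ) * L) ≤
      selS (bs N W ν a b R (W * ds a b) hqe) (R : ℝ) := by
    refine le_trans ?_ hS
    exact mul_le_mul_of_nonneg_left hlogR (by positivity)
  have hmass0 : 0 ≤ H343E.pi1 (N + a) / Nat.totient W := by
    unfold H343E.pi1
    positivity
  have h6 : (bs N W ν a b R (W * ds a b) hqe).totalMass / selS (bs N W ν a b R (W * ds a b) hqe) (R : ℝ) ≤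
      H343E.pi1 (N + a) / Nat.totient W *
        ((((W * ds a b : ℕ) : ℝ) / Nat.totient (W * ds a b)) / ((1 / 4 - δ) * L)) := by
    have h7 : (bs N W ν a b R (W * ds a b) hqe).totalMass = H343E.pi1 (N + a) / Nat.totient W := rfl
    rw [h7]
    have h8 : 0 < ((Nat.totient (W * ds a b) : ℝ) / ((W * ds a b : ℕ) : ℝ)) * ((1 / 4 - δ) * L) :=
      mul_pos (by positivity) hpos
    refine (div_le_div_of_nonneg_left hmass0 h8 hS2).trans (le_of_eq ?_)
    field_simp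
  linarith

end Pool.Agent.L0h43.TB
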