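import Pool.Agent.L0h43.TB.BDc

/-!
# A third prime next to every pair
-/

set_option autoImplicit false

namespace Pool.Agent.L0h43.TB

open Finset Filter Topology Pool.Agent.H387R2
open Pool.Agent.L0h43.TA
open Pool.Agent.H386R2.HL

/-- **pairs of primes in a class modulo `W`** -/
theorem pair_class (ε : ℝ) (hε : 0 < ε) : ∃ w0 : ℕ, ∀ w : ℕ, w0 ≤ w → ∀ A : ℝ, ∃ N₀ : ℕ, ∀ N : ℕ,
    N₀ ≤ N → ∀ a b : ℕ, a ≠ b → (a : ℝ) ≤ Real.log N ^ A → ∀ ν : ℕ, ν < Uni.WW w → OK (Uni.WW w) ν {a, b} →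
    (pc N (Uni.WW w) ν {a, b} : ℝ) ≤ (4 + ε) * Ew N (Uni.WW w) {a, b} := by
  classical
  obtain ⟨κ, hκ⟩ : ∃ κ : ℝ, κ = min (1 / 2) (ε / 88) := ⟨_, rfl⟩
  have hκ0 : 0 < κ := by rw [hκ]; exact lt_min (by norm_num) (by positivity)
  have hκ1 : κ ≤ 1 / 2 := by rw [hκ]; exact min_le_left _ _
  have hκε : κ ≤ ε / 88 := by rw [hκ]; exact min_le_right _ _
  refine ⟨max 8 ⌈3 / κ⌉₊, fun w hw A => ?_⟩
  have hw8 : 8 ≤ w := (le_max_left _ _).trans hw
  have hwκ' : ⌈3 / κ⌉₊ ≤ w := (le_max_right _ _).trans hw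
  have hw0 : (0 : ℝ) < w := by
    have : 0 < w := by omega
    exact_mod_cast this
  have hwκ : 3 / (w : ℝ) ≤ κ := by
    have h1 : 3 / κ ≤ w := (Nat.le_ceil _).trans (by exact_mod_cast hwκ')
    rw [div_le_iff₀ hκ0] at h1
    rw [div_le_iff₀ hw0]
    linarith
  obtain ⟨W, hW⟩ : ∃ W, W = Uni.WW w := ⟨_, rfl⟩
  have hWpos : 0 < W := by rw [hW]; exact Uni.WW_pos w
  have hW0 : (0 : ℝ) < W := by exact_mod_cast hWpos
  have hφ0 : (0 : ℝ) < Nat.totient W := by exact_mod_cast Nat.totient_pos.2 hWpos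
  have hWe : Even W := by
    rw [even_iff_two_dvd, hW, dvd_WW Nat.prime_two]
    omega
  obtain ⟨N1, hN1⟩ := pair_raw W hWpos hWe (κ / 16) (by positivity) (by linarith) A
  have tN : Tendsto (fun N : ℕ => (N : ℝ)) atTop atTop := tendsto_natCast_atTop_atTop
  obtain ⟨N₀, hN₀⟩ := eventually_atTop.1 ((pi_up (κ / 2) (by positivity)).and
    ((tN.eventually (ev_logpow (2 / κ) (A + 1) 1 one_pos)).and
    ((tN.eventually (Real.tendsto_log_atTop.eventually_ge_atTop (max 1 (12 * W / ε)))).and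
    (eventually_ge_atTop (max N1 3)))))
  rw [← hW]
  refine ⟨N₀, fun N hN a b hab haA ν hν hOK => ?_⟩
  obtain ⟨g1, g2, g3, g4⟩ := hN₀ N hN
  have hNN1 : N1 ≤ N := (le_max_left _ _).trans g4
  have hN3 : 3 ≤ N := (le_max_right _ _).trans g4
  set L := Real.log (N : ℝ) with hL
  have hL1 : 1 ≤ L := (le_max_left _ _).trans g3
  have hLW : 12 * W / ε ≤ L := (le_max_right _ _).trans g3
  have hL0 : 0 < L := by linarith
  have hN0 : (0 : ℝ) < N := by
    have : 0 < N := by omega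
    exact_mod_cast this
  have hmain := hN1 N hNN1 a b hab haA ν hν (hOK a (mem_insert_self _ _))
  have hT : ({a, b} : Finset ℕ).card = 2 := card_pair hab
  obtain ⟨T, hTd⟩ : ∃ T : Finset ℕ, T = {a, b} := ⟨_, rfl⟩
  have hgpos : 0 < Uni.gT W T := by rw [hTd]; exact gT_pos hν hOK
  have hg0 : (0 : ℝ) < Uni.gT W T := by exact_mod_cast hgpos
  have hCTp := CT_pair hab (show 4 ≤ w by omega)
  have hlow := CT_low (w := w) T (by omega) (by rw [hTd, hT]; omega) (by rw [← hW]; exact hgpos)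
  rw [← hW, ← hTd] at hCTp
  rw [← hTd] at hT hmain ⊢
  rw [← hW] at hlow
  obtain ⟨Q, hQ⟩ : ∃ Q : ℝ, Q = ((W * ds a b : ℕ) : ℝ) / Nat.totient (W * ds a b) := ⟨_, rfl⟩
  rw [← hQ] at hCTp hmain
  have hQ0 : 0 ≤ Q := by rw [hQ]; positivity
  -- the number of primes
  have hpi : H343E.pi1 (N + a) ≤ (1 + κ) * (N / L) := by
    have h1 : H343E.pi1 (N + a) ≤ ((pr N).card : ℝ) + a := by
      have h2 : (Icc 1 (N + a)).filter (fun p => p.Prime) ⊆ pr N ∪ Ioc N (N + a) := by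
        intro p hp
        rw [mem_filter, mem_Icc] at hp
        unfold pr
        rw [mem_union, mem_filter, mem_Icc, mem_Ioc]
        by_cases h : p ≤ N
        · left; exact ⟨⟨hp.1.1, h⟩, hp.2⟩
        · right; exact ⟨by omega, hp.1.2⟩
      have h3 := (card_le_card h2).trans (card_union_le _ _)
      rw [Nat.card_Ioc, Nat.add_sub_cancel_left] at h3
      unfold H343E.pi1
      exact_mod_cast h3
    have h4 : (a : ℝ) ≤ κ / 2 * (N / L) := by
      rw [Real.rpow_one, Real.rpow_add hL0, Real.rpow_one] at g2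
      rw [mul_div_assoc', le_div_iff₀ hL0]
      have h5 : (a : ℝ) * L ≤ L ^ A * L := mul_le_mul_of_nonneg_right haA hL0.le
      have h6 : κ / 2 * (2 / κ * (L ^ A * L)) ≤ κ / 2 * N := mul_le_mul_of_nonneg_left g2 (by positivity)
      have h7 : κ / 2 * (2 / κ * (L ^ A * L)) = L ^ A * L := by field_simp
      linarith
    have h8 : (1 + κ) * ((N : ℝ) / L) = (1 + κ / 2) * (N / L) + κ / 2 * (N / L) := by ring
    rw [h8]
    linarith
  -- the singular series
  have hq : Q / Nat.totient W ≤ (1 + 2 * κ) * (Uni.CT T / Uni.gT W T) := by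
    have h1 : (1 - κ) * (Q / Nat.totient W * Uni.gT W T) ≤ Uni.CT T := by
      refine le_trans ?_ hCTp
      have e : Q * ((W : ℝ) / Nat.totient W) * (Uni.gT W T / W) = Q / Nat.totient W * Uni.gT W T := by
        field_simp
      rw [e]
      exact mul_le_mul_of_nonneg_right (by linarith) (by positivity)
    rw [mul_div_assoc', le_div_iff₀ hg0]
    have h2 : (1 + 2 * κ) * ((1 - κ) * (Q / Nat.totient W * Uni.gT W T)) ≤ (1 + 2 * κ) * Uni.CT T :=
      mul_le_mul_of_nonneg_left h1 (by linarith)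
    have h3 : (1 + 2 * κ) * ((1 - κ) * (Q / Nat.totient W * Uni.gT W T)) =
        Q / Nat.totient W * Uni.gT W T + κ * (1 - 2 * κ) * (Q / Nat.totient W * Uni.gT W T) := by ring
    have h4 : 0 ≤ κ * (1 - 2 * κ) * (Q / Nat.totient W * Uni.gT W T) := by
      apply mul_nonneg (mul_nonneg hκ0.le (by linarith)) (by positivity)
    linarith
  have hCT := Uni.CT_nonneg T
  obtain ⟨E, hE⟩ : ∃ E, E = Ew N W T := ⟨_, rfl⟩
  have hEe : E = N / L ^ 2 * (Uni.CT T / Uni.gT W T) := by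
    rw [hE]
    unfold Ew
    rw [hT]
  have hE0 : 0 ≤ E := by rw [hEe]; positivity
  rw [← hE]
  have hδ : 1 / (1 / 4 - κ / 16) ≤ 4 * (1 + κ) := by
    rw [div_le_iff₀ (by linarith)]
    nlinarith
  have h1 : H343E.pi1 (N + a) / Nat.totient W * (Q / ((1 / 4 - κ / 16) * L)) ≤ (4 + ε / 2) * E := by
    have h2 : H343E.pi1 (N + a) / Nat.totient W * (Q / ((1 / 4 - κ / 16) * L)) =
        (1 / (1 / 4 - κ / 16)) * (H343E.pi1 (N + a) / L) * (Q / Nat.totient W) := by
      have : (1 / 4 - κ / 16 : ℝ) ≠ 0 := by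
        have : 0 < (1 / 4 - κ / 16 : ℝ) := by linarith
        exact this.ne'
      field_simp
    rw [h2]
    have h3 : H343E.pi1 (N + a) / L ≤ (1 + κ) * (N / L ^ 2) := by
      rw [div_le_iff₀ hL0]
      refine hpi.trans (le_of_eq ?_)
      field_simp
    have hpi0 : 0 ≤ H343E.pi1 (N + a) / L := by unfold H343E.pi1; positivity
    calc (1 / (1 / 4 - κ / 16)) * (H343E.pi1 (N + a) / L) * (Q / Nat.totient W) ≤
        (4 * (1 + κ)) * ((1 + κ) * (N / L ^ 2)) * ((1 + 2 * κ) * (Uni.CT T / Uni.gT W T)) := by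
          apply mul_le_mul _ hq (by positivity) (by positivity)
          exact mul_le_mul hδ h3 hpi0 (by positivity)
      _ = (4 * ((1 + κ) * (1 + κ) * (1 + 2 * κ))) * E := by rw [hEe]; ring
      _ ≤ (4 + ε / 2) * E := by
          apply mul_le_mul_of_nonneg_right _ hE0
          have h4 : (1 + κ) * (1 + κ) * (1 + 2 * κ) ≤ 1 + 11 * κ := by nlinarith [mul_pos hκ0 hκ0]
          linarith
  have h2 : 3 * ((N : ℝ) / L ^ 4) ≤ ε / 2 * E := by
    have h3 : (N : ℝ) / L ^ 2 * (1 / (2 * W)) ≤ E := by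
      rw [hEe]
      exact mul_le_mul_of_nonneg_left hlow (by positivity)
    refine le_trans ?_ (mul_le_mul_of_nonneg_left h3 (by positivity))
    rw [div_le_iff₀ hε] at hLW
    have e1 : 3 * ((N : ℝ) / L ^ 4) = 3 * N / (L ^ 2 * L ^ 2) := by
      rw [← pow_add]
      ring
    have e2 : ε / 2 * ((N : ℝ) / L ^ 2 * (1 / (2 * W))) = N * ε / (4 * W * L ^ 2) := by
      field_simp
      ring
    rw [e1, e2, div_le_div_iff₀ (by positivity) (by positivity)]
    have h4 : 12 * (W : ℝ) ≤ L ^ 2 * ε := by nlinarith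
    have h5 : 0 ≤ (N : ℝ) * L ^ 2 := by positivity
    have h6 := mul_le_mul_of_nonneg_left h4 h5
    nlinarith
  linarith

end Pool.Agent.L0h43.TB
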