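import Pool.Agent.L0h43.TB.BDd

/-!
# A third prime next to every pair: weighted sums
-/

set_option autoImplicit false

namespace Pool.Agent.L0h43.TB

open Finset Filter Topology Pool.Agent.H387R2
open Pool.Agent.L0h43.TA
open Pool.Agent.H386R2.HL

/-- one more shift for a set with a good bound in every class -/
lemma step_T {j N w u H : ℕ} {η c : ℝ} (T : Finset ℕ) (hTj : T.card = j) (hη0 : 0 < η) (hη2 : η ≤ 1 / 2)
    (hc : 0 ≤ c) (hN3 : 3 ≤ N) (hws : w ≤ Nat.sqrt N) (hwη : (4 * (j : ℝ) + 1) / w ≤ η)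
    (hw4 : 4 * (j + 1) ≤ w) (g : ℕ → ℝ) (hg0 : ∀ h, 0 ≤ g h) (hg1 : ∀ h, g h ≤ 1)
    (hpc : ∀ ν, ν < Uni.WW w → OK (Uni.WW w) ν T → (pc N (Uni.WW w) ν T : ℝ) ≤ c * Ew N (Uni.WW w) T)
    (hMT : ∀ ν, ν < Uni.WW w → OK (Uni.WW w) ν T →
      ∑ h ∈ Jv (Uni.WW w) ν u H \ T, g h * (pc N (Uni.WW w) ν (insert h T) : ℝ) ≤
        ((4 + η) * ((Uni.WW w : ℝ) / Nat.totient (Uni.WW w)) * (∑ h ∈ Jv (Uni.WW w) ν u H \ T, g h) + η * H) /
          Real.log N * pc N (Uni.WW w) ν T + η * (H / Real.log N) * Ew N (Uni.WW w) T)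
    (havg : ∑ h ∈ Ioc u (u + H) \ T, Uni.CT (insert h T) ≤ 2 * H * Uni.CT T) :
    ∑ h ∈ Ioc u (u + H) \ T, g h * (pc N 1 0 (insert h T) : ℝ) ≤
      4 * c * ∑ h ∈ Ioc u (u + H) \ T, g h * (N / Real.log N ^ (j + 1) * Uni.CT (insert h T)) +
        (21 * c + 1) * η * (H / Real.log N) * (N / Real.log N ^ j * Uni.CT T) := by
  classical
  obtain ⟨W, hW⟩ : ∃ W, W = Uni.WW w := ⟨_, rfl⟩
  have hWpos : 0 < W := by rw [hW]; exact Uni.WW_pos w
  have hφ0 : (0 : ℝ) < Nat.totient W := by exact_mod_cast Nat.totient_pos.2 hWpos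
  have hW0 : (0 : ℝ) < W := by exact_mod_cast hWpos
  have hN1 : 1 ≤ N := by omega
  have hN3r : (3 : ℝ) ≤ N := by exact_mod_cast hN3
  set L := Real.log (N : ℝ) with hL
  have hL0 : 0 < L := Real.log_pos (by linarith)
  have hw0 : (0 : ℝ) < w := by
    have : 0 < w := by omega
    exact_mod_cast this
  have hCT := Uni.CT_nonneg T
  obtain ⟨I, hI⟩ : ∃ I, I = Ioc u (u + H) \ T := ⟨_, rfl⟩
  obtain ⟨S, hS⟩ : ∃ S, S = (range (Uni.WW w)).filter (fun ν => ν % Uni.WW 0 = 0 ∧ OK (Uni.WW w) ν T) := ⟨_, rfl⟩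
  have e1 : ∀ h, (pc N 1 0 (insert h T) : ℝ) = ∑ ν ∈ S, (pc N (Uni.WW w) ν (insert h T) : ℝ) := by
    intro h
    have := pc_cls (N := N) (w' := 0) (w := w) (ν' := 0) (T := T) (insert h T) (subset_insert _ _) (Nat.zero_le _) hws
    rw [WW_zero] at this
    rw [hS, WW_zero]
    exact_mod_cast this
  have hEw0 : Ew N 1 T = N / L ^ j * Uni.CT T := by
    unfold Ew
    rw [gT_one, hTj, ← hL, Nat.cast_one, div_one]
  have hEwI : ∀ h ∈ I, Ew N 1 (insert h T) = N / L ^ (j + 1) * Uni.CT (insert h T) := by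
    intro h hh
    rw [hI, Finset.mem_sdiff] at hh
    unfold Ew
    rw [gT_one, card_insert_of_notMem hh.2, hTj, ← hL, Nat.cast_one, div_one]
  -- one class
  have key : ∀ ν ∈ S, ∑ h ∈ I, g h * (pc N (Uni.WW w) ν (insert h T) : ℝ) ≤
      (4 + η) * c * (1 + 2 * η) * ∑ h ∈ I, (if OK (Uni.WW w) ν (insert h T) then
        g h * Ew N (Uni.WW w) (insert h T) else 0) + η * (c + 1) * (H / L) * Ew N (Uni.WW w) T := by
    intro ν hν
    rw [hS, mem_filter, mem_range] at hν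
    have h1 := hMT ν hν.1 hν.2.2
    have h2 := sum_Jv (u := u) (H := H) (ν := ν) (T := T) hws g
    rw [hI, h2]
    refine h1.trans ?_
    rw [← hW]
    obtain ⟨G, hG⟩ : ∃ G, G = ∑ h ∈ Jv W ν u H \ T, g h := ⟨_, rfl⟩
    have hG0 : 0 ≤ G := by rw [hG]; exact sum_nonneg fun h _ => hg0 h
    rw [← hG]
    obtain ⟨E, hE⟩ : ∃ E, E = Ew N W T := ⟨_, rfl⟩
    have hE0 : 0 ≤ E := by rw [hE]; exact Ew_nonneg hN1
    have hp := hpc ν hν.1 hν.2.2
    rw [← hW, ← hE] at hp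
    rw [← hE]
    have h3 : ((4 + η) * ((W : ℝ) / Nat.totient W) * G + η * H) / L * pc N W ν T ≤
        ((4 + η) * ((W : ℝ) / Nat.totient W) * G + η * H) / L * (c * E) :=
      mul_le_mul_of_nonneg_left hp (by positivity)
    have h4 : (W : ℝ) / Nat.totient W * G / L * E ≤
        (1 + 2 * η) * ∑ h ∈ Jv W ν u H \ T, g h * Ew N W (insert h T) := by
      rw [hG, mul_sum, mul_sum, sum_div, sum_mul]
      apply sum_le_sum
      intro h hh
      rw [Finset.mem_sdiff] at hh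
      have hh1 : Nat.Coprime W (ν + h) := by
        unfold Jv at hh
        exact (mem_filter.1 hh.1).2
      have hOK2 : OK W ν (insert h T) := by
        intro t ht
        rcases mem_insert.1 ht with rfl | ht
        · exact hh1
        · rw [hW]; exact hν.2.2 t ht
      have hνW : ν < W := by rw [hW]; exact hν.1
      have hOKW : OK W ν T := by rw [hW]; exact hν.2.2
      have hg1' := gT_pos hνW hOK2
      have hg2' := gT_pos hνW hOKW
      have hst := star (w := w) T h (by rw [hTj]; omega) hh.2 (by rw [← hW]; exact hg1') (by rw [← hW]; exact hg2')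
      rw [hTj, ← hW] at hst
      have h5 : (W : ℝ) / Nat.totient W * (Uni.CT T / Uni.gT W T) ≤
          (1 + 2 * η) * (Uni.CT (insert h T) / Uni.gT W (insert h T)) := by
        set X := (W : ℝ) / Nat.totient W * (Uni.CT T / Uni.gT W T) with hX
        set Y := Uni.CT (insert h T) / Uni.gT W (insert h T) with hY
        have hX0 : 0 ≤ X := by positivity
        have h6 : (1 - η) * X ≤ Y := by
          have : X * (1 - η) ≤ X * (1 - (4 * (j : ℝ) + 1) / w) := mul_le_mul_of_nonneg_left (by linarith) hX0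
          linarith
        have h7 : (1 + 2 * η) * ((1 - η) * X) ≤ (1 + 2 * η) * Y := mul_le_mul_of_nonneg_left h6 (by linarith)
        have h8 : X ≤ (1 + 2 * η) * ((1 - η) * X) := by
          have : (1 + 2 * η) * ((1 - η) * X) = X + η * (1 - 2 * η) * X := by ring
          rw [this]
          have : 0 ≤ η * (1 - 2 * η) * X := mul_nonneg (mul_nonneg hη0.le (by linarith)) hX0
          linarith
        linarith
      rw [hE]
      unfold Ew
      rw [card_insert_of_notMem hh.2, hTj, ← hL]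
      have h9 := mul_le_mul_of_nonneg_left h5 (show 0 ≤ g h * (N / L ^ (j + 1)) by
        have := hg0 h
        positivity)
      calc (W : ℝ) / Nat.totient W * g h / L * (N / L ^ j * (Uni.CT T / Uni.gT W T)) =
          g h * (N / L ^ (j + 1)) * ((W : ℝ) / Nat.totient W * (Uni.CT T / Uni.gT W T)) := by
            rw [pow_succ L j]
            field_simp
        _ ≤ _ := h9
        _ = _ := by ring
    have h5 : ∑ h ∈ Jv W ν u H \ T, g h * Ew N W (insert h T) ≤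
        ∑ h ∈ Ioc u (u + H) \ T, (if OK W ν (insert h T) then g h * Ew N W (insert h T) else 0) := by
      rw [← sum_filter]
      apply sum_le_sum_of_subset_of_nonneg
      · intro h hh
        rw [Finset.mem_sdiff] at hh
        unfold Jv at hh
        rw [mem_filter] at hh
        rw [mem_filter, Finset.mem_sdiff]
        refine ⟨⟨hh.1.1, hh.2⟩, ?_⟩
        intro t ht
        rcases mem_insert.1 ht with rfl | ht
        · exact hh.1.2
        · rw [hW]; exact hν.2.2 t ht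
      · intro h _ _
        exact mul_nonneg (hg0 h) (Ew_nonneg hN1)
    obtain ⟨Z, hZ⟩ : ∃ Z, Z = ∑ h ∈ Ioc u (u + H) \ T, (if OK W ν (insert h T) then g h * Ew N W (insert h T) else 0) :=
      ⟨_, rfl⟩
    rw [← hZ] at h5 ⊢
    have h6 : (W : ℝ) / Nat.totient W * G / L * E ≤ (1 + 2 * η) * Z :=
      h4.trans (mul_le_mul_of_nonneg_left h5 (by linarith))
    have h7 : ((4 + η) * ((W : ℝ) / Nat.totient W) * G + η * H) / L * (c * E) =
        (4 + η) * c * ((W : ℝ) / Nat.totient W * G / L * E) + η * c * (H / L) * E := by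
      field_simp
    have h8 : (4 + η) * c * ((W : ℝ) / Nat.totient W * G / L * E) ≤ (4 + η) * c * ((1 + 2 * η) * Z) :=
      mul_le_mul_of_nonneg_left h6 (by positivity)
    have h9 : η * (c + 1) * (H / L) * E = η * c * (H / L) * E + η * (H / L) * E := by ring
    rw [h9]
    have h10 : (4 + η) * c * (1 + 2 * η) * Z = (4 + η) * c * ((1 + 2 * η) * Z) := by ring
    rw [h10]
    linarith
  have hsum : ∑ h ∈ I, g h * (pc N 1 0 (insert h T) : ℝ) =
      ∑ ν ∈ S, ∑ h ∈ I, g h * (pc N (Uni.WW w) ν (insert h T) : ℝ) := by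
    rw [sum_comm]
    apply sum_congr rfl
    intro h _
    rw [e1, mul_sum]
  rw [← hI, hsum]
  refine (sum_le_sum key).trans ?_
  rw [sum_add_distrib, ← mul_sum, ← mul_sum]
  -- the sums over the classes
  have h1 : ∑ ν ∈ S, ∑ h ∈ I, (if OK (Uni.WW w) ν (insert h T) then g h * Ew N (Uni.WW w) (insert h T) else 0) ≤
      ∑ h ∈ I, g h * (N / L ^ (j + 1) * Uni.CT (insert h T)) := by
    rw [sum_comm]
    apply sum_le_sum
    intro h hh
    rw [← sum_filter, ← mul_sum, ← hEwI h hh]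
    apply mul_le_mul_of_nonneg_left _ (hg0 h)
    have h2 := Ew_sum (N := N) (w' := 0) (w := w) (a := 0) (T := insert h T) hN1 (Nat.zero_le _)
      (by rw [WW_zero]; exact one_pos) (by rw [WW_zero]; exact OK_one _ _)
    rw [WW_zero] at h2
    refine le_trans ?_ h2
    apply sum_le_sum_of_subset_of_nonneg
    · intro ν hν
      rw [mem_filter] at hν
      rw [hS, mem_filter, WW_zero] at hν
      rw [mem_filter]
      exact ⟨hν.1.1, hν.1.2.1, hν.2⟩
    · intro ν _ _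
      exact Ew_nonneg hN1
  have h2 : ∑ _ν ∈ S, Ew N (Uni.WW w) T ≤ N / L ^ j * Uni.CT T := by
    have h3 := Ew_sum (N := N) (w' := 0) (w := w) (a := 0) (T := T) hN1 (Nat.zero_le _)
      (by rw [WW_zero]; exact one_pos) (by rw [WW_zero]; exact OK_one _ _)
    rw [← hS, WW_zero, hEw0] at h3
    exact h3
  obtain ⟨Z, hZ⟩ : ∃ Z, Z = ∑ h ∈ I, g h * (N / L ^ (j + 1) * Uni.CT (insert h T)) := ⟨_, rfl⟩
  rw [← hZ] at h1 ⊢
  have hZ0 : 0 ≤ Z := by
    rw [hZ]
    apply sum_nonneg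
    intro h _
    have := hg0 h
    have := Uni.CT_nonneg (insert h T)
    positivity
  obtain ⟨F, hF⟩ : ∃ F, F = (N : ℝ) / L ^ j * Uni.CT T := ⟨_, rfl⟩
  rw [← hF] at h2 ⊢
  have hF0 : 0 ≤ F := by rw [hF]; positivity
  have hZF : Z ≤ 2 * (H / L) * F := by
    rw [hZ]
    calc ∑ h ∈ I, g h * (N / L ^ (j + 1) * Uni.CT (insert h T)) ≤
        ∑ h ∈ I, N / L ^ (j + 1) * Uni.CT (insert h T) := by
          apply sum_le_sum
          intro h _
          have := Uni.CT_nonneg (insert h T)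
          exact mul_le_of_le_one_left (by positivity) (hg1 h)
      _ = N / L ^ (j + 1) * ∑ h ∈ I, Uni.CT (insert h T) := by rw [mul_sum]
      _ ≤ N / L ^ (j + 1) * (2 * H * Uni.CT T) := by
          apply mul_le_mul_of_nonneg_left _ (by positivity)
          rw [hI]; exact havg
      _ = _ := by
          rw [hF, pow_succ L j]
          field_simp
  have h3 : (4 + η) * c * (1 + 2 * η) * ∑ ν ∈ S, ∑ h ∈ I, (if OK (Uni.WW w) ν (insert h T) then
      g h * Ew N (Uni.WW w) (insert h T) else 0) ≤ (4 + η) * c * (1 + 2 * η) * Z :=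
    mul_le_mul_of_nonneg_left h1 (by positivity)
  have h4 : η * (c + 1) * (H / L) * ∑ _ν ∈ S, Ew N (Uni.WW w) T ≤ η * (c + 1) * (H / L) * F :=
    mul_le_mul_of_nonneg_left h2 (by positivity)
  have h5 : (4 + η) * c * (1 + 2 * η) * Z ≤ 4 * c * Z + 20 * c * η * (H / L) * F := by
    have h6 : (4 + η) * c * (1 + 2 * η) * Z = 4 * c * Z + c * (9 * η + 2 * η * η) * Z := by ring
    rw [h6]
    apply add_le_add le_rfl
    have h7 : 9 * η + 2 * η * η ≤ 10 * η := by nlinarith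
    calc c * (9 * η + 2 * η * η) * Z ≤ c * (10 * η) * (2 * (H / L) * F) := by
          apply mul_le_mul _ hZF hZ0 (by positivity)
          exact mul_le_mul_of_nonneg_left h7 hc
      _ = _ := by ring
  have h6 : (21 * c + 1) * η * (H / L) * F = 20 * c * η * (H / L) * F + η * (c + 1) * (H / L) * F := by ring
  rw [h6]
  linarith

/-- sums over one element sets -/
lemma avg_one (j : ℕ) (A : ℝ) (hA : 0 ≤ A) : ∃ L₀ : ℝ, ∀ L : ℝ, L₀ ≤ L → ∀ T : Finset ℕ,
    T.card = j → (∀ t ∈ T, (t : ℝ) ≤ L ^ A) → ∀ u H : ℕ, L ≤ H → ((u + H : ℕ) : ℝ) ≤ L ^ A →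
      ∑ h ∈ Ioc u (u + H) \ T, Uni.CT (insert h T) ≤ 2 * H * Uni.CT T := by
  obtain ⟨L₀, hL₀⟩ := avg_up j 1 1 A one_pos hA
  refine ⟨L₀, fun L hL T hT hTA u H hLH hHA => ?_⟩
  have h := hL₀ L hL T hT hTA u H hLH hHA
  have e := sum_ins (Ioc u (u + H) \ T) 0 (fun D => Uni.CT (T ∪ D))
  rw [powersetCard_zero, sum_singleton, zero_add, Nat.cast_one, one_mul] at e
  rw [Nat.factorial_one, Nat.cast_one, one_mul, e, pow_one] at h
  have e2 : ∑ h ∈ Ioc u (u + H) \ T, Uni.CT (insert h T) =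
      ∑ h ∈ (Ioc u (u + H) \ T) \ ∅, Uni.CT (T ∪ insert h ∅) := by
    rw [sdiff_empty]
    apply sum_congr rfl
    intro h _
    congr 1
    rw [union_insert, union_empty]
  rw [e2]
  linarith

/-- **a third prime next to every pair** -/
theorem trip_sum (ε : ℝ) (hε : 0 < ε) : ∃ K : ℝ, 1 ≤ K ∧ ∀ A : ℝ, 0 ≤ A → ∃ N₀ : ℕ, ∀ N : ℕ, N₀ ≤ N →
    ∀ a b : ℕ, a ≠ b → (a : ℝ) ≤ Real.log N ^ A → (b : ℝ) ≤ Real.log N ^ A → ∀ u H : ℕ, K * Real.log N ≤ H →
      ((u + H : ℕ) : ℝ) ≤ Real.log N ^ A → ∀ g : ℕ → ℝ, (∀ h, 0 ≤ g h) → (∀ h, g h ≤ 1) →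
      ∑ h ∈ Ioc u (u + H) \ {a, b}, g h * (pc N 1 0 (insert h {a, b}) : ℝ) ≤
        16 * ∑ h ∈ Ioc u (u + H) \ {a, b}, g h * (N / Real.log N ^ 3 * Uni.CT (insert h {a, b})) +
          ε * (H / Real.log N) * (N / Real.log N ^ 2 * Uni.CT {a, b}) := by
  classical
  obtain ⟨η, hη⟩ : ∃ η : ℝ, η = min (1 / 2) (ε / 200) := ⟨_, rfl⟩
  have hη0 : 0 < η := by rw [hη]; exact lt_min (by norm_num) (by positivity)
  have hη2 : η ≤ 1 / 2 := by rw [hη]; exact min_le_left _ _
  have hηε : η ≤ ε / 200 := by rw [hη]; exact min_le_right _ _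
  obtain ⟨K, hK, w1, HMT⟩ := MT 2 η η hη0 (by linarith) hη0 (by linarith)
  obtain ⟨w2, HP⟩ := pair_class η hη0
  obtain ⟨w, hw⟩ : ∃ w, w = max (max w1 w2) (max 12 ⌈(4 * ((2 : ℕ) : ℝ) + 1) / η⌉₊) := ⟨_, rfl⟩
  have hww1 : w1 ≤ w := by rw [hw]; exact (le_max_left _ _).trans (le_max_left _ _)
  have hww2 : w2 ≤ w := by rw [hw]; exact (le_max_right _ _).trans (le_max_left _ _)
  have hw12 : 12 ≤ w := by rw [hw]; exact (le_max_left _ _).trans (le_max_right _ _)
  have hwη' : ⌈(4 * ((2 : ℕ) : ℝ) + 1) / η⌉₊ ≤ w := by rw [hw]; exact (le_max_right _ _).trans (le_max_right _ _)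
  have hw0 : (0 : ℝ) < w := by
    have : 0 < w := by omega
    exact_mod_cast this
  have hwη : (4 * ((2 : ℕ) : ℝ) + 1) / w ≤ η := by
    have h1 : (4 * ((2 : ℕ) : ℝ) + 1) / η ≤ w := (Nat.le_ceil _).trans (by exact_mod_cast hwη')
    rw [div_le_iff₀ hη0] at h1
    rw [div_le_iff₀ hw0]
    linarith
  refine ⟨K, hK, fun A hA => ?_⟩
  obtain ⟨N1, hN1⟩ := HMT w hww1 A hA
  obtain ⟨N2, hN2⟩ := HP w hww2 A
  obtain ⟨L₀, hL₀⟩ := avg_one 2 A hA
  have tL : Tendsto (fun N : ℕ => Real.log (N : ℝ)) atTop atTop :=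
    Real.tendsto_log_atTop.comp tendsto_natCast_atTop_atTop
  obtain ⟨N₀, hN₀⟩ := eventually_atTop.1 ((tL.eventually_ge_atTop (max 1 L₀)).and
    (eventually_ge_atTop (max (max N1 N2) (max 3 (w * w)))))
  refine ⟨N₀, fun N hN a b hab haA hbA u H hKH hHA g hg0 hg1 => ?_⟩
  obtain ⟨l1, l2⟩ := hN₀ N hN
  have hL1 : 1 ≤ Real.log N := (le_max_left _ _).trans l1
  have hLL₀ : L₀ ≤ Real.log N := (le_max_right _ _).trans l1
  have hNN1 : N1 ≤ N := ((le_max_left _ _).trans (le_max_left _ _)).trans l2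
  have hNN2 : N2 ≤ N := ((le_max_right _ _).trans (le_max_left _ _)).trans l2
  have hN3 : 3 ≤ N := ((le_max_left _ _).trans (le_max_right _ _)).trans l2
  have hNw : w * w ≤ N := ((le_max_right _ _).trans (le_max_right _ _)).trans l2
  have hws : w ≤ Nat.sqrt N := Nat.le_sqrt.2 hNw
  have hL0 : 0 < Real.log N := by linarith
  have hLH : Real.log N ≤ H := (le_mul_of_one_le_left hL0.le hK).trans hKH
  have hT2 : ({a, b} : Finset ℕ).card = 2 := card_pair hab
  have hTA : ∀ t ∈ ({a, b} : Finset ℕ), (t : ℝ) ≤ Real.log N ^ A := by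
    intro t ht
    rw [mem_insert, mem_singleton] at ht
    rcases ht with rfl | rfl
    · exact haA
    · exact hbA
  have h := step_T (c := 4 + η) {a, b} hT2 hη0 hη2 (by linarith) hN3 hws hwη (by omega) g hg0 hg1
    (fun ν hν hOK => hN2 N hNN2 a b hab haA ν hν hOK)
    (fun ν hν hOK => hN1 N hNN1 {a, b} hT2 hTA ν hν hOK u H hKH hHA g hg0 hg1)
    (hL₀ _ hLL₀ {a, b} hT2 hTA u H hLH hHA)
  refine h.trans ?_
  obtain ⟨Z, hZ⟩ : ∃ Z, Z = ∑ h ∈ Ioc u (u + H) \ {a, b}, g h * (N / Real.log N ^ 3 * Uni.CT (insert h {a, b})) :=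
    ⟨_, rfl⟩
  have e1 : ∑ h ∈ Ioc u (u + H) \ {a, b}, g h * (N / Real.log N ^ (2 + 1) * Uni.CT (insert h {a, b})) = Z := by
    rw [hZ]
  rw [e1]
  obtain ⟨F, hF⟩ : ∃ F, F = (N : ℝ) / Real.log N ^ 2 * Uni.CT {a, b} := ⟨_, rfl⟩
  rw [← hF]
  have hCT := Uni.CT_nonneg {a, b}
  have hN0 : (0 : ℝ) < N := by
    have : 0 < N := by omega
    exact_mod_cast this
  have hF0 : 0 ≤ F := by rw [hF]; positivity
  have hZF : Z ≤ 2 * (H / Real.log N) * F := by
    rw [hZ]
    calc ∑ h ∈ Ioc u (u + H) \ {a, b}, g h * (N / Real.log N ^ 3 * Uni.CT (insert h {a, b})) ≤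
        ∑ h ∈ Ioc u (u + H) \ {a, b}, N / Real.log N ^ 3 * Uni.CT (insert h {a, b}) := by
          apply sum_le_sum
          intro h _
          have := Uni.CT_nonneg (insert h {a, b})
          exact mul_le_of_le_one_left (by positivity) (hg1 h)
      _ = N / Real.log N ^ 3 * ∑ h ∈ Ioc u (u + H) \ {a, b}, Uni.CT (insert h {a, b}) := by rw [mul_sum]
      _ ≤ N / Real.log N ^ 3 * (2 * H * Uni.CT {a, b}) := by
          apply mul_le_mul_of_nonneg_left _ (by positivity)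
          exact hL₀ _ hLL₀ {a, b} hT2 hTA u H hLH hHA
      _ = _ := by
          rw [hF]
          field_simp
  have hHF : 0 ≤ ((H : ℝ) / Real.log N) * F := by positivity
  have h2 : 4 * (4 + η) * Z ≤ 16 * Z + 8 * η * ((H / Real.log N) * F) := by
    have : 4 * η * Z ≤ 4 * η * (2 * (H / Real.log N) * F) := mul_le_mul_of_nonneg_left hZF (by positivity)
    linarith
  have h3 : (21 * (4 + η) + 1) * η ≤ 106 * η := by nlinarith
  have h4 : (21 * (4 + η) + 1) * η * (H / Real.log N) * F ≤ 106 * η * ((H / Real.log N) * F) := by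
    rw [mul_assoc]
    exact mul_le_mul_of_nonneg_right h3 hHF
  have h5 : 114 * η * ((H / Real.log N) * F) ≤ ε * ((H / Real.log N) * F) :=
    mul_le_mul_of_nonneg_right (by linarith) hHF
  have h6 : ε * (H / Real.log N) * F = ε * ((H / Real.log N) * F) := by ring
  rw [h6]
  linarith

end Pool.Agent.L0h43.TB
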