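import Pool.Agent.L0h43.TB.BDe
import Pool.Agent.L0h43.TB.Fin

/-!
# A third prime next to every pair: real `x`, differences
-/

set_option autoImplicit false

namespace Pool.Agent.L0h43.TB

open Finset Filter Topology Pool.Agent.H387R2
open Pool.Agent.L0h43.TA
open Pool.Agent.H386R2.HL

theorem trip_real (ε : ℝ) (hε : 0 < ε) : ∃ K : ℝ, 1 ≤ K ∧ ∀ A : ℝ, 0 ≤ A → ∀ᶠ x : ℝ in atTop,
    ∀ a b : ℕ, a ≠ b → Uni.CT {a, b} ≠ 0 → (a : ℝ) ≤ Real.log x ^ A → (b : ℝ) ≤ Real.log x ^ A → ∀ u H : ℕ,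
      K * Real.log x ≤ H → ((u + H : ℕ) : ℝ) ≤ Real.log x ^ A → ∀ g : ℕ → ℝ, (∀ h, 0 ≤ g h) → (∀ h, g h ≤ 1) →
      ∑ h ∈ Ioc u (u + H) \ {a, b}, g h * (cnt x (insert h {a, b}) : ℝ) ≤
        (16 * ∑ h ∈ Ioc u (u + H) \ {a, b}, g h * Uni.CT (insert h {a, b}) + ε * H * Uni.CT {a, b}) *
          (x / Real.log x ^ 3) := by
  classical
  obtain ⟨c, hc, hlow⟩ := CT_pos_low 2
  obtain ⟨κ, hκ⟩ : ∃ κ : ℝ, κ = min 1 (ε / 128) := ⟨_, rfl⟩
  have hκ0 : 0 < κ := by rw [hκ]; exact lt_min one_pos (by positivity)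
  have hκ1 : κ ≤ 1 := by rw [hκ]; exact min_le_left _ _
  have hκε : κ ≤ ε / 128 := by rw [hκ]; exact min_le_right _ _
  obtain ⟨η, hη0, hη1, hη⟩ := choose_eta 3 κ hκ0 hκ1
  obtain ⟨K, hK, H0⟩ := trip_sum (ε / 8) (by positivity)
  refine ⟨K, hK, fun A hA => ?_⟩
  obtain ⟨N₀, hN₀⟩ := H0 (A + 1) (by linarith)
  obtain ⟨L₀, hL₀⟩ := avg_one 2 A hA
  filter_upwards [ev_real η A hη0 hA (max N₀ 3), ev_small (ε / 2 * c) (by positivity) ((3 : ℕ) : ℝ),
    Real.tendsto_log_atTop.eventually_ge_atTop L₀] with x h1 h2 hlL₀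
  obtain ⟨a1, a2, a3, a4, a5, a6, a7⟩ := h1
  intro a b hab hCT0 haA hbA u H hKH hHA g hg0 hg1
  obtain ⟨N, hN⟩ : ∃ N, N = ⌊x⌋₊ := ⟨_, rfl⟩
  rw [← hN] at a1 a2 a3 a4 a5 a6
  set L := Real.log (N : ℝ) with hL
  set l := Real.log x with hl
  have hL0 : 0 < L := by linarith
  have hl0 : 0 < l := by linarith
  have hx0 : 0 < x := by linarith
  have hKL : K * L ≤ H := (mul_le_mul_of_nonneg_left a3 (by linarith)).trans hKH
  have hlH : l ≤ H := (le_mul_of_one_le_left hl0.le hK).trans hKH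
  have hmain := hN₀ N ((le_max_left _ _).trans a1) a b hab (haA.trans a5) (hbA.trans a5) u H hKL (hHA.trans a5)
    g hg0 hg1
  rw [← hL] at hmain
  have hH0 : (0 : ℝ) < H := lt_of_lt_of_le (by positivity) hKL
  have hT2 : ({a, b} : Finset ℕ).card = 2 := card_pair hab
  have hclow := hlow {a, b} hT2 hCT0
  obtain ⟨C, hC⟩ : ∃ C, C = Uni.CT {a, b} := ⟨_, rfl⟩
  rw [← hC] at hclow hmain ⊢
  have hC0 : 0 < C := by linarith
  have hTA : ∀ t ∈ ({a, b} : Finset ℕ), (t : ℝ) ≤ l ^ A := by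
    intro t ht
    rw [mem_insert, mem_singleton] at ht
    rcases ht with rfl | rfl
    · exact haA
    · exact hbA
  have hsum := hL₀ l hlL₀ {a, b} hT2 hTA u H hlH hHA
  rw [← hC] at hsum
  obtain ⟨S, hS⟩ : ∃ S, S = Ioc u (u + H) \ {a, b} := ⟨_, rfl⟩
  rw [← hS] at hmain hsum ⊢
  have hScard : (S.card : ℝ) ≤ H := by
    have : S.card ≤ H := by
      rw [hS]
      refine (card_le_card sdiff_subset).trans ?_
      rw [Nat.card_Ioc]; omega
    exact_mod_cast this
  have h1η : (1 : ℝ) ≤ 1 + η := by linarith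
  have hpow : ∀ k : ℕ, k ≤ 3 → (N : ℝ) / L ^ k ≤ (1 + κ) * (x / l ^ k) := by
    intro k hk
    have h3 : (N : ℝ) / L ^ k ≤ (1 + η) ^ k * (x / l ^ k) := by
      rw [mul_div_assoc', div_le_div_iff₀ (by positivity) (by positivity)]
      have : l ^ k ≤ ((1 + η) * L) ^ k := pow_le_pow_left₀ hl0.le a4 _
      calc (N : ℝ) * l ^ k ≤ x * ((1 + η) * L) ^ k := mul_le_mul a6 this (by positivity) hx0.le
        _ = _ := by rw [mul_pow]; ring
    exact h3.trans (mul_le_mul_of_nonneg_right ((pow_le_pow_right₀ h1η hk).trans hη) (by positivity))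
  obtain ⟨G, hG⟩ : ∃ G, G = ∑ h ∈ S, g h * Uni.CT (insert h {a, b}) := ⟨_, rfl⟩
  rw [← hG]
  have hG0 : 0 ≤ G := by rw [hG]; exact sum_nonneg fun D _ => mul_nonneg (hg0 D) (Uni.CT_nonneg _)
  have hG2 : G ≤ 2 * H * C := by
    rw [hG]
    refine le_trans (sum_le_sum fun D _ => ?_) hsum
    exact mul_le_of_le_one_left (Uni.CT_nonneg _) (hg1 D)
  have e2 : ∑ h ∈ S, g h * (N / L ^ 3 * Uni.CT (insert h {a, b})) = N / L ^ 3 * G := by
    rw [hG, mul_sum]
    apply sum_congr rfl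
    intro D _
    ring
  rw [e2] at hmain
  have hleft : ∑ h ∈ S, g h * (cnt x (insert h {a, b}) : ℝ) ≤
      ∑ h ∈ S, g h * (pc N 1 0 (insert h {a, b}) : ℝ) + H * x ^ (1 / 2 : ℝ) := by
    have h3 : ∀ h ∈ S, g h * (cnt x (insert h {a, b}) : ℝ) ≤ g h * (pc N 1 0 (insert h {a, b}) : ℝ) +
        x ^ (1 / 2 : ℝ) := by
      intro h _
      have h4 := cnt_le_pc x (insert h {a, b})
      rw [← hN] at h4
      have h5 : (cnt x (insert h {a, b}) : ℝ) ≤ (pc N 1 0 (insert h {a, b}) : ℝ) + (Nat.sqrt N : ℝ) := by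
        exact_mod_cast h4
      have h6 : (Nat.sqrt N : ℝ) ≤ x ^ (1 / 2 : ℝ) := by
        rw [← Real.sqrt_eq_rpow]
        refine (Real.nat_sqrt_le_real_sqrt).trans (Real.sqrt_le_sqrt a6)
      have h7 := mul_le_mul_of_nonneg_left (h5.trans (add_le_add le_rfl h6)) (hg0 h)
      rw [mul_add] at h7
      have h8 : g h * x ^ (1 / 2 : ℝ) ≤ x ^ (1 / 2 : ℝ) := mul_le_of_le_one_left (by positivity) (hg1 h)
      linarith
    refine (sum_le_sum h3).trans ?_
    rw [sum_add_distrib, sum_const, nsmul_eq_mul]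
    apply add_le_add le_rfl
    exact mul_le_mul_of_nonneg_right hScard (by positivity)
  refine hleft.trans ?_
  obtain ⟨P, hP⟩ : ∃ P, P = x / l ^ 3 := ⟨_, rfl⟩
  have hP0 : 0 ≤ P := by rw [hP]; positivity
  have hsq : (H : ℝ) * x ^ (1 / 2 : ℝ) ≤ ε / 2 * (H * C * P) := by
    rw [Real.rpow_natCast] at h2
    have h3 : x ^ (1 / 2 : ℝ) ≤ ε / 2 * c * (x / l ^ 3) := by
      rw [mul_div_assoc', le_div_iff₀ (by positivity)]
      calc x ^ (1 / 2 : ℝ) * l ^ 3 ≤ x ^ (1 / 2 : ℝ) * (ε / 2 * c * x ^ (1 / 2 : ℝ)) :=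
            mul_le_mul_of_nonneg_left h2 (by positivity)
        _ = ε / 2 * c * (x ^ (1 / 2 : ℝ) * x ^ (1 / 2 : ℝ)) := by ring
        _ = ε / 2 * c * x := by
            rw [← Real.rpow_add hx0]; norm_num
    rw [← hP] at h3
    calc (H : ℝ) * x ^ (1 / 2 : ℝ) ≤ H * (ε / 2 * c * P) := mul_le_mul_of_nonneg_left h3 hH0.le
      _ ≤ H * (ε / 2 * C * P) := by
          apply mul_le_mul_of_nonneg_left _ hH0.le
          apply mul_le_mul_of_nonneg_right _ hP0
          exact mul_le_mul_of_nonneg_left hclow (by positivity)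
      _ = _ := by ring
  have h3 := hpow 3 le_rfl
  rw [← hP] at h3
  have h5 : 16 * (N / L ^ 3 * G) ≤ 16 * G * P + ε / 4 * (H * C * P) := by
    calc 16 * (N / L ^ 3 * G) ≤ 16 * (((1 + κ) * P) * G) := by
          apply mul_le_mul_of_nonneg_left _ (by norm_num)
          exact mul_le_mul_of_nonneg_right h3 hG0
      _ = 16 * G * P + 16 * κ * (G * P) := by ring
      _ ≤ 16 * G * P + 16 * κ * ((2 * H * C) * P) := by
          apply add_le_add le_rfl
          apply mul_le_mul_of_nonneg_left _ (by positivity)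
          exact mul_le_mul_of_nonneg_right hG2 hP0
      _ = 16 * G * P + 32 * κ * (H * C * P) := by ring
      _ ≤ _ := by
          apply add_le_add le_rfl
          apply mul_le_mul_of_nonneg_right _ (by positivity)
          linarith
  have h6 : ε / 8 * (H / L) * (N / L ^ 2 * C) ≤ ε / 4 * (H * C * P) := by
    have e : ε / 8 * ((H : ℝ) / L) * (N / L ^ 2 * C) = ε / 8 * (H * C) * (N / L ^ 3) := by
      field_simp
    rw [e]
    calc ε / 8 * (H * C) * (N / L ^ 3) ≤ ε / 8 * (H * C) * (2 * P) := by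
          apply mul_le_mul_of_nonneg_left _ (by positivity)
          refine h3.trans ?_
          exact mul_le_mul_of_nonneg_right (by linarith) hP0
      _ = _ := by ring
  rw [← hP]
  have e3 : (16 * G + ε * H * C) * P = 16 * G * P + ε * (H * C * P) := by ring
  rw [e3]
  linarith

/-! ### reflection -/

lemma card_image_eq {α β γ : Type*} [DecidableEq β] [DecidableEq γ] (T : Finset α) (f : α → β) (g : α → γ)
    (h : ∀ x ∈ T, ∀ y ∈ T, (f x = f y ↔ g x = g y)) : (T.image f).card = (T.image g).card := by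
  classical
  refine card_bij' (fun b hb => g (Classical.choose (mem_image.1 hb)))
    (fun c hc => f (Classical.choose (mem_image.1 hc))) ?_ ?_ ?_ ?_
  · intro b hb
    exact mem_image_of_mem g (Classical.choose_spec (mem_image.1 hb)).1
  · intro c hc
    exact mem_image_of_mem f (Classical.choose_spec (mem_image.1 hc)).1
  · intro b hb
    obtain ⟨h1, h2⟩ := Classical.choose_spec (mem_image.1 hb)
    have hm : g (Classical.choose (mem_image.1 hb)) ∈ T.image g := mem_image_of_mem g h1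
    obtain ⟨h3, h4⟩ := Classical.choose_spec (mem_image.1 hm)
    have h5 := (h _ h3 _ h1).2 h4
    show f (Classical.choose (mem_image.1 hm)) = b
    rw [h5, h2]
  · intro c hc
    obtain ⟨h1, h2⟩ := Classical.choose_spec (mem_image.1 hc)
    have hm : f (Classical.choose (mem_image.1 hc)) ∈ T.image f := mem_image_of_mem f h1
    obtain ⟨h3, h4⟩ := Classical.choose_spec (mem_image.1 hm)
    have h5 := (h _ h3 _ h1).1 h4
    show g (Classical.choose (mem_image.1 hm)) = c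
    rw [h5, h2]

lemma reflect_mod {M x y p : ℕ} (hx : x ≤ M) (hy : y ≤ M) : (M - x) % p = (M - y) % p ↔ x % p = y % p := by
  have h1 : ∀ {x y : ℕ}, x ≤ M → y ≤ M → x ≡ y [MOD p] → M - x ≡ M - y [MOD p] := by
    intro x y hx hy h
    have h2 : (M - x) + x ≡ (M - y) + x [MOD p] := by
      have e : (M - x) + x = (M - y) + y := by omega
      rw [e]
      exact (Nat.ModEq.refl _).add h.symm
    exact Nat.ModEq.add_right_cancel' x h2
  constructor
  · intro h
    have h3 := h1 (Nat.sub_le M x) (Nat.sub_le M y) h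
    rw [Nat.sub_sub_self hx, Nat.sub_sub_self hy] at h3
    exact h3
  · intro h
    exact h1 hx hy h

lemma nuT_reflect {M : ℕ} {T : Finset ℕ} (hT : ∀ t ∈ T, t ≤ M) (p : ℕ) :
    Uni.nuT (T.image (fun t => M - t)) p = Uni.nuT T p := by
  unfold Uni.nuT
  rw [image_image]
  apply card_image_eq
  intro x hx y hy
  exact reflect_mod (hT x hx) (hT y hy)

lemma card_reflect {M : ℕ} {T : Finset ℕ} (hT : ∀ t ∈ T, t ≤ M) : (T.image (fun t => M - t)).card = T.card := by
  apply card_image_of_injOn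
  intro x hx y hy hxy
  have h1 := hT x hx
  have h2 := hT y hy
  simp only at hxy
  omega

lemma CT_reflect {M : ℕ} {T : Finset ℕ} (hT : ∀ t ∈ T, t ≤ M) :
    Uni.CT (T.image (fun t => M - t)) = Uni.CT T := by
  unfold Uni.CT Uni.locT
  simp only [nuT_reflect hT, card_reflect hT]

end Pool.Agent.L0h43.TB
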