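import Pool.Agent.L0h43.TB.BDf

/-!
# A third prime next to every pair: the counts of the problem
-/

set_option autoImplicit false

namespace Pool.Agent.L0h43.TB

open Finset Filter Topology Pool.Agent.H387R2
open Pool.Agent.L0h43.TA
open Pool.Agent.H386R2.HL

/-- the number of primes `p ≤ x` with `p - d` and `p - d'` prime -/
noncomputable def p3 (x : ℝ) (d' d : ℕ) : ℕ :=
  ((range (⌊x⌋₊ + 1)).filter (fun p => p.Prime ∧ (p - d).Prime ∧ (p - d').Prime)).card

/-- the number of primes `p ≤ x` with `p - d'` prime -/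
noncomputable def p2 (x : ℝ) (d' : ℕ) : ℕ :=
  ((range (⌊x⌋₊ + 1)).filter (fun p => p.Prime ∧ (p - d').Prime)).card

open Classical in
/-- the number of primes `p ≤ x` with `p - d'` prime and more than `X` primes among the `p - d` -/
noncomputable def crowd (x : ℝ) (d' u H : ℕ) (X : ℝ) : ℕ :=
  ((range (⌊x⌋₊ + 1)).filter (fun p => p.Prime ∧ (p - d').Prime ∧
    X < (((Ioc u (u + H)).filter (fun d => (p - d).Prime)).card : ℝ))).card

lemma p3_le {x : ℝ} {d' d M : ℕ} (hd : d ≤ M) (hd' : d' ≤ M) :
    (p3 x d' d : ℝ) ≤ cnt x (insert (M - d) {M, M - d'}) + (M + 1) := by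
  classical
  have h : (range (⌊x⌋₊ + 1)).filter (fun p => p.Prime ∧ (p - d).Prime ∧ (p - d').Prime) ⊆
      (((Icc 1 ⌊x⌋₊).filter (fun m => ∀ t ∈ (insert (M - d) {M, M - d'} : Finset ℕ), (m + t).Prime)).image (fun n => n + M)) ∪
        range (M + 1) := by
    intro p hp
    rw [mem_filter, mem_range] at hp
    rw [mem_union]
    by_cases h1 : p ≤ M
    · right; rw [mem_range]; omega
    · left
      rw [mem_image]
      refine ⟨p - M, ?_, by omega⟩
      rw [mem_filter, mem_Icc]
      refine ⟨⟨by omega, by omega⟩, ?_⟩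
      intro t ht
      rw [mem_insert, mem_insert, mem_singleton] at ht
      rcases ht with ht | ht | ht
      · have e : p - M + t = p - d := by omega
        rw [e]; exact hp.2.2.1
      · have e : p - M + t = p := by omega
        rw [e]; exact hp.2.1
      · have e : p - M + t = p - d' := by omega
        rw [e]; exact hp.2.2.2
  have h2 := (card_le_card h).trans (card_union_le _ _)
  rw [card_range] at h2
  have h3 : (p3 x d' d) ≤ cnt x (insert (M - d) {M, M - d'}) + (M + 1) := by
    refine h2.trans ?_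
    apply Nat.add_le_add_right
    exact card_image_le
  exact_mod_cast h3

lemma cnt_le_p2 {x : ℝ} {d' M : ℕ} (hd' : d' ≤ M) :
    (cnt x {M, M - d'} : ℝ) ≤ p2 x d' + M := by
  classical
  have h : ((Icc 1 ⌊x⌋₊).filter (fun m => ∀ t ∈ ({M, M - d'} : Finset ℕ), (m + t).Prime)).image (fun n => n + M) ⊆
      (range (⌊x⌋₊ + 1)).filter (fun p => p.Prime ∧ (p - d').Prime) ∪ Ioc ⌊x⌋₊ (⌊x⌋₊ + M) := by
    intro p hp
    rw [mem_image] at hp
    obtain ⟨n, hn, rfl⟩ := hp
    rw [mem_filter, mem_Icc] at hn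
    have h1 := hn.2 M (mem_insert_self _ _)
    have h2 := hn.2 (M - d') (mem_insert_of_mem (mem_singleton_self _))
    rw [mem_union, mem_filter, mem_range, mem_Ioc]
    by_cases h3 : n + M ≤ ⌊x⌋₊
    · left
      refine ⟨by omega, h1, ?_⟩
      have e : n + M - d' = n + (M - d') := by omega
      rw [e]; exact h2
    · right; omega
  have h2 := (card_le_card h).trans (card_union_le _ _)
  rw [card_image_of_injective _ (fun a b hab => by simpa using hab), Nat.card_Ioc, Nat.add_sub_cancel_left] at h2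
  unfold cnt p2
  exact_mod_cast h2

lemma crowd_le {x : ℝ} {d' u H M : ℕ} (hM : M = u + H + 1 + d') (X : ℝ) :
    (crowd x d' u H X : ℝ) ≤ bad x {M, M - d'} d' H X + (M + 1) := by
  classical
  have h : (range (⌊x⌋₊ + 1)).filter (fun p => p.Prime ∧ (p - d').Prime ∧
      X < (((Ioc u (u + H)).filter (fun d => (p - d).Prime)).card : ℝ)) ⊆
      (((Icc 1 ⌊x⌋₊).filter (fun m => (∀ t ∈ ({M, M - d'} : Finset ℕ), (m + t).Prime) ∧
        X < (((Ioc d' (d' + H)).filter (fun h => (m + h).Prime)).card : ℝ))).image (fun n => n + M)) ∪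
        range (M + 1) := by
    intro p hp
    rw [mem_filter, mem_range] at hp
    rw [mem_union]
    by_cases h1 : p ≤ M
    · right; rw [mem_range]; omega
    · left
      rw [mem_image]
      refine ⟨p - M, ?_, by omega⟩
      rw [mem_filter, mem_Icc]
      refine ⟨⟨by omega, by omega⟩, ?_, ?_⟩
      · intro t ht
        rw [mem_insert, mem_singleton] at ht
        rcases ht with ht | ht
        · have e : p - M + t = p := by omega
          rw [e]; exact hp.2.1
        · have e : p - M + t = p - d' := by omega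
          rw [e]; exact hp.2.2.1
      · refine hp.2.2.2.trans_le ?_
        rw [Nat.cast_le]
        apply card_le_card_of_injOn (fun d => M - d)
        · intro d hd
          rw [mem_coe, mem_filter, mem_Ioc] at hd
          rw [mem_coe]
          change M - d ∈ _
          rw [mem_filter, mem_Ioc]
          have e : p - M + (M - d) = p - d := by omega
          rw [e]
          exact ⟨⟨by omega, by omega⟩, hd.2⟩
        · intro a ha b hb hab
          rw [mem_coe, mem_filter, mem_Ioc] at ha hb
          simp only at hab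
          omega
  have h2 := (card_le_card h).trans (card_union_le _ _)
  rw [card_range] at h2
  have h3 : (crowd x d' u H X) ≤ bad x {M, M - d'} d' H X + (M + 1) := by
    refine h2.trans ?_
    apply Nat.add_le_add_right
    exact card_image_le
  exact_mod_cast h3

lemma sum_reflect {d' u H M : ℕ} (hM : M = u + H + 1 + d') (F : ℕ → ℝ) :
    ∑ d ∈ Ioc u (u + H) \ {d'}, F (M - d) = ∑ h ∈ Ioc d' (d' + H) \ {M, M - d'}, F h := by
  apply sum_bij' (fun d _ => M - d) (fun h _ => M - h)
  · intro d hd
    rw [Finset.mem_sdiff, mem_Ioc, mem_singleton] at hd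
    rw [Finset.mem_sdiff, mem_Ioc, mem_insert, mem_singleton]
    omega
  · intro h hh
    rw [Finset.mem_sdiff, mem_Ioc, mem_insert, mem_singleton] at hh
    rw [Finset.mem_sdiff, mem_Ioc, mem_singleton]
    omega
  · intro d hd
    rw [Finset.mem_sdiff, mem_Ioc] at hd
    omega
  · intro h hh
    rw [Finset.mem_sdiff, mem_Ioc] at hh
    omega
  · intro d _
    rfl

/-- the relative lower bound for one more shift -/
lemma CT_rel (j : ℕ) : ∃ c : ℝ, 0 < c ∧ ∀ (T : Finset ℕ) (h : ℕ), T.card = j → h ∉ T → Uni.CT (insert h T) ≠ 0 →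
    c * Uni.CT T ≤ Uni.CT (insert h T) := by
  obtain ⟨w, hw⟩ : ∃ w, w = 8 * (j + 1) := ⟨_, rfl⟩
  obtain ⟨W, hW⟩ : ∃ W, W = Uni.WW w := ⟨_, rfl⟩
  have hWpos : 0 < W := by rw [hW]; exact Uni.WW_pos w
  have hW0 : (0 : ℝ) < W := by exact_mod_cast hWpos
  have hφ0 : (0 : ℝ) < Nat.totient W := by exact_mod_cast Nat.totient_pos.2 hWpos
  refine ⟨1 / (2 * W), by positivity, ?_⟩
  intro T h hT hh hCT
  have hgi : 0 < Uni.gT W (insert h T) := by
    rw [Nat.pos_iff_ne_zero]
    intro h0
    apply hCT
    have h1 := Uni.sy_en (insert h T) w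
    rw [← hW, h0, Nat.cast_zero, zero_div, mul_zero] at h1
    unfold sy at h1
    rw [prod_eq_zero_iff] at h1
    obtain ⟨p, hp, hp0⟩ := h1
    rw [Uni.loc_en] at hp0
    exact CT_zero_of (p := ⟨p, Nat.prime_of_mem_primesBelow hp⟩) hp0
  have hmono : Uni.gT W (insert h T) ≤ Uni.gT W T := by
    unfold Uni.gT
    apply card_le_card
    intro m hm
    rw [mem_filter] at hm ⊢
    exact ⟨hm.1, fun t ht => hm.2 t (mem_insert_of_mem ht)⟩
  have hg : 0 < Uni.gT W T := by omega
  have hgW : Uni.gT W T ≤ W := by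
    unfold Uni.gT
    exact (card_filter_le _ _).trans (by rw [card_range])
  have hst := star (w := w) T h (by rw [hT]; omega) hh (by rw [← hW]; exact hgi) (by rw [← hW]; exact hg)
  rw [← hW, hT] at hst
  have hw0 : (0 : ℝ) < w := by
    have : 0 < w := by omega
    exact_mod_cast this
  have h1 : (1 : ℝ) / 2 ≤ 1 - (4 * (j : ℝ) + 1) / w := by
    have : (4 * (j : ℝ) + 1) / w ≤ 1 / 2 := by
      rw [div_le_div_iff₀ hw0 (by norm_num), hw]
      push_cast
      linarith [Nat.cast_nonneg (α := ℝ) j]
    linarith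
  have hC := Uni.CT_nonneg T
  have hC2 := Uni.CT_nonneg (insert h T)
  have hg0 : (0 : ℝ) < Uni.gT W T := by exact_mod_cast hg
  have hgi1 : (1 : ℝ) ≤ Uni.gT W (insert h T) := by exact_mod_cast hgi
  have hgWr : (Uni.gT W T : ℝ) ≤ W := by exact_mod_cast hgW
  have h2 : Uni.CT T / W ≤ (W : ℝ) / Nat.totient W * (Uni.CT T / Uni.gT W T) := by
    have h3 : Uni.CT T / W ≤ Uni.CT T / Uni.gT W T := div_le_div_of_nonneg_left hC hg0 hgWr
    have h4 : (1 : ℝ) ≤ (W : ℝ) / Nat.totient W := by
      rw [one_le_div hφ0]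
      exact_mod_cast Nat.totient_le W
    exact h3.trans (le_mul_of_one_le_left (by positivity) h4)
  have h3 : Uni.CT (insert h T) / Uni.gT W (insert h T) ≤ Uni.CT (insert h T) := div_le_self hC2 hgi1
  refine le_trans ?_ (hst.trans h3)
  have h4 : 0 ≤ (W : ℝ) / Nat.totient W * (Uni.CT T / Uni.gT W T) := by positivity
  have h5 := mul_le_mul_of_nonneg_left h1 h4
  refine le_trans ?_ h5
  have h6 : 1 / (2 * (W : ℝ)) * Uni.CT T = Uni.CT T / W * (1 / 2) := by
    field_simp
  rw [h6]
  exact mul_le_mul_of_nonneg_right h2 (by norm_num)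

lemma CT_even_pos {d : ℕ} (hd : Even d) : 0 < Uni.CT {0, d} := by
  rw [← Uni.CT_en]
  apply Pool.Agent.H386R2.HL.singularSeries_pos (Uni.en_inj _)
  intro p hp
  rw [Uni.nu_en]
  unfold Uni.nuT
  rcases Nat.lt_or_ge 2 p with h | h
  · refine lt_of_le_of_lt (card_image_le.trans card_le_two) h
  · have hp2 : p = 2 := le_antisymm h hp.two_le
    subst hp2
    have e : ({0, d} : Finset ℕ).image (fun x => x % 2) = {0} := by
      rw [image_insert, image_singleton, Nat.zero_mod, Nat.even_iff.1 hd, pair_eq_singleton]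
    rw [e, card_singleton]
    norm_num

/-- the sets after the reflection -/
lemma CT2_eq {d' M : ℕ} (h : d' ≤ M) : Uni.CT {M, M - d'} = Uni.CT {0, d'} := by
  have h1 := CT_reflect (M := M) (T := {0, d'}) (by
    intro t ht
    rw [mem_insert, mem_singleton] at ht
    rcases ht with rfl | rfl <;> omega)
  rw [image_insert, image_singleton, Nat.sub_zero] at h1
  exact h1

lemma CT3_eq {d' d M : ℕ} (h : d' ≤ M) (hd : d ≤ M) : Uni.CT (insert (M - d) {M, M - d'}) = Uni.CT {0, d', d} := by
  have h1 := CT_reflect (M := M) (T := {0, d', d}) (by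
    intro t ht
    rw [mem_insert, mem_insert, mem_singleton] at ht
    rcases ht with rfl | rfl | rfl <;> omega)
  rw [image_insert, image_insert, image_singleton, Nat.sub_zero] at h1
  rw [← h1]
  congr 1
  ext a
  simp only [mem_insert, mem_singleton]
  tauto

end Pool.Agent.L0h43.TB
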