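import Pool.Agent.L0h43.TB.BDg

/-!
# A third prime next to every pair: the statements
-/

set_option autoImplicit false

namespace Pool.Agent.L0h43.TB

open Finset Filter Topology Pool.Agent.H387R2
open Pool.Agent.L0h43.TA
open Pool.Agent.H386R2.HL

lemma sum_card_one (X T : Finset ℕ) (F : Finset ℕ → ℝ) :
    ∑ D ∈ X.powersetCard 1, F (T ∪ D) = ∑ h ∈ X, F (insert h T) := by
  have e := sum_ins X 0 (fun D => F (T ∪ D))
  rw [powersetCard_zero, sum_singleton, zero_add, Nat.cast_one, one_mul, sdiff_empty] at e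
  rw [e]
  apply sum_congr rfl
  intro h _
  congr 1
  rw [union_insert, union_empty]

/-- sizes after the reflection -/
lemma ev_refl (A : ℝ) (hA : 0 ≤ A) : ∀ᶠ x : ℝ in atTop, 3 ≤ Real.log x ∧ 1 ≤ x ∧ ∀ d' u H : ℕ,
    (d' : ℝ) ≤ Real.log x ^ A → ((u + H : ℕ) : ℝ) ≤ Real.log x ^ A →
    ((u + H + 1 + d' : ℕ) : ℝ) ≤ Real.log x ^ (A + 1) ∧ ((u + H + 1 + d' - d' : ℕ) : ℝ) ≤ Real.log x ^ (A + 1) ∧
    ((d' + H : ℕ) : ℝ) ≤ Real.log x ^ (A + 1) := by
  filter_upwards [Real.tendsto_log_atTop.eventually_ge_atTop 3, eventually_ge_atTop 1] with x h1 h2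
  refine ⟨h1, h2, ?_⟩
  intro d' u H hd hu
  have hl0 : 0 < Real.log x := by linarith
  have h3 : (1 : ℝ) ≤ Real.log x ^ A := Real.one_le_rpow (by linarith) hA
  have h4 : Real.log x ^ (A + 1) = Real.log x ^ A * Real.log x := by rw [Real.rpow_add hl0, Real.rpow_one]
  have h5 : 3 * Real.log x ^ A ≤ Real.log x ^ A * Real.log x := by nlinarith
  rw [h4]
  have hM : ((u + H + 1 + d' : ℕ) : ℝ) ≤ Real.log x ^ A * Real.log x := by
    push_cast
    push_cast at hu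
    linarith
  refine ⟨hM, ?_, ?_⟩
  · have : u + H + 1 + d' - d' ≤ u + H + 1 + d' := by omega
    have h6 : ((u + H + 1 + d' - d' : ℕ) : ℝ) ≤ ((u + H + 1 + d' : ℕ) : ℝ) := by exact_mod_cast this
    linarith
  · have h6 : ((d' + H : ℕ) : ℝ) ≤ ((u + H + 1 + d' : ℕ) : ℝ) := by
      exact_mod_cast (by omega : d' + H ≤ u + H + 1 + d')
    linarith

theorem E2 (ε : ℝ) (hε : 0 < ε) : ∃ K : ℝ, 1 ≤ K ∧ ∀ A : ℝ, 0 ≤ A → ∀ᶠ x : ℝ in atTop,
    ∀ d' : ℕ, 1 ≤ d' → Even d' → (d' : ℝ) ≤ Real.log x ^ A → ∀ u H : ℕ, K * Real.log x ≤ H →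
      ((u + H : ℕ) : ℝ) ≤ Real.log x ^ A → ∀ g : ℕ → ℝ, (∀ h, 0 ≤ g h) → (∀ h, g h ≤ 1) →
      ∑ d ∈ Ioc u (u + H) \ {d'}, g d * (p3 x d' d : ℝ) ≤
        (16 * ∑ d ∈ Ioc u (u + H) \ {d'}, g d * Uni.CT {0, d', d} + ε * H * Uni.CT {0, d'}) *
          (x / Real.log x ^ 3) := by
  classical
  obtain ⟨c, hc, hlow⟩ := CT_pos_low 2
  obtain ⟨K, hK, H0⟩ := trip_real (ε / 2) (by positivity)
  refine ⟨K, hK, fun A hA => ?_⟩
  filter_upwards [H0 (A + 1) (by linarith), ev_refl A hA, ev_small (ε * c / 4) (by positivity) (A + 4)] with x h0 h1 h2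
  obtain ⟨hl3, hx1, hsz⟩ := h1
  intro d' hd'1 hd'e hd'A u H hKH hHA g hg0 hg1
  obtain ⟨s1, s2, s3⟩ := hsz d' u H hd'A hHA
  obtain ⟨M, hM⟩ : ∃ M, M = u + H + 1 + d' := ⟨_, rfl⟩
  rw [← hM] at s1 s2
  set l := Real.log x with hl
  have hl0 : 0 < l := by linarith
  have hx0 : 0 < x := by linarith
  have hd'M : d' ≤ M := by omega
  have hne : M ≠ M - d' := by omega
  have hC := CT2_eq hd'M
  have hCpos : 0 < Uni.CT {0, d'} := CT_even_pos hd'e
  have hcard : ({M, M - d'} : Finset ℕ).card = 2 := card_pair hne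
  have hclow := hlow {M, M - d'} hcard (by rw [hC]; exact hCpos.ne')
  have hmain := h0 M (M - d') hne (by rw [hC]; exact hCpos.ne') s1 s2 d' H hKH s3 (fun h => g (M - h))
    (fun h => hg0 _) (fun h => hg1 _)
  rw [hC] at hmain hclow
  rw [← sum_reflect hM (fun h => g (M - h) * (cnt x (insert h {M, M - d'}) : ℝ)),
    ← sum_reflect hM (fun h => g (M - h) * Uni.CT (insert h {M, M - d'}))] at hmain
  obtain ⟨I, hI⟩ : ∃ I, I = Ioc u (u + H) \ {d'} := ⟨_, rfl⟩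
  have hIM : ∀ d ∈ I, d ≤ M := by
    intro d hd
    rw [hI, Finset.mem_sdiff, mem_Ioc] at hd
    omega
  have hIcard : (I.card : ℝ) ≤ H := by
    have : I.card ≤ H := by
      rw [hI]
      refine (card_le_card sdiff_subset).trans ?_
      rw [Nat.card_Ioc]; omega
    exact_mod_cast this
  rw [← hI] at hmain ⊢
  obtain ⟨C, hCd⟩ : ∃ C, C = Uni.CT {0, d'} := ⟨_, rfl⟩
  rw [← hCd] at hmain hclow hCpos ⊢
  have e1 : ∑ d ∈ I, g (M - (M - d)) * Uni.CT (insert (M - d) {M, M - d'}) = ∑ d ∈ I, g d * Uni.CT {0, d', d} := by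
    apply sum_congr rfl
    intro d hd
    rw [Nat.sub_sub_self (hIM d hd), CT3_eq hd'M (hIM d hd)]
  rw [e1] at hmain
  have e2 : ∑ d ∈ I, g d * (p3 x d' d : ℝ) ≤
      ∑ d ∈ I, g (M - (M - d)) * (cnt x (insert (M - d) {M, M - d'}) : ℝ) + H * (M + 1) := by
    have h3 : ∀ d ∈ I, g d * (p3 x d' d : ℝ) ≤
        g (M - (M - d)) * (cnt x (insert (M - d) {M, M - d'}) : ℝ) + (M + 1) := by
      intro d hd
      rw [Nat.sub_sub_self (hIM d hd)]
      have h4 := mul_le_mul_of_nonneg_left (p3_le (x := x) (hIM d hd) hd'M) (hg0 d)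
      rw [mul_add] at h4
      have h5 : g d * ((M : ℝ) + 1) ≤ (M : ℝ) + 1 := mul_le_of_le_one_left (by positivity) (hg1 d)
      linarith
    refine (sum_le_sum h3).trans ?_
    rw [sum_add_distrib, sum_const, nsmul_eq_mul]
    apply add_le_add le_rfl
    exact mul_le_mul_of_nonneg_right hIcard (by positivity)
  refine e2.trans ?_
  have h4 : (M : ℝ) + 1 ≤ ε / 2 * C * (x / l ^ 3) := by
    have h5 : (1 : ℝ) ≤ l ^ (A + 1) := Real.one_le_rpow (by linarith) (by linarith)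
    have h6 : (M : ℝ) + 1 ≤ 2 * l ^ (A + 1) := by linarith
    refine h6.trans ?_
    have e3 : l ^ (A + 4) = l ^ (A + 1) * l ^ 3 := by
      rw [← Real.rpow_natCast, ← Real.rpow_add hl0]
      congr 1
      push_cast
      ring
    rw [e3] at h2
    have h7 : x ^ (1 / 2 : ℝ) ≤ x := by
      calc x ^ (1 / 2 : ℝ) ≤ x ^ (1 : ℝ) := Real.rpow_le_rpow_of_exponent_le hx1 (by norm_num)
        _ = x := Real.rpow_one x
    rw [mul_div_assoc', le_div_iff₀ (by positivity)]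
    calc 2 * l ^ (A + 1) * l ^ 3 = 2 * (l ^ (A + 1) * l ^ 3) := by ring
      _ ≤ 2 * (ε * c / 4 * x ^ (1 / 2 : ℝ)) := by linarith
      _ = ε / 2 * c * x ^ (1 / 2 : ℝ) := by ring
      _ ≤ ε / 2 * C * x := mul_le_mul (mul_le_mul_of_nonneg_left hclow (by positivity)) h7 (by positivity)
          (by positivity)
  have h5 : (H : ℝ) * (M + 1) ≤ H * (ε / 2 * C * (x / l ^ 3)) := mul_le_mul_of_nonneg_left h4 (Nat.cast_nonneg _)
  have e4 : (16 * ∑ d ∈ I, g d * Uni.CT {0, d', d} + ε * H * C) * (x / l ^ 3) =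
      (16 * ∑ d ∈ I, g d * Uni.CT {0, d', d} + ε / 2 * H * C) * (x / l ^ 3) + H * (ε / 2 * C * (x / l ^ 3)) := by ring
  rw [e4]
  exact add_le_add hmain h5

theorem E1 (ε : ℝ) (hε : 0 < ε) : ∃ K : ℝ, 1 ≤ K ∧ ∀ A : ℝ, 0 ≤ A → ∀ᶠ x : ℝ in atTop,
    ∀ d' : ℕ, 1 ≤ d' → Even d' → (d' : ℝ) ≤ Real.log x ^ A → ∀ u H : ℕ, K * Real.log x ≤ H →
      ((u + H : ℕ) : ℝ) ≤ Real.log x ^ A →
      ∑ d ∈ Ioc u (u + H) \ {d'}, (p3 x d' d : ℝ) ≤
        (4 + ε) * (H / Real.log x) * p2 x d' + ε * (H / Real.log x) * (Uni.CT {0, d'} * (x / Real.log x ^ 2)) := by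
  classical
  obtain ⟨c, hc, hlow⟩ := CT_pos_low 2
  obtain ⟨ε', hε'⟩ : ∃ ε' : ℝ, ε' = min 1 (min (ε / 4) (ε / (4 * (1 + 1 / c)))) := ⟨_, rfl⟩
  have hε'0 : 0 < ε' := by rw [hε']; exact lt_min one_pos (lt_min (by positivity) (by positivity))
  have hε'1 : ε' ≤ 1 := by rw [hε']; exact min_le_left _ _
  have hε'2 : ε' ≤ ε / 4 := by rw [hε']; exact (min_le_right _ _).trans (min_le_left _ _)
  have hε'3 : ε' * (4 * (1 + 1 / c)) ≤ ε := by
    rw [← le_div_iff₀ (by positivity), hε']; exact (min_le_right _ _).trans (min_le_right _ _)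
  obtain ⟨K, hK, H0⟩ := U_more 2 1 ε' hε'0
  refine ⟨K, hK, fun A hA => ?_⟩
  filter_upwards [H0 (A + 1) (by linarith), ev_refl A hA, ev_small (ε * c / 20) (by positivity) (A + 4)] with x h0 h1 h2
  obtain ⟨hl3, hx1, hsz⟩ := h1
  intro d' hd'1 hd'e hd'A u H hKH hHA
  obtain ⟨s1, s2, s3⟩ := hsz d' u H hd'A hHA
  obtain ⟨M, hM⟩ : ∃ M, M = u + H + 1 + d' := ⟨_, rfl⟩
  rw [← hM] at s1 s2
  set l := Real.log x with hl
  have hl0 : 0 < l := by linarith
  have hx0 : 0 < x := by linarith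
  have hd'M : d' ≤ M := by omega
  have hne : M ≠ M - d' := by omega
  have hC := CT2_eq hd'M
  have hCpos : 0 < Uni.CT {0, d'} := CT_even_pos hd'e
  have hcard : ({M, M - d'} : Finset ℕ).card = 2 := card_pair hne
  have hclow := hlow {M, M - d'} hcard (by rw [hC]; exact hCpos.ne')
  have hmain := h0 {M, M - d'} hcard (by
    intro t ht
    rw [mem_insert, mem_singleton] at ht
    rcases ht with ht | ht
    · rw [ht]; exact s1
    · rw [ht]; exact s2) d' H hKH s3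
  rw [Nat.factorial_one, Nat.cast_one, one_mul, pow_one, pow_one,
    sum_card_one _ _ (fun T => (cnt x T : ℝ)), hC,
    ← sum_reflect hM (fun h => (cnt x (insert h {M, M - d'}) : ℝ))] at hmain
  rw [hC] at hclow
  obtain ⟨I, hI⟩ : ∃ I, I = Ioc u (u + H) \ {d'} := ⟨_, rfl⟩
  have hIM : ∀ d ∈ I, d ≤ M := by
    intro d hd
    rw [hI, Finset.mem_sdiff, mem_Ioc] at hd
    omega
  have hIcard : (I.card : ℝ) ≤ H := by
    have : I.card ≤ H := by
      rw [hI]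
      refine (card_le_card sdiff_subset).trans ?_
      rw [Nat.card_Ioc]; omega
    exact_mod_cast this
  rw [← hI] at hmain ⊢
  obtain ⟨C, hCd⟩ : ∃ C, C = Uni.CT {0, d'} := ⟨_, rfl⟩
  rw [← hCd] at hmain hclow hCpos ⊢
  have e2 : ∑ d ∈ I, (p3 x d' d : ℝ) ≤
      ∑ d ∈ I, (cnt x (insert (M - d) {M, M - d'}) : ℝ) + H * (M + 1) := by
    refine (sum_le_sum fun d hd => p3_le (x := x) (hIM d hd) hd'M).trans ?_
    rw [sum_add_distrib, sum_const, nsmul_eq_mul]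
    apply add_le_add le_rfl
    exact mul_le_mul_of_nonneg_right hIcard (by positivity)
  refine e2.trans ?_
  have hp2 := cnt_le_p2 (x := x) hd'M
  obtain ⟨P, hP⟩ : ∃ P, P = x / l ^ 2 := ⟨_, rfl⟩
  have hP0 : 0 ≤ P := by rw [hP]; positivity
  have hp20 : (0 : ℝ) ≤ p2 x d' := Nat.cast_nonneg _
  obtain ⟨Q, hQ⟩ : ∃ Q, Q = (H : ℝ) / l := ⟨_, rfl⟩
  have hQ0 : 0 ≤ Q := by rw [hQ]; positivity
  rw [← hQ, ← hP] at hmain ⊢
  -- the small terms
  have h4 : l * (M + 1) ≤ ε / 10 * C * P := by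
    have h5 : (1 : ℝ) ≤ l ^ (A + 1) := Real.one_le_rpow (by linarith) (by linarith)
    have h6 : (M : ℝ) + 1 ≤ 2 * l ^ (A + 1) := by linarith
    refine (mul_le_mul_of_nonneg_left h6 hl0.le).trans ?_
    have e3 : l ^ (A + 4) = l ^ (A + 1) * l ^ 3 := by
      rw [← Real.rpow_natCast, ← Real.rpow_add hl0]
      congr 1
      push_cast
      ring
    rw [e3] at h2
    have h7 : x ^ (1 / 2 : ℝ) ≤ x := by
      calc x ^ (1 / 2 : ℝ) ≤ x ^ (1 : ℝ) := Real.rpow_le_rpow_of_exponent_le hx1 (by norm_num)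
        _ = x := Real.rpow_one x
    rw [hP, mul_div_assoc', le_div_iff₀ (by positivity)]
    calc l * (2 * l ^ (A + 1)) * l ^ 2 = 2 * (l ^ (A + 1) * l ^ 3) := by ring
      _ ≤ 2 * (ε * c / 20 * x ^ (1 / 2 : ℝ)) := by linarith
      _ = ε / 10 * c * x ^ (1 / 2 : ℝ) := by ring
      _ ≤ ε / 10 * C * x := mul_le_mul (mul_le_mul_of_nonneg_left hclow (by positivity)) h7 (by positivity)
          (by positivity)
  have h5 : (H : ℝ) * (M + 1) ≤ ε / 10 * (Q * (C * P)) := by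
    have e : (H : ℝ) * (M + 1) = Q * (l * (M + 1)) := by
      rw [hQ]
      field_simp
    rw [e]
    calc Q * (l * (M + 1)) ≤ Q * (ε / 10 * C * P) := mul_le_mul_of_nonneg_left h4 hQ0
      _ = _ := by ring
  have h6 : (M : ℝ) ≤ ε / 10 * (C * P) := by
    have : (M : ℝ) ≤ l * (M + 1) := by nlinarith [Nat.cast_nonneg (α := ℝ) M]
    linarith
  have h7 : (4 + ε') * Q * (cnt x {M, M - d'} : ℝ) ≤ (4 + ε) * Q * p2 x d' + 5 * (ε / 10) * (Q * (C * P)) := by
    calc (4 + ε') * Q * (cnt x {M, M - d'} : ℝ) ≤ (4 + ε') * Q * (p2 x d' + ε / 10 * (C * P)) := by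
          apply mul_le_mul_of_nonneg_left _ (by positivity)
          linarith
      _ = (4 + ε') * (Q * p2 x d') + (4 + ε') * (ε / 10) * (Q * (C * P)) := by ring
      _ ≤ (4 + ε) * (Q * p2 x d') + 5 * (ε / 10) * (Q * (C * P)) := by
          apply add_le_add
          · exact mul_le_mul_of_nonneg_right (by linarith) (by positivity)
          · apply mul_le_mul_of_nonneg_right _ (by positivity)
            nlinarith
      _ = _ := by ring
  have h8 : ε' * Q * ((C + 1) * P) ≤ ε / 4 * (Q * (C * P)) := by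
    have h9 : C + 1 ≤ (1 + 1 / c) * C := by
      have : 1 ≤ 1 / c * C := by
        rw [one_div, inv_mul_eq_div, one_le_div hc]
        exact hclow
      linarith
    calc ε' * Q * ((C + 1) * P) ≤ ε' * Q * (((1 + 1 / c) * C) * P) := by
          apply mul_le_mul_of_nonneg_left _ (by positivity)
          exact mul_le_mul_of_nonneg_right h9 hP0
      _ = (ε' * (4 * (1 + 1 / c))) / 4 * (Q * (C * P)) := by ring
      _ ≤ _ := mul_le_mul_of_nonneg_right (div_le_div_of_nonneg_right hε'3 (by norm_num)) (by positivity)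
  have h10 : 0 ≤ ε * (Q * (C * P)) := by positivity
  have e5 : ε * Q * (C * P) = ε * (Q * (C * P)) := by ring
  rw [e5]
  linarith

theorem E4 (ε : ℝ) (hε : 0 < ε) : ∃ K : ℝ, 1 ≤ K ∧ ∀ A : ℝ, 0 ≤ A → ∀ᶠ x : ℝ in atTop,
    ∀ d' : ℕ, 1 ≤ d' → Even d' → (d' : ℝ) ≤ Real.log x ^ A → ∀ u H : ℕ, K * Real.log x ≤ H →
      ((u + H : ℕ) : ℝ) ≤ Real.log x ^ A →
      (crowd x d' u H ((4 + ε) * (H / Real.log x)) : ℝ) ≤ ε * (Uni.CT {0, d'} * (x / Real.log x ^ 2)) := by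
  classical
  obtain ⟨c, hc, hlow⟩ := CT_pos_low 2
  obtain ⟨ε', hε'⟩ : ∃ ε' : ℝ, ε' = min ε (ε / (4 * (1 + 1 / c))) := ⟨_, rfl⟩
  have hε'0 : 0 < ε' := by rw [hε']; exact lt_min hε (by positivity)
  have hε'2 : ε' ≤ ε := by rw [hε']; exact min_le_left _ _
  have hε'3 : ε' * (4 * (1 + 1 / c)) ≤ ε := by
    rw [← le_div_iff₀ (by positivity), hε']; exact min_le_right _ _
  obtain ⟨K, hK, H0⟩ := U_ae 2 ε' hε'0
  refine ⟨K, hK, fun A hA => ?_⟩
  filter_upwards [H0 (A + 1) (by linarith), ev_refl A hA, ev_small (ε * c / 20) (by positivity) (A + 4)] with x h0 h1 h2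
  obtain ⟨hl3, hx1, hsz⟩ := h1
  intro d' hd'1 hd'e hd'A u H hKH hHA
  obtain ⟨s1, s2, s3⟩ := hsz d' u H hd'A hHA
  obtain ⟨M, hM⟩ : ∃ M, M = u + H + 1 + d' := ⟨_, rfl⟩
  rw [← hM] at s1 s2
  set l := Real.log x with hl
  have hl0 : 0 < l := by linarith
  have hx0 : 0 < x := by linarith
  have hd'M : d' ≤ M := by omega
  have hne : M ≠ M - d' := by omega
  have hC := CT2_eq hd'M
  have hCpos : 0 < Uni.CT {0, d'} := CT_even_pos hd'e
  have hcard : ({M, M - d'} : Finset ℕ).card = 2 := card_pair hne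
  have hclow := hlow {M, M - d'} hcard (by rw [hC]; exact hCpos.ne')
  have hmain := h0 {M, M - d'} hcard (by
    intro t ht
    rw [mem_insert, mem_singleton] at ht
    rcases ht with ht | ht
    · rw [ht]; exact s1
    · rw [ht]; exact s2) d' H hKH s3
  rw [hC] at hmain hclow
  have h3 := crowd_le (x := x) hM ((4 + ε) * (H / l))
  have h4 : (bad x {M, M - d'} d' H ((4 + ε) * (H / l)) : ℝ) ≤ bad x {M, M - d'} d' H ((4 + ε') * (H / l)) := by
    rw [Nat.cast_le]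
    unfold bad
    apply card_le_card
    intro n hn
    rw [mem_filter] at hn ⊢
    refine ⟨hn.1, hn.2.1, lt_of_le_of_lt ?_ hn.2.2⟩
    exact mul_le_mul_of_nonneg_right (by linarith) (by positivity)
  obtain ⟨C, hCd⟩ : ∃ C, C = Uni.CT {0, d'} := ⟨_, rfl⟩
  rw [← hCd] at hmain hclow hCpos ⊢
  obtain ⟨P, hP⟩ : ∃ P, P = x / l ^ 2 := ⟨_, rfl⟩
  have hP0 : 0 ≤ P := by rw [hP]; positivity
  rw [← hP] at hmain ⊢
  have h5 : (M : ℝ) + 1 ≤ ε / 10 * (C * P) := by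
    have h5 : (1 : ℝ) ≤ l ^ (A + 1) := Real.one_le_rpow (by linarith) (by linarith)
    have h6 : (M : ℝ) + 1 ≤ 2 * l ^ (A + 1) := by linarith
    refine h6.trans ?_
    have e3 : l ^ (A + 4) = l ^ (A + 1) * l ^ 3 := by
      rw [← Real.rpow_natCast, ← Real.rpow_add hl0]
      congr 1
      push_cast
      ring
    rw [e3] at h2
    have h7 : x ^ (1 / 2 : ℝ) ≤ x := by
      calc x ^ (1 / 2 : ℝ) ≤ x ^ (1 : ℝ) := Real.rpow_le_rpow_of_exponent_le hx1 (by norm_num)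
        _ = x := Real.rpow_one x
    have h8 : l ^ (A + 1) * l ^ 2 ≤ l ^ (A + 1) * l ^ 3 := by
      apply mul_le_mul_of_nonneg_left _ (by positivity)
      exact pow_le_pow_right₀ (by linarith) (by norm_num)
    have e6 : ε / 10 * (C * P) = ε / 10 * C * x / l ^ 2 := by rw [hP]; ring
    rw [e6, le_div_iff₀ (by positivity)]
    calc 2 * l ^ (A + 1) * l ^ 2 = 2 * (l ^ (A + 1) * l ^ 2) := by ring
      _ ≤ 2 * (ε * c / 20 * x ^ (1 / 2 : ℝ)) := by linarith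
      _ = ε / 10 * c * x ^ (1 / 2 : ℝ) := by ring
      _ ≤ ε / 10 * C * x := mul_le_mul (mul_le_mul_of_nonneg_left hclow (by positivity)) h7 (by positivity)
          (by positivity)
  have h8 : ε' * ((C + 1) * P) ≤ ε / 4 * (C * P) := by
    have h9 : C + 1 ≤ (1 + 1 / c) * C := by
      have : 1 ≤ 1 / c * C := by
        rw [one_div, inv_mul_eq_div, one_le_div hc]
        exact hclow
      linarith
    calc ε' * ((C + 1) * P) ≤ ε' * (((1 + 1 / c) * C) * P) := by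
          apply mul_le_mul_of_nonneg_left _ (by positivity)
          exact mul_le_mul_of_nonneg_right h9 hP0
      _ = (ε' * (4 * (1 + 1 / c))) / 4 * (C * P) := by ring
      _ ≤ _ := mul_le_mul_of_nonneg_right (div_le_div_of_nonneg_right hε'3 (by norm_num)) (by positivity)
  have h10 : 0 ≤ ε * (C * P) := by positivity
  linarith

open Classical in
theorem E3 (ε : ℝ) (hε : 0 < ε) : ∃ K : ℝ, 1 ≤ K ∧ ∀ A : ℝ, 0 ≤ A → ∀ᶠ x : ℝ in atTop,
    ∀ d' : ℕ, 1 ≤ d' → Even d' → (d' : ℝ) ≤ Real.log x ^ A → ∀ u H : ℕ, K * Real.log x ≤ H →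
      ((u + H : ℕ) : ℝ) ≤ Real.log x ^ A →
      ((((Ioc u (u + H)).filter (fun d => d ≠ d' ∧ Uni.CT {0, d', d} ≠ 0 ∧
        (16 + ε) * (Uni.CT {0, d', d} * (x / Real.log x ^ 3)) < (p3 x d' d : ℝ))).card : ℝ)) ≤ ε * H := by
  obtain ⟨c, hc, hrel⟩ := CT_rel 2
  obtain ⟨K, hK, H0⟩ := E2 (ε ^ 2 * c) (by positivity)
  refine ⟨K, hK, fun A hA => ?_⟩
  filter_upwards [H0 A hA, Real.tendsto_log_atTop.eventually_ge_atTop 1, eventually_gt_atTop 0] with x h0 hlog hx0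
  intro d' hd'1 hd'e hd'A u H hKH hHA
  have hl0 : 0 < Real.log x := by linarith
  have hmain := h0 d' hd'1 hd'e hd'A u H hKH hHA (fun d => if Uni.CT {0, d', d} ≠ 0 ∧
        (16 + ε) * (Uni.CT {0, d', d} * (x / Real.log x ^ 3)) < (p3 x d' d : ℝ) then 1 else 0)
    (fun d => by split_ifs <;> norm_num) (fun d => by split_ifs <;> norm_num)
  simp only [ite_mul, one_mul, zero_mul] at hmain
  rw [← sum_filter, ← sum_filter] at hmain
  obtain ⟨P, hP⟩ : ∃ P, P = x / Real.log x ^ 3 := ⟨_, rfl⟩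
  have hP0 : 0 < P := by rw [hP]; positivity
  rw [← hP] at hmain ⊢
  obtain ⟨B, hB⟩ : ∃ B, B = (Ioc u (u + H) \ {d'}).filter (fun d => Uni.CT {0, d', d} ≠ 0 ∧
        (16 + ε) * (Uni.CT {0, d', d} * P) < (p3 x d' d : ℝ)) := ⟨_, rfl⟩
  have hB2 : (Ioc u (u + H)).filter (fun d => d ≠ d' ∧ Uni.CT {0, d', d} ≠ 0 ∧
        (16 + ε) * (Uni.CT {0, d', d} * P) < (p3 x d' d : ℝ)) = B := by
    rw [hB]
    ext d
    simp only [mem_filter, Finset.mem_sdiff, mem_singleton]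
    tauto
  rw [← hB] at hmain
  rw [hB2]
  obtain ⟨C, hCd⟩ : ∃ C, C = Uni.CT {0, d'} := ⟨_, rfl⟩
  have hCpos : 0 < C := by rw [hCd]; exact CT_even_pos hd'e
  rw [← hCd] at hmain
  have h1 : (16 + ε) * (∑ d ∈ B, Uni.CT {0, d', d}) * P ≤ ∑ d ∈ B, (p3 x d' d : ℝ) := by
    rw [mul_assoc, sum_mul, mul_sum]
    apply sum_le_sum
    intro d hd
    rw [hB, mem_filter] at hd
    exact hd.2.2.le
  have h2 : (16 + ε) * (∑ d ∈ B, Uni.CT {0, d', d}) ≤ 16 * (∑ d ∈ B, Uni.CT {0, d', d}) + ε ^ 2 * c * H * C :=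
    le_of_mul_le_mul_right (h1.trans hmain) hP0
  have h3 : (B.card : ℝ) * (c * C) ≤ ∑ d ∈ B, Uni.CT {0, d', d} := by
    rw [← nsmul_eq_mul, ← sum_const]
    apply sum_le_sum
    intro d hd
    rw [hB, mem_filter, Finset.mem_sdiff, mem_singleton, mem_Ioc] at hd
    have h4 := hrel {0, d'} d (card_pair (by omega)) (by
      rw [mem_insert, mem_singleton]; omega) (by
      have e : (insert d {0, d'} : Finset ℕ) = {0, d', d} := by
        ext a
        simp only [mem_insert, mem_singleton]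
        tauto
      rw [e]
      exact hd.2.1)
    have e : (insert d {0, d'} : Finset ℕ) = {0, d', d} := by
      ext a
      simp only [mem_insert, mem_singleton]
      tauto
    rw [e, ← hCd] at h4
    exact h4
  have h4 : ε * ((B.card : ℝ) * (c * C)) ≤ ε ^ 2 * c * H * C := by
    have := mul_le_mul_of_nonneg_left h3 hε.le
    linarith
  have h5 : ε * c * C * (B.card : ℝ) ≤ ε * c * C * (ε * H) := by
    calc ε * c * C * (B.card : ℝ) = ε * ((B.card : ℝ) * (c * C)) := by ring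
      _ ≤ _ := h4
      _ = _ := by ring
  exact le_of_mul_le_mul_left h5 (by positivity)

end Pool.Agent.L0h43.TB
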