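import Pool.Agent.L0h43.TB.MT3

/-!
# Classes modulo `W`
-/

set_option autoImplicit false

namespace Pool.Agent.L0h43.TB

open Finset Filter Topology Pool.Agent.H387R2
open Pool.Agent.L0h43.TA
open Pool.Agent.H386R2.HL

/-- all `ν + t` are coprime to `W` -/
def OK (W ν : ℕ) (T : Finset ℕ) : Prop := ∀ t ∈ T, Nat.Coprime W (ν + t)

instance (W ν : ℕ) (T : Finset ℕ) : Decidable (OK W ν T) := by unfold OK; infer_instance

lemma pc_split (N : ℕ) {W' W ν' : ℕ} (T : Finset ℕ) (hd : W' ∣ W) (hW : 0 < W) :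
    pc N W' ν' T = ∑ ν ∈ (range W).filter (fun ν => ν % W' = ν'), pc N W ν T := by
  classical
  unfold pc
  rw [card_eq_sum_card_fiberwise (f := fun n => n % W) (t := (range W).filter (fun ν => ν % W' = ν'))]
  · apply sum_congr rfl
    intro ν hν
    rw [filter_filter]
    congr 1
    apply filter_congr
    intro n _
    have h1 := (mem_filter.1 hν).2
    constructor
    · rintro ⟨⟨_, h3⟩, h4⟩
      exact ⟨h4, h3⟩
    · rintro ⟨h4, h3⟩
      refine ⟨⟨?_, h3⟩, h4⟩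
      rw [← Nat.mod_mod_of_dvd n hd, h4, h1]
  · intro n hn
    rw [mem_coe, mem_filter] at hn
    rw [mem_coe, mem_filter, mem_range]
    refine ⟨Nat.mod_lt _ hW, ?_⟩
    show n % W % W' = ν'
    rw [Nat.mod_mod_of_dvd n hd]
    exact hn.2.1

lemma cop_shift {W n ν t : ℕ} (h : n % W = ν) : Nat.Coprime W (ν + t) ↔ Nat.Coprime W (n + t) := by
  have h1 : n + t ≡ ν + t [MOD W] := by
    apply Nat.ModEq.add_right
    rw [← h]
    exact (Nat.mod_modEq n W).symm
  unfold Nat.Coprime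
  rw [Nat.gcd_comm W (ν + t), Nat.gcd_comm W (n + t), h1.gcd_eq]

lemma pc_zero {N w ν : ℕ} {T : Finset ℕ} (hw : w ≤ Nat.sqrt N) (h : ¬ OK (Uni.WW w) ν T) :
    pc N (Uni.WW w) ν T = 0 := by
  classical
  unfold pc
  rw [card_eq_zero]
  apply filter_false_of_mem
  rintro n hn ⟨h1, h2⟩
  apply h
  intro t ht
  rw [cop_shift h1]
  have h3 := h2 t ht
  rw [Nat.coprime_comm, h3.coprime_iff_not_dvd, dvd_WW h3]
  have := (mem_Ioc.1 hn).1
  omega

/-- the number of good classes above a class -/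
lemma fiber_card {W' V a : ℕ} (hWV : Nat.Coprime W' V) (hW' : 0 < W') (hV : 0 < V) {T : Finset ℕ} (ha : a < W')
    (hOK : OK W' a T) :
    ((range (W' * V)).filter (fun ν => ν % W' = a ∧ OK (W' * V) ν T)).card = Uni.gT V T := by
  unfold Uni.gT
  apply card_bij (fun ν _ => ν % V)
  · intro ν hν
    rw [mem_filter] at hν
    rw [mem_filter, mem_range]
    refine ⟨Nat.mod_lt _ hV, fun t ht => ?_⟩
    rw [cop_shift (n := ν) rfl]
    exact Nat.Coprime.coprime_mul_left (hν.2.2 t ht)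
  · intro x hx y hy hxy
    rw [mem_filter, mem_range] at hx hy
    have h1 : x ≡ y [MOD W'] := by
      unfold Nat.ModEq
      rw [hx.2.1, hy.2.1]
    have h2 : x ≡ y [MOD V] := hxy
    have h3 := (Nat.modEq_and_modEq_iff_modEq_mul hWV).1 ⟨h1, h2⟩
    unfold Nat.ModEq at h3
    rwa [Nat.mod_eq_of_lt hx.1, Nat.mod_eq_of_lt hy.1] at h3
  · intro b hb
    rw [mem_filter, mem_range] at hb
    obtain ⟨k, hk1, hk2⟩ := Nat.chineseRemainder hWV a b
    have e1 : k % (W' * V) % W' = a := by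
      rw [Nat.mod_mod_of_dvd k (Dvd.intro _ rfl)]
      unfold Nat.ModEq at hk1
      rw [hk1, Nat.mod_eq_of_lt ha]
    have e2 : k % (W' * V) % V = b := by
      rw [Nat.mod_mod_of_dvd k (Dvd.intro_left _ rfl)]
      unfold Nat.ModEq at hk2
      rw [hk2, Nat.mod_eq_of_lt hb.1]
    refine ⟨k % (W' * V), ?_, e2⟩
    rw [mem_filter, mem_range]
    refine ⟨Nat.mod_lt _ (Nat.mul_pos hW' hV), e1, fun t ht => ?_⟩
    apply Nat.Coprime.mul_left
    · exact (cop_shift e1).1 (hOK t ht)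
    · exact (cop_shift e2).1 (hb.2 t ht)

lemma WW_split {w' w : ℕ} (h : w' ≤ w) : ∃ V, Uni.WW w = Uni.WW w' * V ∧ Nat.Coprime (Uni.WW w') V ∧ 0 < V := by
  have hsub : (w' + 1).primesBelow ⊆ (w + 1).primesBelow := by
    intro p hp
    rw [Nat.mem_primesBelow] at hp ⊢
    exact ⟨by omega, hp.2⟩
  refine ⟨∏ p ∈ (w + 1).primesBelow \ (w' + 1).primesBelow, p, ?_, ?_, ?_⟩
  · unfold Uni.WW
    rw [mul_comm, prod_sdiff hsub]
  · unfold Uni.WW
    apply Nat.Coprime.prod_left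
    intro p hp
    apply Nat.Coprime.prod_right
    intro q hq
    rw [Finset.mem_sdiff] at hq
    rw [Nat.coprime_primes (Nat.prime_of_mem_primesBelow hp) (Nat.prime_of_mem_primesBelow hq.1)]
    rintro rfl
    exact hq.2 hp
  · exact prod_pos fun p hp => (Nat.prime_of_mem_primesBelow (Finset.mem_sdiff.1 hp).1).pos

lemma OK_mod {W' V ν : ℕ} {T : Finset ℕ} (h : OK (W' * V) ν T) : OK W' (ν % W') T := by
  intro t ht
  rw [cop_shift (n := ν) rfl]
  exact Nat.Coprime.coprime_mul_right (h t ht)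

lemma gT_mul {W' V : ℕ} (hWV : Nat.Coprime W' V) (hW' : 0 < W') (hV : 0 < V) (T : Finset ℕ) :
    Uni.gT (W' * V) T = Uni.gT W' T * Uni.gT V T := by
  have h1 : Uni.gT (W' * V) T = ∑ a ∈ (range W').filter (fun a => OK W' a T),
      ((range (W' * V)).filter (fun ν => ν % W' = a ∧ OK (W' * V) ν T)).card := by
    have e : Uni.gT (W' * V) T = ((range (W' * V)).filter (fun ν => OK (W' * V) ν T)).card := rfl
    rw [e, card_eq_sum_card_fiberwise (f := fun n => n % W') (t := (range W').filter (fun a => OK W' a T))]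
    · apply sum_congr rfl
      intro a _
      rw [filter_filter]
      congr 1
      apply filter_congr
      intro n _
      exact and_comm
    · intro n hn
      rw [mem_coe, mem_filter] at hn
      rw [mem_coe, mem_filter, mem_range]
      exact ⟨Nat.mod_lt _ hW', OK_mod hn.2⟩
  rw [h1]
  have h2 : ∀ a ∈ (range W').filter (fun a => OK W' a T),
      ((range (W' * V)).filter (fun ν => ν % W' = a ∧ OK (W' * V) ν T)).card = Uni.gT V T := by
    intro a ha
    rw [mem_filter, mem_range] at ha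
    exact fiber_card hWV hW' hV ha.1 ha.2
  rw [sum_congr rfl h2, sum_const, smul_eq_mul]
  rfl

lemma Ew_nonneg {N W : ℕ} {T : Finset ℕ} (hN : 1 ≤ N) : 0 ≤ Ew N W T := by
  unfold Ew
  have h1 := Uni.CT_nonneg T
  have h2 : 0 ≤ Real.log N := Real.log_nonneg (by exact_mod_cast hN)
  positivity

/-- the expected numbers add up -/
lemma Ew_sum {N w' w a : ℕ} {T : Finset ℕ} (hN : 1 ≤ N) (hw : w' ≤ w) (ha : a < Uni.WW w')
    (hOK : OK (Uni.WW w') a T) :
    ∑ _ν ∈ (range (Uni.WW w)).filter (fun ν => ν % Uni.WW w' = a ∧ OK (Uni.WW w) ν T), Ew N (Uni.WW w) T ≤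
      Ew N (Uni.WW w') T := by
  obtain ⟨V, hV, hcop, hV0⟩ := WW_split hw
  rw [sum_const, nsmul_eq_mul, hV, fiber_card hcop (Uni.WW_pos w') hV0 ha hOK]
  unfold Ew
  rw [gT_mul hcop (Uni.WW_pos w') hV0]
  have h1 := Uni.CT_nonneg T
  have h2 : 0 ≤ Real.log N := Real.log_nonneg (by exact_mod_cast hN)
  rcases Nat.eq_zero_or_pos (Uni.gT V T) with h0 | h0
  · rw [h0]
    simp only [Nat.cast_zero, zero_mul]
    positivity
  · have h3 : (Uni.gT V T : ℝ) ≠ 0 := by exact_mod_cast h0.ne'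
    apply le_of_eq
    push_cast
    field_simp

/-- one more shift in the expected numbers -/
lemma star {w : ℕ} (T : Finset ℕ) (h : ℕ) (hw : 4 * (T.card + 1) ≤ w) (hh : h ∉ T)
    (hg : 0 < Uni.gT (Uni.WW w) (insert h T)) (hgT : 0 < Uni.gT (Uni.WW w) T) :
    (Uni.WW w : ℝ) / Nat.totient (Uni.WW w) * (Uni.CT T / Uni.gT (Uni.WW w) T) *
      (1 - (4 * T.card + 1) / w) ≤ Uni.CT (insert h T) / Uni.gT (Uni.WW w) (insert h T) := by
  obtain ⟨j, hj⟩ : ∃ j, j = T.card := ⟨_, rfl⟩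
  have hcard : (insert h T).card = j + 1 := by rw [card_insert_of_notMem hh, hj]
  rw [← hj] at hw ⊢
  have hw1 : 1 ≤ w := by omega
  have hw0 : (0 : ℝ) < w := by exact_mod_cast hw1
  have hw4 : (4 * (j + 1) : ℝ) ≤ w := by exact_mod_cast hw
  obtain ⟨W, hW⟩ : ∃ W, W = Uni.WW w := ⟨_, rfl⟩
  rw [← hW] at hg hgT ⊢
  have hWpos : 0 < W := by rw [hW]; exact Uni.WW_pos w
  have hW0 : (0 : ℝ) < W := by exact_mod_cast hWpos
  have hφ0 : (0 : ℝ) < Nat.totient W := by exact_mod_cast Nat.totient_pos.2 hWpos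
  -- choose `J`
  obtain ⟨J, hJ⟩ : ∃ J : ℕ, w * (j + 1) ^ 2 + w + 2 + (T.sup id) < 2 ^ 2 ^ J := by
    refine ⟨w * (j + 1) ^ 2 + w + 2 + (T.sup id), ?_⟩
    exact Nat.lt_two_pow_self.trans_le (Nat.pow_le_pow_right (by norm_num) Nat.lt_two_pow_self.le)
  have hwJ : w < 2 ^ 2 ^ J := by
    have : 0 ≤ w * (j + 1) ^ 2 := Nat.zero_le _
    omega
  obtain ⟨y, hy⟩ : ∃ y, y = 2 ^ 2 ^ J - 1 := ⟨_, rfl⟩
  have hyM : T.sup id ≤ y := by
    have : 0 ≤ w * (j + 1) ^ 2 := Nat.zero_le _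
    omega
  have hyw : w * (j + 1) ^ 2 ≤ y := by omega
  have hy2 : 2 ≤ y := by omega
  have hyj : j + 1 ≤ y := by nlinarith
  have hy0 : (0 : ℝ) < y := by
    have : 0 < y := by omega
    exact_mod_cast this
  -- upper bound for `CT T`
  obtain ⟨s1, hs1⟩ : ∃ s1, s1 = sy (Uni.en T) y := ⟨_, rfl⟩
  obtain ⟨s2, hs2⟩ : ∃ s2, s2 = sy (Uni.en (insert h T)) y := ⟨_, rfl⟩
  have hs2n : 0 ≤ s2 := by rw [hs2]; exact sy_nonneg _ _
  have hup : Uni.CT T ≤ s1 := by
    have h1 := Uni.CT_le T y (K := 1) le_rfl (M := T.sup id) (fun t ht => le_sup (f := id) ht) (by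
      intro n _ hn
      unfold tt
      apply le_of_eq
      apply prod_eq_one
      intro p hp
      exfalso
      rw [mem_filter, Nat.mem_primeFactors] at hp
      have := Nat.le_of_dvd (by omega) hp.1.2.1
      omega)
    rw [one_pow, one_mul, ← Uni.sy_en, ← hs1] at h1
    exact h1
  have hlo : (1 - ((j : ℝ) + 1) ^ 2 / y) * s2 ≤ Uni.CT (insert h T) := by
    have h1 := Pool.Agent.Helper22K9.Trp.CT_ge' (insert h T) y (by omega) (by rw [hcard]; exact hyj)
    rw [← Uni.sy_en, ← hs2, hcard] at h1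
    push_cast at h1
    exact h1
  -- the truncated products
  have e1 := VT_split hwJ T
  have e2 := VT_split hwJ (insert h T)
  have e3 := VT_eq J T
  have e4 := VT_eq J (insert h T)
  have e5 := V1_split hwJ
  rw [← hy, ← hs1, ← hj] at e3
  rw [← hy, ← hs2, hcard] at e4
  rw [← hW] at e1 e2 e5
  have hV := V1_pos J
  have hVw := V1w_pos w J
  have h3 := Vw_low (J := J) (w := w) T h (by rw [← hj]; exact hw)
  rw [← hj] at h3
  have hg0 : (0 : ℝ) < Uni.gT W (insert h T) := by exact_mod_cast hg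
  have hgT0 : (0 : ℝ) < Uni.gT W T := by exact_mod_cast hgT
  -- `sy T / gT = Vw T / (W V1 ^ j)`
  have f1 : s1 / Uni.gT W T = Vw w J T / (W * V1 J ^ j) := by
    rw [e3] at e1
    rw [div_eq_div_iff hgT0.ne' (by positivity)]
    have : s1 * (W * V1 J ^ j) = W * (V1 J ^ j * s1) := by ring
    rw [this, e1]
    field_simp
  have f2 : s2 / Uni.gT W (insert h T) = Vw w J (insert h T) / (W * V1 J ^ (j + 1)) := by
    rw [e4] at e2
    rw [div_eq_div_iff hg0.ne' (by positivity)]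
    have : s2 * (W * V1 J ^ (j + 1)) = W * (V1 J ^ (j + 1) * s2) := by
      ring
    rw [this, e2]
    field_simp
  have f3 : (1 - 4 * j / w) * ((W : ℝ) / Nat.totient W * (s1 / Uni.gT W T)) ≤
      s2 / Uni.gT W (insert h T) := by
    rw [f1, f2]
    have f4 : (1 - 4 * (j : ℝ) / w) * ((W : ℝ) / Nat.totient W * (Vw w J T / (W * V1 J ^ j))) =
        ((1 - 4 * (j : ℝ) / w) * (Vw w J T * V1w w J)) / (W * V1 J ^ (j + 1)) := by
      have f5 : (W : ℝ) / Nat.totient W * V1 J = V1w w J := by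
        rw [e5]; field_simp
      rw [← f5, pow_succ]
      field_simp
    rw [f4]
    exact div_le_div_of_nonneg_right h3 (by positivity)
  have hc1 : 0 ≤ 1 - 4 * (j : ℝ) / w := by
    rw [sub_nonneg, div_le_one hw0]; linarith
  have hc2 : 1 - 1 / (w : ℝ) ≤ 1 - ((j : ℝ) + 1) ^ 2 / y := by
    have : ((j : ℝ) + 1) ^ 2 / y ≤ 1 / w := by
      rw [div_le_div_iff₀ hy0 hw0]
      have : ((w * (j + 1) ^ 2 : ℕ) : ℝ) ≤ y := by exact_mod_cast hyw
      push_cast at this
      linarith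
    linarith
  have hw11 : 1 / (w : ℝ) ≤ 1 := by
    rw [div_le_one hw0]
    exact_mod_cast hw1
  have g1 : (W : ℝ) / Nat.totient W * (Uni.CT T / Uni.gT W T) ≤
      (W : ℝ) / Nat.totient W * (s1 / Uni.gT W T) := by
    apply mul_le_mul_of_nonneg_left _ (by positivity)
    exact div_le_div_of_nonneg_right hup hgT0.le
  have g0 : 0 ≤ (W : ℝ) / Nat.totient W * (Uni.CT T / Uni.gT W T) := by
    have := Uni.CT_nonneg T
    positivity
  have g2 : (1 - 1 / (w : ℝ)) * (s2 / Uni.gT W (insert h T)) ≤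
      Uni.CT (insert h T) / Uni.gT W (insert h T) := by
    have h5 : (1 - 1 / (w : ℝ)) * s2 ≤ Uni.CT (insert h T) :=
      (mul_le_mul_of_nonneg_right hc2 hs2n).trans hlo
    rw [mul_div_assoc']
    exact div_le_div_of_nonneg_right h5 hg0.le
  have g3 : (1 - 1 / (w : ℝ)) * ((1 - 4 * j / w) * ((W : ℝ) / Nat.totient W * (Uni.CT T / Uni.gT W T))) ≤
      (1 - 1 / (w : ℝ)) * (s2 / Uni.gT W (insert h T)) := by
    apply mul_le_mul_of_nonneg_left _ (by linarith)
    exact (mul_le_mul_of_nonneg_left g1 hc1).trans f3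
  refine le_trans ?_ (g3.trans g2)
  have h6 : 1 - (4 * (j : ℝ) + 1) / w ≤ (1 - 1 / (w : ℝ)) * (1 - 4 * j / w) := by
    have e : (1 - 1 / (w : ℝ)) * (1 - 4 * j / w) = 1 - (4 * j + 1) / w + 1 / w * (4 * j / w) := by ring
    rw [e]
    have : 0 ≤ 1 / (w : ℝ) * (4 * j / w) := by positivity
    linarith
  calc (W : ℝ) / Nat.totient W * (Uni.CT T / Uni.gT W T) * (1 - (4 * j + 1) / w) ≤
      (W : ℝ) / Nat.totient W * (Uni.CT T / Uni.gT W T) * ((1 - 1 / (w : ℝ)) * (1 - 4 * j / w)) :=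
        mul_le_mul_of_nonneg_left h6 g0
    _ = _ := by ring

end Pool.Agent.L0h43.TB
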