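import Pool.Agent.L0h43.TB.Mom

/-!
# The variance over a general sequence
-/

set_option autoImplicit false

namespace Pool.Agent.L0h43.TB

open Finset Pool.Agent.H387R2
open Pool.Agent.L0h43.TA
open Pool.Agent.H410R2.AC (wt GG)

lemma gdiag {b J k : ℕ} {𝒩 R : Finset ℕ} {X E : ℝ} {ρ : ℕ → ℕ → ℝ} (hC : CG b J 𝒩 X ρ E R)
    {Q : Finset ℕ} (hQ : Prs Q) (hJ : Big J Q) {Y : ℕ} (hY : 1 ≤ Y) (hX : 0 ≤ X) {h : ℕ} (hh : h ∈ R)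
    (hV : 0 ≤ ρ h h) (hk : ∀ n ∈ 𝒩, 1 ≤ n + h ∧ n + h < (2 ^ 2 ^ J) ^ (k + 1)) :
    ∑ n ∈ 𝒩, nu J Q Y (n + h) * nu J Q Y (n + h) ≤ (3 ^ k) ^ 4 * (2 * (X * ρ h h) + E) := by
  classical
  have hP : Prs (∅ : Finset ℕ) := fun p hp => absurd hp (notMem_empty p)
  have hBg : Big J (∅ : Finset ℕ) := fun p hp => absurd hp (notMem_empty p)
  have h1 : ∀ n ∈ 𝒩, nu J Q Y (n + h) * nu J Q Y (n + h) ≤
      (3 ^ k) ^ 4 * (if ((∀ p ∈ (∅ : Finset ℕ), p ∣ n + h) ∧ Ro J (n + h)) ∧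
        ((∀ p ∈ (∅ : Finset ℕ), p ∣ n + h) ∧ Ro J (n + h)) then 1 else 0) := by
    intro n hn
    unfold nu
    by_cases hR : Ro J (n + h)
    · rw [if_pos hR, if_pos, mul_one]
      · have h2 := Lam_le hQ hJ hY (m := n + h) (hk n hn).1 (hk n hn).2
        calc Lam Q Y (n + h) ^ 2 * Lam Q Y (n + h) ^ 2 = |Lam Q Y (n + h)| ^ 4 := by
              rw [← pow_add, show 2 + 2 = 4 from rfl]
              have : |Lam Q Y (n + h)| ^ 4 = (|Lam Q Y (n + h)| ^ 2) ^ 2 := by ring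
              rw [this, sq_abs]; ring
          _ ≤ (3 ^ k) ^ 4 := pow_le_pow_left₀ (abs_nonneg _) h2 4
      · exact ⟨⟨fun p hp => absurd hp (notMem_empty p), hR⟩, ⟨fun p hp => absurd hp (notMem_empty p), hR⟩⟩
    · rw [if_neg hR, zero_mul]
      split_ifs <;> positivity
  refine (sum_le_sum h1).trans ?_
  rw [← mul_sum]
  apply mul_le_mul_of_nonneg_left _ (by positivity)
  rw [sum_boole]
  have h2 := hC h hh h hh ∅ ∅ hP hP hBg hBg (disjoint_empty_right _)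
  have e : pd (∅ : Finset ℕ) = 1 := by simp [pd]
  rw [e, mul_one, div_one] at h2
  have h3 := (abs_le.1 h2).2
  unfold cg at h3
  have h4 : (1 / 2 : ℝ) ^ b ≤ 1 := pow_le_one₀ (by norm_num) (by norm_num)
  have h5 : 0 ≤ X * ρ h h := mul_nonneg hX hV
  have h6 := mul_le_mul_of_nonneg_right h4 h5
  linarith

/-- the window sum, with weights -/
noncomputable def Yg (J : ℕ) (Q : Finset ℕ) (Y : ℕ) (R : Finset ℕ) (g : ℕ → ℝ) (n : ℕ) : ℝ :=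
  ∑ h ∈ R, g h * nu J Q Y (n + h)

lemma wsum_low {R : Finset ℕ} {g a : ℕ → ℝ} {X gg B E A2 c V0 HV Hc : ℝ}
    (hg0 : ∀ h ∈ R, 0 ≤ g h) (hg1 : ∀ h ∈ R, g h ≤ 1) (ha : ∀ h ∈ R, 0 ≤ a h) (hX : 0 ≤ X)
    (hgg : 0 ≤ gg) (hB : 0 ≤ B) (hEA : 0 ≤ E * A2) (hlow : ∀ h ∈ R, c * V0 ≤ a h)
    (hup : ∑ h ∈ R, a h ≤ HV) (hcard : (R.card : ℝ) ≤ Hc) :
    X * gg * (c * V0) * (∑ h ∈ R, g h) - X * B * HV - Hc * (E * A2) ≤
      ∑ h ∈ R, g h * (X * a h * (gg - B) - E * A2) := by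
  have e : ∑ h ∈ R, g h * (X * a h * (gg - B) - E * A2) =
      X * gg * (∑ h ∈ R, g h * a h) - X * B * (∑ h ∈ R, g h * a h) - (E * A2) * ∑ h ∈ R, g h := by
    rw [mul_sum, mul_sum, mul_sum, ← sum_sub_distrib, ← sum_sub_distrib]
    apply sum_congr rfl
    intro h _
    ring
  rw [e]
  have h1 : (c * V0) * (∑ h ∈ R, g h) ≤ ∑ h ∈ R, g h * a h := by
    rw [mul_sum]
    apply sum_le_sum
    intro h hh
    rw [mul_comm]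
    exact mul_le_mul_of_nonneg_left (hlow h hh) (hg0 h hh)
  have h2 : ∑ h ∈ R, g h * a h ≤ HV := by
    refine le_trans (sum_le_sum fun h hh => ?_) hup
    calc g h * a h ≤ 1 * a h := mul_le_mul_of_nonneg_right (hg1 h hh) (ha h hh)
      _ = a h := one_mul _
  have h3 : ∑ h ∈ R, g h ≤ Hc := by
    refine le_trans (sum_le_sum hg1) ?_
    rw [sum_const, nsmul_eq_mul, mul_one]
    exact hcard
  have h4 := mul_le_mul_of_nonneg_left h1 (mul_nonneg hX hgg)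
  have h5 := mul_le_mul_of_nonneg_left h2 (mul_nonneg hX hB)
  have h6 := mul_le_mul_of_nonneg_left h3 hEA
  have e2 : X * gg * (c * V0) * (∑ h ∈ R, g h) = X * gg * ((c * V0) * ∑ h ∈ R, g h) := by ring
  rw [e2]
  linarith

/-- the algebra of the variance -/
lemma var_alg {X ρ0 V gg e1 G S ε2 b2 U HV M2 E4 D E2 Hc E NN m : ℝ} (hX : 0 ≤ X) (hρ : 0 ≤ ρ0) (hV : 0 ≤ V)
    (hgg : 0 ≤ gg) (he1 : 0 ≤ e1) (hG : 0 ≤ G) (hGH : G ≤ HV) (hε2 : 0 ≤ ε2) (hb2 : 0 ≤ b2) (hU : 0 ≤ U)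
    (hm : m = G * V * gg)
    (hM2 : M2 ≤ X * (ρ0 * V ^ 2 * (G ^ 2 + S)) * (gg ^ 2 + e1) + E4 + D)
    (hM1 : X * gg * ((1 - ε2) * (ρ0 * V)) * G - X * (b2 * U) * (2 * ρ0 * V * HV) - Hc * E2 ≤ E)
    (hNN : NN ≤ X * ρ0 * (1 + b2) + Hc) (_hS : 0 ≤ S) :
    M2 - 2 * m * E + NN * m ^ 2 ≤
      X * ρ0 * V ^ 2 * (HV ^ 2 * ((2 * ε2 + b2) * gg ^ 2 + e1 + 4 * gg * (b2 * U)) + S * (gg ^ 2 + e1)) +
        E4 + D + 2 * m * (Hc * E2) + m ^ 2 * Hc := by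
  have hm0 : 0 ≤ m := by rw [hm]; positivity
  have h1 := mul_le_mul_of_nonneg_left hM1 (show 0 ≤ 2 * m by positivity)
  have h2 := mul_le_mul_of_nonneg_right hNN (sq_nonneg m)
  have hGG : G ^ 2 ≤ HV ^ 2 := pow_le_pow_left₀ hG hGH 2
  have hW : 0 ≤ X * ρ0 * V ^ 2 := by positivity
  have h3 : X * ρ0 * V ^ 2 * (G ^ 2 * ((2 * ε2 + b2) * gg ^ 2 + e1)) ≤
      X * ρ0 * V ^ 2 * (HV ^ 2 * ((2 * ε2 + b2) * gg ^ 2 + e1)) := by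
    apply mul_le_mul_of_nonneg_left _ hW
    exact mul_le_mul_of_nonneg_right hGG (by positivity)
  have h4 : X * ρ0 * V ^ 2 * (G * HV * (4 * gg * (b2 * U))) ≤ X * ρ0 * V ^ 2 * (HV ^ 2 * (4 * gg * (b2 * U))) := by
    apply mul_le_mul_of_nonneg_left _ hW
    apply mul_le_mul_of_nonneg_right _ (by positivity)
    rw [sq]
    exact mul_le_mul_of_nonneg_right hGH (hG.trans hGH)
  have e1' : 2 * m * (X * gg * ((1 - ε2) * (ρ0 * V)) * G - X * (b2 * U) * (2 * ρ0 * V * HV) - Hc * E2) =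
      X * ρ0 * V ^ 2 * (2 * (1 - ε2) * gg ^ 2 * G ^ 2) - X * ρ0 * V ^ 2 * (G * HV * (4 * gg * (b2 * U))) -
        2 * m * (Hc * E2) := by
    rw [hm]; ring
  have e2' : (X * ρ0 * (1 + b2) + Hc) * m ^ 2 = X * ρ0 * V ^ 2 * (G ^ 2 * gg ^ 2 * (1 + b2)) + m ^ 2 * Hc := by
    rw [hm]; ring
  rw [e1'] at h1
  rw [e2'] at h2
  have e3 : X * ρ0 * V ^ 2 * (HV ^ 2 * ((2 * ε2 + b2) * gg ^ 2 + e1 + 4 * gg * (b2 * U)) + S * (gg ^ 2 + e1)) =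
      X * ρ0 * V ^ 2 * (HV ^ 2 * ((2 * ε2 + b2) * gg ^ 2 + e1)) +
      X * ρ0 * V ^ 2 * (HV ^ 2 * (4 * gg * (b2 * U))) + X * ρ0 * V ^ 2 * (S * (gg ^ 2 + e1)) := by ring
  have e4 : X * (ρ0 * V ^ 2 * (G ^ 2 + S)) * (gg ^ 2 + e1) =
      X * ρ0 * V ^ 2 * (G ^ 2 * ((2 * ε2 + b2) * gg ^ 2 + e1)) +
      X * ρ0 * V ^ 2 * (S * (gg ^ 2 + e1)) + X * ρ0 * V ^ 2 * (2 * (1 - ε2) * gg ^ 2 * G ^ 2) -
      X * ρ0 * V ^ 2 * (G ^ 2 * gg ^ 2 * (1 + b2)) := by ring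
  rw [e4] at hM2
  rw [e3]
  linarith

theorem gvar {b J k : ℕ} {𝒩 R : Finset ℕ} {X E : ℝ} {ρ : ℕ → ℕ → ℝ} (hC : CG b J 𝒩 X ρ E R)
    {Q : Finset ℕ} (hQ : Prs Q) (hJ : Big J Q) {Y : ℕ} (hY : 1 ≤ Y) (hX : 0 ≤ X) (hE : 0 ≤ E)
    (hRz : ∀ h ∈ R, h < 2 ^ 2 ^ J) (hk : ∀ n ∈ 𝒩, ∀ h ∈ R, 1 ≤ n + h ∧ n + h < (2 ^ 2 ^ J) ^ (k + 1))
    (hρ : ∀ h1 h2, 0 ≤ ρ h1 h2) {g : ℕ → ℝ} (hg0 : ∀ h ∈ R, 0 ≤ g h) (hg1 : ∀ h ∈ R, g h ≤ 1)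
    {ρ0 V ε2 G HV S Hc gg e1 m : ℝ} (hρ0 : 0 ≤ ρ0) (hV : 0 ≤ V) (hε2 : 0 ≤ ε2) (hS : 0 ≤ S)
    (hG : G = ∑ h ∈ R, g h) (hGH : G ≤ HV) (hcard : (R.card : ℝ) ≤ Hc)
    (hgg : gg = 1 / GG (Fm Q Y)) (hm : m = G * V * gg)
    (he1 : ∑ p ∈ Q, (8 / p * UU Q) ^ 2 + (1 / 2) ^ b * UU Q ^ 2 ≤ e1) (he0 : 0 ≤ e1)
    (hN : (𝒩.card : ℝ) ≤ X * ρ0 * (1 + (1 / 2) ^ b) + E)
    (hlow : ∀ h ∈ R, (1 - ε2) * (ρ0 * V) ≤ ρ h h) (hup1 : ∑ h ∈ R, ρ h h ≤ 2 * ρ0 * V * HV)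
    (hup2 : ∑ x ∈ R.offDiag, g x.1 * g x.2 * ρ x.1 x.2 ≤ ρ0 * V ^ 2 * (G ^ 2 + S)) :
    ∑ n ∈ 𝒩, (Yg J Q Y R g n - m) ^ 2 ≤
      X * ρ0 * V ^ 2 * (HV ^ 2 * ((2 * ε2 + (1 / 2) ^ b) * gg ^ 2 + e1 + 4 * gg * ((1 / 2) ^ b * UU Q)) +
        S * (gg ^ 2 + e1)) + Hc ^ 2 * (E * AA Q Y ^ 4) +
        (3 ^ k) ^ 4 * (4 * (X * ρ0 * V * HV) + Hc * E) + 2 * m * (Hc * (E * AA Q Y ^ 2)) + m ^ 2 * E := by
  classical
  have hGp : 0 < GG (Fm Q Y) := GG_pos hQ hY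
  have hgg0 : 0 ≤ gg := by rw [hgg]; positivity
  have hG0 : 0 ≤ G := by rw [hG]; exact sum_nonneg hg0
  have hAA := AA_nonneg Q Y
  have hUU := UU_nonneg hQ (Q := Q)
  have e0 : ∑ n ∈ 𝒩, (Yg J Q Y R g n - m) ^ 2 = ∑ n ∈ 𝒩, Yg J Q Y R g n ^ 2 -
      2 * m * ∑ n ∈ 𝒩, Yg J Q Y R g n + 𝒩.card * m ^ 2 := by
    have : ∀ n ∈ 𝒩, (Yg J Q Y R g n - m) ^ 2 = Yg J Q Y R g n ^ 2 - 2 * m * Yg J Q Y R g n + m ^ 2 := by
      intro n _; ring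
    rw [sum_congr rfl this, sum_add_distrib, sum_sub_distrib, ← mul_sum, sum_const, nsmul_eq_mul]
  have f1 : X * gg * ((1 - ε2) * (ρ0 * V)) * G - X * ((1 / 2) ^ b * UU Q) * (2 * ρ0 * V * HV) -
      Hc * (E * AA Q Y ^ 2) ≤ ∑ n ∈ 𝒩, Yg J Q Y R g n := by
    have h1 : ∑ n ∈ 𝒩, Yg J Q Y R g n = ∑ h ∈ R, g h * ∑ n ∈ 𝒩, nu J Q Y (n + h) := by
      unfold Yg
      rw [sum_comm]
      apply sum_congr rfl
      intro h _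
      rw [mul_sum]
    rw [h1, hG]
    refine (wsum_low (g := g) (a := fun h => ρ h h) hg0 hg1 (fun h _ => hρ h h) hX hgg0 (by positivity)
      (by positivity) hlow hup1 hcard).trans ?_
    apply sum_le_sum
    intro h hh
    apply mul_le_mul_of_nonneg_left _ (hg0 h hh)
    have h2 := gfirst hC hQ hJ hY hX hE hh (hρ h h)
    rw [hgg]
    exact h2
  have e2 : ∑ n ∈ 𝒩, Yg J Q Y R g n ^ 2 =
      ∑ x ∈ R ×ˢ R, g x.1 * g x.2 * ∑ n ∈ 𝒩, nu J Q Y (n + x.1) * nu J Q Y (n + x.2) := by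
    simp_rw [mul_sum]
    rw [sum_comm]
    apply sum_congr rfl
    intro n _
    unfold Yg
    rw [sq, sum_mul_sum, sum_product]
    apply sum_congr rfl
    intro h _
    apply sum_congr rfl
    intro h' _
    ring
  have f2 : ∑ x ∈ R.offDiag, g x.1 * g x.2 * ∑ n ∈ 𝒩, nu J Q Y (n + x.1) * nu J Q Y (n + x.2) ≤
      X * (ρ0 * V ^ 2 * (G ^ 2 + S)) * (gg ^ 2 + e1) + Hc ^ 2 * (E * AA Q Y ^ 4) := by
    have h1 : ∀ x ∈ R.offDiag, g x.1 * g x.2 * ∑ n ∈ 𝒩, nu J Q Y (n + x.1) * nu J Q Y (n + x.2) ≤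
        (g x.1 * g x.2 * ρ x.1 x.2) * (X * (gg ^ 2 + e1)) + E * AA Q Y ^ 4 := by
      intro x hx
      rw [mem_offDiag] at hx
      have h2 := gpair hC hQ hJ hY hX hE hx.1 hx.2.1 hx.2.2 (hRz _ hx.1) (hRz _ hx.2.1) (hρ x.1 x.2)
      have h3 : 1 / GG (Fm Q Y) ^ 2 = gg ^ 2 := by rw [hgg, div_pow, one_pow]
      rw [h3] at h2
      have h4 : X * ρ x.1 x.2 * (gg ^ 2 + ∑ p ∈ Q, (8 / (p : ℝ) * UU Q) ^ 2 + (1 / 2) ^ b * UU Q ^ 2) ≤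
          X * ρ x.1 x.2 * (gg ^ 2 + e1) := by
        apply mul_le_mul_of_nonneg_left _ (mul_nonneg hX (hρ _ _))
        linarith
      have hgg1 : 0 ≤ g x.1 * g x.2 := mul_nonneg (hg0 _ hx.1) (hg0 _ hx.2.1)
      have hgg2 : g x.1 * g x.2 ≤ 1 := mul_le_one₀ (hg1 _ hx.1) (hg0 _ hx.2.1) (hg1 _ hx.2.1)
      have h5 := mul_le_mul_of_nonneg_left (h2.trans (add_le_add h4 le_rfl)) hgg1
      refine h5.trans ?_
      have h6 : 0 ≤ E * AA Q Y ^ 4 := by positivity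
      have h7 := mul_le_mul_of_nonneg_right hgg2 h6
      rw [one_mul] at h7
      have e3 : g x.1 * g x.2 * (X * ρ x.1 x.2 * (gg ^ 2 + e1) + E * AA Q Y ^ 4) =
          (g x.1 * g x.2 * ρ x.1 x.2) * (X * (gg ^ 2 + e1)) + g x.1 * g x.2 * (E * AA Q Y ^ 4) := by ring
      rw [e3]
      linarith
    refine (sum_le_sum h1).trans ?_
    rw [sum_add_distrib, ← sum_mul, sum_const, nsmul_eq_mul]
    have h5 : ((R.offDiag.card : ℕ) : ℝ) ≤ Hc ^ 2 := by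
      have h6 : R.offDiag.card ≤ R.card * R.card := by
        rw [offDiag_card]; omega
      have h7 : ((R.offDiag.card : ℕ) : ℝ) ≤ (R.card : ℝ) * R.card := by exact_mod_cast h6
      refine h7.trans ?_
      rw [sq]
      exact mul_le_mul hcard hcard (Nat.cast_nonneg _) ((Nat.cast_nonneg _).trans hcard)
    have h7 : 0 ≤ E * AA Q Y ^ 4 := by positivity
    have h8 := mul_le_mul_of_nonneg_right h5 h7
    have h9 := mul_le_mul_of_nonneg_right hup2 (show 0 ≤ X * (gg ^ 2 + e1) by positivity)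
    have e3 : X * (ρ0 * V ^ 2 * (G ^ 2 + S)) * (gg ^ 2 + e1) = ρ0 * V ^ 2 * (G ^ 2 + S) * (X * (gg ^ 2 + e1)) := by
      ring
    rw [e3]
    linarith
  have f3 : ∑ x ∈ R.diag, g x.1 * g x.2 * ∑ n ∈ 𝒩, nu J Q Y (n + x.1) * nu J Q Y (n + x.2) ≤
      (3 ^ k) ^ 4 * (4 * (X * ρ0 * V * HV) + Hc * E) := by
    rw [sum_diag]
    have h1 : ∀ h ∈ R, g h * g h * ∑ n ∈ 𝒩, nu J Q Y (n + h) * nu J Q Y (n + h) ≤
        (3 ^ k) ^ 4 * (2 * (X * ρ h h) + E) := by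
      intro h hh
      have h2 := gdiag (k := k) hC hQ hJ hY hX hh (hρ h h) (fun n hn => hk n hn h hh)
      have h3 : 0 ≤ ∑ n ∈ 𝒩, nu J Q Y (n + h) * nu J Q Y (n + h) :=
        sum_nonneg fun n _ => mul_nonneg (nu_nonneg _ _ _ _) (nu_nonneg _ _ _ _)
      have h4 : g h * g h ≤ 1 := mul_le_one₀ (hg1 _ hh) (hg0 _ hh) (hg1 _ hh)
      calc g h * g h * ∑ n ∈ 𝒩, nu J Q Y (n + h) * nu J Q Y (n + h) ≤
          1 * ∑ n ∈ 𝒩, nu J Q Y (n + h) * nu J Q Y (n + h) := mul_le_mul_of_nonneg_right h4 h3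
        _ ≤ _ := by rw [one_mul]; exact h2
    refine (sum_le_sum h1).trans ?_
    rw [← mul_sum]
    apply mul_le_mul_of_nonneg_left _ (by positivity)
    rw [sum_add_distrib, ← mul_sum, ← mul_sum, sum_const, nsmul_eq_mul]
    have h5 := mul_le_mul_of_nonneg_left hup1 hX
    have h6 := mul_le_mul_of_nonneg_right hcard hE
    have e : 4 * (X * ρ0 * V * HV) = 2 * (X * (2 * ρ0 * V * HV)) := by ring
    rw [e]
    linarith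
  have f4 : ∑ n ∈ 𝒩, Yg J Q Y R g n ^ 2 ≤ X * (ρ0 * V ^ 2 * (G ^ 2 + S)) * (gg ^ 2 + e1) +
      Hc ^ 2 * (E * AA Q Y ^ 4) + (3 ^ k) ^ 4 * (4 * (X * ρ0 * V * HV) + Hc * E) := by
    rw [e2, ← diag_union_offDiag, sum_union (disjoint_diag_offDiag _)]
    linarith
  rw [e0]
  have hEm := mul_nonneg (sq_nonneg m) hE
  have hGg : m = G * V * gg := hm
  have key := var_alg (X := X) (ρ0 := ρ0) (V := V) (gg := gg) (e1 := e1) (G := G) (S := S) (ε2 := ε2)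
    (b2 := (1 / 2) ^ b) (U := UU Q) (HV := HV) (M2 := ∑ n ∈ 𝒩, Yg J Q Y R g n ^ 2)
    (E4 := Hc ^ 2 * (E * AA Q Y ^ 4)) (D := (3 ^ k) ^ 4 * (4 * (X * ρ0 * V * HV) + Hc * E))
    (E2 := E * AA Q Y ^ 2) (Hc := Hc) (E := ∑ n ∈ 𝒩, Yg J Q Y R g n) (NN := (𝒩.card : ℝ) - E + Hc) (m := m)
    hX hρ0 hV hgg0 he0 hG0 hGH hε2 (by positivity) hUU hGg f4 f1 (by linarith) hS
  have e5 : ((𝒩.card : ℝ) - E + Hc) * m ^ 2 = 𝒩.card * m ^ 2 - m ^ 2 * E + m ^ 2 * Hc := by ring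
  rw [e5] at key
  linarith

end Pool.Agent.L0h43.TB
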