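import Pool.Agent.L0h43.TB.Fl
import Pool.Agent.L0h43.TB.Gvar

/-!
# Counting in a class modulo `W` with the fundamental lemma
-/

set_option autoImplicit false

namespace Pool.Agent.L0h43.TB

open Finset Pool.Agent.H387R2
open Pool.Agent.L0h43.TA

/-- the primes between `w` and `2 ^ 2 ^ J` -/
def Pw (w J : ℕ) : Finset ℕ := (Ps J).filter (fun p => w < p)

/-- the density of the rough translates, without the primes up to `w` -/
noncomputable def Vw (w J : ℕ) (T : Finset ℕ) : ℝ := ∏ p ∈ Pw w J, (1 - (Uni.nuT T p : ℝ) / p)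

/-- the error term -/
noncomputable def Eg (C κ b J : ℕ) : ℝ :=
  ((C * (κ + 1) : ℕ) : ℝ) ^ (C * (κ + 1)) * ((J : ℝ) + 2) * ((2 ^ 2 ^ J) ^ (C * b)) ^ 2

lemma Eg_nonneg (C κ b J : ℕ) : 0 ≤ Eg C κ b J := by
  unfold Eg
  positivity

lemma Pw_prime {w J p : ℕ} (hp : p ∈ Pw w J) : p.Prime := (mem_filter.1 (mem_filter.1 hp).1).2

lemma Pw_gt {w J p : ℕ} (hp : p ∈ Pw w J) : w < p := (mem_filter.1 hp).2

lemma Pw_lt {w J p : ℕ} (hp : p ∈ Pw w J) : p < 2 ^ 2 ^ J := mem_range.1 (mem_filter.1 (mem_filter.1 hp).1).1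

lemma Vw_nonneg (w J : ℕ) (T : Finset ℕ) : 0 ≤ Vw w J T := by
  unfold Vw
  apply prod_nonneg
  intro p hp
  have hpp := Pw_prime hp
  have h0 : (0 : ℝ) < p := by exact_mod_cast hpp.pos
  have h1 : (Uni.nuT T p : ℝ) ≤ p := by exact_mod_cast nuT_le_self T hpp.pos
  rw [sub_nonneg, div_le_one h0]
  exact h1

theorem cnt_w : ∃ C : ℕ, 1 ≤ C ∧ ∀ (κ b J N W w ν a r : ℕ) (T : Finset ℕ), C * (κ + 1) ≤ b →
    T.card ≤ κ → 1 ≤ W → (∀ p : ℕ, p.Prime → (p ∣ W ↔ p ≤ w)) → 1 ≤ a → Nat.Coprime W a →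
    (∀ p ∈ Ps J, ¬ p ∣ a) → ν < W → r < a → (∀ t ∈ T, Nat.Coprime W (ν + t)) →
    ∀ S : Finset ℕ, (∀ n, n ∈ S ↔ (0 < n ∧ n ≤ N) ∧ n % W = ν ∧ n % a = r ∧ ∀ t ∈ T, Ro J (n + t)) →
    |(S.card : ℝ) - N / (W * a) * Vw w J T| ≤ (1 / 2) ^ b * (N / (W * a) * Vw w J T) + Eg C κ b J := by
  obtain ⟨C, hC, H⟩ := flg'
  refine ⟨C, hC, ?_⟩
  intro κ b J N W w ν a r T hb hT hW hWw ha hWa hPa hν hr hcop S hS
  obtain ⟨k, hk1, hk2⟩ := Nat.chineseRemainder hWa ν r
  have hcl : ∀ n : ℕ, n % (W * a) = k % (W * a) ↔ n % W = ν ∧ n % a = r := by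
    intro n
    have e : n % (W * a) = k % (W * a) ↔ n ≡ k [MOD W * a] := Iff.rfl
    rw [e, ← Nat.modEq_and_modEq_iff_modEq_mul hWa]
    have f1 : n ≡ k [MOD W] ↔ n % W = ν := by
      constructor
      · intro h
        have := h.trans hk1
        unfold Nat.ModEq at this
        rw [Nat.mod_eq_of_lt hν] at this
        exact this
      · intro h
        have : n ≡ ν [MOD W] := by
          unfold Nat.ModEq
          rw [h, Nat.mod_eq_of_lt hν]
        exact this.trans hk1.symm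
    have f2 : n ≡ k [MOD a] ↔ n % a = r := by
      constructor
      · intro h
        have := h.trans hk2
        unfold Nat.ModEq at this
        rw [Nat.mod_eq_of_lt hr] at this
        exact this
      · intro h
        have : n ≡ r [MOD a] := by
          unfold Nat.ModEq
          rw [h, Nat.mod_eq_of_lt hr]
        exact this.trans hk2.symm
    rw [f1, f2]
  have hM : 0 < W * a := Nat.mul_pos (by omega) (by omega)
  have h := H κ b J (C * (κ + 1)) (W * a) 0 N (Pw w J) (Om T) {k % (W * a)} S hb le_rfl hM (Nat.zero_le _)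
    (by
      intro x hx
      rw [mem_singleton] at hx
      rw [hx, mem_range]; exact Nat.mod_lt _ hM)
    (by
      intro p hp
      have h2 := Pw_prime hp
      refine ⟨h2, (Pw_lt hp).le, ?_⟩
      rw [h2.dvd_mul]
      rintro (h3 | h3)
      · have := (hWw p h2).1 h3
        have := Pw_gt hp
        omega
      · exact hPa p (mem_filter.1 hp).1 h3)
    (fun p _ => filter_subset _ _)
    (by
      intro p hp _
      rw [Om_card T (Pw_prime hp).pos]
      exact (nuT_le_card T p).trans hT)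
    (by
      intro n
      rw [hS n, mem_singleton, hcl n]
      have e : n % W = ν → ((∀ t ∈ T, Ro J (n + t)) ↔ ∀ p ∈ Pw w J, n % p ∉ Om T p) := by
        intro hn
        constructor
        · intro h1 p hp h2
          obtain ⟨_, t, ht, hd⟩ := mem_filter.1 h2
          apply h1 t ht p (mem_filter.1 hp).1
          rw [Nat.dvd_iff_mod_eq_zero] at hd ⊢
          rw [Nat.mod_add_mod] at hd
          exact hd
        · intro h1 t ht p hp hd
          have h3 := (mem_filter.1 hp).2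
          rcases Nat.lt_or_ge w p with hwp | hwp
          · apply h1 p (mem_filter.2 ⟨hp, hwp⟩)
            unfold Om
            rw [mem_filter, mem_range]
            refine ⟨Nat.mod_lt _ h3.pos, t, ht, ?_⟩
            rw [Nat.dvd_iff_mod_eq_zero] at hd ⊢
            rw [Nat.mod_add_mod]
            exact hd
          · have h4 : p ∣ W := (hWw p h3).2 hwp
            have h5 : p ∣ ν + t := by
              have h6 : n ≡ ν [MOD W] := by
                unfold Nat.ModEq
                rw [hn, Nat.mod_eq_of_lt hν]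
              have h7 : n ≡ ν [MOD p] := h6.of_dvd h4
              have h8 : n + t ≡ ν + t [MOD p] := h7.add_right t
              exact (h8.dvd_iff dvd_rfl).1 hd
            have h9 := Nat.dvd_gcd h4 h5
            have h10 : Nat.gcd W (ν + t) = 1 := hcop t ht
            rw [h10] at h9
            exact h3.one_lt.ne' (Nat.dvd_one.1 h9)
      constructor
      · rintro ⟨h1, h3, h4, h5⟩
        exact ⟨h1, ⟨h3, h4⟩, (e h3).1 h5⟩
      · rintro ⟨h1, ⟨h3, h4⟩, h5⟩
        exact ⟨h1, h3, h4, (e h3).2 h5⟩)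
  have e1 : ∏ p ∈ Pw w J, (1 - ((Om T p).card : ℝ) / p) = Vw w J T := by
    unfold Vw
    apply prod_congr rfl
    intro p hp
    rw [Om_card T (Pw_prime hp).pos]
  rw [e1, card_singleton] at h
  have e2 : ((N : ℝ) - ((0 : ℕ) : ℝ)) * (((1 : ℕ) : ℝ) / ((W * a : ℕ) : ℝ)) * Vw w J T =
      N / (W * a) * Vw w J T := by
    push_cast
    ring
  rw [e2] at h
  refine h.trans (le_of_eq ?_)
  unfold Eg
  push_cast
  ring

open Classical in
/-- the sequence -/
noncomputable def NN (N W ν J : ℕ) (T : Finset ℕ) : Finset ℕ :=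
  (Ioc 0 N).filter (fun n => n % W = ν ∧ ∀ t ∈ T, Ro J (n + t))

lemma cop_big {W w J : ℕ} {A : Finset ℕ} (hW : ∀ p : ℕ, p.Prime → (p ∣ W ↔ p ≤ w)) (hw : w < 2 ^ 2 ^ J)
    (hA : Prs A) (hJ : Big J A) : Nat.Coprime W (∏ p ∈ A, p) := by
  apply Nat.Coprime.prod_right
  intro q hq
  rw [Nat.coprime_comm, (hA q hq).coprime_iff_not_dvd, hW q (hA q hq)]
  have := hJ q hq
  omega

/-- the counting hypothesis holds -/
theorem CG_w : ∃ C : ℕ, 1 ≤ C ∧ ∀ (κ b J N W w ν : ℕ) (T : Finset ℕ), C * (κ + 1) ≤ b →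
    T.card + 2 ≤ κ → 1 ≤ W → (∀ p : ℕ, p.Prime → (p ∣ W ↔ p ≤ w)) → w < 2 ^ 2 ^ J →
    ν < W → (∀ t ∈ T, Nat.Coprime W (ν + t)) →
    (((NN N W ν J T).card : ℝ) ≤ N * (1 / W * Vw w J T) * (1 + (1 / 2) ^ b) + Eg C κ b J) ∧
    ∀ R : Finset ℕ, (∀ h ∈ R, Nat.Coprime W (ν + h)) →
      CG b J (NN N W ν J T) N (fun h1 h2 => 1 / W * Vw w J (insert h1 (insert h2 T))) (Eg C κ b J) R := by
  classical
  obtain ⟨C, hC, H⟩ := cnt_w
  refine ⟨C, hC, ?_⟩
  intro κ b J N W w ν T hb hT hW hWw hw hν hcop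
  constructor
  · have h := H κ b J N W w ν 1 0 T hb (by omega) hW hWw le_rfl (Nat.coprime_one_right _)
      (fun p hp h => (mem_filter.1 hp).2.one_lt.ne' (Nat.dvd_one.1 h)) hν one_pos hcop (NN N W ν J T)
      (by
        intro n
        unfold NN
        rw [mem_filter, mem_Ioc]
        constructor
        · rintro ⟨h1, h2, h3⟩
          exact ⟨h1, h2, Nat.mod_one n, h3⟩
        · rintro ⟨h1, h2, _, h3⟩
          exact ⟨h1, h2, h3⟩)
    have h2 := (abs_le.1 h).2
    have e : (N : ℝ) / (W * ((1 : ℕ) : ℝ)) * Vw w J T = N * (1 / W * Vw w J T) := by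
      push_cast
      ring
    rw [e] at h2
    linarith
  · intro R hR h1 hh1 h2 hh2 A B hA hB hJA hJB hAB
    obtain ⟨r0, hr0, hcl⟩ := crt_cls hA hB hAB h1 h2
    have h := H κ b J N W w ν ((∏ p ∈ A, p) * (∏ p ∈ B, p)) r0 (insert h1 (insert h2 T)) hb
      (by
        have a1 := card_insert_le h1 (insert h2 T)
        have a2 := card_insert_le h2 T
        omega) hW hWw (Nat.mul_pos (prod_pos' hA) (prod_pos' hB))
      (Nat.Coprime.mul_right (cop_big hWw hw hA hJA) (cop_big hWw hw hB hJB))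
      (by
        intro p hp hd
        rw [(mem_filter.1 hp).2.dvd_mul] at hd
        rcases hd with hd | hd
        · exact not_dvd_prod hA hJA hp hd
        · exact not_dvd_prod hB hJB hp hd) hν hr0
      (by
        intro t ht
        rw [mem_insert, mem_insert] at ht
        rcases ht with rfl | rfl | ht
        · exact hR _ hh1
        · exact hR _ hh2
        · exact hcop t ht)
      ((NN N W ν J T).filter (fun n => ((∀ p ∈ A, p ∣ n + h1) ∧ Ro J (n + h1)) ∧
        ((∀ p ∈ B, p ∣ n + h2) ∧ Ro J (n + h2))))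
      (by
        intro n
        unfold NN
        rw [mem_filter, mem_filter, mem_Ioc, hcl n]
        constructor
        · rintro ⟨⟨c1, c2, c3⟩, ⟨c4, c5⟩, c6, c7⟩
          refine ⟨c1, c2, ⟨c4, c6⟩, ?_⟩
          intro t ht
          rw [mem_insert, mem_insert] at ht
          rcases ht with rfl | rfl | ht
          · exact c5
          · exact c7
          · exact c3 t ht
        · rintro ⟨c1, c2, ⟨c4, c6⟩, c3⟩
          refine ⟨⟨c1, c2, fun t ht => c3 t ?_⟩, ⟨c4, c3 h1 ?_⟩, c6, c3 h2 ?_⟩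
          · rw [mem_insert, mem_insert]; tauto
          · rw [mem_insert]; tauto
          · rw [mem_insert, mem_insert]; tauto)
    have e : (N : ℝ) / (W * (((∏ p ∈ A, p) * (∏ p ∈ B, p) : ℕ) : ℝ)) * Vw w J (insert h1 (insert h2 T)) =
        N / (pd A * pd B) * (1 / W * Vw w J (insert h1 (insert h2 T))) := by
      rw [Nat.cast_mul, cast_prod, cast_prod]
      have a1 := (pd_pos hA).ne'
      have a2 := (pd_pos hB).ne'
      have a3 : (W : ℝ) ≠ 0 := by
        have : (1 : ℝ) ≤ W := by exact_mod_cast hW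
        linarith
      field_simp
    rw [e] at h
    unfold cg
    exact h

end Pool.Agent.L0h43.TB
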