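import Pool.Agent.L0h43.TB.Fin

/-!
# Sets of integer shifts
-/

set_option autoImplicit false

namespace Pool.Agent.L0h43.TB

open Finset Filter Topology Pool.Agent.H387R2
open Pool.Agent.L0h43.TA
open Pool.Agent.H386R2.HL

/-- the number of `1 ≤ n ≤ x` with all `n + t` (positive) primes -/
noncomputable def cz (x : ℝ) (T : Finset ℤ) : ℕ :=
  ((Icc 1 ⌊x⌋₊).filter (fun n : ℕ => ∀ t ∈ T, ((n : ℤ) + t).toNat.Prime)).card

open Classical in
/-- the number of `1 ≤ n ≤ x` with all `n + t` prime and more than `X` primes in `n + (u, u + H]` -/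
noncomputable def bz (x : ℝ) (T : Finset ℤ) (u : ℤ) (H : ℕ) (X : ℝ) : ℕ :=
  ((Icc 1 ⌊x⌋₊).filter (fun n : ℕ => (∀ t ∈ T, ((n : ℤ) + t).toNat.Prime) ∧
    X < (((Ioc u (u + H)).filter (fun h : ℤ => ((n : ℤ) + h).toNat.Prime)).card : ℝ))).card

/-- the number of residue classes modulo `p` that meet `T` -/
def nuZ (T : Finset ℤ) (p : ℕ) : ℕ := (T.image (· % (p : ℤ))).card

/-- the factor at `p` of the singular series of `T` -/
noncomputable def locZ (T : Finset ℤ) (p : ℕ) : ℝ :=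
  (1 - (nuZ T p : ℝ) / p) / (1 - 1 / (p : ℝ)) ^ T.card

/-- the singular series of `T` -/
noncomputable def SZ (T : Finset ℤ) : ℝ := ∏' p : Nat.Primes, locZ T p

/-- the translate -/
def tr (D : ℕ) (T : Finset ℤ) : Finset ℕ := T.image (fun t : ℤ => (t + (D : ℤ)).toNat)

lemma card_image_le' {α β γ : Type*} [DecidableEq β] [DecidableEq γ] (T : Finset α) (F : α → β) (G : α → γ)
    (h : ∀ s ∈ T, ∀ t ∈ T, G s = G t → F s = F t) : (T.image F).card ≤ (T.image G).card := by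
  classical
  rcases T.eq_empty_or_nonempty with rfl | ⟨a0, _⟩
  · simp
  have : Nonempty α := ⟨a0⟩
  have h1 : ∀ b ∈ T.image F, ∃ a ∈ T, F a = b := fun b hb => mem_image.1 hb
  choose! c hc using h1
  apply card_le_card_of_injOn (fun b => G (c b))
  · intro b hb
    rw [mem_coe] at hb ⊢
    exact mem_image_of_mem _ (hc b hb).1
  · intro a ha b hb hab
    rw [mem_coe] at ha hb
    have := h _ (hc a ha).1 _ (hc b hb).1 hab
    rw [(hc a ha).2, (hc b hb).2] at this
    exact this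

lemma card_image_eq' {α β γ : Type*} [DecidableEq β] [DecidableEq γ] (T : Finset α) (F : α → β) (G : α → γ)
    (h : ∀ s ∈ T, ∀ t ∈ T, G s = G t ↔ F s = F t) : (T.image F).card = (T.image G).card :=
  le_antisymm (card_image_le' T F G fun s hs t ht => (h s hs t ht).1)
    (card_image_le' T G F fun s hs t ht => (h s hs t ht).2)

lemma tr_inj {D : ℕ} {s t : ℤ} (hs : -(D : ℤ) ≤ s) (ht : -(D : ℤ) ≤ t) :
    (s + D).toNat = (t + D).toNat ↔ s = t := by
  constructor
  · intro h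
    have h1 : ((s + D).toNat : ℤ) = ((t + D).toNat : ℤ) := by rw [h]
    rw [Int.toNat_of_nonneg (by omega), Int.toNat_of_nonneg (by omega)] at h1
    omega
  · rintro rfl; rfl

lemma tr_card {D : ℕ} {T : Finset ℤ} (hT : ∀ t ∈ T, -(D : ℤ) ≤ t) : (tr D T).card = T.card := by
  unfold tr
  rw [card_image_of_injOn]
  intro s hs t ht hst
  exact (tr_inj (hT s hs) (hT t ht)).1 hst

lemma tr_nu {D : ℕ} {T : Finset ℤ} (hT : ∀ t ∈ T, -(D : ℤ) ≤ t) (p : ℕ) : Uni.nuT (tr D T) p = nuZ T p := by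
  unfold Uni.nuT nuZ tr
  rw [image_image]
  apply card_image_eq'
  intro s hs t ht
  simp only [Function.comp]
  have h1 := hT s hs
  have h2 := hT t ht
  have e1 : (((s + D).toNat : ℕ) : ℤ) = s + D := Int.toNat_of_nonneg (by omega)
  have e2 : (((t + D).toNat : ℕ) : ℤ) = t + D := Int.toNat_of_nonneg (by omega)
  have h3 : (s + D).toNat % p = (t + D).toNat % p ↔ (s + D) % (p : ℤ) = (t + D) % (p : ℤ) := by
    rw [← e1, ← e2]
    norm_cast
  rw [h3]
  constructor
  · intro h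
    have : s ≡ t [ZMOD p] := h
    exact this.add_right D
  · intro h
    have : s + D ≡ t + D [ZMOD p] := h
    exact Int.ModEq.add_right_cancel' (D : ℤ) this

lemma tr_SZ {D : ℕ} {T : Finset ℤ} (hT : ∀ t ∈ T, -(D : ℤ) ≤ t) : Uni.CT (tr D T) = SZ T := by
  unfold Uni.CT SZ
  congr 1
  ext p
  unfold Uni.locT locZ
  rw [tr_nu hT, tr_card hT]

lemma tr_mem {D : ℕ} {T : Finset ℤ} {n : ℕ} (hT : ∀ t ∈ T, -(D : ℤ) ≤ t) :
    (∀ t ∈ tr D T, (n + t).Prime) ↔ ∀ t ∈ T, (((n + D : ℕ) : ℤ) + t).toNat.Prime := by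
  unfold tr
  simp only [mem_image, forall_exists_index, and_imp, forall_apply_eq_imp_iff₂]
  have e : ∀ t ∈ T, n + (t + D).toNat = (((n + D : ℕ) : ℤ) + t).toNat := by
    intro t ht
    have := hT t ht
    omega
  constructor
  · intro h t ht
    rw [← e t ht]; exact h t ht
  · intro h t ht
    rw [e t ht]; exact h t ht

lemma cz_le {D : ℕ} {T : Finset ℤ} (x : ℝ) (hT : ∀ t ∈ T, -(D : ℤ) ≤ t) : cz x T ≤ cnt x (tr D T) + D := by
  classical
  have h : (Icc 1 ⌊x⌋₊).filter (fun n : ℕ => ∀ t ∈ T, ((n : ℤ) + t).toNat.Prime) ⊆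
      ((Icc 1 ⌊x⌋₊).filter (fun m => ∀ t ∈ tr D T, (m + t).Prime)).image (· + D) ∪ Icc 1 D := by
    intro n hn
    rw [mem_filter, mem_Icc] at hn
    rw [mem_union, mem_image, mem_Icc]
    by_cases h1 : n ≤ D
    · right; exact ⟨hn.1.1, h1⟩
    · left
      refine ⟨n - D, ?_, by omega⟩
      rw [mem_filter, mem_Icc, tr_mem hT]
      refine ⟨⟨by omega, by omega⟩, ?_⟩
      have e : n - D + D = n := by omega
      rw [e]
      exact hn.2
  have h2 := (card_le_card h).trans (card_union_le _ _)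
  rw [Nat.card_Icc, Nat.add_sub_cancel] at h2
  exact h2.trans (Nat.add_le_add_right card_image_le _)

lemma cnt_le_cz {D : ℕ} {T : Finset ℤ} (x : ℝ) (hT : ∀ t ∈ T, -(D : ℤ) ≤ t) : cnt x (tr D T) ≤ cz x T + D := by
  classical
  have h : ((Icc 1 ⌊x⌋₊).filter (fun m => ∀ t ∈ tr D T, (m + t).Prime)).image (· + D) ⊆
      (Icc 1 ⌊x⌋₊).filter (fun n : ℕ => ∀ t ∈ T, ((n : ℤ) + t).toNat.Prime) ∪ Ioc ⌊x⌋₊ (⌊x⌋₊ + D) := by
    intro n hn
    rw [mem_image] at hn
    obtain ⟨m, hm, rfl⟩ := hn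
    rw [mem_filter, mem_Icc, tr_mem hT] at hm
    rw [mem_union, mem_filter, mem_Icc, mem_Ioc]
    by_cases h1 : m + D ≤ ⌊x⌋₊
    · left; exact ⟨⟨by omega, h1⟩, hm.2⟩
    · right; omega
  have h2 := (card_le_card h).trans (card_union_le _ _)
  rw [card_image_of_injective _ (add_left_injective D), Nat.card_Ioc, Nat.add_sub_cancel_left] at h2
  exact h2

lemma bz_le {D u' : ℕ} {T : Finset ℤ} {u : ℤ} (x : ℝ) (H : ℕ) (X : ℝ) (hT : ∀ t ∈ T, -(D : ℤ) ≤ t)
    (hu : (u' : ℤ) = u + D) : bz x T u H X ≤ bad x (tr D T) u' H X + D := by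
  classical
  have hcount : ∀ m : ℕ, ((Ioc u (u + H)).filter (fun h : ℤ => (((m + D : ℕ) : ℤ) + h).toNat.Prime)).card ≤
      ((Ioc u' (u' + H)).filter (fun h => (m + h).Prime)).card := by
    intro m
    apply card_le_card_of_injOn (fun h : ℤ => (h + D).toNat)
    · intro h hh
      rw [mem_coe, mem_filter, mem_Ioc] at hh
      rw [mem_coe, mem_filter, mem_Ioc]
      refine ⟨⟨?_, ?_⟩, ?_⟩
      · show u' < (h + D).toNat
        omega
      · show (h + D).toNat ≤ u' + H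
        omega
      · show (m + (h + D).toNat).Prime
        have e : m + (h + D).toNat = (((m + D : ℕ) : ℤ) + h).toNat := by omega
        rw [e]
        exact hh.2
    · intro a ha b hb hab
      rw [mem_coe, mem_filter, mem_Ioc] at ha hb
      exact (tr_inj (by omega) (by omega)).1 hab
  have h : (Icc 1 ⌊x⌋₊).filter (fun n : ℕ => (∀ t ∈ T, ((n : ℤ) + t).toNat.Prime) ∧
      X < (((Ioc u (u + H)).filter (fun h : ℤ => ((n : ℤ) + h).toNat.Prime)).card : ℝ)) ⊆
      ((Icc 1 ⌊x⌋₊).filter (fun m => (∀ t ∈ tr D T, (m + t).Prime) ∧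
        X < (((Ioc u' (u' + H)).filter (fun h => (m + h).Prime)).card : ℝ))).image (· + D) ∪ Icc 1 D := by
    intro n hn
    rw [mem_filter, mem_Icc] at hn
    rw [mem_union, mem_image, mem_Icc]
    by_cases h1 : n ≤ D
    · right; exact ⟨hn.1.1, h1⟩
    · left
      refine ⟨n - D, ?_, by omega⟩
      rw [mem_filter, mem_Icc, tr_mem hT]
      have e : n - D + D = n := by omega
      refine ⟨⟨by omega, by omega⟩, ?_, ?_⟩
      · rw [e]
        exact hn.2.1
      · have h2 := hcount (n - D)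
        rw [e] at h2
        refine lt_of_lt_of_le hn.2.2 ?_
        exact_mod_cast h2
  have h2 := (card_le_card h).trans (card_union_le _ _)
  rw [Nat.card_Icc, Nat.add_sub_cancel] at h2
  unfold bz bad
  refine le_trans (le_of_eq ?_) (h2.trans (Nat.add_le_add_right card_image_le _))
  congr 1

/-- the sums over the subsets -/
lemma sum_tr {D u' r : ℕ} {T : Finset ℤ} {u : ℤ} {H : ℕ} (hT : ∀ t ∈ T, -(D : ℤ) ≤ t) (hu : (u' : ℤ) = u + D)
    (f : Finset ℕ → ℝ) (hf : ∀ S, 0 ≤ f S) :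
    ∑ E ∈ (Ioc u (u + H) \ T).powersetCard r, f (tr D (T ∪ E)) ≤
      ∑ E ∈ (Ioc u' (u' + H) \ tr D T).powersetCard r, f (tr D T ∪ E) := by
  classical
  have hEb : ∀ E ∈ (Ioc u (u + H) \ T).powersetCard r, ∀ t ∈ E, -(D : ℤ) ≤ t := by
    intro E hE t ht
    have := mem_Ioc.1 (Finset.mem_sdiff.1 ((mem_powersetCard.1 hE).1 ht)).1
    omega
  have h1 : ∀ E ∈ (Ioc u (u + H) \ T).powersetCard r, f (tr D (T ∪ E)) = f (tr D T ∪ tr D E) := by
    intro E _
    unfold tr
    rw [image_union]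
  rw [sum_congr rfl h1]
  have hinj : Set.InjOn (tr D) ((Ioc u (u + H) \ T).powersetCard r : Finset (Finset ℤ)) := by
    intro E hE F hF hEF
    rw [mem_coe] at hE hF
    ext t
    constructor
    · intro ht
      have h2 : (t + D).toNat ∈ tr D E := mem_image_of_mem _ ht
      rw [hEF] at h2
      obtain ⟨s, hs, hst⟩ := mem_image.1 h2
      have := (tr_inj (hEb F hF s hs) (hEb E hE t ht)).1 hst
      rw [← this]; exact hs
    · intro ht
      have h2 : (t + D).toNat ∈ tr D F := mem_image_of_mem _ ht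
      rw [← hEF] at h2
      obtain ⟨s, hs, hst⟩ := mem_image.1 h2
      have := (tr_inj (hEb E hE s hs) (hEb F hF t ht)).1 hst
      rw [← this]; exact hs
  rw [← sum_image (f := fun S => f (tr D T ∪ S)) hinj]
  apply sum_le_sum_of_subset_of_nonneg
  · intro S hS
    obtain ⟨E, hE, rfl⟩ := mem_image.1 hS
    have hE2 := mem_powersetCard.1 hE
    rw [mem_powersetCard]
    refine ⟨?_, by rw [tr_card (hEb E hE)]; exact hE2.2⟩
    intro a ha
    obtain ⟨t, ht, rfl⟩ := mem_image.1 ha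
    have h3 := Finset.mem_sdiff.1 (hE2.1 ht)
    have h4 := mem_Ioc.1 h3.1
    rw [Finset.mem_sdiff, mem_Ioc]
    refine ⟨⟨by omega, by omega⟩, ?_⟩
    intro h5
    obtain ⟨s, hs, hst⟩ := mem_image.1 h5
    have := (tr_inj (hT s hs) (hEb E hE t ht)).1 hst
    rw [← this] at h3
    exact h3.2 hs
  · intro S _ _
    exact hf _

end Pool.Agent.L0h43.TB
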