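import Pool.Agent.L0h43.TB.FinZ

/-!
# The theorems for sets of integer shifts
-/

set_option autoImplicit false

namespace Pool.Agent.L0h43.TB

open Finset Filter Topology Pool.Agent.H387R2
open Pool.Agent.L0h43.TA
open Pool.Agent.H386R2.HL

lemma tr_le {D : ℕ} {T : Finset ℤ} {l A : ℝ} (hT : ∀ t ∈ T, |(t : ℝ)| ≤ l ^ A) (hD : (D : ℝ) ≤ l ^ A + 1)
    (hl : 2 * l ^ A + 1 ≤ l ^ (A + 1)) : ∀ a ∈ tr D T, (a : ℝ) ≤ l ^ (A + 1) := by
  intro a ha
  obtain ⟨t, ht, rfl⟩ := mem_image.1 ha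
  have h1 := abs_le.1 (hT t ht)
  have h2 : (((t + (D : ℤ)).toNat : ℕ) : ℝ) ≤ l ^ A + (l ^ A + 1) := by
    rcases le_or_gt 0 (t + (D : ℤ)) with h | h
    · have e : ((((t + (D : ℤ)).toNat : ℕ) : ℤ) : ℝ) = ((t + (D : ℤ) : ℤ) : ℝ) := by
        rw [Int.toNat_of_nonneg h]
      rw [Int.cast_natCast] at e
      rw [e]
      push_cast
      linarith [h1.2]
    · rw [Int.toNat_of_nonpos h.le, Nat.cast_zero]
      have : 0 ≤ l ^ A := (abs_nonneg _).trans (hT t ht)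
      linarith
  linarith

lemma ev_D (A : ℝ) (hA : 0 ≤ A) : ∀ᶠ x : ℝ in atTop, 1 ≤ Real.log x ∧
    2 * Real.log x ^ A + 1 ≤ Real.log x ^ (A + 1) ∧ 1 ≤ Real.log x ^ A ∧ 1 ≤ x := by
  filter_upwards [Real.tendsto_log_atTop.eventually_ge_atTop 3, eventually_ge_atTop 1] with x h1 h2
  have h0 : 0 < Real.log x := by linarith
  have h3 : 1 ≤ Real.log x ^ A := Real.one_le_rpow (by linarith) hA
  refine ⟨by linarith, ?_, h3, h2⟩
  rw [Real.rpow_add h0, Real.rpow_one]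
  nlinarith

theorem Z_more (k r : ℕ) (ε : ℝ) (hε : 0 < ε) : ∃ K : ℝ, 1 ≤ K ∧ ∀ A : ℝ, 0 ≤ A → ∀ᶠ x : ℝ in atTop,
    ∀ T : Finset ℤ, T.card = k → (∀ t ∈ T, |(t : ℝ)| ≤ Real.log x ^ A) → ∀ (u : ℤ) (H : ℕ),
      K * Real.log x ≤ H → -Real.log x ^ A ≤ u → ((u + H : ℤ) : ℝ) ≤ Real.log x ^ A →
      (r.factorial : ℝ) * ∑ E ∈ (Ioc u (u + H) \ T).powersetCard r, (cz x (T ∪ E) : ℝ) ≤
        (4 ^ r + ε) * (H / Real.log x) ^ r * cz x T +
          ε * (H / Real.log x) ^ r * ((SZ T + 1) * (x / Real.log x ^ k)) := by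
  have h4r : (1 : ℝ) ≤ 4 ^ r := one_le_pow₀ (by norm_num)
  obtain ⟨K, hK, H0⟩ := U_more k r (ε / 2) (by positivity)
  refine ⟨K, hK, fun A hA => ?_⟩
  obtain ⟨c, hc⟩ : ∃ c : ℝ, c = ε / 2 / (2 * (4 ^ r + ε / 2 + 1)) := ⟨_, rfl⟩
  have hc0 : 0 < c := by rw [hc]; positivity
  filter_upwards [H0 (A + 1) (by linarith), ev_D A hA, ev_small c hc0 (A + ((k + r : ℕ) : ℝ))] with x h1 h2 h3
  obtain ⟨b1, b2, b3, b4⟩ := h2
  intro T hTk hTA u H hKH huA hHA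
  set l := Real.log x with hl
  have hl0 : 0 < l := by linarith
  have hx0 : 0 < x := by linarith
  obtain ⟨D, hD⟩ : ∃ D : ℕ, D = ⌈l ^ A⌉₊ := ⟨_, rfl⟩
  have hD1 : l ^ A ≤ D := by rw [hD]; exact Nat.le_ceil _
  have hD2 : (D : ℝ) ≤ l ^ A + 1 := by
    rw [hD]; exact (Nat.ceil_lt_add_one (by positivity)).le
  have hTD : ∀ t ∈ T, -(D : ℤ) ≤ t := by
    intro t ht
    have h4 := (abs_le.1 (hTA t ht)).1
    have h5 : ((-(D : ℤ) : ℤ) : ℝ) ≤ (t : ℝ) := by push_cast; linarith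
    exact_mod_cast h5
  have huD : 0 ≤ u + D := by
    have h5 : ((0 : ℤ) : ℝ) ≤ ((u + D : ℤ) : ℝ) := by push_cast; linarith
    exact_mod_cast h5
  obtain ⟨u', hu'⟩ : ∃ u' : ℕ, (u' : ℤ) = u + D := ⟨(u + D).toNat, Int.toNat_of_nonneg huD⟩
  have hHA' : ((u' + H : ℕ) : ℝ) ≤ l ^ (A + 1) := by
    have e : ((u' + H : ℕ) : ℝ) = ((u + H : ℤ) : ℝ) + D := by
      have : ((u' + H : ℕ) : ℤ) = (u + H) + D := by push_cast; omega
      have h6 : (((u' + H : ℕ) : ℤ) : ℝ) = (((u + H) + D : ℤ) : ℝ) := by rw [this]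
      rw [Int.cast_natCast] at h6
      rw [h6]
      push_cast
      ring
    rw [e]
    linarith
  have hmain := h1 (tr D T) (by rw [tr_card hTD]; exact hTk) (tr_le hTA hD2 b2) u' H hKH hHA'
  rw [tr_SZ hTD] at hmain
  have hH0 : (0 : ℝ) < H := lt_of_lt_of_le (by positivity) hKH
  have hleft : (r.factorial : ℝ) * ∑ E ∈ (Ioc u (u + H) \ T).powersetCard r, (cz x (T ∪ E) : ℝ) ≤
      (r.factorial : ℝ) * ∑ E ∈ (Ioc u' (u' + H) \ tr D T).powersetCard r, (cnt x (tr D T ∪ E) : ℝ) +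
        (H : ℝ) ^ r * D := by
    have h3 : ∀ E ∈ (Ioc u (u + H) \ T).powersetCard r, (cz x (T ∪ E) : ℝ) ≤ (cnt x (tr D (T ∪ E)) : ℝ) + D := by
      intro E hE
      have hEb : ∀ t ∈ T ∪ E, -(D : ℤ) ≤ t := by
        intro t ht
        rcases mem_union.1 ht with ht | ht
        · exact hTD t ht
        · have := mem_Ioc.1 (Finset.mem_sdiff.1 ((mem_powersetCard.1 hE).1 ht)).1
          omega
      exact_mod_cast cz_le x hEb
    have h7 := mul_le_mul_of_nonneg_left (sum_le_sum h3) (show (0 : ℝ) ≤ r.factorial by positivity)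
    refine h7.trans ?_
    rw [sum_add_distrib, sum_const, nsmul_eq_mul, mul_add, ← mul_assoc]
    apply add_le_add
    · apply mul_le_mul_of_nonneg_left _ (by positivity)
      exact sum_tr hTD hu' (fun S => (cnt x S : ℝ)) (fun S => Nat.cast_nonneg _)
    · apply mul_le_mul_of_nonneg_right _ (by positivity)
      rw [card_powersetCard]
      refine (choose_le_pow' _ r).trans (pow_le_pow_left₀ (Nat.cast_nonneg _) ?_ r)
      have h8 : (Ioc u (u + H) \ T).card ≤ H := by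
        refine (card_le_card sdiff_subset).trans ?_
        rw [Int.card_Ioc]
        omega
      exact_mod_cast h8
  refine (hleft.trans (add_le_add hmain le_rfl)).trans ?_
  have hcz : (cnt x (tr D T) : ℝ) ≤ cz x T + D := by exact_mod_cast cnt_le_cz x hTD
  have hDl : (D : ℝ) ≤ 2 * l ^ A := by linarith
  have hDbig : (4 ^ r + ε / 2) * (H / l) ^ r * D + (H : ℝ) ^ r * D ≤ ε / 2 * (H / l) ^ r * (x / l ^ k) := by
    have h5 : l ^ A * l ^ (k + r) ≤ c * x := by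
      have e : l ^ (A + ((k + r : ℕ) : ℝ)) = l ^ A * l ^ (k + r) := by
        rw [Real.rpow_add hl0, Real.rpow_natCast]
      rw [e] at h3
      refine h3.trans ?_
      apply mul_le_mul_of_nonneg_left _ hc0.le
      calc x ^ (1 / 2 : ℝ) ≤ x ^ (1 : ℝ) := Real.rpow_le_rpow_of_exponent_le b4 (by norm_num)
        _ = x := Real.rpow_one _
    have hlr : 1 ≤ l ^ r := one_le_pow₀ b1
    have e1 : (4 ^ r + ε / 2) * (H / l) ^ r * D + (H : ℝ) ^ r * D =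
        ((4 ^ r + ε / 2) * D + l ^ r * D) * (H / l) ^ r := by
      rw [div_pow]
      field_simp
    rw [e1]
    have h6 : (4 ^ r + ε / 2) * D + l ^ r * D ≤ ε / 2 * (x / l ^ k) := by
      have h7 : (4 ^ r + ε / 2) * D + l ^ r * D ≤ (4 ^ r + ε / 2 + 1) * l ^ r * D := by
        have : (4 ^ r + ε / 2) * (D : ℝ) ≤ (4 ^ r + ε / 2) * (l ^ r * D) := by
          apply mul_le_mul_of_nonneg_left _ (by positivity)
          exact le_mul_of_one_le_left (Nat.cast_nonneg _) hlr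
        nlinarith
      refine h7.trans ?_
      rw [mul_div_assoc', le_div_iff₀ (by positivity)]
      calc (4 ^ r + ε / 2 + 1) * l ^ r * D * l ^ k ≤ (4 ^ r + ε / 2 + 1) * l ^ r * (2 * l ^ A) * l ^ k := by
            gcongr
        _ = 2 * (4 ^ r + ε / 2 + 1) * (l ^ A * l ^ (k + r)) := by rw [pow_add]; ring
        _ ≤ 2 * (4 ^ r + ε / 2 + 1) * (c * x) := mul_le_mul_of_nonneg_left h5 (by positivity)
        _ = ε / 2 * x := by rw [hc]; field_simp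
    have := mul_le_mul_of_nonneg_right h6 (show 0 ≤ ((H : ℝ) / l) ^ r by positivity)
    refine this.trans (le_of_eq (by ring))
  have hcz0 : (0 : ℝ) ≤ cz x T := Nat.cast_nonneg _
  have hS0 : 0 ≤ SZ T := by rw [← tr_SZ hTD]; exact Uni.CT_nonneg _
  have h8 : (4 ^ r + ε / 2) * (H / l) ^ r * (cnt x (tr D T) : ℝ) ≤
      (4 ^ r + ε / 2) * (H / l) ^ r * (cz x T + D) := mul_le_mul_of_nonneg_left hcz (by positivity)
  have h9 : 0 ≤ ε / 2 * ((H : ℝ) / l) ^ r * cz x T := by positivity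
  have h10 : 0 ≤ ε / 2 * ((H : ℝ) / l) ^ r * (SZ T * (x / l ^ k)) := by positivity
  have e2 : (4 ^ r + ε) * (H / l) ^ r * cz x T + ε * (H / l) ^ r * ((SZ T + 1) * (x / l ^ k)) =
      (4 ^ r + ε / 2) * (H / l) ^ r * cz x T + ε / 2 * (H / l) ^ r * cz x T +
        ε / 2 * (H / l) ^ r * ((SZ T + 1) * (x / l ^ k)) + ε / 2 * ((H : ℝ) / l) ^ r * (SZ T * (x / l ^ k)) +
        ε / 2 * (H / l) ^ r * (x / l ^ k) := by ring
  rw [e2]
  linarith

theorem Z_ae (k : ℕ) (ε : ℝ) (hε : 0 < ε) : ∃ K : ℝ, 1 ≤ K ∧ ∀ A : ℝ, 0 ≤ A → ∀ᶠ x : ℝ in atTop,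
    ∀ T : Finset ℤ, T.card = k → (∀ t ∈ T, |(t : ℝ)| ≤ Real.log x ^ A) → ∀ (u : ℤ) (H : ℕ),
      K * Real.log x ≤ H → -Real.log x ^ A ≤ u → ((u + H : ℤ) : ℝ) ≤ Real.log x ^ A →
      (bz x T u H ((4 + ε) * (H / Real.log x)) : ℝ) ≤ ε * ((SZ T + 1) * (x / Real.log x ^ k)) := by
  obtain ⟨K, hK, H0⟩ := U_ae k (ε / 2) (by positivity)
  refine ⟨K, hK, fun A hA => ?_⟩
  filter_upwards [H0 (A + 1) (by linarith), ev_D A hA, ev_small (ε / 4) (by positivity) (A + ((k : ℕ) : ℝ))]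
    with x h1 h2 h3
  obtain ⟨b1, b2, b3, b4⟩ := h2
  intro T hTk hTA u H hKH huA hHA
  set l := Real.log x with hl
  have hl0 : 0 < l := by linarith
  have hx0 : 0 < x := by linarith
  obtain ⟨D, hD⟩ : ∃ D : ℕ, D = ⌈l ^ A⌉₊ := ⟨_, rfl⟩
  have hD1 : l ^ A ≤ D := by rw [hD]; exact Nat.le_ceil _
  have hD2 : (D : ℝ) ≤ l ^ A + 1 := by
    rw [hD]; exact (Nat.ceil_lt_add_one (by positivity)).le
  have hTD : ∀ t ∈ T, -(D : ℤ) ≤ t := by
    intro t ht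
    have h4 := (abs_le.1 (hTA t ht)).1
    have h5 : ((-(D : ℤ) : ℤ) : ℝ) ≤ (t : ℝ) := by push_cast; linarith
    exact_mod_cast h5
  have huD : 0 ≤ u + D := by
    have h5 : ((0 : ℤ) : ℝ) ≤ ((u + D : ℤ) : ℝ) := by push_cast; linarith
    exact_mod_cast h5
  obtain ⟨u', hu'⟩ : ∃ u' : ℕ, (u' : ℤ) = u + D := ⟨(u + D).toNat, Int.toNat_of_nonneg huD⟩
  have hHA' : ((u' + H : ℕ) : ℝ) ≤ l ^ (A + 1) := by
    have e : ((u' + H : ℕ) : ℝ) = ((u + H : ℤ) : ℝ) + D := by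
      have : ((u' + H : ℕ) : ℤ) = (u + H) + D := by push_cast; omega
      have h6 : (((u' + H : ℕ) : ℤ) : ℝ) = (((u + H) + D : ℤ) : ℝ) := by rw [this]
      rw [Int.cast_natCast] at h6
      rw [h6]
      push_cast
      ring
    rw [e]
    linarith
  have hmain := h1 (tr D T) (by rw [tr_card hTD]; exact hTk) (tr_le hTA hD2 b2) u' H hKH hHA'
  rw [tr_SZ hTD] at hmain
  have hH0 : (0 : ℝ) < H := lt_of_lt_of_le (by positivity) hKH
  have hmono : (bad x (tr D T) u' H ((4 + ε) * (H / l)) : ℝ) ≤ (bad x (tr D T) u' H ((4 + ε / 2) * (H / l)) : ℝ) := by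
    classical
    have hthr : (4 + ε / 2) * ((H : ℝ) / l) ≤ (4 + ε) * (H / l) := by
      apply mul_le_mul_of_nonneg_right _ (by positivity)
      linarith
    have : bad x (tr D T) u' H ((4 + ε) * (H / l)) ≤ bad x (tr D T) u' H ((4 + ε / 2) * (H / l)) := by
      unfold bad
      apply card_le_card
      intro n hn
      rw [mem_filter] at hn ⊢
      exact ⟨hn.1, hn.2.1, lt_of_le_of_lt hthr hn.2.2⟩
    exact_mod_cast this
  have hbz : (bz x T u H ((4 + ε) * (H / l)) : ℝ) ≤ (bad x (tr D T) u' H ((4 + ε) * (H / l)) : ℝ) + D := by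
    exact_mod_cast bz_le x H _ hTD hu'
  have hDl : (D : ℝ) ≤ 2 * l ^ A := by linarith
  have hDx : (D : ℝ) ≤ ε / 2 * (x / l ^ k) := by
    have e : l ^ (A + ((k : ℕ) : ℝ)) = l ^ A * l ^ k := by
      rw [Real.rpow_add hl0, Real.rpow_natCast]
    rw [e] at h3
    have h5 : x ^ (1 / 2 : ℝ) ≤ x := by
      calc x ^ (1 / 2 : ℝ) ≤ x ^ (1 : ℝ) := Real.rpow_le_rpow_of_exponent_le b4 (by norm_num)
        _ = x := Real.rpow_one _
    have h6 : l ^ A * l ^ k ≤ ε / 4 * x := h3.trans (mul_le_mul_of_nonneg_left h5 (by positivity))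
    rw [mul_div_assoc', le_div_iff₀ (by positivity)]
    calc (D : ℝ) * l ^ k ≤ (2 * l ^ A) * l ^ k := mul_le_mul_of_nonneg_right hDl (by positivity)
      _ ≤ _ := by linarith
  have hS0 : 0 ≤ SZ T := by rw [← tr_SZ hTD]; exact Uni.CT_nonneg _
  have h9 : 0 ≤ x / l ^ k := by positivity
  have h10 : 0 ≤ ε / 2 * (SZ T * (x / l ^ k)) := by positivity
  have e2 : ε * ((SZ T + 1) * (x / l ^ k)) = ε / 2 * ((SZ T + 1) * (x / l ^ k)) + ε / 2 * (SZ T * (x / l ^ k)) +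
      ε / 2 * (x / l ^ k) := by ring
  rw [e2]
  linarith

end Pool.Agent.L0h43.TB
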