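import Pool.Agent.N792.FlGen

/-!
# The fundamental lemma in any dimension
-/

set_option autoImplicit false

namespace Pool.Agent.L0h43.TB

open Finset Filter Topology Pool.Agent.N792

/-- few sets of primes have a small product -/
lemma fewT (P : Finset ℕ) (hP : ∀ p ∈ P, p.Prime) (D κ : ℕ) (hκ : ∀ p ∈ P, κ ≤ p) :
    ∑ T ∈ P.powerset.filter (fun T : Finset ℕ => ∏ p ∈ T, p ≤ D), (κ : ℝ) ^ T.card * 1 ≤ (D : ℝ) ^ 2 := by
  classical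
  have h1 : ∀ T ∈ P.powerset.filter (fun T : Finset ℕ => ∏ p ∈ T, p ≤ D), (κ : ℝ) ^ T.card * 1 ≤ D := by
    intro T hT
    obtain ⟨hTP, hTD⟩ := mem_filter.1 hT
    rw [mem_powerset] at hTP
    rw [mul_one]
    have h2 : κ ^ T.card ≤ ∏ p ∈ T, p := by
      rw [← Finset.prod_const]
      apply Finset.prod_le_prod'
      intro p hp
      exact hκ p (hTP hp)
    exact_mod_cast h2.trans hTD
  have h3 : ((P.powerset.filter (fun T : Finset ℕ => ∏ p ∈ T, p ≤ D)).card : ℝ) ≤ D := by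
    have h5 : ((P.powerset.filter (fun T : Finset ℕ => ∏ p ∈ T, p ≤ D)).card) ≤ D := by
      have hinj : Set.InjOn (fun T : Finset ℕ => ∏ p ∈ T, p)
          (P.powerset.filter (fun T : Finset ℕ => ∏ p ∈ T, p ≤ D) : Set (Finset ℕ)) := by
        intro T hT T' hT' h
        rw [mem_coe, mem_filter, mem_powerset] at hT hT'
        simp only at h
        rw [← Nat.primeFactors_prod (fun p hp => hP p (hT.1 hp)),
          ← Nat.primeFactors_prod (fun p hp => hP p (hT'.1 hp)), h]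
      have h6 := Finset.card_le_card_of_injOn (t := Icc 1 D) (fun T : Finset ℕ => ∏ p ∈ T, p) (by
        intro T hT
        rw [mem_coe, mem_filter, mem_powerset] at hT
        rw [mem_coe, mem_Icc]
        exact ⟨Finset.prod_pos fun p hp => (hP p (hT.1 hp)).pos, hT.2⟩) hinj
      rwa [Nat.card_Icc, Nat.add_sub_cancel] at h6
    exact_mod_cast h5
  calc _ ≤ ∑ _T ∈ P.powerset.filter (fun T : Finset ℕ => ∏ p ∈ T, p ≤ D), (D : ℝ) := Finset.sum_le_sum h1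
    _ = ((P.powerset.filter (fun T : Finset ℕ => ∏ p ∈ T, p ≤ D)).card : ℝ) * D := by
        rw [Finset.sum_const, nsmul_eq_mul]
    _ ≤ D * D := mul_le_mul_of_nonneg_right h3 (Nat.cast_nonneg _)
    _ = (D : ℝ) ^ 2 := by ring

open Classical in
/-- the fundamental lemma for `n % M0 ∈ N0` and classes modulo the primes of `P'` -/
theorem flg : ∃ C : ℕ, 1 ≤ C ∧ ∀ (κ b J z0 M0 n1 n2 : ℕ) (P' : Finset ℕ) (Om : ℕ → Finset ℕ)
    (N0 : Finset ℕ), C * (κ + 1) ≤ b → C * (κ + 1) ≤ z0 → 1 ≤ M0 → n1 ≤ n2 →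
    N0 ⊆ range M0 → (∀ p ∈ P', p.Prime ∧ p ≤ 2 ^ 2 ^ J ∧ ¬ p ∣ M0) → (∀ p ∈ P', Om p ⊆ range p) →
    (∀ p ∈ P', z0 < p → #(Om p) ≤ κ) →
    |(#((Ioc n1 n2).filter (fun n => n % M0 ∈ N0 ∧ ∀ p ∈ P', n % p ∉ Om p)) : ℝ) -
      ((n2 : ℝ) - n1) * (#N0 / M0) * ∏ p ∈ P', (1 - (#(Om p) : ℝ) / p)| ≤
      (1 / 2) ^ b * (((n2 : ℝ) - n1) * (#N0 / M0) * ∏ p ∈ P', (1 - (#(Om p) : ℝ) / p)) +
        #N0 * (z0 : ℝ) ^ z0 * ((J : ℝ) + 2) * ((2 ^ 2 ^ J) ^ (C * b)) ^ 2 := by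
  obtain ⟨C, hC, H⟩ := Pool.Agent.TH423.SH.fll
  refine ⟨C, hC, ?_⟩
  intro κ b J z0 M0 n1 n2 P' Om N0 hb hz0 hM0 hn hN0 hP' hOm hOmc
  have hz01 : 1 ≤ z0 := le_trans (by nlinarith) hz0
  obtain ⟨Q, hQ⟩ : ∃ Q, Q = P'.filter (fun p => p ≤ z0) := ⟨_, rfl⟩
  obtain ⟨P, hP⟩ : ∃ P, P = P'.filter (fun p => ¬ p ≤ z0) := ⟨_, rfl⟩
  obtain ⟨M, hM⟩ : ∃ M, M = M0 * ∏ p ∈ Q, p := ⟨_, rfl⟩
  have hQP' : ∀ p ∈ Q, p ∈ P' ∧ p ≤ z0 := by intro p hp; rw [hQ] at hp; exact mem_filter.1 hp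
  have hPP' : ∀ p ∈ P, p ∈ P' ∧ ¬ p ≤ z0 := by intro p hp; rw [hP] at hp; exact mem_filter.1 hp
  have hQpos : 0 < ∏ p ∈ Q, p := Finset.prod_pos fun p hp => (hP' p (hQP' p hp).1).1.pos
  have hMpos : 0 < M := by rw [hM]; exact Nat.mul_pos hM0 hQpos
  obtain ⟨N, hN⟩ : ∃ N, N = (range M).filter (fun ν => ν % M0 ∈ N0 ∧ ∀ p ∈ Q, ν % p ∉ Om p) := ⟨_, rfl⟩
  have hM0M : M0 ∣ M := by rw [hM]; exact Dvd.intro _ rfl
  have hpM : ∀ p' ∈ Q, p' ∣ M := by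
    intro p' hp'
    rw [hM]
    exact Dvd.dvd.mul_left (Finset.dvd_prod_of_mem _ hp') _
  have hPM : ∀ p ∈ P, ¬ p ∣ M := by
    intro p hp hd
    have hpp := (hP' p (hPP' p hp).1)
    rw [hM, hpp.1.dvd_mul] at hd
    rcases hd with hd | hd
    · exact hpp.2.2 hd
    · rw [Prime.dvd_finsetProd_iff hpp.1.prime] at hd
      obtain ⟨p', hp', hd'⟩ := hd
      have hp'p := (hP' p' (hQP' p' hp').1)
      rw [Nat.prime_dvd_prime_iff_eq hpp.1 hp'p.1] at hd'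
      rw [hd'] at hp
      exact (hPP' _ hp).2 (hQP' _ hp').2
  have hNcard : #N = #N0 * ∏ p ∈ Q, (p - #(Om p)) := by
    rw [hN, hM]
    exact fl_goodcount M0 hM0 N0 hN0 Q Om (fun p hp => ⟨(hP' p (hQP' p hp).1).1, (hP' p (hQP' p hp).1).2.2⟩)
      (fun p hp => hOm p (hQP' p hp).1)
  have hOmle : ∀ p ∈ P', #(Om p) ≤ p := by
    intro p hp
    have := Finset.card_le_card (hOm p hp)
    rwa [card_range] at this
  -- the decomposition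
  have hdec : #((Ioc n1 n2).filter (fun n => n % M0 ∈ N0 ∧ ∀ p ∈ P', n % p ∉ Om p)) =
      ∑ ν ∈ N, #(((Ioc n1 n2).filter (fun n => n % M = ν)).filter (fun n => ∀ p ∈ P, n % p ∉ Om p)) := by
    rw [Finset.card_eq_sum_card_fiberwise (f := fun n => n % M) (t := N)]
    · apply Finset.sum_congr rfl
      intro ν hν
      congr 1
      ext n
      simp only [mem_filter]
      rw [hN, mem_filter, mem_range] at hν
      constructor
      · rintro ⟨⟨h1, h2, h3⟩, h4⟩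
        exact ⟨⟨h1, h4⟩, fun p hp => h3 p (hPP' p hp).1⟩
      · rintro ⟨⟨h1, h4⟩, h3⟩
        refine ⟨⟨h1, ?_, ?_⟩, h4⟩
        · rw [← Nat.mod_mod_of_dvd n hM0M, h4]; exact hν.2.1
        · intro p hp
          by_cases hpz : p ≤ z0
          · have hpQ : p ∈ Q := by rw [hQ]; exact mem_filter.2 ⟨hp, hpz⟩
            rw [← Nat.mod_mod_of_dvd n (hpM p hpQ), h4]; exact hν.2.2 p hpQ
          · exact h3 p (by rw [hP]; exact mem_filter.2 ⟨hp, hpz⟩)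
    · intro n hn'
      rw [mem_coe, mem_filter] at hn'
      rw [mem_coe, hN, mem_filter, mem_range]
      refine ⟨Nat.mod_lt _ hMpos, ?_, ?_⟩
      · rw [Nat.mod_mod_of_dvd _ hM0M]; exact hn'.2.1
      · intro p hp
        rw [Nat.mod_mod_of_dvd _ (hpM p hp)]
        exact hn'.2.2 p (hQP' p hp).1
  have hn' : (0 : ℝ) ≤ (n2 : ℝ) - n1 := by
    have : (n1 : ℝ) ≤ n2 := by exact_mod_cast hn
    linarith
  have hMR : (0 : ℝ) < M := by exact_mod_cast hMpos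
  -- the fundamental lemma for every class
  have hcl : ∀ ν ∈ N, |(#(((Ioc n1 n2).filter (fun n => n % M = ν)).filter (fun n => ∀ p ∈ P, n % p ∉ Om p)) : ℝ) -
      (((n2 : ℝ) - n1) / M) * ∏ p ∈ P, (1 - (#(Om p) : ℝ) * (1 / p))| ≤
      (1 / 2) ^ b * ((((n2 : ℝ) - n1) / M) * ∏ p ∈ P, (1 - (#(Om p) : ℝ) * (1 / p))) +
        ((J : ℝ) + 2) * (((2 ^ 2 ^ J) ^ (C * b) : ℕ) : ℝ) ^ 2 := by
    intro ν hν
    rw [hN, mem_filter, mem_range] at hν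
    have h1 := H κ b J z0 P (fun p => 1 / (p : ℝ)) Om hb hz0
      (fun p hp => ⟨(hP' p (hPP' p hp).1).1, by have := (hPP' p hp).2; omega, (hP' p (hPP' p hp).1).2.1⟩)
      (fun p hp => hOmc p (hPP' p hp).1 (by have := (hPP' p hp).2; omega))
      (fun p hp => by
        have h2 : (2 : ℝ) ≤ p := by exact_mod_cast (hP' p (hPP' p hp).1).1.two_le
        refine ⟨by positivity, ?_⟩
        apply one_div_le_one_div_of_le <;> linarith)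
      ((Ioc n1 n2).filter (fun n => n % M = ν)) (fun _ => 1) (((n2 : ℝ) - n1) / M) (fun _ => 1)
      (fun _ _ => by norm_num) (by positivity) (fun _ => by norm_num)
      (fun T hT _ c hc => by
        have h3 := fl_classcount n1 n2 M ν hν.1 hn T c
          (fun p hp => ⟨(hP' p (hPP' p (hT hp)).1).1, hPM p (hT hp)⟩)
          (fun p hp => mem_range.1 (hOm p (hPP' p (hT hp)).1 (hc p hp)))
        simpa only [Finset.sum_const, nsmul_eq_mul, mul_one] using h3)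
    simp only [Finset.sum_const, nsmul_eq_mul, mul_one] at h1
    have h4 := fewT P (fun p hp => (hP' p (hPP' p hp).1).1) ((2 ^ 2 ^ J) ^ (C * b)) κ (fun p hp => by
      have h5 := (hPP' p hp).2
      have h6 : κ ≤ C * (κ + 1) := by nlinarith
      omega)
    simp only [mul_one] at h4
    refine h1.trans ?_
    gcongr
  have hsum := Finset.abs_sum_le_sum_abs (fun ν => (#(((Ioc n1 n2).filter (fun n => n % M = ν)).filter (fun n => ∀ p ∈ P, n % p ∉ Om p)) : ℝ) -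
      (((n2 : ℝ) - n1) / M) * ∏ p ∈ P, (1 - (#(Om p) : ℝ) * (1 / p))) N
  have hsum2 := hsum.trans (Finset.sum_le_sum hcl)
  rw [Finset.sum_sub_distrib, Finset.sum_const, Finset.sum_const, nsmul_eq_mul, nsmul_eq_mul, ← Nat.cast_sum, ← hdec] at hsum2
  have hmainT : (#N : ℝ) * ((((n2 : ℝ) - n1) / M) * ∏ p ∈ P, (1 - (#(Om p) : ℝ) * (1 / p))) =
      ((n2 : ℝ) - n1) * (#N0 / M0) * ∏ p ∈ P', (1 - (#(Om p) : ℝ) / p) := by
    have e1 : ∏ p ∈ P', (1 - (#(Om p) : ℝ) / p) = (∏ p ∈ Q, (1 - (#(Om p) : ℝ) / p)) * ∏ p ∈ P, (1 - (#(Om p) : ℝ) / p) := by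
      rw [hQ, hP, Finset.prod_filter_mul_prod_filter_not]
    have e2 : ∏ p ∈ P, (1 - (#(Om p) : ℝ) * (1 / p)) = ∏ p ∈ P, (1 - (#(Om p) : ℝ) / p) :=
      Finset.prod_congr rfl fun p _ => by ring
    have e3 : (#N : ℝ) = #N0 * ∏ p ∈ Q, ((p : ℝ) - #(Om p)) := by
      rw [hNcard]
      push_cast
      congr 1
      apply Finset.prod_congr rfl
      intro p hp
      rw [Nat.cast_sub (hOmle p (hQP' p hp).1)]
    have e4 : ∏ p ∈ Q, ((p : ℝ) - #(Om p)) = (∏ p ∈ Q, (p : ℝ)) * ∏ p ∈ Q, (1 - (#(Om p) : ℝ) / p) := by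
      rw [← Finset.prod_mul_distrib]
      apply Finset.prod_congr rfl
      intro p hp
      have : (p : ℝ) ≠ 0 := by exact_mod_cast (hP' p (hQP' p hp).1).1.ne_zero
      field_simp
    have e5 : (M : ℝ) = M0 * ∏ p ∈ Q, (p : ℝ) := by rw [hM]; push_cast; rfl
    have h6 : (0 : ℝ) < ∏ p ∈ Q, (p : ℝ) := by
      have := hQpos
      have h7 : ((∏ p ∈ Q, p : ℕ) : ℝ) = ∏ p ∈ Q, (p : ℝ) := by push_cast; rfl
      rw [← h7]; exact_mod_cast this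
    have h8 : (0 : ℝ) < M0 := by exact_mod_cast hM0
    rw [e1, e2, e3, e4, e5]
    field_simp
  rw [mul_add, hmainT] at hsum2
  have e7 : (#N : ℝ) * ((1 / 2) ^ b * ((((n2 : ℝ) - n1) / M) * ∏ p ∈ P, (1 - (#(Om p) : ℝ) * (1 / p)))) =
      (1 / 2) ^ b * (((n2 : ℝ) - n1) * (#N0 / M0) * ∏ p ∈ P', (1 - (#(Om p) : ℝ) / p)) := by
    rw [← hmainT]; ring
  rw [e7] at hsum2
  refine hsum2.trans ?_
  have h9 : (#N : ℝ) ≤ #N0 * (z0 : ℝ) ^ z0 := by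
    have h10 : #N ≤ #N0 * z0 ^ z0 := by
      rw [hNcard]
      apply Nat.mul_le_mul_left
      calc ∏ p ∈ Q, (p - #(Om p)) ≤ ∏ _p ∈ Q, z0 := by
            apply Finset.prod_le_prod'
            intro p hp
            have := (hQP' p hp).2
            omega
        _ = z0 ^ #Q := by rw [Finset.prod_const]
        _ ≤ z0 ^ z0 := by
            apply Nat.pow_le_pow_right hz01
            have h11 : Q ⊆ Icc 1 z0 := by
              intro p hp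
              rw [mem_Icc]
              exact ⟨(hP' p (hQP' p hp).1).1.one_le, (hQP' p hp).2⟩
            have := Finset.card_le_card h11
            rwa [Nat.card_Icc, Nat.add_sub_cancel] at this
    exact_mod_cast h10
  have h12 : (#N : ℝ) * (((J : ℝ) + 2) * (((2 ^ 2 ^ J) ^ (C * b) : ℕ) : ℝ) ^ 2) ≤
      #N0 * (z0 : ℝ) ^ z0 * ((J : ℝ) + 2) * ((2 ^ 2 ^ J) ^ (C * b)) ^ 2 := by
    push_cast
    calc (#N : ℝ) * (((J : ℝ) + 2) * ((2 ^ 2 ^ J) ^ (C * b)) ^ 2) ≤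
          (#N0 * (z0 : ℝ) ^ z0) * (((J : ℝ) + 2) * ((2 ^ 2 ^ J) ^ (C * b)) ^ 2) := by gcongr
      _ = _ := by ring
  linarith


/-- the fundamental lemma, free of decidability instances -/
theorem flg' : ∃ C : ℕ, 1 ≤ C ∧ ∀ (κ b J z0 M0 n1 n2 : ℕ) (P' : Finset ℕ) (Om : ℕ → Finset ℕ)
    (N0 S : Finset ℕ), C * (κ + 1) ≤ b → C * (κ + 1) ≤ z0 → 1 ≤ M0 → n1 ≤ n2 →
    N0 ⊆ range M0 → (∀ p ∈ P', p.Prime ∧ p ≤ 2 ^ 2 ^ J ∧ ¬ p ∣ M0) → (∀ p ∈ P', Om p ⊆ range p) →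
    (∀ p ∈ P', z0 < p → #(Om p) ≤ κ) →
    (∀ n, n ∈ S ↔ (n1 < n ∧ n ≤ n2) ∧ n % M0 ∈ N0 ∧ ∀ p ∈ P', n % p ∉ Om p) →
    |(#S : ℝ) - ((n2 : ℝ) - n1) * (#N0 / M0) * ∏ p ∈ P', (1 - (#(Om p) : ℝ) / p)| ≤
      (1 / 2) ^ b * (((n2 : ℝ) - n1) * (#N0 / M0) * ∏ p ∈ P', (1 - (#(Om p) : ℝ) / p)) +
        #N0 * (z0 : ℝ) ^ z0 * ((J : ℝ) + 2) * ((2 ^ 2 ^ J) ^ (C * b)) ^ 2 := by
  classical
  obtain ⟨C, hC, H⟩ := flg
  refine ⟨C, hC, ?_⟩
  intro κ b J z0 M0 n1 n2 P' Om N0 S hb hz0 hM0 hn hN0 hP' hOm hOmc hS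
  have h := H κ b J z0 M0 n1 n2 P' Om N0 hb hz0 hM0 hn hN0 hP' hOm hOmc
  have key : ∀ S' : Finset ℕ, (∀ n, n ∈ S' ↔ (n1 < n ∧ n ≤ n2) ∧ n % M0 ∈ N0 ∧ ∀ p ∈ P', n % p ∉ Om p) →
      |(#S' : ℝ) - ((n2 : ℝ) - n1) * (#N0 / M0) * ∏ p ∈ P', (1 - (#(Om p) : ℝ) / p)| ≤
      (1 / 2) ^ b * (((n2 : ℝ) - n1) * (#N0 / M0) * ∏ p ∈ P', (1 - (#(Om p) : ℝ) / p)) +
        #N0 * (z0 : ℝ) ^ z0 * ((J : ℝ) + 2) * ((2 ^ 2 ^ J) ^ (C * b)) ^ 2 →
      |(#S : ℝ) - ((n2 : ℝ) - n1) * (#N0 / M0) * ∏ p ∈ P', (1 - (#(Om p) : ℝ) / p)| ≤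
      (1 / 2) ^ b * (((n2 : ℝ) - n1) * (#N0 / M0) * ∏ p ∈ P', (1 - (#(Om p) : ℝ) / p)) +
        #N0 * (z0 : ℝ) ^ z0 * ((J : ℝ) + 2) * ((2 ^ 2 ^ J) ^ (C * b)) ^ 2 := by
    intro S' hS' hb'
    have e : S = S' := by
      ext n
      rw [hS n, hS' n]
    rw [e]
    exact hb'
  exact key _ (fun n => by rw [mem_filter, mem_Ioc]) h

end Pool.Agent.L0h43.TB
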