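import Pool.Agent.L0h43.TB.More
import Pool.Agent.L0h43.TA.Up
import Pool.Agent.H442R2.KF.Bv

/-!
# The induction: weighted sums over the sets `{0} ∪ D`
-/

set_option autoImplicit false

namespace Pool.Agent.L0h43.TB

open Finset Filter Topology Pool.Agent.H387R2
open Pool.Agent.L0h43.TA
open Pool.Agent.H386R2.HL

lemma CT_zero : Uni.CT {0} = 1 := by
  have h : Uni.CT {0} = ∏' p : Nat.Primes, Uni.locT {0} p := rfl
  rw [h]
  have h2 : ∀ p : Nat.Primes, Uni.locT {0} p = 1 := by
    intro p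
    unfold Uni.locT Uni.nuT
    have hf := fac_pos p.2
    simp only [image_singleton, card_singleton, pow_one, Nat.cast_one]
    exact div_self hf.ne'
  simp only [h2, tprod_one]

lemma gT_zero {W : ℕ} : Uni.gT W {0} = Nat.totient W := by
  unfold Uni.gT
  rw [← card_coprime W]
  congr 1
  ext m
  simp only [mem_filter, mem_singleton, forall_eq, add_zero]

/-- the sums over `k`-element sets -/
def Claim (k : ℕ) : Prop := ∀ ε : ℝ, 0 < ε → ∀ w' : ℕ, ∃ K : ℝ, 1 ≤ K ∧ ∀ A : ℝ, 0 ≤ A → ∃ N₀ : ℕ, ∀ N : ℕ,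
  N₀ ≤ N → ∀ ν' : ℕ, ν' < Uni.WW w' → ∀ u H : ℕ, K * Real.log N ≤ H → ((u + H : ℕ) : ℝ) ≤ Real.log N ^ A →
  ∀ g : Finset ℕ → ℝ, (∀ D, 0 ≤ g D) → (∀ D, g D ≤ 1) →
  ∑ D ∈ ((Ioc u (u + H)).powersetCard k).filter (fun D => OK (Uni.WW w') ν' (insert 0 D)),
      g D * (pc N (Uni.WW w') ν' (insert 0 D) : ℝ) ≤
    4 ^ k * ∑ D ∈ ((Ioc u (u + H)).powersetCard k).filter (fun D => OK (Uni.WW w') ν' (insert 0 D)),
      g D * Ew N (Uni.WW w') (insert 0 D) + ε * ((H : ℝ) ^ k * (N / Real.log N ^ (k + 1)))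

theorem claim_zero : Claim 0 := by
  intro ε hε w'
  refine ⟨1, le_rfl, fun A _ => ?_⟩
  obtain ⟨C, hC, hbv⟩ := Pool.Agent.H442R2.KF.bv (1 / 4) (by norm_num) 2
  have hWpos := Uni.WW_pos w'
  have tN : Tendsto (fun N : ℕ => (N : ℝ)) atTop atTop := tendsto_natCast_atTop_atTop
  have tL : Tendsto (fun N : ℕ => Real.log (N : ℝ)) atTop atTop := Real.tendsto_log_atTop.comp tN
  have tq : Tendsto (fun N : ℕ => (N : ℝ) ^ (1 / 4 : ℝ)) atTop atTop := (tendsto_rpow_atTop (by norm_num)).comp tN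
  obtain ⟨N₀, hN₀⟩ := eventually_atTop.1 ((pi_up (ε / 2) (by positivity)).and ((tL.eventually_ge_atTop
    (max 1 (2 * C / ε))).and ((tq.eventually_ge_atTop (Uni.WW w' : ℝ)).and (eventually_ge_atTop 3))))
  refine ⟨N₀, fun N hN ν' hν' u H hKH hHA g hg0 hg1 => ?_⟩
  obtain ⟨h1, h2, h3, h4⟩ := hN₀ N hN
  have hL1 : 1 ≤ Real.log N := (le_max_left _ _).trans h2
  have hLC : 2 * C / ε ≤ Real.log N := (le_max_right _ _).trans h2
  set L := Real.log (N : ℝ) with hL
  have hL0 : 0 < L := by linarith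
  have hN0 : (0 : ℝ) < N := by
    have : (3 : ℝ) ≤ N := by exact_mod_cast h4
    linarith
  have hEε : 0 ≤ ε * ((H : ℝ) ^ 0 * (N / L ^ (0 + 1))) := by positivity
  by_cases hOK : OK (Uni.WW w') ν' (insert 0 ∅)
  · have e : ((Ioc u (u + H)).powersetCard 0).filter (fun D => OK (Uni.WW w') ν' (insert 0 D)) = {∅} := by
      rw [powersetCard_zero]
      ext D
      rw [mem_filter, mem_singleton]
      constructor
      · rintro ⟨h, -⟩; exact h
      · rintro rfl; exact ⟨rfl, hOK⟩
    rw [e, sum_singleton, sum_singleton, pow_zero, one_mul, pow_zero, one_mul]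
    have hcop : Nat.Coprime (Uni.WW w') ν' := by
      have := hOK 0 (mem_insert_self _ _)
      rwa [add_zero] at this
    obtain ⟨W, hW⟩ : ∃ W, W = Uni.WW w' := ⟨_, rfl⟩
    rw [← hW] at hcop hν' h3 hWpos ⊢
    have e0 : (insert 0 ∅ : Finset ℕ) = {0} := rfl
    rw [e0]
    have hφ0 : (0 : ℝ) < Nat.totient W := by exact_mod_cast Nat.totient_pos.2 hWpos
    have hφ1 : (1 : ℝ) ≤ Nat.totient W := by exact_mod_cast Nat.totient_pos.2 hWpos
    have hEw : Ew N W {0} = N / L / Nat.totient W := by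
      unfold Ew
      rw [CT_zero, gT_zero, card_singleton, pow_one]
      ring
    have hpc : (pc N W ν' {0} : ℝ) ≤ N / L / Nat.totient W + ε * (N / L) := by
      have h5 : pc N W ν' {0} ≤ Pool.Agent.H442R2.KF.piAP N W ν' := by
        classical
        unfold pc Pool.Agent.H442R2.KF.piAP
        apply card_le_card
        intro n hn
        rw [mem_filter, mem_Ioc] at hn
        rw [mem_filter, mem_Icc]
        refine ⟨⟨by omega, hn.1.2⟩, ?_, ?_⟩
        · have := hn.2.2 0 (mem_singleton_self 0)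
          rwa [add_zero] at this
        · show n % W = ν' % W
          rw [hn.2.1, Nat.mod_eq_of_lt hν']
      have h6 : |Pool.Agent.H442R2.KF.Er N W ν'| ≤ C * (N / L ^ 2) := by
        have h7 := hbv N h4 (fun d => if d = W then ν' else 1) (by
          intro d _
          by_cases hd : d = W
          · rw [if_pos hd, hd]; exact hcop.symm
          · rw [if_neg hd]; exact Nat.coprime_one_left _)
        have h8 : W ∈ Icc 1 ⌊(N : ℝ) ^ (1 / 4 : ℝ)⌋₊ := by
          rw [mem_Icc]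
          exact ⟨hWpos, Nat.le_floor h3⟩
        have h9 := single_le_sum (f := fun d => |Pool.Agent.H442R2.KF.Er N d (if d = W then ν' else 1)|)
          (fun d _ => abs_nonneg _) h8
        simp only [if_true] at h9
        exact h9.trans h7
      have h7 : (Pool.Agent.H442R2.KF.piN N : ℝ) ≤ (1 + ε / 2) * (N / L) := by
        have : Pool.Agent.H442R2.KF.piN N = (pr N).card := rfl
        rw [this]; exact h1
      have h8 := (abs_le.1 h6).2
      unfold Pool.Agent.H442R2.KF.Er at h8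
      have h9 : (pc N W ν' {0} : ℝ) ≤ (Pool.Agent.H442R2.KF.piAP N W ν' : ℝ) := by exact_mod_cast h5
      have h10 : (Pool.Agent.H442R2.KF.piN N : ℝ) / Nat.totient W ≤ N / L / Nat.totient W + ε / 2 * (N / L) := by
        have h11 := div_le_div_of_nonneg_right h7 hφ0.le
        have h12 : (1 + ε / 2) * (N / L) / (Nat.totient W : ℝ) = N / L / Nat.totient W +
            ε / 2 * (N / L) / Nat.totient W := by ring
        rw [h12] at h11
        have h13 : ε / 2 * (N / L) / (Nat.totient W : ℝ) ≤ ε / 2 * (N / L) := div_le_self (by positivity) hφ1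
        linarith
      have h14 : C * (N / L ^ 2) ≤ ε / 2 * (N / L) := by
        rw [div_le_iff₀ hε] at hLC
        have e1 : C * (N / L ^ 2) = C / L * (N / L) := by field_simp
        rw [e1]
        apply mul_le_mul_of_nonneg_right _ (by positivity)
        rw [div_le_iff₀ hL0]
        linarith
      linarith
    have hEw0 : 0 ≤ Ew N W {0} := by rw [hEw]; positivity
    calc g ∅ * (pc N W ν' {0} : ℝ) ≤ g ∅ * (Ew N W {0} + ε * (N / L)) := by
          apply mul_le_mul_of_nonneg_left _ (hg0 ∅)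
          rw [hEw]; exact hpc
      _ = g ∅ * Ew N W {0} + g ∅ * (ε * (N / L)) := by ring
      _ ≤ g ∅ * Ew N W {0} + 1 * (ε * (N / L)) := by
          apply add_le_add le_rfl
          exact mul_le_mul_of_nonneg_right (hg1 ∅) (by positivity)
      _ = _ := by ring
  · have e : ((Ioc u (u + H)).powersetCard 0).filter (fun D => OK (Uni.WW w') ν' (insert 0 D)) = ∅ := by
      rw [powersetCard_zero]
      apply filter_eq_empty_iff.2
      intro D hD
      rw [mem_singleton] at hD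
      rw [hD]
      exact hOK
    rw [e, sum_empty, sum_empty, mul_zero, zero_add]
    exact hEε

lemma Ew_le {N W ν : ℕ} {T : Finset ℕ} (hN : 1 ≤ N) (hν : ν < W) (hOK : OK W ν T) :
    Ew N W T ≤ N / Real.log N ^ T.card * Uni.CT T := by
  unfold Ew
  have h1 : (1 : ℝ) ≤ Uni.gT W T := by exact_mod_cast gT_pos hν hOK
  have h2 := Uni.CT_nonneg T
  have h3 : 0 ≤ Real.log N := Real.log_nonneg (by exact_mod_cast hN)
  exact mul_le_mul_of_nonneg_left (div_le_self h2 h1) (by positivity)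

/-- the average of the singular series over the anchored sets -/
lemma avg0 (k : ℕ) (A : ℝ) (hA : 0 ≤ A) : ∃ L₀ : ℝ, ∀ L : ℝ, L₀ ≤ L → ∀ u H : ℕ, L ≤ H →
    ((u + H : ℕ) : ℝ) ≤ L ^ A → ∑ D ∈ (Ioc u (u + H)).powersetCard k, Uni.CT (insert 0 D) ≤ 2 * (H : ℝ) ^ k := by
  obtain ⟨L₀, hL₀⟩ := avg_up 1 k 1 A one_pos hA
  refine ⟨max 0 L₀, fun L hL u H hLH hHA => ?_⟩
  have hL0 : 0 ≤ L := (le_max_left _ _).trans hL
  have h := hL₀ L ((le_max_right _ _).trans hL) {0} (card_singleton _) (fun t ht => by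
    rw [mem_singleton] at ht
    rw [ht, Nat.cast_zero]
    positivity) u H hLH hHA
  have e1 : Ioc u (u + H) \ {0} = Ioc u (u + H) := by
    apply sdiff_eq_self_of_disjoint
    rw [disjoint_singleton_right, mem_Ioc]
    omega
  rw [e1, CT_zero, mul_one] at h
  have h2 : (1 : ℝ) ≤ k.factorial := by exact_mod_cast k.factorial_pos
  have h3 : 0 ≤ ∑ D ∈ (Ioc u (u + H)).powersetCard k, Uni.CT ({0} ∪ D) := sum_nonneg fun D _ => Uni.CT_nonneg _
  have h4 := mul_le_mul_of_nonneg_right h2 h3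
  have e2 : ∑ D ∈ (Ioc u (u + H)).powersetCard k, Uni.CT (insert 0 D) =
      ∑ D ∈ (Ioc u (u + H)).powersetCard k, Uni.CT ({0} ∪ D) := by
    apply sum_congr rfl
    intro D _
    rw [insert_eq]
  rw [e2]
  linarith

end Pool.Agent.L0h43.TB
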