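import Pool.Agent.L0h43.TB.Ind

/-!
# The induction step
-/

set_option autoImplicit false

namespace Pool.Agent.L0h43.TB

open Finset Filter Topology Pool.Agent.H387R2
open Pool.Agent.L0h43.TA
open Pool.Agent.H386R2.HL

lemma Ioc_sdiff0 {u H : ℕ} (D : Finset ℕ) : Ioc u (u + H) \ insert 0 D = Ioc u (u + H) \ D := by
  ext a
  simp only [Finset.mem_sdiff, mem_insert, mem_Ioc]
  constructor
  · rintro ⟨h1, h2⟩
    exact ⟨h1, fun h => h2 (Or.inr h)⟩
  · rintro ⟨h1, h2⟩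
    refine ⟨h1, fun h => ?_⟩
    rcases h with h | h
    · omega
    · exact h2 h

lemma card_ins0 {u H k : ℕ} {D : Finset ℕ} (hD : D ∈ (Ioc u (u + H)).powersetCard k) : (insert 0 D).card = k + 1 := by
  rw [mem_powersetCard] at hD
  rw [card_insert_of_notMem, hD.2]
  intro h0
  have := mem_Ioc.1 (hD.1 h0)
  omega

/-- one class -/
lemma step_class {k N w ν u H : ℕ} {η e : ℝ} (hη0 : 0 < η) (hη2 : η ≤ 1 / 2) (he : 0 ≤ e)
    (hN1 : 3 ≤ N) (hws : w ≤ Nat.sqrt N) (hν : ν < Uni.WW w) (hH : 0 < H) (hWH : Uni.WW w ≤ H)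
    (hwη : (4 * (k + 1 : ℝ) + 1) / w ≤ η) (hw4 : 4 * (k + 2) ≤ w) (g : Finset ℕ → ℝ)
    (hg0 : ∀ D, 0 ≤ g D) (hg1 : ∀ D, g D ≤ 1)
    (hMT : ∀ D ∈ ((Ioc u (u + H)).powersetCard k).filter (fun D => OK (Uni.WW w) ν (insert 0 D)),
      ∑ h ∈ Jv (Uni.WW w) ν u H \ insert 0 D, g (insert h D) * (pc N (Uni.WW w) ν (insert h (insert 0 D)) : ℝ) ≤
        ((4 + η) * ((Uni.WW w : ℝ) / Nat.totient (Uni.WW w)) *
          (∑ h ∈ Jv (Uni.WW w) ν u H \ insert 0 D, g (insert h D)) + η * H) /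
          Real.log N * pc N (Uni.WW w) ν (insert 0 D) + η * (H / Real.log N) * Ew N (Uni.WW w) (insert 0 D))
    (hC : ∀ g' : Finset ℕ → ℝ, (∀ D, 0 ≤ g' D) → (∀ D, g' D ≤ 1) →
      ∑ D ∈ ((Ioc u (u + H)).powersetCard k).filter (fun D => OK (Uni.WW w) ν (insert 0 D)),
        g' D * (pc N (Uni.WW w) ν (insert 0 D) : ℝ) ≤
      4 ^ k * ∑ D ∈ ((Ioc u (u + H)).powersetCard k).filter (fun D => OK (Uni.WW w) ν (insert 0 D)),
        g' D * Ew N (Uni.WW w) (insert 0 D) + e * ((H : ℝ) ^ k * (N / Real.log N ^ (k + 1)))) :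
    ∑ D ∈ (Ioc u (u + H)).powersetCard (k + 1), g D * (pc N (Uni.WW w) ν (insert 0 D) : ℝ) ≤
      (4 + η) * (1 + 2 * η) * 4 ^ k *
        ∑ D ∈ ((Ioc u (u + H)).powersetCard (k + 1)).filter (fun D => OK (Uni.WW w) ν (insert 0 D)),
          g D * Ew N (Uni.WW w) (insert 0 D) +
      10 * e * ((H : ℝ) ^ (k + 1) * (N / Real.log N ^ (k + 2))) +
      η * (4 ^ k + 1) * (H / Real.log N) *
        ∑ D ∈ ((Ioc u (u + H)).powersetCard k).filter (fun D => OK (Uni.WW w) ν (insert 0 D)),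
          Ew N (Uni.WW w) (insert 0 D) := by
  classical
  obtain ⟨W, hW⟩ : ∃ W, W = Uni.WW w := ⟨_, rfl⟩
  have hWpos : 0 < W := by rw [hW]; exact Uni.WW_pos w
  have hφ0 : (0 : ℝ) < Nat.totient W := by exact_mod_cast Nat.totient_pos.2 hWpos
  have hW0 : (0 : ℝ) < W := by exact_mod_cast hWpos
  have hN1' : 1 ≤ N := by omega
  have hN3 : (3 : ℝ) ≤ N := by exact_mod_cast hN1
  set L := Real.log (N : ℝ) with hL
  have hL0 : 0 < L := Real.log_pos (by linarith)
  have hH0 : (0 : ℝ) < H := by exact_mod_cast hH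
  have hWH' : (W : ℝ) ≤ H := by rw [hW]; exact_mod_cast hWH
  have hw0 : (0 : ℝ) < w := by
    have : 0 < w := by omega
    exact_mod_cast this
  obtain ⟨S, hS⟩ : ∃ S, S = ((Ioc u (u + H)).powersetCard k).filter (fun D => OK (Uni.WW w) ν (insert 0 D)) :=
    ⟨_, rfl⟩
  rw [← hS] at hMT hC ⊢
  obtain ⟨G, hG⟩ : ∃ G : Finset ℕ → ℝ, ∀ D, G D = ∑ h ∈ Jv (Uni.WW w) ν u H \ insert 0 D, g (insert h D) :=
    ⟨fun D => ∑ h ∈ Jv (Uni.WW w) ν u H \ insert 0 D, g (insert h D), fun D => rfl⟩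
  have hG0 : ∀ D, 0 ≤ G D := fun D => by rw [hG]; exact sum_nonneg fun h _ => hg0 _
  have hGle : ∀ D, (W : ℝ) / Nat.totient W * G D ≤ 2 * H := by
    intro D
    have h1 := Jv_card_le (ν := ν) (u := u) (H := H) hWpos (insert 0 D)
    have h2 : G D ≤ ((Jv W ν u H \ insert 0 D).card : ℝ) := by
      rw [hG, ← hW]
      calc ∑ h ∈ Jv W ν u H \ insert 0 D, g (insert h D) ≤ ∑ _h ∈ Jv W ν u H \ insert 0 D, (1 : ℝ) :=
            sum_le_sum fun h _ => hg1 _
        _ = _ := by rw [sum_const, nsmul_eq_mul, mul_one]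
    have h3 := mul_le_mul_of_nonneg_left h2 (show 0 ≤ (W : ℝ) / Nat.totient W by positivity)
    linarith
  -- step 1
  have s1 : ((k + 1 : ℕ) : ℝ) * ∑ D ∈ (Ioc u (u + H)).powersetCard (k + 1), g D * (pc N (Uni.WW w) ν (insert 0 D) : ℝ) =
      ∑ D ∈ S, ∑ h ∈ Jv (Uni.WW w) ν u H \ insert 0 D,
        g (insert h D) * (pc N (Uni.WW w) ν (insert h (insert 0 D)) : ℝ) := by
    rw [sum_ins _ k (fun D => g D * (pc N (Uni.WW w) ν (insert 0 D) : ℝ))]
    have e1 : ∀ D ∈ (Ioc u (u + H)).powersetCard k,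
        ∑ h ∈ Ioc u (u + H) \ D, g (insert h D) * (pc N (Uni.WW w) ν (insert 0 (insert h D)) : ℝ) =
        ∑ h ∈ Jv (Uni.WW w) ν u H \ insert 0 D,
          g (insert h D) * (pc N (Uni.WW w) ν (insert h (insert 0 D)) : ℝ) := by
      intro D _
      rw [← Ioc_sdiff0 D, ← sum_Jv hws (fun h => g (insert h D))]
      apply sum_congr rfl
      intro h _
      rw [Finset.insert_comm]
    rw [sum_congr rfl e1, hS]
    symm
    apply sum_subset (filter_subset _ _)
    intro D hD hD2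
    have hnOK : ¬ OK (Uni.WW w) ν (insert 0 D) := fun h => hD2 (mem_filter.2 ⟨hD, h⟩)
    apply sum_eq_zero
    intro h _
    rw [pc_zero hws, Nat.cast_zero, mul_zero]
    intro h2
    exact hnOK fun t ht => h2 t (mem_insert_of_mem ht)
  -- step 2
  have s2 : ∑ D ∈ S, ∑ h ∈ Jv (Uni.WW w) ν u H \ insert 0 D,
        g (insert h D) * (pc N (Uni.WW w) ν (insert h (insert 0 D)) : ℝ) ≤
      (4 + η) * (2 * H / L) * ∑ D ∈ S, ((W : ℝ) / Nat.totient W * G D / (2 * H)) * (pc N (Uni.WW w) ν (insert 0 D) : ℝ) +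
      η * (H / L) * ∑ D ∈ S, 1 * (pc N (Uni.WW w) ν (insert 0 D) : ℝ) +
      η * (H / L) * ∑ D ∈ S, Ew N (Uni.WW w) (insert 0 D) := by
    refine (sum_le_sum hMT).trans (le_of_eq ?_)
    rw [mul_sum, mul_sum, mul_sum, ← sum_add_distrib, ← sum_add_distrib]
    apply sum_congr rfl
    intro D _
    rw [← hG, ← hW]
    field_simp
  have s3 := hC (fun D => (W : ℝ) / Nat.totient W * G D / (2 * H)) (fun D => by
    have := hG0 D
    positivity) (fun D => by
    rw [div_le_one (by positivity)]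
    exact hGle D)
  have s4 := hC (fun _ => 1) (fun _ => zero_le_one) (fun _ => le_rfl)
  obtain ⟨Z, hZ⟩ : ∃ Z, Z = (H : ℝ) ^ k * (N / L ^ (k + 1)) := ⟨_, rfl⟩
  rw [← hZ] at s3 s4
  have hZ0 : 0 ≤ Z := by rw [hZ]; positivity
  have hZ2 : (H : ℝ) ^ (k + 1) * (N / L ^ (k + 2)) = H / L * Z := by
    rw [hZ, pow_succ, pow_succ L (k + 1)]
    field_simp
  rw [hZ2]
  -- step 3
  have s5 : ∀ D ∈ S, (W : ℝ) / Nat.totient W * G D / L * Ew N (Uni.WW w) (insert 0 D) ≤
      (1 + 2 * η) * ∑ h ∈ Jv (Uni.WW w) ν u H \ insert 0 D, g (insert h D) * Ew N (Uni.WW w) (insert h (insert 0 D)) := by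
    intro D hD
    rw [hS, mem_filter] at hD
    have hcard := card_ins0 hD.1
    rw [hG, mul_sum, mul_sum, sum_div, sum_mul]
    apply sum_le_sum
    intro h hh
    rw [Finset.mem_sdiff] at hh
    have hh1 : Nat.Coprime (Uni.WW w) (ν + h) := by
      unfold Jv at hh
      exact (mem_filter.1 hh.1).2
    have hOK2 : OK (Uni.WW w) ν (insert h (insert 0 D)) := by
      intro t ht
      rcases mem_insert.1 ht with rfl | ht
      · exact hh1
      · exact hD.2 t ht
    have hg1' := gT_pos hν hOK2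
    have hg2' := gT_pos hν hD.2
    have hst := star (insert 0 D) h (by rw [hcard]; omega) hh.2 hg1' hg2'
    rw [hcard, ← hW] at hst
    push_cast at hst
    rw [← hW]
    have hCTg : 0 ≤ Uni.CT (insert 0 D) / Uni.gT W (insert 0 D) := by
      have := Uni.CT_nonneg (insert 0 D)
      positivity
    have hCTg2 : 0 ≤ Uni.CT (insert h (insert 0 D)) / Uni.gT W (insert h (insert 0 D)) := by
      have := Uni.CT_nonneg (insert h (insert 0 D))
      positivity
    have h5 : (W : ℝ) / Nat.totient W * (Uni.CT (insert 0 D) / Uni.gT W (insert 0 D)) ≤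
        (1 + 2 * η) * (Uni.CT (insert h (insert 0 D)) / Uni.gT W (insert h (insert 0 D))) := by
      set X := (W : ℝ) / Nat.totient W * (Uni.CT (insert 0 D) / Uni.gT W (insert 0 D)) with hX
      set Y := Uni.CT (insert h (insert 0 D)) / Uni.gT W (insert h (insert 0 D)) with hY
      have hX0 : 0 ≤ X := by positivity
      have h6 : (1 - η) * X ≤ Y := by
        have : X * (1 - η) ≤ X * (1 - (4 * (k + 1 : ℝ) + 1) / w) := mul_le_mul_of_nonneg_left (by linarith) hX0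
        linarith
      have h7 : (1 + 2 * η) * ((1 - η) * X) ≤ (1 + 2 * η) * Y := mul_le_mul_of_nonneg_left h6 (by linarith)
      have h8 : X ≤ (1 + 2 * η) * ((1 - η) * X) := by
        have : (1 + 2 * η) * ((1 - η) * X) = X + η * (1 - 2 * η) * X := by ring
        rw [this]
        have : 0 ≤ η * (1 - 2 * η) * X := mul_nonneg (mul_nonneg hη0.le (by linarith)) hX0
        linarith
      linarith
    unfold Ew
    rw [card_insert_of_notMem hh.2, hcard, ← hL]
    have h9 := mul_le_mul_of_nonneg_left h5 (show 0 ≤ g (insert h D) * (N / L ^ (k + 1 + 1)) by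
      have := hg0 (insert h D)
      positivity)
    calc (W : ℝ) / Nat.totient W * g (insert h D) / L * (N / L ^ (k + 1) * (Uni.CT (insert 0 D) / Uni.gT W (insert 0 D))) =
        g (insert h D) * (N / L ^ (k + 1 + 1)) *
          ((W : ℝ) / Nat.totient W * (Uni.CT (insert 0 D) / Uni.gT W (insert 0 D))) := by
          rw [pow_succ L (k + 1)]
          field_simp
      _ ≤ _ := h9
      _ = _ := by ring
  -- step 4
  have s6 : ∑ D ∈ S, ∑ h ∈ Jv (Uni.WW w) ν u H \ insert 0 D,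
        g (insert h D) * Ew N (Uni.WW w) (insert h (insert 0 D)) =
      ((k + 1 : ℕ) : ℝ) * ∑ D ∈ ((Ioc u (u + H)).powersetCard (k + 1)).filter (fun D => OK (Uni.WW w) ν (insert 0 D)),
          g D * Ew N (Uni.WW w) (insert 0 D) := by
    rw [sum_filter, sum_ins _ k (fun D => if OK (Uni.WW w) ν (insert 0 D) then g D * Ew N (Uni.WW w) (insert 0 D) else 0)]
    have e1 : ∀ D ∈ (Ioc u (u + H)).powersetCard k,
        ∑ h ∈ Ioc u (u + H) \ D, (if OK (Uni.WW w) ν (insert 0 (insert h D)) then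
          g (insert h D) * Ew N (Uni.WW w) (insert 0 (insert h D)) else 0) =
        if OK (Uni.WW w) ν (insert 0 D) then ∑ h ∈ Jv (Uni.WW w) ν u H \ insert 0 D,
          g (insert h D) * Ew N (Uni.WW w) (insert h (insert 0 D)) else 0 := by
      intro D _
      split_ifs with hOK
      · rw [← sum_filter, ← Ioc_sdiff0 D]
        apply sum_congr
        · ext h
          simp only [mem_filter, Finset.mem_sdiff]
          unfold Jv
          rw [mem_filter]
          constructor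
          · rintro ⟨⟨h1, h2⟩, h3⟩
            exact ⟨⟨h1, h3 h (mem_insert_of_mem (mem_insert_self _ _))⟩, h2⟩
          · rintro ⟨⟨h1, h3⟩, h2⟩
            refine ⟨⟨h1, h2⟩, ?_⟩
            intro t ht
            rw [Finset.insert_comm] at ht
            rcases mem_insert.1 ht with rfl | ht
            · exact h3
            · exact hOK t ht
        · intro h _
          rw [Finset.insert_comm]
      · apply sum_eq_zero
        intro h _
        rw [if_neg]
        intro h2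
        apply hOK
        intro t ht
        apply h2 t
        rw [Finset.insert_comm]
        exact mem_insert_of_mem ht
    rw [sum_congr rfl e1, ← sum_filter, hS]
  obtain ⟨Y, hY⟩ : ∃ Y, Y = ∑ D ∈ ((Ioc u (u + H)).powersetCard (k + 1)).filter
      (fun D => OK (Uni.WW w) ν (insert 0 D)), g D * Ew N (Uni.WW w) (insert 0 D) := ⟨_, rfl⟩
  rw [← hY] at s6 ⊢
  have hY0 : 0 ≤ Y := by
    rw [hY]
    exact sum_nonneg fun D _ => mul_nonneg (hg0 D) (Ew_nonneg hN1')
  obtain ⟨X, hX⟩ : ∃ X, X = ∑ D ∈ (Ioc u (u + H)).powersetCard (k + 1),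
      g D * (pc N (Uni.WW w) ν (insert 0 D) : ℝ) := ⟨_, rfl⟩
  rw [← hX] at s1 ⊢
  obtain ⟨V, hV⟩ : ∃ V, V = ∑ D ∈ S, Ew N (Uni.WW w) (insert 0 D) := ⟨_, rfl⟩
  have hV0 : 0 ≤ V := by rw [hV]; exact sum_nonneg fun D _ => Ew_nonneg hN1'
  rw [← hV] at s2 ⊢
  have s4' : ∑ D ∈ S, 1 * (pc N (Uni.WW w) ν (insert 0 D) : ℝ) ≤ 4 ^ k * V + e * Z := by
    refine s4.trans (le_of_eq ?_)
    rw [hV]
    congr 2
    apply sum_congr rfl
    intro D _
    rw [one_mul]
  have s7 : (4 + η) * (2 * H / L) * ∑ D ∈ S, ((W : ℝ) / Nat.totient W * G D / (2 * H)) *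
      (pc N (Uni.WW w) ν (insert 0 D) : ℝ) ≤ (4 + η) * 4 ^ k * ((1 + 2 * η) * (((k + 1 : ℕ) : ℝ) * Y)) +
        (4 + η) * (2 * H / L) * (e * Z) := by
    refine (mul_le_mul_of_nonneg_left s3 (by positivity)).trans ?_
    rw [mul_add]
    apply add_le_add _ le_rfl
    have h1 : (4 + η) * (2 * H / L) * (4 ^ k * ∑ D ∈ S, ((W : ℝ) / Nat.totient W * G D / (2 * H)) *
        Ew N (Uni.WW w) (insert 0 D)) = (4 + η) * 4 ^ k * ∑ D ∈ S, (W : ℝ) / Nat.totient W * G D / L *
        Ew N (Uni.WW w) (insert 0 D) := by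
      rw [mul_sum, mul_sum, mul_sum]
      apply sum_congr rfl
      intro D _
      field_simp
    rw [h1]
    apply mul_le_mul_of_nonneg_left _ (by positivity)
    refine (sum_le_sum s5).trans ?_
    rw [← mul_sum, s6]
  have s8 : η * (H / L) * ∑ D ∈ S, 1 * (pc N (Uni.WW w) ν (insert 0 D) : ℝ) ≤ η * (H / L) * (4 ^ k * V + e * Z) :=
    mul_le_mul_of_nonneg_left s4' (by positivity)
  rw [← s1] at s2
  have hk1 : (1 : ℝ) ≤ ((k + 1 : ℕ) : ℝ) := by
    push_cast
    have : (0 : ℝ) ≤ k := Nat.cast_nonneg _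
    linarith
  have s9 : ((k + 1 : ℕ) : ℝ) * X ≤ ((k + 1 : ℕ) : ℝ) * ((4 + η) * (1 + 2 * η) * 4 ^ k * Y) +
      (10 * e * (H / L * Z) + η * (4 ^ k + 1) * (H / L) * V) := by
    have h1 : 0 ≤ e * (H / L * Z) := by positivity
    have h2 : (4 + η) * (2 * H / L) * (e * Z) + η * (H / L) * (e * Z) ≤ 10 * e * (H / L * Z) := by
      have : (4 + η) * (2 * H / L) * (e * Z) + η * (H / L) * (e * Z) = (8 + 3 * η) * (e * (H / L * Z)) := by ring
      rw [this]
      have : (8 + 3 * η) * (e * (H / L * Z)) ≤ 10 * (e * (H / L * Z)) := mul_le_mul_of_nonneg_right (by linarith) h1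
      linarith
    calc ((k + 1 : ℕ) : ℝ) * X ≤ (4 + η) * (2 * H / L) * ∑ D ∈ S, ((W : ℝ) / Nat.totient W * G D / (2 * H)) *
          (pc N (Uni.WW w) ν (insert 0 D) : ℝ) + η * (H / L) * ∑ D ∈ S, 1 * (pc N (Uni.WW w) ν (insert 0 D) : ℝ) +
          η * (H / L) * V := s2
      _ ≤ ((4 + η) * 4 ^ k * ((1 + 2 * η) * (((k + 1 : ℕ) : ℝ) * Y)) + (4 + η) * (2 * H / L) * (e * Z)) +
          η * (H / L) * (4 ^ k * V + e * Z) + η * (H / L) * V := by linarith
      _ = ((k + 1 : ℕ) : ℝ) * ((4 + η) * (1 + 2 * η) * 4 ^ k * Y) +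
          (((4 + η) * (2 * H / L) * (e * Z) + η * (H / L) * (e * Z)) + η * (4 ^ k + 1) * (H / L) * V) := by ring
      _ ≤ _ := by linarith
  have hR0 : 0 ≤ 10 * e * (H / L * Z) + η * (4 ^ k + 1) * (H / L) * V := by positivity
  have s10 : ((k + 1 : ℕ) : ℝ) * X ≤ ((k + 1 : ℕ) : ℝ) * ((4 + η) * (1 + 2 * η) * 4 ^ k * Y +
      (10 * e * (H / L * Z) + η * (4 ^ k + 1) * (H / L) * V)) := by
    rw [mul_add]
    have := mul_le_mul_of_nonneg_right hk1 hR0
    linarith
  have s11 := le_of_mul_le_mul_left s10 (by linarith)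
  linarith

theorem claim_succ (k : ℕ) (ih : Claim k) : Claim (k + 1) := by
  intro ε hε w'
  have h4k : (1 : ℝ) ≤ 4 ^ k := one_le_pow₀ (by norm_num)
  obtain ⟨η, hη⟩ : ∃ η : ℝ, η = min (1 / 2) (ε / (72 * 4 ^ k)) := ⟨_, rfl⟩
  have hη0 : 0 < η := by rw [hη]; exact lt_min (by norm_num) (by positivity)
  have hη2 : η ≤ 1 / 2 := by rw [hη]; exact min_le_left _ _
  have hηε : η * (72 * 4 ^ k) ≤ ε := by
    rw [← le_div_iff₀ (by positivity), hη]; exact min_le_right _ _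
  obtain ⟨K1, hK1, w0, HMT⟩ := MT (k + 1) η η hη0 (by linarith) hη0 (by linarith)
  obtain ⟨w, hw⟩ : ∃ w, w = max (max w0 w') (max (4 * (k + 2)) ⌈(4 * (k + 1 : ℝ) + 1) / η⌉₊) := ⟨_, rfl⟩
  have hww0 : w0 ≤ w := by rw [hw]; exact (le_max_left _ _).trans (le_max_left _ _)
  have hww' : w' ≤ w := by rw [hw]; exact (le_max_right _ _).trans (le_max_left _ _)
  have hw4 : 4 * (k + 2) ≤ w := by rw [hw]; exact (le_max_left _ _).trans (le_max_right _ _)
  have hwη' : ⌈(4 * (k + 1 : ℝ) + 1) / η⌉₊ ≤ w := by rw [hw]; exact (le_max_right _ _).trans (le_max_right _ _)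
  have hw0 : (0 : ℝ) < w := by
    have : 0 < w := by omega
    exact_mod_cast this
  have hwη : (4 * (k + 1 : ℝ) + 1) / w ≤ η := by
    have h1 : (4 * (k + 1 : ℝ) + 1) / η ≤ w := (Nat.le_ceil _).trans (by exact_mod_cast hwη')
    rw [div_le_iff₀ hη0] at h1
    rw [div_le_iff₀ hw0]
    linarith
  obtain ⟨W, hW⟩ : ∃ W, W = Uni.WW w := ⟨_, rfl⟩
  have hWpos : 0 < W := by rw [hW]; exact Uni.WW_pos w
  have hW0 : (0 : ℝ) < W := by exact_mod_cast hWpos
  obtain ⟨e, he⟩ : ∃ e : ℝ, e = ε / (30 * W) := ⟨_, rfl⟩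
  have he0 : 0 < e := by rw [he]; positivity
  obtain ⟨K2, hK2, HC⟩ := ih e he0 w
  refine ⟨max K1 K2, hK1.trans (le_max_left _ _), fun A hA => ?_⟩
  obtain ⟨N1, hN1⟩ := HMT w hww0 A hA
  obtain ⟨N2, hN2⟩ := HC A hA
  obtain ⟨L1, hL1⟩ := avg0 k A hA
  obtain ⟨L2, hL2⟩ := avg0 (k + 1) A hA
  have tL : Tendsto (fun N : ℕ => Real.log (N : ℝ)) atTop atTop :=
    Real.tendsto_log_atTop.comp tendsto_natCast_atTop_atTop
  obtain ⟨N₀, hN₀⟩ := eventually_atTop.1 ((tL.eventually_ge_atTop (max (max 1 W) (max L1 L2))).and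
    (eventually_ge_atTop (max (max N1 N2) (max 3 (w * w)))))
  refine ⟨N₀, fun N hN ν' hν' u H hKH hHA g hg0 hg1 => ?_⟩
  obtain ⟨l1, l2⟩ := hN₀ N hN
  have hLge1 : 1 ≤ Real.log N := ((le_max_left _ _).trans (le_max_left _ _)).trans l1
  have hLW : (W : ℝ) ≤ Real.log N := ((le_max_right _ _).trans (le_max_left _ _)).trans l1
  have hLL1 : L1 ≤ Real.log N := ((le_max_left _ _).trans (le_max_right _ _)).trans l1
  have hLL2 : L2 ≤ Real.log N := ((le_max_right _ _).trans (le_max_right _ _)).trans l1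
  have hNN1 : N1 ≤ N := ((le_max_left _ _).trans (le_max_left _ _)).trans l2
  have hNN2 : N2 ≤ N := ((le_max_right _ _).trans (le_max_left _ _)).trans l2
  have hN3 : 3 ≤ N := ((le_max_left _ _).trans (le_max_right _ _)).trans l2
  have hNw : w * w ≤ N := ((le_max_right _ _).trans (le_max_right _ _)).trans l2
  have hws : w ≤ Nat.sqrt N := Nat.le_sqrt.2 hNw
  have hN1' : 1 ≤ N := by omega
  set L := Real.log (N : ℝ) with hL
  have hL0 : 0 < L := by linarith
  have hKH1 : K1 * L ≤ H := (mul_le_mul_of_nonneg_right (le_max_left _ _) hL0.le).trans hKH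
  have hKH2 : K2 * L ≤ H := (mul_le_mul_of_nonneg_right (le_max_right _ _) hL0.le).trans hKH
  have hLH : L ≤ H := (le_mul_of_one_le_left hL0.le hK1).trans hKH1
  have hH0 : (0 : ℝ) < H := by linarith
  have hWH : Uni.WW w ≤ H := by
    rw [← hW]
    exact_mod_cast hLW.trans hLH
  obtain ⟨V, hV, hcop, hV0⟩ := WW_split hww'
  obtain ⟨S, hS⟩ : ∃ S, S = (range (Uni.WW w)).filter (fun ν => ν % Uni.WW w' = ν') := ⟨_, rfl⟩
  have hScard : (S.card : ℝ) ≤ W := by
    have h1 : S.card ≤ (range (Uni.WW w)).card := by rw [hS]; exact card_le_card (filter_subset _ _)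
    rw [card_range, ← hW] at h1
    exact_mod_cast h1
  have hDA : ∀ j, ∀ D ∈ (Ioc u (u + H)).powersetCard j, ∀ t ∈ insert 0 D, (t : ℝ) ≤ L ^ A := by
    intro j D hD t ht
    rcases mem_insert.1 ht with rfl | ht
    · rw [Nat.cast_zero]; positivity
    · have h5 : (t : ℝ) ≤ ((u + H : ℕ) : ℝ) := by
        exact_mod_cast (mem_Ioc.1 ((mem_powersetCard.1 hD).1 ht)).2
      exact h5.trans hHA
  -- one class
  have c1 : ∀ ν ∈ S, ∑ D ∈ (Ioc u (u + H)).powersetCard (k + 1), g D * (pc N (Uni.WW w) ν (insert 0 D) : ℝ) ≤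
      (4 + η) * (1 + 2 * η) * 4 ^ k *
        ∑ D ∈ ((Ioc u (u + H)).powersetCard (k + 1)).filter (fun D => OK (Uni.WW w) ν (insert 0 D)),
          g D * Ew N (Uni.WW w) (insert 0 D) +
      10 * e * ((H : ℝ) ^ (k + 1) * (N / L ^ (k + 2))) +
      η * (4 ^ k + 1) * (H / L) *
        ∑ D ∈ ((Ioc u (u + H)).powersetCard k).filter (fun D => OK (Uni.WW w) ν (insert 0 D)),
          Ew N (Uni.WW w) (insert 0 D) := by
    intro ν hν
    rw [hS, mem_filter, mem_range] at hν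
    apply step_class hη0 hη2 he0.le hN3 hws hν.1 (by exact_mod_cast hH0) hWH hwη hw4 g hg0 hg1
    · intro D hD
      rw [mem_filter] at hD
      exact hN1 N hNN1 (insert 0 D) (card_ins0 hD.1) (hDA k D hD.1) ν hν.1 hD.2 u H hKH1 hHA
        (fun h => g (insert h D)) (fun h => hg0 _) (fun h => hg1 _)
    · intro g' hg'0 hg'1
      exact hN2 N hNN2 ν hν.1 u H hKH2 hHA g' hg'0 hg'1
  -- left-hand side
  have c2 : ∑ D ∈ ((Ioc u (u + H)).powersetCard (k + 1)).filter (fun D => OK (Uni.WW w') ν' (insert 0 D)),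
      g D * (pc N (Uni.WW w') ν' (insert 0 D) : ℝ) ≤
      ∑ ν ∈ S, ∑ D ∈ (Ioc u (u + H)).powersetCard (k + 1), g D * (pc N (Uni.WW w) ν (insert 0 D) : ℝ) := by
    rw [sum_comm]
    have h1 : ∑ D ∈ ((Ioc u (u + H)).powersetCard (k + 1)).filter (fun D => OK (Uni.WW w') ν' (insert 0 D)),
        g D * (pc N (Uni.WW w') ν' (insert 0 D) : ℝ) ≤
        ∑ D ∈ (Ioc u (u + H)).powersetCard (k + 1), g D * (pc N (Uni.WW w') ν' (insert 0 D) : ℝ) := by
      apply sum_le_sum_of_subset_of_nonneg (filter_subset _ _)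
      intro D _ _
      have := hg0 D
      positivity
    refine h1.trans (le_of_eq ?_)
    apply sum_congr rfl
    intro D _
    rw [pc_split N (insert 0 D) (Dvd.intro _ hV.symm) (Uni.WW_pos w), ← hS, Nat.cast_sum, mul_sum]
  refine c2.trans ((sum_le_sum c1).trans ?_)
  rw [sum_add_distrib, sum_add_distrib, sum_const, nsmul_eq_mul, ← mul_sum, ← mul_sum]
  -- the expected numbers
  have c3 : ∀ j (g' : Finset ℕ → ℝ), (∀ D, 0 ≤ g' D) →
      ∑ ν ∈ S, ∑ D ∈ ((Ioc u (u + H)).powersetCard j).filter (fun D => OK (Uni.WW w) ν (insert 0 D)),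
        g' D * Ew N (Uni.WW w) (insert 0 D) ≤
      ∑ D ∈ ((Ioc u (u + H)).powersetCard j).filter (fun D => OK (Uni.WW w') ν' (insert 0 D)),
        g' D * Ew N (Uni.WW w') (insert 0 D) := by
    intro j g' hg'
    have h1 : ∀ ν ∈ S, ∑ D ∈ ((Ioc u (u + H)).powersetCard j).filter (fun D => OK (Uni.WW w) ν (insert 0 D)),
        g' D * Ew N (Uni.WW w) (insert 0 D) =
        ∑ D ∈ (Ioc u (u + H)).powersetCard j, if OK (Uni.WW w) ν (insert 0 D) then
          g' D * Ew N (Uni.WW w) (insert 0 D) else 0 := by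
      intro ν _
      rw [sum_filter]
    rw [sum_congr rfl h1, sum_comm, sum_filter]
    apply sum_le_sum
    intro D hD
    rw [← sum_filter, ← mul_sum]
    split_ifs with hOK
    · apply mul_le_mul_of_nonneg_left _ (hg' D)
      have h2 := Ew_sum (N := N) hN1' hww' hν' hOK
      have e1 : S.filter (fun ν => OK (Uni.WW w) ν (insert 0 D)) =
          (range (Uni.WW w)).filter (fun ν => ν % Uni.WW w' = ν' ∧ OK (Uni.WW w) ν (insert 0 D)) := by
        rw [hS, filter_filter]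
      rw [e1]
      exact h2
    · have e1 : S.filter (fun ν => OK (Uni.WW w) ν (insert 0 D)) = ∅ := by
        apply filter_eq_empty_iff.2
        intro ν hν hOK2
        apply hOK
        rw [hS, mem_filter] at hν
        rw [hV] at hOK2
        have := OK_mod hOK2
        rwa [hν.2] at this
      rw [e1, sum_empty, mul_zero]
  have c4 : ∀ j, ∑ D ∈ ((Ioc u (u + H)).powersetCard j).filter (fun D => OK (Uni.WW w') ν' (insert 0 D)),
      Ew N (Uni.WW w') (insert 0 D) ≤ N / L ^ (j + 1) * ∑ D ∈ (Ioc u (u + H)).powersetCard j, Uni.CT (insert 0 D) := by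
    intro j
    rw [mul_sum]
    refine (sum_le_sum (g := fun D => N / L ^ (j + 1) * Uni.CT (insert 0 D)) ?_).trans ?_
    · intro D hD
      rw [mem_filter] at hD
      have := Ew_le hN1' hν' hD.2
      rwa [card_ins0 hD.1] at this
    · apply sum_le_sum_of_subset_of_nonneg (filter_subset _ _)
      intro D _ _
      have := Uni.CT_nonneg (insert 0 D)
      positivity
  have a1 := hL1 L hLL1 u H hLH hHA
  have a2 := hL2 L hLL2 u H hLH hHA
  obtain ⟨Z, hZ⟩ : ∃ Z, Z = (H : ℝ) ^ (k + 1) * (N / L ^ (k + 2)) := ⟨_, rfl⟩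
  have hZ0 : 0 ≤ Z := by rw [hZ]; positivity
  have b1 : ∑ D ∈ ((Ioc u (u + H)).powersetCard (k + 1)).filter (fun D => OK (Uni.WW w') ν' (insert 0 D)),
      Ew N (Uni.WW w') (insert 0 D) ≤ 2 * Z := by
    refine (c4 (k + 1)).trans ?_
    refine (mul_le_mul_of_nonneg_left a2 (by positivity)).trans (le_of_eq ?_)
    rw [hZ]
    ring
  have b2 : (H : ℝ) / L * ∑ D ∈ ((Ioc u (u + H)).powersetCard k).filter (fun D => OK (Uni.WW w') ν' (insert 0 D)),
      Ew N (Uni.WW w') (insert 0 D) ≤ 2 * Z := by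
    have h1 := (c4 k).trans (mul_le_mul_of_nonneg_left a1 (by positivity))
    refine (mul_le_mul_of_nonneg_left h1 (by positivity)).trans (le_of_eq ?_)
    rw [hZ, pow_succ (H : ℝ) k, pow_succ L (k + 1)]
    field_simp
  have d1 := c3 (k + 1) g hg0
  have d2 := c3 k (fun _ => 1) (fun _ => zero_le_one)
  simp only [one_mul] at d2
  have d3 : ∑ D ∈ ((Ioc u (u + H)).powersetCard (k + 1)).filter (fun D => OK (Uni.WW w') ν' (insert 0 D)),
      g D * Ew N (Uni.WW w') (insert 0 D) ≤ 2 * Z := by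
    refine le_trans (sum_le_sum fun D _ => ?_) b1
    exact mul_le_of_le_one_left (Ew_nonneg hN1') (hg1 D)
  rw [← hZ]
  set Q := ∑ D ∈ ((Ioc u (u + H)).powersetCard (k + 1)).filter (fun D => OK (Uni.WW w') ν' (insert 0 D)),
      g D * Ew N (Uni.WW w') (insert 0 D) with hQ
  have hQ0 : 0 ≤ Q := sum_nonneg fun D _ => mul_nonneg (hg0 D) (Ew_nonneg hN1')
  have e1 : (4 + η) * (1 + 2 * η) * 4 ^ k * ∑ ν ∈ S,
      ∑ D ∈ ((Ioc u (u + H)).powersetCard (k + 1)).filter (fun D => OK (Uni.WW w) ν (insert 0 D)),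
          g D * Ew N (Uni.WW w) (insert 0 D) ≤ 4 ^ (k + 1) * Q + 20 * η * 4 ^ k * Z := by
    refine (mul_le_mul_of_nonneg_left d1 (by positivity)).trans ?_
    have h1 : (4 + η) * (1 + 2 * η) * 4 ^ k * Q = 4 ^ (k + 1) * Q + (9 * η + 2 * η * η) * (4 ^ k * Q) := by
      rw [pow_succ]; ring
    rw [h1]
    apply add_le_add le_rfl
    have h2 : 9 * η + 2 * η * η ≤ 10 * η := by nlinarith
    calc (9 * η + 2 * η * η) * (4 ^ k * Q) ≤ 10 * η * (4 ^ k * (2 * Z)) := by
          apply mul_le_mul h2 _ (by positivity) (by positivity)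
          exact mul_le_mul_of_nonneg_left d3 (by positivity)
      _ = _ := by ring
  have e2 : η * (4 ^ k + 1) * (H / L) * ∑ ν ∈ S,
      ∑ D ∈ ((Ioc u (u + H)).powersetCard k).filter (fun D => OK (Uni.WW w) ν (insert 0 D)),
          Ew N (Uni.WW w) (insert 0 D) ≤ 4 * η * 4 ^ k * Z := by
    have h1 : (H : ℝ) / L * ∑ ν ∈ S,
      ∑ D ∈ ((Ioc u (u + H)).powersetCard k).filter (fun D => OK (Uni.WW w) ν (insert 0 D)),
          Ew N (Uni.WW w) (insert 0 D) ≤ 2 * Z := (mul_le_mul_of_nonneg_left d2 (by positivity)).trans b2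
    rw [mul_assoc (η * (4 ^ k + 1))]
    refine (mul_le_mul_of_nonneg_left h1 (by positivity)).trans ?_
    have h2 : η * (4 ^ k + 1) * (2 * Z) = (4 ^ k + 1) * (2 * η * Z) := by ring
    have h3 : (4 ^ k + 1) * (2 * η * Z) ≤ (2 * 4 ^ k) * (2 * η * Z) :=
      mul_le_mul_of_nonneg_right (by linarith) (by positivity)
    rw [h2]
    refine h3.trans (le_of_eq (by ring))
  have e3 : (S.card : ℝ) * (10 * e * Z) ≤ ε / 3 * Z := by
    calc (S.card : ℝ) * (10 * e * Z) ≤ W * (10 * e * Z) := mul_le_mul_of_nonneg_right hScard (by positivity)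
      _ = ε / 3 * Z := by
        rw [he]
        field_simp
        ring
  have e4 : 20 * η * 4 ^ k * Z + 4 * η * 4 ^ k * Z ≤ ε / 3 * Z := by
    have h1 : 20 * η * 4 ^ k * Z + 4 * η * 4 ^ k * Z = (η * (72 * 4 ^ k)) / 3 * Z := by ring
    rw [h1]
    exact mul_le_mul_of_nonneg_right (div_le_div_of_nonneg_right hηε (by norm_num)) hZ0
  have e5 : 0 ≤ ε * Z := by positivity
  linarith

/-- **the sums over `k`-element sets of shifts** -/
theorem claim (k : ℕ) : Claim k := by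
  induction k with
  | zero => exact claim_zero
  | succ k ih => exact claim_succ k ih

end Pool.Agent.L0h43.TB
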