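import Pool.Agent.L0h43.TB.Set

/-!
# One more prime: the main inequality
-/

set_option autoImplicit false

namespace Pool.Agent.L0h43.TB

open Finset Filter Topology Pool.Agent.H387R2
open Pool.Agent.L0h43.TA
open Pool.Agent.H386R2.HL
open Pool.Agent.H410R2.AC (wt GG)
open Pool.Agent.H361R2.PP (P2 JJ)

open Classical in
/-- the number of the `n` with `√N < n ≤ N` in the class `ν` modulo `W` with all `n + t` prime -/
noncomputable def pc (N W ν : ℕ) (T : Finset ℕ) : ℕ :=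
  ((Ioc (Nat.sqrt N) N).filter (fun n => n % W = ν ∧ ∀ t ∈ T, (n + t).Prime)).card

/-- the expected number of prime tuples in an admissible class modulo `W` -/
noncomputable def Ew (N W : ℕ) (T : Finset ℕ) : ℝ :=
  N / Real.log N ^ T.card * (Uni.CT T / Uni.gT W T)

lemma Ps_split {w J : ℕ} (hw : w < 2 ^ 2 ^ J) (f : ℕ → ℝ) :
    ∏ p ∈ Ps J, f p = (∏ p ∈ (w + 1).primesBelow, f p) * ∏ p ∈ Pw w J, f p := by
  classical
  have h1 : Ps J = (w + 1).primesBelow ∪ Pw w J := by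
    ext p
    simp only [Pw, Ps, mem_union, Nat.mem_primesBelow, mem_filter, mem_range]
    constructor
    · rintro ⟨a, b⟩
      rcases Nat.lt_or_ge w p with h | h
      · right; exact ⟨⟨a, b⟩, h⟩
      · left; exact ⟨by omega, b⟩
    · rintro (⟨a, b⟩ | ⟨⟨a, b⟩, _⟩)
      · exact ⟨by omega, b⟩
      · exact ⟨a, b⟩
  have h2 : Disjoint ((w + 1).primesBelow) (Pw w J) := by
    rw [disjoint_left]
    intro p hp hp2
    rw [Nat.mem_primesBelow] at hp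
    have := Pw_gt hp2
    omega
  rw [h1, prod_union h2]

lemma VT_split {w J : ℕ} (hw : w < 2 ^ 2 ^ J) (T : Finset ℕ) :
    VT J T = (Uni.gT (Uni.WW w) T / Uni.WW w) * Vw w J T := by
  unfold VT Vw
  rw [Ps_split hw]
  congr 1
  have h := Uni.sy_en T w
  have h2 : sy (Uni.en T) w = (∏ p ∈ (w + 1).primesBelow, ((1 - 1 / (p : ℝ))⁻¹) ^ T.card) *
      ∏ p ∈ (w + 1).primesBelow, (1 - (Uni.nuT T p : ℝ) / p) := by
    unfold sy
    rw [← prod_mul_distrib]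
    apply prod_congr rfl
    intro p hp
    rw [Uni.loc_en]
    unfold Uni.locT
    rw [inv_pow, inv_mul_eq_div]
  have h3 : ∏ p ∈ (w + 1).primesBelow, ((1 - 1 / (p : ℝ))⁻¹) ^ T.card =
      ((Uni.WW w : ℝ) / Nat.totient (Uni.WW w)) ^ T.card := by
    rw [Finset.prod_pow, Uni.totient_WW, prod_inv_distrib]
    congr 1
    have hW : (Uni.WW w : ℝ) ≠ 0 := by exact_mod_cast (Uni.WW_pos w).ne'
    rw [div_mul_eq_div_div, div_self hW, one_div]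
  rw [h2, h3] at h
  have hpos : (0 : ℝ) < ((Uni.WW w : ℝ) / Nat.totient (Uni.WW w)) ^ T.card := by
    have h4 : (0 : ℝ) < Uni.WW w := by exact_mod_cast Uni.WW_pos w
    have h5 : (0 : ℝ) < Nat.totient (Uni.WW w) := by exact_mod_cast Nat.totient_pos.2 (Uni.WW_pos w)
    positivity
  exact mul_left_cancel₀ hpos.ne' h

lemma V1_split {w J : ℕ} (hw : w < 2 ^ 2 ^ J) :
    V1 J = (Nat.totient (Uni.WW w) : ℝ) / Uni.WW w * V1w w J := by
  unfold V1 V1w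
  rw [Ps_split hw]
  congr 1
  have hW : (Uni.WW w : ℝ) ≠ 0 := by exact_mod_cast (Uni.WW_pos w).ne'
  rw [Uni.totient_WW, mul_div_cancel_left₀ _ hW]

/-- the density in terms of the singular series -/
lemma rho_le {w J : ℕ} (hw : w < 2 ^ 2 ^ J) (T : Finset ℕ) (hT : 2 * T.card ^ 2 + 1 < 2 ^ 2 ^ J)
    (hg : 0 < Uni.gT (Uni.WW w) T) :
    1 / (Uni.WW w : ℝ) * Vw w J T ≤ 2 * V1 J ^ T.card * (Uni.CT T / Uni.gT (Uni.WW w) T) := by
  have hW : (0 : ℝ) < Uni.WW w := by exact_mod_cast (Uni.WW_pos w)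
  have hg0 : (0 : ℝ) < Uni.gT (Uni.WW w) T := by exact_mod_cast hg
  have h1 := VT_split hw T
  have h2 := VT_eq J T
  have hy1 : 1 ≤ 2 ^ 2 ^ J - 1 := by omega
  have hcy : T.card ≤ 2 ^ 2 ^ J - 1 := by
    have : T.card ≤ T.card ^ 2 := Nat.le_self_pow two_ne_zero _
    omega
  have h3 := Pool.Agent.Helper22K9.Trp.CT_ge' T (2 ^ 2 ^ J - 1) hy1 hcy
  rw [← Uni.sy_en] at h3
  set y : ℕ := 2 ^ 2 ^ J - 1 with hy
  have hy0 : (0 : ℝ) < y := by exact_mod_cast hy1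
  have h4 : (1 : ℝ) / 2 ≤ 1 - (T.card : ℝ) ^ 2 / y := by
    have : (T.card : ℝ) ^ 2 / y ≤ 1 / 2 := by
      rw [div_le_div_iff₀ hy0 (by norm_num)]
      have : 2 * T.card ^ 2 ≤ y := by omega
      have : (2 * (T.card : ℝ) ^ 2) ≤ y := by exact_mod_cast this
      linarith
    linarith
  have hV : 0 ≤ V1 J ^ T.card := pow_nonneg (V1_pos J).le _
  have hsy : 0 ≤ sy (Uni.en T) y := by
    by_contra hneg
    rw [not_le] at hneg
    have h5 := VT_nonneg J T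
    rw [h2] at h5
    have hV' : 0 < V1 J ^ T.card := pow_pos (V1_pos J) _
    have := mul_neg_of_pos_of_neg hV' hneg
    linarith
  have h5 : sy (Uni.en T) y ≤ 2 * Uni.CT T := by
    have := mul_le_mul_of_nonneg_right h4 hsy
    linarith
  have h6 : VT J T ≤ 2 * V1 J ^ T.card * Uni.CT T := by
    rw [h2]
    calc V1 J ^ T.card * sy (Uni.en T) y ≤ V1 J ^ T.card * (2 * Uni.CT T) := mul_le_mul_of_nonneg_left h5 hV
      _ = _ := by ring
  have h7 : 1 / (Uni.WW w : ℝ) * Vw w J T = VT J T / Uni.gT (Uni.WW w) T := by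
    rw [h1]
    field_simp
  rw [h7, mul_div_assoc']
  exact div_le_div_of_nonneg_right h6 hg0.le

/-- the expected number in a class is not small -/
lemma CT_low {w : ℕ} (T : Finset ℕ) (hw1 : 1 ≤ w) (hT : 2 * T.card ^ 2 ≤ w) (hg : 0 < Uni.gT (Uni.WW w) T) :
    1 / (2 * (Uni.WW w : ℝ)) ≤ Uni.CT T / Uni.gT (Uni.WW w) T := by
  have hW : (0 : ℝ) < Uni.WW w := by exact_mod_cast (Uni.WW_pos w)
  have hφ : (0 : ℝ) < Nat.totient (Uni.WW w) := by exact_mod_cast Nat.totient_pos.2 (Uni.WW_pos w)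
  have hg0 : (0 : ℝ) < Uni.gT (Uni.WW w) T := by exact_mod_cast hg
  have h3 := Pool.Agent.Helper22K9.Trp.CT_ge' T w hw1 (by nlinarith)
  have hy0 : (0 : ℝ) < w := by exact_mod_cast hw1
  have h4 : (1 : ℝ) / 2 ≤ 1 - (T.card : ℝ) ^ 2 / w := by
    have : (T.card : ℝ) ^ 2 / w ≤ 1 / 2 := by
      rw [div_le_div_iff₀ hy0 (by norm_num)]
      have : (2 * (T.card : ℝ) ^ 2) ≤ w := by exact_mod_cast hT
      linarith
    linarith
  have h5 : (1 : ℝ) ≤ ((Uni.WW w : ℝ) / Nat.totient (Uni.WW w)) ^ T.card := by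
    apply one_le_pow₀
    rw [one_le_div hφ]
    exact_mod_cast Nat.totient_le _
  have h6 : (1 : ℝ) / 2 * (1 * (Uni.gT (Uni.WW w) T / Uni.WW w)) ≤ Uni.CT T := by
    refine le_trans ?_ h3
    apply mul_le_mul h4 _ (by positivity) (by linarith)
    exact mul_le_mul_of_nonneg_right h5 (by positivity)
  rw [le_div_iff₀ hg0]
  calc 1 / (2 * (Uni.WW w : ℝ)) * Uni.gT (Uni.WW w) T = 1 / 2 * (1 * (Uni.gT (Uni.WW w) T / Uni.WW w)) := by
        field_simp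
    _ ≤ _ := h6

/-- the algebra of the main terms -/
lemma mt_alg {P Eh B U0 β ε1 ε2 η1 σ gg UU e1 Vv HV : ℝ} {j : ℕ} (hP : P ≤ 8 * B ^ (2 + j) * Eh)
    (hEh : 0 ≤ Eh) (hB : 1 ≤ B) (hU : 1 ≤ U0) (hβ : 0 ≤ β) (hε2 : 0 ≤ ε2) (hη : 0 ≤ η1)
    (hσ : 0 ≤ σ) (hσ1 : σ ≤ 1) (hgg0 : 0 ≤ gg) (hgg : gg ≤ 1) (hUU0 : 0 ≤ UU) (hUU : UU ≤ U0)
    (he1 : e1 = η1 + β * U0 ^ 2) (hVv : Vv * HV = P)
    (b1 : 16 * B ^ (2 + j) * ε2 ≤ ε1) (b2 : 16 * B ^ (2 + j) * η1 ≤ ε1) (b3 : 8 * B ^ (2 + j) * σ ≤ ε1)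
    (b4 : B ^ (2 + j) * U0 ^ 2 * β ≤ ε1) :
    Vv * (HV * ((2 * ε2 + β) * gg ^ 2 + e1 + 4 * gg * (β * UU)) + σ * HV * (gg ^ 2 + e1)) ≤
      59 * ε1 * Eh := by
  have hg2 : gg ^ 2 ≤ 1 := pow_le_one₀ hgg0 hgg
  have hU2 : U0 ≤ U0 ^ 2 := by nlinarith
  have hU21 : 1 ≤ U0 ^ 2 := by nlinarith
  have e : Vv * (HV * ((2 * ε2 + β) * gg ^ 2 + e1 + 4 * gg * (β * UU)) + σ * HV * (gg ^ 2 + e1)) =
      P * ((2 * ε2 + β) * gg ^ 2 + e1 + 4 * gg * (β * UU) + σ * (gg ^ 2 + e1)) := by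
    rw [← hVv]; ring
  rw [e]
  have c1 : (2 * ε2 + β) * gg ^ 2 ≤ (2 * ε2 + β) * 1 := mul_le_mul_of_nonneg_left hg2 (by positivity)
  have c2 : 4 * gg * (β * UU) ≤ 4 * 1 * (β * U0 ^ 2) := by
    apply mul_le_mul (by linarith) _ (by positivity) (by norm_num)
    exact mul_le_mul_of_nonneg_left (hUU.trans hU2) hβ
  have he10 : 0 ≤ e1 := by rw [he1]; positivity
  have c3 : σ * (gg ^ 2 + e1) ≤ σ + e1 := by
    have d1 : σ * gg ^ 2 ≤ σ * 1 := mul_le_mul_of_nonneg_left hg2 hσ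
    have d2 : σ * e1 ≤ 1 * e1 := mul_le_mul_of_nonneg_right hσ1 he10
    linarith
  have c4 : β ≤ β * U0 ^ 2 := le_mul_of_one_le_right hβ hU21
  have hbr : (2 * ε2 + β) * gg ^ 2 + e1 + 4 * gg * (β * UU) + σ * (gg ^ 2 + e1) ≤
      2 * ε2 + 2 * η1 + σ + 7 * (β * U0 ^ 2) := by
    rw [he1] at c3 ⊢
    linarith
  have hbr0 : 0 ≤ 2 * ε2 + 2 * η1 + σ + 7 * (β * U0 ^ 2) := by positivity
  have h1 := mul_le_mul hP hbr (by positivity) (by positivity)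
  refine h1.trans ?_
  have e2 : 8 * B ^ (2 + j) * Eh * (2 * ε2 + 2 * η1 + σ + 7 * (β * U0 ^ 2)) =
      Eh * (16 * B ^ (2 + j) * ε2 + 16 * B ^ (2 + j) * η1 + 8 * B ^ (2 + j) * σ +
        56 * (B ^ (2 + j) * U0 ^ 2 * β)) := by ring
  rw [e2]
  have h2 : 16 * B ^ (2 + j) * ε2 + 16 * B ^ (2 + j) * η1 + 8 * B ^ (2 + j) * σ +
        56 * (B ^ (2 + j) * U0 ^ 2 * β) ≤ 59 * ε1 := by linarith
  have := mul_le_mul_of_nonneg_left h2 hEh
  linarith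

end Pool.Agent.L0h43.TB
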