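import Pool.Agent.L0h43.TB.MT

/-!
# One more prime: the main theorem
-/

set_option autoImplicit false

namespace Pool.Agent.L0h43.TB

open Finset Filter Topology Pool.Agent.H387R2
open Pool.Agent.L0h43.TA
open Pool.Agent.H386R2.HL
open Pool.Agent.H410R2.AC (wt GG)
open Pool.Agent.H361R2.PP (P2 JJ)

lemma dvd_WW {p y : ℕ} (hp : p.Prime) : p ∣ Uni.WW y ↔ p ≤ y := by
  have h1 : p ∣ Uni.WW y ↔ p ∈ (Uni.WW y).primeFactors := by
    rw [Nat.mem_primeFactors]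
    exact ⟨fun h => ⟨hp, h, (Uni.WW_pos y).ne'⟩, fun h => h.2.1⟩
  rw [h1, Uni.WW_factors, Nat.mem_primesBelow]
  constructor
  · intro h; omega
  · intro h; exact ⟨by omega, hp⟩

lemma Ro_prime {J q : ℕ} (hq : q.Prime) (h : 2 ^ 2 ^ J ≤ q) : Ro J q := by
  intro p hp hd
  have h1 := mem_filter.1 hp
  have h2 := mem_range.1 h1.1
  rw [Nat.prime_dvd_prime_iff_eq h1.2 hq] at hd
  omega

lemma gT_pos {W ν : ℕ} {T : Finset ℕ} (hν : ν < W) (h : ∀ t ∈ T, Nat.Coprime W (ν + t)) : 0 < Uni.gT W T := by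
  unfold Uni.gT
  exact card_pos.2 ⟨ν, mem_filter.2 ⟨mem_range.2 hν, h⟩⟩

/-- from the variance to the sum over the tuples -/
lemma pass {J Y N W ν : ℕ} {T R : Finset ℕ} {g : ℕ → ℝ} (hg : ∀ h ∈ R, 0 ≤ g h) (hY : 1 ≤ Y) (hzY : 2 ^ 2 ^ J ≤ Y)
    (hYs : Y ≤ Nat.sqrt N) {m θ Q : ℝ} (hθ : 0 < θ)
    (hQ : ∑ n ∈ NN N W ν J T, (Yg J (P2 J N) Y R g n - m) ^ 2 ≤ Q) :
    ∑ h ∈ R, g h * (pc N W ν (insert h T) : ℝ) ≤ (m + θ) * pc N W ν T + Q / (4 * θ) := by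
  classical
  set S : Finset ℕ := (Ioc (Nat.sqrt N) N).filter (fun n => n % W = ν ∧ ∀ t ∈ T, (n + t).Prime) with hS
  have hpcT : pc N W ν T = S.card := by
    unfold pc
    congr 1
  have hpc : ∀ h ∈ R, (pc N W ν (insert h T) : ℝ) ≤ ∑ n ∈ S, nu J (P2 J N) Y (n + h) := by
    intro h _
    have h1 : ((pc N W ν (insert h T) : ℕ) : ℝ) = ∑ n ∈ S, (if (n + h).Prime then (1 : ℝ) else 0) := by
      rw [sum_boole]
      congr 1
      unfold pc
      congr 1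
      ext n
      rw [hS]
      simp only [mem_filter, mem_insert, forall_eq_or_imp]
      tauto
    rw [h1]
    apply sum_le_sum
    intro n hn
    split_ifs with hp
    · rw [nu_prime hp hY _ hzY]
      have := (mem_Ioc.1 (mem_filter.1 hn).1).1
      omega
    · exact nu_nonneg _ _ _ _
  have h1 : ∑ h ∈ R, g h * (pc N W ν (insert h T) : ℝ) ≤ ∑ n ∈ S, Yg J (P2 J N) Y R g n := by
    unfold Yg
    rw [sum_comm]
    apply sum_le_sum
    intro h hh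
    rw [← mul_sum]
    exact mul_le_mul_of_nonneg_left (hpc h hh) (hg h hh)
  have h2 : ∀ n ∈ S, Yg J (P2 J N) Y R g n ≤ (m + θ) + (Yg J (P2 J N) Y R g n - m) ^ 2 / (4 * θ) := by
    intro n _
    set y := Yg J (P2 J N) Y R g n with hy
    have e : (m + θ) + (y - m) ^ 2 / (4 * θ) - y = ((y - m) - 2 * θ) ^ 2 / (4 * θ) := by
      field_simp
      ring
    have : 0 ≤ ((y - m) - 2 * θ) ^ 2 / (4 * θ) := by positivity
    linarith
  have h3 := h1.trans (sum_le_sum h2)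
  rw [sum_add_distrib, sum_const, nsmul_eq_mul, ← sum_div, ← hpcT] at h3
  refine h3.trans ?_
  rw [mul_comm (pc N W ν T : ℝ)]
  apply add_le_add le_rfl
  apply div_le_div_of_nonneg_right _ (by positivity)
  refine le_trans ?_ hQ
  apply sum_le_sum_of_subset_of_nonneg
  · intro n hn
    rw [hS, mem_filter, mem_Ioc] at hn
    unfold NN
    rw [mem_filter, mem_Ioc]
    refine ⟨⟨by omega, hn.1.2⟩, hn.2.1, fun t ht => Ro_prime (hn.2.2 t ht) (by omega)⟩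
  · intro n _ _
    positivity

/-- the algebra of the error terms -/
lemma err_alg {Hc E A4 A2 Q m B L k3 N Eh ε1 D1 X0 : ℝ} {j : ℕ} (hHc : 1 ≤ Hc) (hE : 0 ≤ E) (hA4 : 1 ≤ A4)
    (hA2 : A2 ≤ A4) (hA20 : 0 ≤ A2) (hQ : Q = E * A4) (hm : m ≤ 2 * B * Hc) (hm0 : 0 ≤ m) (hB : 1 ≤ B)
    (hL : 1 ≤ L) (hk : 1 ≤ k3) (hQN : Q ≤ N / L ^ (j + 3)) (hEh : Eh = N / L ^ j * X0 * (Hc / L) ^ 2)
    (hX0 : 0 < X0) (hε1 : 0 < ε1) (hLc : (1 + k3 + 4 * B + 4 * B ^ 2) / (ε1 * X0) ≤ L)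
    (hD : k3 * (4 * D1) ≤ ε1 * Eh) :
    Hc ^ 2 * (E * A4) + k3 * (4 * D1 + Hc * E) + 2 * m * (Hc * (E * A2)) + m ^ 2 * E ≤ 2 * ε1 * Eh := by
  have hQ0 : 0 ≤ Q := by rw [hQ]; positivity
  have hEQ : E ≤ Q := by rw [hQ]; exact le_mul_of_one_le_right hE hA4
  have hE2 : E * A2 ≤ Q := by rw [hQ]; exact mul_le_mul_of_nonneg_left hA2 hE
  have hH2 : Hc ≤ Hc ^ 2 := by nlinarith
  have c1 : k3 * (Hc * E) ≤ k3 * (Hc ^ 2 * Q) := by
    apply mul_le_mul_of_nonneg_left _ (by linarith)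
    exact mul_le_mul hH2 hEQ hE (by positivity)
  have c2 : 2 * m * (Hc * (E * A2)) ≤ 4 * B * (Hc ^ 2 * Q) := by
    calc 2 * m * (Hc * (E * A2)) ≤ 2 * (2 * B * Hc) * (Hc * Q) := by
          apply mul_le_mul (by linarith) _ (by positivity) (by positivity)
          exact mul_le_mul_of_nonneg_left hE2 (by linarith)
      _ = _ := by ring
  have c3 : m ^ 2 * E ≤ 4 * B ^ 2 * (Hc ^ 2 * Q) := by
    calc m ^ 2 * E ≤ (2 * B * Hc) ^ 2 * Q := by
          apply mul_le_mul (pow_le_pow_left₀ hm0 hm 2) hEQ hE (by positivity)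
      _ = _ := by ring
  have hc : 0 < ε1 * X0 := by positivity
  have c4 : (1 + k3 + 4 * B + 4 * B ^ 2) * (Hc ^ 2 * Q) ≤ ε1 * Eh := by
    rw [div_le_iff₀ hc] at hLc
    calc (1 + k3 + 4 * B + 4 * B ^ 2) * (Hc ^ 2 * Q) ≤ (L * (ε1 * X0)) * (Hc ^ 2 * (N / L ^ (j + 3))) := by
          apply mul_le_mul hLc _ (by positivity) (by positivity)
          exact mul_le_mul_of_nonneg_left hQN (by positivity)
      _ = ε1 * Eh := by
          rw [hEh]
          have : L ≠ 0 := by linarith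
          field_simp
          ring
  rw [← hQ]
  have e : k3 * (4 * D1 + Hc * E) = k3 * (4 * D1) + k3 * (Hc * E) := by ring
  rw [e]
  linarith

end Pool.Agent.L0h43.TB
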