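import Pool.Agent.L0h43.TA.Var

/-!
# First and second moments of the majorant over a general sequence
-/

set_option autoImplicit false

namespace Pool.Agent.L0h43.TB

open Finset Pool.Agent.H387R2
open Pool.Agent.L0h43.TA
open Pool.Agent.H410R2.AC (wt GG)

open Classical in
/-- the number of `n` in the sequence with `n + h1`, `n + h2` rough and divisible by the primes of `A`, `B` -/
noncomputable def cg (J : ℕ) (𝒩 : Finset ℕ) (h1 h2 : ℕ) (A B : Finset ℕ) : ℕ :=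
  (𝒩.filter (fun n => ((∀ p ∈ A, p ∣ n + h1) ∧ Ro J (n + h1)) ∧
    ((∀ p ∈ B, p ∣ n + h2) ∧ Ro J (n + h2)))).card

/-- the counting hypothesis -/
def CG (b J : ℕ) (𝒩 : Finset ℕ) (X : ℝ) (ρ : ℕ → ℕ → ℝ) (E : ℝ) (R : Finset ℕ) : Prop :=
  ∀ h1 ∈ R, ∀ h2 ∈ R, ∀ A B : Finset ℕ, Prs A → Prs B → Big J A → Big J B → Disjoint A B →
    |(cg J 𝒩 h1 h2 A B : ℝ) - X / (pd A * pd B) * ρ h1 h2| ≤
      (1 / 2) ^ b * (X / (pd A * pd B) * ρ h1 h2) + E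

lemma cg_zero {J h1 h2 : ℕ} {𝒩 A B : Finset ℕ} (hJA : Big J A) (hAB : ¬ Disjoint A B)
    (hne : h1 ≠ h2) (hb1 : h1 < 2 ^ 2 ^ J) (hb2 : h2 < 2 ^ 2 ^ J) : cg J 𝒩 h1 h2 A B = 0 := by
  classical
  unfold cg
  rw [card_eq_zero]
  apply filter_false_of_mem
  rintro n _ ⟨⟨h3, _⟩, ⟨h4, _⟩⟩
  obtain ⟨p, hpA, hpB⟩ := not_disjoint_iff.1 hAB
  have d1 := h3 p hpA
  have d2 := h4 p hpB
  have hp := hJA p hpA
  rcases lt_or_gt_of_ne hne with h | h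
  · have : p ∣ (n + h2) - (n + h1) := Nat.dvd_sub d2 d1
    have h5 : (n + h2) - (n + h1) = h2 - h1 := by omega
    rw [h5] at this
    have := Nat.le_of_dvd (by omega) this
    omega
  · have : p ∣ (n + h1) - (n + h2) := Nat.dvd_sub d1 d2
    have h5 : (n + h1) - (n + h2) = h1 - h2 := by omega
    rw [h5] at this
    have := Nat.le_of_dvd (by omega) this
    omega

lemma gsum_one (J : ℕ) (Q : Finset ℕ) (Y : ℕ) (𝒩 : Finset ℕ) (h : ℕ) : ∑ n ∈ 𝒩, nu J Q Y (n + h) =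
    ∑ x ∈ Pp Q Y, rr Q Y x * (cg J 𝒩 h h (x.1 ∪ x.2) ∅ : ℝ) := by
  classical
  have h1 : ∀ n ∈ 𝒩, nu J Q Y (n + h) =
      ∑ x ∈ Pp Q Y, rr Q Y x * (if (∀ p ∈ x.1 ∪ x.2, p ∣ n + h) ∧ Ro J (n + h) then 1 else 0) := by
    intro n _
    rw [nu_eq]
  rw [sum_congr rfl h1, sum_comm]
  apply sum_congr rfl
  intro x _
  rw [← mul_sum]
  congr 1
  unfold cg
  rw [sum_boole]
  congr 2
  apply filter_congr
  intro n _
  simp only [notMem_empty, false_imp_iff, implies_true, true_and]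
  tauto

lemma gsum_two (J : ℕ) (Q : Finset ℕ) (Y : ℕ) (𝒩 : Finset ℕ) (h1 h2 : ℕ) :
    ∑ n ∈ 𝒩, nu J Q Y (n + h1) * nu J Q Y (n + h2) =
    ∑ x ∈ Pp Q Y, ∑ y ∈ Pp Q Y, rr Q Y x * rr Q Y y * (cg J 𝒩 h1 h2 (x.1 ∪ x.2) (y.1 ∪ y.2) : ℝ) := by
  classical
  have h3 : ∀ n ∈ 𝒩, nu J Q Y (n + h1) * nu J Q Y (n + h2) =
      ∑ x ∈ Pp Q Y, ∑ y ∈ Pp Q Y, rr Q Y x * rr Q Y y *
        (if ((∀ p ∈ x.1 ∪ x.2, p ∣ n + h1) ∧ Ro J (n + h1)) ∧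
          ((∀ p ∈ y.1 ∪ y.2, p ∣ n + h2) ∧ Ro J (n + h2)) then 1 else 0) := by
    intro n _
    rw [nu_eq, nu_eq, sum_mul_sum]
    apply sum_congr rfl
    intro x _
    apply sum_congr rfl
    intro y _
    by_cases a1 : (∀ p ∈ x.1 ∪ x.2, p ∣ n + h1) ∧ Ro J (n + h1)
    · by_cases a2 : (∀ p ∈ y.1 ∪ y.2, p ∣ n + h2) ∧ Ro J (n + h2)
      · rw [if_pos a1, if_pos a2, if_pos ⟨a1, a2⟩]; ring
      · have a3 : ¬ (((∀ p ∈ x.1 ∪ x.2, p ∣ n + h1) ∧ Ro J (n + h1)) ∧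
          ((∀ p ∈ y.1 ∪ y.2, p ∣ n + h2) ∧ Ro J (n + h2))) := fun h => a2 h.2
        rw [if_neg a2, if_neg a3]; ring
    · have a3 : ¬ (((∀ p ∈ x.1 ∪ x.2, p ∣ n + h1) ∧ Ro J (n + h1)) ∧
          ((∀ p ∈ y.1 ∪ y.2, p ∣ n + h2) ∧ Ro J (n + h2))) := fun h => a1 h.1
      rw [if_neg a1, if_neg a3]; ring
  rw [sum_congr rfl h3, sum_comm]
  apply sum_congr rfl
  intro x _
  rw [sum_comm]
  apply sum_congr rfl
  intro y _
  rw [← mul_sum]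
  congr 1
  unfold cg
  rw [sum_boole]

/-- lower bound for the first moment -/
theorem gfirst {b J : ℕ} {𝒩 R : Finset ℕ} {X E : ℝ} {ρ : ℕ → ℕ → ℝ} (hC : CG b J 𝒩 X ρ E R)
    {Q : Finset ℕ} (hQ : Prs Q) (hJ : Big J Q) {Y : ℕ} (hY : 1 ≤ Y) (hN : 0 ≤ X) (_hE : 0 ≤ E) {h : ℕ} (hh : h ∈ R)
    (hV : 0 ≤ ρ h h) :
    X * ρ h h * (1 / GG (Fm Q Y) - (1 / 2) ^ b * UU Q) - E * AA Q Y ^ 2 ≤
      ∑ n ∈ 𝒩, nu J Q Y (n + h) := by
  rw [gsum_one]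
  have hP : Prs (∅ : Finset ℕ) := fun p hp => absurd hp (notMem_empty p)
  have hBg : Big J (∅ : Finset ℕ) := fun p hp => absurd hp (notMem_empty p)
  have h1 : ∀ x ∈ Pp Q Y, X * ρ h h * (rr Q Y x / pd (x.1 ∪ x.2)) -
      (1 / 2) ^ b * (X * ρ h h) * (|rr Q Y x| / pd (x.1 ∪ x.2)) - E * |rr Q Y x| ≤
      rr Q Y x * (cg J 𝒩 h h (x.1 ∪ x.2) ∅ : ℝ) := by
    intro x hx
    have hu := un_prs hQ hx
    have hup := pd_pos hu
    have hub : Big J (x.1 ∪ x.2) := fun p hp => hJ p (un_sub hx hp)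
    have h2 := hC h hh h hh (x.1 ∪ x.2) ∅ hu hP hub hBg (disjoint_empty_right _)
    have e : pd (∅ : Finset ℕ) = 1 := by simp [pd]
    rw [e, mul_one] at h2
    have h3 : |rr Q Y x * ((cg J 𝒩 h h (x.1 ∪ x.2) ∅ : ℝ) - X / pd (x.1 ∪ x.2) * ρ h h)| ≤
        |rr Q Y x| * ((1 / 2) ^ b * (X / pd (x.1 ∪ x.2) * ρ h h) + E) := by
      rw [abs_mul]
      exact mul_le_mul_of_nonneg_left h2 (abs_nonneg _)
    have h4 := (abs_le.1 h3).1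
    have e2 : rr Q Y x * ((cg J 𝒩 h h (x.1 ∪ x.2) ∅ : ℝ) - X / pd (x.1 ∪ x.2) * ρ h h) =
        rr Q Y x * (cg J 𝒩 h h (x.1 ∪ x.2) ∅ : ℝ) - X * ρ h h * (rr Q Y x / pd (x.1 ∪ x.2)) := by ring
    have e3 : |rr Q Y x| * ((1 / 2) ^ b * (X / pd (x.1 ∪ x.2) * ρ h h) + E) =
        (1 / 2) ^ b * (X * ρ h h) * (|rr Q Y x| / pd (x.1 ∪ x.2)) + E * |rr Q Y x| := by ring
    rw [e2, e3] at h4
    linarith
  refine le_trans ?_ (sum_le_sum h1)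
  rw [sum_sub_distrib, sum_sub_distrib, ← mul_sum, ← mul_sum, ← mul_sum, sum_rr hQ hY, sum_abs_rr]
  have h5 := sum_abs hQ hY
  have h6 : (1 / 2 : ℝ) ^ b * (X * ρ h h) * (∑ x ∈ Pp Q Y, |rr Q Y x| / pd (x.1 ∪ x.2)) ≤
      (1 / 2) ^ b * (X * ρ h h) * UU Q := mul_le_mul_of_nonneg_left h5 (by positivity)
  have e4 : X * ρ h h * (1 / GG (Fm Q Y) - (1 / 2) ^ b * UU Q) =
      X * ρ h h * (1 / GG (Fm Q Y)) - (1 / 2) ^ b * (X * ρ h h) * UU Q := by ring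
  linarith

/-- upper bound for the correlations -/
theorem gpair {b J : ℕ} {𝒩 R : Finset ℕ} {X₀ E : ℝ} {ρ : ℕ → ℕ → ℝ} (hC : CG b J 𝒩 X₀ ρ E R)
    {Q : Finset ℕ} (hQ : Prs Q) (hJ : Big J Q) {Y : ℕ} (hY : 1 ≤ Y) (hN : 0 ≤ X₀) (hE : 0 ≤ E) {h1 h2 : ℕ}
    (hh1 : h1 ∈ R) (hh2 : h2 ∈ R) (hne : h1 ≠ h2) (hb1 : h1 < 2 ^ 2 ^ J) (hb2 : h2 < 2 ^ 2 ^ J)
    (hV : 0 ≤ ρ h1 h2) :
    ∑ n ∈ 𝒩, nu J Q Y (n + h1) * nu J Q Y (n + h2) ≤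
      X₀ * ρ h1 h2 * (1 / GG (Fm Q Y) ^ 2 + ∑ p ∈ Q, (8 / p * UU Q) ^ 2 + (1 / 2) ^ b * UU Q ^ 2) +
        E * AA Q Y ^ 4 := by
  classical
  rw [gsum_two]
  set V : ℝ := X₀ * ρ h1 h2 with hVdef
  have hV0 : 0 ≤ V := mul_nonneg hN hV
  set X : Finset ℕ × Finset ℕ → ℝ := fun x => rr Q Y x / pd (x.1 ∪ x.2) with hX
  set Z : Finset ℕ × Finset ℕ → ℝ := fun x => |rr Q Y x| / pd (x.1 ∪ x.2) with hZ
  have hZ0 : ∀ x ∈ Pp Q Y, 0 ≤ Z x := by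
    intro x hx
    exact div_nonneg (abs_nonneg _) (pd_pos (un_prs hQ hx)).le
  have key : ∀ x ∈ Pp Q Y, ∀ y ∈ Pp Q Y,
      rr Q Y x * rr Q Y y * (cg J 𝒩 h1 h2 (x.1 ∪ x.2) (y.1 ∪ y.2) : ℝ) ≤
      V * (X x * X y) + V * (∑ p ∈ Q, (if p ∈ x.1 ∪ x.2 then Z x else 0) * (if p ∈ y.1 ∪ y.2 then Z y else 0)) +
        (1 / 2) ^ b * V * (Z x * Z y) + E * (|rr Q Y x| * |rr Q Y y|) := by
    intro x hx y hy
    have hu := un_prs hQ hx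
    have hw := un_prs hQ hy
    have hup := pd_pos hu
    have hwp := pd_pos hw
    have hub : Big J (x.1 ∪ x.2) := fun p hp => hJ p (un_sub hx hp)
    have hwb : Big J (y.1 ∪ y.2) := fun p hp => hJ p (un_sub hy hp)
    have hXZ : X x * X y ≤ Z x * Z y ∧ -(Z x * Z y) ≤ X x * X y := by
      have : |X x * X y| = Z x * Z y := by
        rw [hX, hZ]
        simp only
        rw [abs_mul, abs_div, abs_div, abs_of_pos hup, abs_of_pos hwp]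
      constructor
      · rw [← this]; exact le_abs_self _
      · rw [← this]; exact neg_abs_le _
    have hZZ : 0 ≤ Z x * Z y := mul_nonneg (hZ0 x hx) (hZ0 y hy)
    have hsum0 : 0 ≤ ∑ p ∈ Q, (if p ∈ x.1 ∪ x.2 then Z x else 0) * (if p ∈ y.1 ∪ y.2 then Z y else 0) := by
      apply sum_nonneg
      intro p _
      apply mul_nonneg
      · split_ifs
        · exact hZ0 x hx
        · exact le_rfl
      · split_ifs
        · exact hZ0 y hy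
        · exact le_rfl
    have hrr : 0 ≤ |rr Q Y x| * |rr Q Y y| := by positivity
    by_cases hd : Disjoint (x.1 ∪ x.2) (y.1 ∪ y.2)
    · have h3 := hC h1 hh1 h2 hh2 (x.1 ∪ x.2) (y.1 ∪ y.2) hu hw hub hwb hd
      have h4 : |(rr Q Y x * rr Q Y y) * ((cg J 𝒩 h1 h2 (x.1 ∪ x.2) (y.1 ∪ y.2) : ℝ) -
          X₀ / (pd (x.1 ∪ x.2) * pd (y.1 ∪ y.2)) * ρ h1 h2)| ≤
          (|rr Q Y x| * |rr Q Y y|) * ((1 / 2) ^ b * (X₀ / (pd (x.1 ∪ x.2) * pd (y.1 ∪ y.2)) * ρ h1 h2) +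
            E) := by
        rw [abs_mul, abs_mul]
        exact mul_le_mul_of_nonneg_left h3 hrr
      have h5 := (abs_le.1 h4).2
      have e2 : (rr Q Y x * rr Q Y y) * ((cg J 𝒩 h1 h2 (x.1 ∪ x.2) (y.1 ∪ y.2) : ℝ) -
          X₀ / (pd (x.1 ∪ x.2) * pd (y.1 ∪ y.2)) * ρ h1 h2) =
          rr Q Y x * rr Q Y y * (cg J 𝒩 h1 h2 (x.1 ∪ x.2) (y.1 ∪ y.2) : ℝ) - V * (X x * X y) := by
        rw [hX, hVdef]
        field_simp
      have e3 : (|rr Q Y x| * |rr Q Y y|) *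
          ((1 / 2) ^ b * (X₀ / (pd (x.1 ∪ x.2) * pd (y.1 ∪ y.2)) * ρ h1 h2) + E) =
          (1 / 2) ^ b * V * (Z x * Z y) + E * (|rr Q Y x| * |rr Q Y y|) := by
        rw [hZ, hVdef]
        field_simp
      rw [e2, e3] at h5
      have : 0 ≤ V * (∑ p ∈ Q, (if p ∈ x.1 ∪ x.2 then Z x else 0) * (if p ∈ y.1 ∪ y.2 then Z y else 0)) :=
        mul_nonneg hV0 hsum0
      linarith
    · rw [cg_zero hub hd hne hb1 hb2, Nat.cast_zero, mul_zero]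
      obtain ⟨p, hp1, hp2⟩ := not_disjoint_iff.1 hd
      have h6 : Z x * Z y ≤
          ∑ p ∈ Q, (if p ∈ x.1 ∪ x.2 then Z x else 0) * (if p ∈ y.1 ∪ y.2 then Z y else 0) := by
        have h7 := single_le_sum (f := fun p => (if p ∈ x.1 ∪ x.2 then Z x else 0) *
          (if p ∈ y.1 ∪ y.2 then Z y else 0)) (s := Q) (fun p _ => by
            apply mul_nonneg
            · split_ifs
              · exact hZ0 x hx
              · exact le_rfl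
            · split_ifs
              · exact hZ0 y hy
              · exact le_rfl) (un_sub hx hp1)
        rw [if_pos hp1, if_pos hp2] at h7
        exact h7
      have h8 := mul_le_mul_of_nonneg_left h6 hV0
      have h9 := mul_le_mul_of_nonneg_left hXZ.2 hV0
      have h10 : 0 ≤ (1 / 2 : ℝ) ^ b * V * (Z x * Z y) := by positivity
      have h11 : 0 ≤ E * (|rr Q Y x| * |rr Q Y y|) := mul_nonneg hE hrr
      have e5 : V * -(Z x * Z y) = -(V * (Z x * Z y)) := by ring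
      linarith
  refine (sum_le_sum fun x hx => sum_le_sum fun y hy => key x hx y hy).trans ?_
  have s1 : ∑ x ∈ Pp Q Y, ∑ y ∈ Pp Q Y, V * (X x * X y) = V * (1 / GG (Fm Q Y) ^ 2) := by
    have := sum_rr hQ hY
    have e : ∑ x ∈ Pp Q Y, X x = 1 / GG (Fm Q Y) := this
    rw [← sum_rr_aux V X (Pp Q Y), e]
    ring
  have s2 : ∑ x ∈ Pp Q Y, ∑ y ∈ Pp Q Y, V * (∑ p ∈ Q, (if p ∈ x.1 ∪ x.2 then Z x else 0) *
      (if p ∈ y.1 ∪ y.2 then Z y else 0)) ≤ V * ∑ p ∈ Q, (8 / p * UU Q) ^ 2 := by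
    have e : ∑ x ∈ Pp Q Y, ∑ y ∈ Pp Q Y, V * (∑ p ∈ Q, (if p ∈ x.1 ∪ x.2 then Z x else 0) *
      (if p ∈ y.1 ∪ y.2 then Z y else 0)) =
      V * ∑ p ∈ Q, (∑ x ∈ Pp Q Y, if p ∈ x.1 ∪ x.2 then Z x else 0) ^ 2 := by
      have r1 : ∀ x ∈ Pp Q Y, (∑ y ∈ Pp Q Y, V * (∑ p ∈ Q, (if p ∈ x.1 ∪ x.2 then Z x else 0) *
          (if p ∈ y.1 ∪ y.2 then Z y else 0))) =
          ∑ p ∈ Q, ∑ y ∈ Pp Q Y, V * ((if p ∈ x.1 ∪ x.2 then Z x else 0) *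
          (if p ∈ y.1 ∪ y.2 then Z y else 0)) := by
        intro x _
        rw [sum_comm]
        apply sum_congr rfl
        intro y _
        exact mul_sum _ _ _
      rw [sum_congr rfl r1, sum_comm, mul_sum]
      apply sum_congr rfl
      intro p _
      rw [sq, sum_mul_sum, mul_sum]
      apply sum_congr rfl
      intro x _
      rw [mul_sum]
    rw [e]
    apply mul_le_mul_of_nonneg_left _ hV0
    apply sum_le_sum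
    intro p hp
    apply pow_le_pow_left₀
    · apply sum_nonneg
      intro x hx
      split_ifs
      · exact hZ0 x hx
      · exact le_rfl
    · exact sum_abs_part hQ hY hp
  have s3 : ∑ x ∈ Pp Q Y, ∑ y ∈ Pp Q Y, (1 / 2) ^ b * V * (Z x * Z y) ≤ (1 / 2) ^ b * V * UU Q ^ 2 := by
    rw [← sum_rr_aux ((1 / 2) ^ b * V) Z (Pp Q Y)]
    apply mul_le_mul_of_nonneg_left _ (by positivity)
    apply pow_le_pow_left₀ (sum_nonneg hZ0)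
    exact sum_abs hQ hY
  have s4 : ∑ x ∈ Pp Q Y, ∑ y ∈ Pp Q Y, E * (|rr Q Y x| * |rr Q Y y|) = E * AA Q Y ^ 4 := by
    rw [← sum_rr_aux (E) (fun x => |rr Q Y x|) (Pp Q Y), sum_abs_rr]
    ring
  simp_rw [sum_add_distrib]
  rw [s1, s4]
  have e6 : V * (1 / GG (Fm Q Y) ^ 2 + ∑ p ∈ Q, (8 / (p : ℝ) * UU Q) ^ 2 + (1 / 2) ^ b * UU Q ^ 2) =
      V * (1 / GG (Fm Q Y) ^ 2) + V * ∑ p ∈ Q, (8 / (p : ℝ) * UU Q) ^ 2 + (1 / 2) ^ b * V * UU Q ^ 2 := by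
    ring
  rw [e6]
  linarith


end Pool.Agent.L0h43.TB
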