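import Pool.Agent.L0h43.TB.Cls

/-!
# One more prime, for every set of shifts
-/

set_option autoImplicit false

namespace Pool.Agent.L0h43.TB

open Finset Filter Topology Pool.Agent.H387R2
open Pool.Agent.L0h43.TA
open Pool.Agent.H386R2.HL

lemma sum_Jv {N w ν u H : ℕ} {T : Finset ℕ} (hw : w ≤ Nat.sqrt N) (g : ℕ → ℝ) :
    ∑ h ∈ Ioc u (u + H) \ T, g h * (pc N (Uni.WW w) ν (insert h T) : ℝ) =
      ∑ h ∈ Jv (Uni.WW w) ν u H \ T, g h * (pc N (Uni.WW w) ν (insert h T) : ℝ) := by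
  symm
  apply sum_subset
  · apply sdiff_subset_sdiff _ (Subset.refl _)
    unfold Jv
    exact filter_subset _ _
  · intro h hh1 hh2
    rw [pc_zero hw, Nat.cast_zero, mul_zero]
    intro hOK
    apply hh2
    rw [Finset.mem_sdiff] at hh1 ⊢
    refine ⟨?_, hh1.2⟩
    unfold Jv
    rw [mem_filter]
    exact ⟨hh1.1, hOK h (mem_insert_self _ _)⟩

/-- splitting in classes, only the good ones -/
lemma pc_cls {N w' w ν' : ℕ} {T : Finset ℕ} (T' : Finset ℕ) (hT : T ⊆ T') (hww : w' ≤ w) (hw : w ≤ Nat.sqrt N) :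
    pc N (Uni.WW w') ν' T' =
      ∑ ν ∈ (range (Uni.WW w)).filter (fun ν => ν % Uni.WW w' = ν' ∧ OK (Uni.WW w) ν T), pc N (Uni.WW w) ν T' := by
  obtain ⟨V, hV, -, -⟩ := WW_split hww
  rw [pc_split N T' (Dvd.intro _ hV.symm) (Uni.WW_pos w)]
  symm
  apply sum_subset
  · intro ν hν
    rw [mem_filter] at hν ⊢
    exact ⟨hν.1, hν.2.1⟩
  · intro ν h1 h2
    apply pc_zero hw
    intro hOK
    apply h2
    rw [mem_filter] at h1 ⊢
    exact ⟨h1.1, h1.2, fun t ht => hOK t (hT ht)⟩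

lemma WW_zero : Uni.WW 0 = 1 := by
  unfold Uni.WW
  rfl

lemma gT_one (T : Finset ℕ) : Uni.gT 1 T = 1 := by
  unfold Uni.gT
  rw [filter_true_of_mem]
  · simp
  · intro m _ t _
    exact Nat.coprime_one_left _

lemma OK_one (ν : ℕ) (T : Finset ℕ) : OK 1 ν T := fun _ _ => Nat.coprime_one_left _

lemma Jv_card_le {W ν u H : ℕ} (hW : 0 < W) (T : Finset ℕ) :
    (W : ℝ) / Nat.totient W * ((Jv W ν u H \ T).card : ℝ) ≤ H + W := by
  have hW0 : (0 : ℝ) < W := by exact_mod_cast hW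
  have hφ0 : (0 : ℝ) < Nat.totient W := by exact_mod_cast Nat.totient_pos.2 hW
  have h1 := cop_up W ν u H hW
  have h2 : ((Jv W ν u H \ T).card : ℝ) ≤ (Nat.totient W : ℝ) * (H / W + 1) := by
    refine le_trans ?_ h1
    have : (Jv W ν u H \ T).card ≤ (Jv W ν u H).card := card_le_card sdiff_subset
    unfold Jv at this ⊢
    exact_mod_cast this
  calc (W : ℝ) / Nat.totient W * ((Jv W ν u H \ T).card : ℝ) ≤
      (W : ℝ) / Nat.totient W * ((Nat.totient W : ℝ) * (H / W + 1)) := mul_le_mul_of_nonneg_left h2 (by positivity)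
    _ = H + W := by field_simp

/-- **one more prime in a window, for every set `T` of shifts** -/
theorem one_more (j : ℕ) (ε : ℝ) (hε : 0 < ε) : ∃ K : ℝ, 1 ≤ K ∧ ∀ A : ℝ, 0 ≤ A → ∃ N₀ : ℕ, ∀ N : ℕ, N₀ ≤ N →
    ∀ T : Finset ℕ, T.card = j → (∀ t ∈ T, (t : ℝ) ≤ Real.log N ^ A) → ∀ u H : ℕ, K * Real.log N ≤ H →
      ((u + H : ℕ) : ℝ) ≤ Real.log N ^ A →
      ∑ h ∈ Ioc u (u + H) \ T, (pc N 1 0 (insert h T) : ℝ) ≤
        (4 + ε) * (H / Real.log N) * pc N 1 0 T + ε * (H / Real.log N) * (N / Real.log N ^ j * Uni.CT T) := by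
  obtain ⟨δ, hδ⟩ : ∃ δ : ℝ, δ = min 1 (ε / 4) := ⟨_, rfl⟩
  have hδ0 : 0 < δ := by rw [hδ]; exact lt_min one_pos (by positivity)
  have hδ1 : δ ≤ 1 := by rw [hδ]; exact min_le_left _ _
  have hδε : δ ≤ ε / 4 := by rw [hδ]; exact min_le_right _ _
  obtain ⟨K, hK, w0, H0⟩ := MT j δ δ hδ0 hδ1 hδ0 hδ1
  refine ⟨K, hK, fun A hA => ?_⟩
  obtain ⟨N1, hN1⟩ := H0 w0 le_rfl A hA
  obtain ⟨W, hW⟩ : ∃ W, W = Uni.WW w0 := ⟨_, rfl⟩
  have hWpos : 0 < W := by rw [hW]; exact Uni.WW_pos w0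
  have hW0 : (0 : ℝ) < W := by exact_mod_cast hWpos
  have tN : Tendsto (fun N : ℕ => (N : ℝ)) atTop atTop := tendsto_natCast_atTop_atTop
  have tL : Tendsto (fun N : ℕ => Real.log (N : ℝ)) atTop atTop := Real.tendsto_log_atTop.comp tN
  obtain ⟨N₀, hN₀⟩ := eventually_atTop.1 ((tL.eventually_ge_atTop (max 1 (10 * W / ε))).and
    (eventually_ge_atTop (max N1 (w0 * w0 + 1))))
  refine ⟨N₀, ?_⟩
  intro N hN T hTj hTA u H hKH hHA
  obtain ⟨l1, l2⟩ := hN₀ N hN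
  have hL1 : 1 ≤ Real.log N := (le_max_left _ _).trans l1
  have hLW : 10 * W / ε ≤ Real.log N := (le_max_right _ _).trans l1
  have hNN1 : N1 ≤ N := (le_max_left _ _).trans l2
  have hNw : w0 * w0 + 1 ≤ N := (le_max_right _ _).trans l2
  have hws : w0 ≤ Nat.sqrt N := by rw [Nat.le_sqrt]; omega
  have hN1' : 1 ≤ N := by omega
  set L := Real.log (N : ℝ) with hL
  have hL0 : 0 < L := by linarith
  have hHL : L ≤ H := (le_mul_of_one_le_left hL0.le hK).trans hKH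
  have hH0 : (0 : ℝ) < H := by linarith
  have hN0 : (0 : ℝ) < N := by exact_mod_cast hN1'
  have hCT := Uni.CT_nonneg T
  set S := (range (Uni.WW w0)).filter (fun ν => ν % Uni.WW 0 = 0 ∧ OK (Uni.WW w0) ν T) with hS
  have e1 : ∀ h, (pc N 1 0 (insert h T) : ℝ) = ∑ ν ∈ S, (pc N (Uni.WW w0) ν (insert h T) : ℝ) := by
    intro h
    have := pc_cls (N := N) (w' := 0) (w := w0) (ν' := 0) (T := T) (insert h T) (subset_insert _ _) (Nat.zero_le _) hws
    rw [WW_zero] at this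
    rw [hS, WW_zero]
    exact_mod_cast this
  have e2 : (pc N 1 0 T : ℝ) = ∑ ν ∈ S, (pc N (Uni.WW w0) ν T : ℝ) := by
    have := pc_cls (N := N) (w' := 0) (w := w0) (ν' := 0) (T := T) T (Subset.refl _) (Nat.zero_le _) hws
    rw [WW_zero] at this
    rw [hS, WW_zero]
    exact_mod_cast this
  rw [sum_congr rfl (fun h _ => e1 h), sum_comm]
  have key : ∀ ν ∈ S, ∑ h ∈ Ioc u (u + H) \ T, (pc N (Uni.WW w0) ν (insert h T) : ℝ) ≤
      (4 + ε) * (H / L) * pc N (Uni.WW w0) ν T + δ * (H / L) * Ew N (Uni.WW w0) T := by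
    intro ν hν
    rw [hS, mem_filter, mem_range] at hν
    have h1 := hN1 N hNN1 T hTj hTA ν hν.1 hν.2.2 u H hKH hHA (fun _ => 1) (fun _ => zero_le_one) (fun _ => le_rfl)
    have h2 := sum_Jv (u := u) (H := H) (ν := ν) (T := T) hws (fun _ => 1)
    rw [← h2] at h1
    simp only [one_mul] at h1
    refine h1.trans ?_
    apply add_le_add _ le_rfl
    apply mul_le_mul_of_nonneg_right _ (Nat.cast_nonneg _)
    have e4 : (4 + ε) * ((H : ℝ) / L) = ((4 + ε) * H) / L := by ring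
    rw [e4]
    apply div_le_div_of_nonneg_right _ hL0.le
    rw [sum_const, nsmul_eq_mul, mul_one, ← hW]
    have h3 := Jv_card_le (ν := ν) (u := u) (H := H) hWpos T
    have h4 : (W : ℝ) ≤ ε / 10 * H := by
      rw [div_le_iff₀ hε] at hLW
      have : L * ε ≤ H * ε := mul_le_mul_of_nonneg_right hHL hε.le
      linarith
    have h5 : (4 + δ) * ((W : ℝ) / Nat.totient W) * ((Jv W ν u H \ T).card : ℝ) ≤ (4 + δ) * (H + W) := by
      rw [mul_assoc]
      exact mul_le_mul_of_nonneg_left h3 (by linarith)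
    have h6 : (4 + δ) * (W : ℝ) ≤ 5 * (ε / 10 * H) := mul_le_mul (by linarith) h4 hW0.le (by norm_num)
    have h7 : δ * H ≤ ε / 4 * H := mul_le_mul_of_nonneg_right hδε hH0.le
    have e3 : (4 + δ) * ((H : ℝ) + W) = 4 * H + δ * H + (4 + δ) * W := by ring
    rw [e3] at h5
    linarith
  refine (sum_le_sum key).trans ?_
  rw [sum_add_distrib, ← mul_sum, ← mul_sum, ← e2]
  apply add_le_add le_rfl
  have h1 := Ew_sum (N := N) (w' := 0) (w := w0) (a := 0) (T := T) hN1' (Nat.zero_le _) (by rw [WW_zero]; exact one_pos)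
    (by rw [WW_zero]; exact OK_one _ _)
  have h2 : Ew N (Uni.WW 0) T = N / L ^ j * Uni.CT T := by
    unfold Ew
    rw [WW_zero, gT_one, hTj, ← hL]
    norm_num
  rw [h2] at h1
  have h3 : 0 ≤ N / L ^ j * Uni.CT T := by positivity
  apply mul_le_mul _ h1 (sum_nonneg fun _ _ => Ew_nonneg hN1') (by positivity)
  apply mul_le_mul_of_nonneg_right _ (by positivity)
  linarith

end Pool.Agent.L0h43.TB
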