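import Pool.Agent.L0h43.TB.One

/-!
# Windows at a distance from almost all prime tuples
-/

set_option autoImplicit false

namespace Pool.Agent.L0h43.TB

open Finset Filter Topology Pool.Agent.H387R2
open Pool.Agent.L0h43.TA
open Pool.Agent.H386R2.HL

open Classical in
/-- the `n` with `√N < n ≤ N`, all `n + t` prime and many primes in `n + (u, u + H]` -/
noncomputable def BS (N : ℕ) (T : Finset ℕ) (u H : ℕ) (X : ℝ) : Finset ℕ :=
  (Ioc (Nat.sqrt N) N).filter (fun n => (∀ t ∈ T, (n + t).Prime) ∧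
    X < (((Ioc u (u + H)).filter (fun h => (n + h).Prime)).card : ℝ))

theorem one_ae (j : ℕ) (ε : ℝ) (hε : 0 < ε) : ∃ K : ℝ, 1 ≤ K ∧ ∀ A : ℝ, 0 ≤ A → ∃ N₀ : ℕ, ∀ N : ℕ, N₀ ≤ N →
    ∀ T : Finset ℕ, T.card = j → (∀ t ∈ T, (t : ℝ) ≤ Real.log N ^ A) → ∀ u H : ℕ, K * Real.log N ≤ H →
      ((u + H : ℕ) : ℝ) ≤ Real.log N ^ A →
      ((BS N T u H ((4 + ε) * (H / Real.log N))).card : ℝ) ≤ ε * (N / Real.log N ^ j * Uni.CT T) := by
  classical
  obtain ⟨δ, hδ⟩ : ∃ δ : ℝ, δ = min 1 (ε / 4) := ⟨_, rfl⟩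
  have hδ0 : 0 < δ := by rw [hδ]; exact lt_min one_pos (by positivity)
  have hδ1 : δ ≤ 1 := by rw [hδ]; exact min_le_left _ _
  have hδε : δ ≤ ε / 4 := by rw [hδ]; exact min_le_right _ _
  obtain ⟨ε0, hε0⟩ : ∃ ε0 : ℝ, ε0 = min 1 (ε * (ε / 8) ^ 2) := ⟨_, rfl⟩
  have hε00 : 0 < ε0 := by rw [hε0]; exact lt_min one_pos (by positivity)
  have hε01 : ε0 ≤ 1 := by rw [hε0]; exact min_le_left _ _
  have hε0ε : ε0 ≤ ε * (ε / 8) ^ 2 := by rw [hε0]; exact min_le_right _ _
  obtain ⟨K, hK, w0, H0⟩ := MTv j δ ε0 hδ0 hδ1 hε00 hε01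
  refine ⟨max K (8 * j / ε), hK.trans (le_max_left _ _), fun A hA => ?_⟩
  obtain ⟨N1, hN1⟩ := H0 w0 le_rfl A hA
  obtain ⟨W, hW⟩ : ∃ W, W = Uni.WW w0 := ⟨_, rfl⟩
  have hWpos : 0 < W := by rw [hW]; exact Uni.WW_pos w0
  have hW0 : (0 : ℝ) < W := by exact_mod_cast hWpos
  have tN : Tendsto (fun N : ℕ => (N : ℝ)) atTop atTop := tendsto_natCast_atTop_atTop
  have tL : Tendsto (fun N : ℕ => Real.log (N : ℝ)) atTop atTop := Real.tendsto_log_atTop.comp tN
  obtain ⟨N₀, hN₀⟩ := eventually_atTop.1 ((tL.eventually_ge_atTop (max 1 (20 * W / ε))).and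
    (eventually_ge_atTop (max N1 (w0 * w0 + 1))))
  refine ⟨N₀, ?_⟩
  intro N hN T hTj hTA u H hKH' hHA
  obtain ⟨l1, l2⟩ := hN₀ N hN
  have hL1 : 1 ≤ Real.log N := (le_max_left _ _).trans l1
  have hLW : 20 * W / ε ≤ Real.log N := (le_max_right _ _).trans l1
  have hNN1 : N1 ≤ N := (le_max_left _ _).trans l2
  have hNw : w0 * w0 + 1 ≤ N := (le_max_right _ _).trans l2
  have hws : w0 ≤ Nat.sqrt N := by rw [Nat.le_sqrt]; omega
  have hN1' : 1 ≤ N := by omega
  set L := Real.log (N : ℝ) with hL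
  have hL0 : 0 < L := by linarith
  have hKH : K * L ≤ H := (mul_le_mul_of_nonneg_right (le_max_left _ _) hL0.le).trans hKH'
  have hjH : (j : ℝ) ≤ ε / 8 * (H / L) := by
    have h1 : 8 * j / ε * L ≤ H := (mul_le_mul_of_nonneg_right (le_max_right _ _) hL0.le).trans hKH'
    have h2 : 8 * j / ε ≤ H / L := by rw [le_div_iff₀ hL0]; exact h1
    rw [div_le_iff₀ hε] at h2
    linarith
  have hHL : L ≤ H := (le_mul_of_one_le_left hL0.le hK).trans hKH
  have hH0 : (0 : ℝ) < H := by linarith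
  have hN0 : (0 : ℝ) < N := by exact_mod_cast hN1'
  have hCT := Uni.CT_nonneg T
  have hHLp : 0 < (H : ℝ) / L := by positivity
  set S := (range (Uni.WW w0)).filter (fun ν => ν % Uni.WW 0 = 0 ∧ OK (Uni.WW w0) ν T) with hS
  set Bd := BS N T u H ((4 + ε) * (H / L)) with hBd
  have hmem : ∀ n ∈ Bd, (Nat.sqrt N < n ∧ n ≤ N) ∧ (∀ t ∈ T, (n + t).Prime) ∧
      (4 + ε) * (H / L) < (((Ioc u (u + H)).filter (fun h => (n + h).Prime)).card : ℝ) := by
    intro n hn
    rw [hBd] at hn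
    unfold BS at hn
    rw [mem_filter, mem_Ioc] at hn
    exact hn
  have hsplit : Bd.card = ∑ ν ∈ S, (Bd.filter (fun n => n % Uni.WW w0 = ν)).card := by
    apply card_eq_sum_card_fiberwise
    intro n hn
    rw [mem_coe] at hn
    obtain ⟨h1, h2, -⟩ := hmem n hn
    rw [mem_coe, hS, mem_filter, mem_range, WW_zero]
    refine ⟨Nat.mod_lt _ (Uni.WW_pos _), Nat.mod_one _, fun t ht => ?_⟩
    rw [cop_shift (n := n) rfl]
    have h3 := h2 t ht
    rw [Nat.coprime_comm, h3.coprime_iff_not_dvd, dvd_WW h3]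
    omega
  have key : ∀ ν ∈ S, ((Bd.filter (fun n => n % Uni.WW w0 = ν)).card : ℝ) ≤ ε * Ew N (Uni.WW w0) T := by
    intro ν hν
    rw [hS, mem_filter, mem_range] at hν
    obtain ⟨m, y, hm0, hm, hy, hv⟩ := hN1 N hNN1 T hTj hTA ν hν.1 hν.2.2 u H hKH hHA (fun _ => 1)
      (fun _ => zero_le_one) (fun _ => le_rfl)
    rw [sum_const, nsmul_eq_mul, mul_one, ← hW, ← hL] at hm
    have h3 := Jv_card_le (ν := ν) (u := u) (H := H) hWpos T
    have h4 : (W : ℝ) ≤ ε / 20 * H := by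
      rw [div_le_iff₀ hε] at hLW
      have : L * ε ≤ H * ε := mul_le_mul_of_nonneg_right hHL hε.le
      linarith
    have h5 : (4 + δ) * ((W : ℝ) / Nat.totient W) * ((Jv W ν u H \ T).card : ℝ) ≤ (4 + δ) * (H + W) := by
      rw [mul_assoc]
      exact mul_le_mul_of_nonneg_left h3 (by linarith)
    have h6 : (4 + δ) * (W : ℝ) ≤ 5 * (ε / 20 * H) := mul_le_mul (by linarith) h4 hW0.le (by norm_num)
    have h7 : δ * H ≤ ε / 4 * H := mul_le_mul_of_nonneg_right hδε hH0.le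
    have hm2 : m ≤ (4 + ε / 2) * (H / L) := by
      refine hm.trans ?_
      have e4 : (4 + ε / 2) * ((H : ℝ) / L) = ((4 + ε / 2) * H) / L := by ring
      rw [e4]
      apply div_le_div_of_nonneg_right _ hL0.le
      have e3 : (4 + δ) * ((H : ℝ) + W) = 4 * H + δ * H + (4 + δ) * W := by ring
      rw [e3] at h5
      linarith
    have hsub : Bd.filter (fun n => n % Uni.WW w0 = ν) ⊆ PS N (Uni.WW w0) ν T := by
      intro n hn
      rw [mem_filter] at hn
      obtain ⟨h1, h2, -⟩ := hmem n hn.1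
      unfold PS
      rw [mem_filter, mem_Ioc]
      exact ⟨h1, hn.2, h2⟩
    have hbig : ∀ n ∈ Bd.filter (fun n => n % Uni.WW w0 = ν), (ε / 8 * (H / L)) ^ 2 ≤ (y n - m) ^ 2 := by
      intro n hn
      rw [mem_filter] at hn
      obtain ⟨h1, h2, h8⟩ := hmem n hn.1
      have h9 := hy n h1.1
      apply pow_le_pow_left₀ (by positivity)
      have h10 : (((Ioc u (u + H)).filter (fun h => (n + h).Prime)).card : ℝ) ≤
          ∑ h ∈ Jv (Uni.WW w0) ν u H \ T, (1 : ℝ) * (if (n + h).Prime then (1 : ℝ) else 0) + j := by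
        simp only [one_mul]
        rw [sum_boole]
        have h11 : ((Ioc u (u + H)).filter (fun h => (n + h).Prime)) ⊆
            ((Jv (Uni.WW w0) ν u H \ T).filter (fun h => (n + h).Prime)) ∪ T := by
          intro h hh
          rw [mem_filter] at hh
          rw [mem_union]
          by_cases hT : h ∈ T
          · right; exact hT
          · left
            rw [mem_filter, Finset.mem_sdiff]
            refine ⟨⟨?_, hT⟩, hh.2⟩
            unfold Jv
            rw [mem_filter]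
            refine ⟨hh.1, ?_⟩
            rw [cop_shift hn.2, Nat.coprime_comm, hh.2.coprime_iff_not_dvd, dvd_WW hh.2]
            omega
        have h12 := (card_le_card h11).trans (card_union_le _ _)
        rw [hTj] at h12
        exact_mod_cast h12
      have e5 : (4 + ε) * ((H : ℝ) / L) = (4 + ε / 2) * (H / L) + ε / 2 * (H / L) := by ring
      rw [e5] at h8
      have e6 : ε / 2 * ((H : ℝ) / L) = 3 * (ε / 8 * (H / L)) + ε / 8 * (H / L) := by ring
      have h13 : 0 ≤ ε / 8 * ((H : ℝ) / L) := by positivity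
      linarith
    have hsum := sum_le_sum hbig
    rw [sum_const, nsmul_eq_mul] at hsum
    have h14 : ∑ n ∈ Bd.filter (fun n => n % Uni.WW w0 = ν), (y n - m) ^ 2 ≤
        ∑ n ∈ PS N (Uni.WW w0) ν T, (y n - m) ^ 2 :=
      sum_le_sum_of_subset_of_nonneg hsub (fun n _ _ => sq_nonneg _)
    have h15 := hsum.trans (h14.trans hv)
    have hE := Ew_nonneg (W := Uni.WW w0) (T := T) hN1'
    have h16 : ε0 * (Ew N (Uni.WW w0) T * (H / L) ^ 2) ≤ (ε * Ew N (Uni.WW w0) T) * (ε / 8 * (H / L)) ^ 2 := by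
      have := mul_le_mul_of_nonneg_right hε0ε (show 0 ≤ Ew N (Uni.WW w0) T * (H / L) ^ 2 by positivity)
      refine this.trans (le_of_eq ?_)
      ring
    exact le_of_mul_le_mul_right (h15.trans h16) (by positivity)
  rw [hsplit]
  push_cast
  refine (sum_le_sum key).trans ?_
  rw [← mul_sum]
  apply mul_le_mul_of_nonneg_left _ hε.le
  have h1 := Ew_sum (N := N) (w' := 0) (w := w0) (a := 0) (T := T) hN1' (Nat.zero_le _) (by rw [WW_zero]; exact one_pos)
    (by rw [WW_zero]; exact OK_one _ _)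
  have h2 : Ew N (Uni.WW 0) T = N / L ^ j * Uni.CT T := by
    unfold Ew
    rw [WW_zero, gT_one, hTj, ← hL]
    norm_num
  rw [h2] at h1
  exact h1

end Pool.Agent.L0h43.TB
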