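import Pool.Agent.L0h43.TB.Sing3
import Pool.Agent.L0h43.TA.Ae

/-!
# The choice of the parameters
-/

set_option autoImplicit false

namespace Pool.Agent.L0h43.TB

open Finset Filter Topology Pool.Agent.H387R2
open Pool.Agent.L0h43.TA
open Pool.Agent.H410R2.AC (wt GG)
open Pool.Agent.H361R2.PP (P2 JJ)

/-- choice of the parameters -/
lemma params' (C1 : ℝ) (C2 C κ j : ℕ) (hC1 : 1 ≤ C1) (hC2 : 1 ≤ C2) (hC : 1 ≤ C) (δ ε : ℝ) (hδ : 0 < δ)
    (hδ1 : δ ≤ 1) (hε : 0 < ε) : ∃ (b : ℕ) (d : ℝ), C * (κ + 1) ≤ b ∧ 0 < d ∧ d ≤ 1 / 8 ∧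
      2 * (C * b * d) ≤ δ / 128 ∧ (C1 / d) ^ (2 + j) * (((C2 : ℝ) / d) ^ C2) ^ 2 * (1 / 2) ^ b ≤ ε := by
  have hc0 : 0 < (256 * C * (C1 + C2) / δ : ℝ) := by positivity
  set c : ℝ := 256 * C * (C1 + C2) / δ with hc
  set m : ℕ := (2 + j) + C2 * 2 with hm
  have t1 := tendsto_pow_const_mul_const_pow_of_abs_lt_one m (r := (1 / 2 : ℝ))
    (by rw [abs_of_pos (by norm_num)]; norm_num)
  have hev := t1.eventually_lt_const (show (0 : ℝ) < ε / c ^ m by positivity)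
  obtain ⟨b, hb1, hb2⟩ := (hev.and (eventually_ge_atTop (C * (κ + 1) + 1))).exists
  have hb0 : (1 : ℝ) ≤ b := by
    have : 1 ≤ b := by omega
    exact_mod_cast this
  have hCR : (1 : ℝ) ≤ C := by exact_mod_cast hC
  have hC2R : (1 : ℝ) ≤ C2 := by exact_mod_cast hC2
  have hbC : (1 : ℝ) ≤ C * b := by nlinarith
  have hd0 : 0 < δ / (256 * C * b) := by positivity
  refine ⟨b, δ / (256 * C * b), by omega, hd0, ?_, ?_, ?_⟩
  · rw [div_le_div_iff₀ (by positivity) (by norm_num)]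
    nlinarith
  · have : 2 * (C * b * (δ / (256 * C * b))) = δ / 128 := by
      field_simp
      norm_num
    rw [this]
  · have e1 : C1 / (δ / (256 * C * b)) ≤ c * b := by
      rw [hc, div_div_eq_mul_div, div_mul_eq_mul_div]
      apply div_le_div_of_nonneg_right _ hδ.le
      have : C1 * (256 * C * b) ≤ (C1 + C2) * (256 * C * b) :=
        mul_le_mul_of_nonneg_right (by linarith) (by positivity)
      linarith
    have e2 : (C2 : ℝ) / (δ / (256 * C * b)) ≤ c * b := by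
      rw [hc, div_div_eq_mul_div, div_mul_eq_mul_div]
      apply div_le_div_of_nonneg_right _ hδ.le
      have : (C2 : ℝ) * (256 * C * b) ≤ (C1 + C2) * (256 * C * b) :=
        mul_le_mul_of_nonneg_right (by linarith) (by positivity)
      linarith
    have hC10 : 0 ≤ C1 := by linarith
    calc (C1 / (δ / (256 * C * b))) ^ (2 + j) * (((C2 : ℝ) / (δ / (256 * C * b))) ^ C2) ^ 2 * (1 / 2) ^ b ≤
        (c * b) ^ (2 + j) * ((c * b) ^ C2) ^ 2 * (1 / 2) ^ b := by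
          apply mul_le_mul_of_nonneg_right _ (by positivity)
          apply mul_le_mul
          · exact pow_le_pow_left₀ (by positivity) e1 _
          · apply pow_le_pow_left₀ (by positivity)
            exact pow_le_pow_left₀ (by positivity) e2 C2
          · positivity
          · positivity
      _ = c ^ m * ((b : ℝ) ^ m * (1 / 2) ^ b) := by
          rw [← pow_mul, ← pow_add, ← hm, mul_pow]; ring
      _ ≤ c ^ m * (ε / c ^ m) := mul_le_mul_of_nonneg_left hb1.le (by positivity)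
      _ = ε := by field_simp

theorem setup (C κ j M : ℕ) (hC : 1 ≤ C) (δ ε : ℝ) (hδ0 : 0 < δ) (hδ1 : δ ≤ 1) (hε : 0 < ε) :
    ∃ (b k : ℕ) (B U0 s : ℝ), C * (κ + 1) ≤ b ∧ 1 ≤ B ∧ 1 ≤ U0 ∧ 0 < s ∧
      B ^ (2 + j) * U0 ^ 2 * (1 / 2) ^ b ≤ ε ∧
      ∃ N₀ : ℕ, ∀ N : ℕ, N₀ ≤ N → ∃ J Y : ℕ, 1 ≤ Y ∧ 2 ^ 2 ^ J ≤ Y ∧ (Y : ℝ) ≤ (N : ℝ) ^ (1 / 4 : ℝ) ∧
        (N : ℝ) ^ s ≤ (2 : ℝ) ^ 2 ^ J ∧ V1 J * Real.log N ≤ B ∧
        V1 J * (1 / GG (Fm (P2 J N) Y)) ≤ (4 + δ) / Real.log N ∧ UU (P2 J N) ≤ U0 ∧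
        ∑ p ∈ P2 J N, (8 / (p : ℝ) * UU (P2 J N)) ^ 2 ≤ 64 * U0 ^ 2 / ((2 : ℝ) ^ 2 ^ J - 1) ∧
        N + 2 ^ 2 ^ J < (2 ^ 2 ^ J) ^ (k + 1) ∧ 1 ≤ AA (P2 J N) Y ∧
        Eg C κ b J * AA (P2 J N) Y ^ 4 ≤ N / Real.log N ^ M := by
  obtain ⟨C1, hC1, hMer⟩ := Pool.Agent.H488R2.mer Pool.Agent.H325R2.wtx
  obtain ⟨C2, hC2, hGbd⟩ := Pool.Agent.H488R2.gbd Pool.Agent.H325R2.wtx 8
  obtain ⟨b, d, hb, hd, hd8, hdb, hpar⟩ := params' C1 C2 C κ j hC1 hC2 hC δ ε hδ0 hδ1 hε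
  obtain ⟨k, hk⟩ : ∃ k : ℕ, k = ⌈4 / d⌉₊ := ⟨_, rfl⟩
  obtain ⟨U0, hU0⟩ : ∃ U0 : ℝ, U0 = ((C2 : ℝ) / d) ^ C2 := ⟨_, rfl⟩
  have hU00 : 0 < U0 := by rw [hU0]; positivity
  obtain ⟨cE, hcE⟩ : ∃ cE : ℝ, cE = ((C * (κ + 1) : ℕ) : ℝ) ^ (C * (κ + 1)) * 4 * (2 ^ k) ^ 4 := ⟨_, rfl⟩
  have hcE0 : 0 ≤ cE := by rw [hcE]; positivity
  have hd1 : 1 ≤ C1 / d := by
    rw [le_div_iff₀ hd]; linarith
  have hU01 : 1 ≤ U0 := by
    rw [hU0]
    apply one_le_pow₀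
    rw [le_div_iff₀ hd]
    have : (1 : ℝ) ≤ C2 := by exact_mod_cast hC2
    linarith
  refine ⟨b, k, C1 / d, U0, d / 2, hb, hd1, hU01, by positivity, by rw [hU0]; exact hpar, ?_⟩
  obtain ⟨X1, hX1⟩ := Pool.Agent.H325R2.wtx.2 d hd (by linarith)
  obtain ⟨X2, hX2⟩ := hMer d hd (by linarith)
  obtain ⟨X3, hX3⟩ := hGbd d hd hd8
  -- limits
  have tN : Tendsto (fun N : ℕ => (N : ℝ)) atTop atTop := tendsto_natCast_atTop_atTop
  have tL : Tendsto (fun N : ℕ => Real.log (N : ℝ)) atTop atTop := Real.tendsto_log_atTop.comp tN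
  have tp : ∀ s : ℝ, 0 < s → Tendsto (fun N : ℕ => (N : ℝ) ^ s) atTop atTop :=
    fun s hs => (tendsto_rpow_atTop hs).comp tN
  have hsmall : ∀ᶠ N : ℕ in atTop, cE * Real.log N ^ (M + 1) ≤ (N : ℝ) ^ (δ / 128) := by
    have h := (isLittleO_log_rpow_rpow_atTop ((M + 1 : ℕ) : ℝ) (s := δ / 128) (by positivity)).def
      (show 0 < 1 / (cE + 1) by positivity)
    filter_upwards [tN.eventually h, tL.eventually_ge_atTop 0, eventually_ge_atTop 1] with N h1 h2 h3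
    rw [Real.norm_of_nonneg (by positivity), Real.norm_of_nonneg (by positivity)] at h1
    rw [Real.rpow_natCast] at h1
    calc cE * Real.log N ^ (M + 1) ≤ cE * (1 / (cE + 1) * (N : ℝ) ^ (δ / 128)) :=
          mul_le_mul_of_nonneg_left h1 hcE0
      _ = cE / (cE + 1) * (N : ℝ) ^ (δ / 128) := by ring
      _ ≤ 1 * (N : ℝ) ^ (δ / 128) := by
          apply mul_le_mul_of_nonneg_right _ (by positivity)
          rw [div_le_one (by positivity)]
          linarith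
      _ = _ := one_mul _
  obtain ⟨N₀, hN₀⟩ := eventually_atTop.1 (hsmall.and ((tL.eventually_ge_atTop (max 10
    (256 * Real.log 2 / δ))).and (((tp (d / 2) (by positivity)).eventually_ge_atTop 20).and
    (eventually_ge_atTop (max X1 (max X2 (max X3 16)))))))
  refine ⟨N₀, fun N hN => ?_⟩
  obtain ⟨h1, h2, h3, h5⟩ := hN₀ N hN
  have hN16 : 16 ≤ N := le_trans (le_trans (le_max_right _ _) (le_trans (le_max_right _ _) (le_max_right _ _))) h5
  have hNX1 : X1 ≤ N := le_trans (le_max_left _ _) h5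
  have hNX2 : X2 ≤ N := le_trans (le_trans (le_max_left _ _) (le_max_right _ _)) h5
  have hNX3 : X3 ≤ N := le_trans (le_trans (le_max_left _ _) (le_trans (le_max_right _ _) (le_max_right _ _))) h5
  have hN16R : (16 : ℝ) ≤ N := by exact_mod_cast hN16
  have hN0 : (0 : ℝ) < N := by linarith
  have hN1 : (1 : ℝ) ≤ N := by linarith
  set L := Real.log (N : ℝ) with hL
  have hL10 : 10 ≤ L := (le_max_left _ _).trans h2
  have hLlog : 256 * Real.log 2 / δ ≤ L := (le_max_right _ _).trans h2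
  have hL0 : 0 < L := by linarith
  obtain ⟨J, hJ⟩ : ∃ J : ℕ, J = JJ d N := ⟨_, rfl⟩
  obtain ⟨w1, w2, w3⟩ := hX1 N hNX1
  obtain ⟨m1, m2, m3⟩ := hX2 N hNX2
  have g1 := hX3 N hNX3
  rw [← m3] at m2
  rw [← hJ] at w1 w2 m2 g1
  have hzR : ((2 ^ 2 ^ J : ℕ) : ℝ) = (2 : ℝ) ^ 2 ^ J := by push_cast; rfl
  have hz20' : (20 : ℝ) ≤ (2 : ℝ) ^ 2 ^ J := h3.trans w2
  have hV1 : V1 J * (d * L) ≤ C1 := m2
  have hV := V1_pos J
  have hVL : V1 J * L ≤ C1 / d := by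
    rw [le_div_iff₀ hd]
    linarith
  obtain ⟨Y, hYdef⟩ : ∃ Y : ℕ, Y = ⌊(N : ℝ) ^ (1 / 4 - δ / 256)⌋₊ := ⟨_, rfl⟩
  have hθ0 : 0 < 1 / 4 - δ / 256 := by linarith
  have hNθ1 : 1 ≤ (N : ℝ) ^ (1 / 4 - δ / 256) := Real.one_le_rpow hN1 hθ0.le
  have hY1 : 1 ≤ Y := by
    rw [hYdef]
    exact Nat.one_le_floor_iff _ |>.2 hNθ1
  have hYle : (Y : ℝ) ≤ (N : ℝ) ^ (1 / 4 - δ / 256) := by
    rw [hYdef]; exact Nat.floor_le (by positivity)
  have hYlt : (N : ℝ) ^ (1 / 4 - δ / 256) < Y + 1 := by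
    rw [hYdef]; exact Nat.lt_floor_add_one _
  have hYR1 : (1 : ℝ) ≤ Y := by exact_mod_cast hY1
  have hY4 : (Y : ℝ) ≤ (N : ℝ) ^ (1 / 4 : ℝ) :=
    hYle.trans (Real.rpow_le_rpow_of_exponent_le hN1 (by linarith))
  have hYN : Y ≤ N := by
    have : (Y : ℝ) ≤ N := by
      refine hYle.trans ?_
      calc (N : ℝ) ^ (1 / 4 - δ / 256) ≤ (N : ℝ) ^ (1 : ℝ) := Real.rpow_le_rpow_of_exponent_le hN1 (by linarith)
        _ = N := Real.rpow_one _
    exact_mod_cast this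
  have hzY : 2 ^ 2 ^ J ≤ Y := by
    have h6 : ((2 ^ 2 ^ J : ℕ) : ℝ) < Y + 1 := by
      rw [hzR]
      refine lt_of_le_of_lt (w1.trans ?_) hYlt
      exact Real.rpow_le_rpow_of_exponent_le hN1 (by linarith)
    have : 2 ^ 2 ^ J < Y + 1 := by exact_mod_cast h6
    omega
  have hlogY : (1 / 4 - δ / 128) * L ≤ Real.log Y := by
    have h6 : Real.log ((N : ℝ) ^ (1 / 4 - δ / 256) / 2) ≤ Real.log Y := by
      apply Real.log_le_log (by positivity)
      linarith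
    rw [Real.log_div (by positivity) (by norm_num), Real.log_rpow hN0, ← hL] at h6
    have h7 : Real.log 2 ≤ δ / 256 * L := by
      rw [div_le_iff₀ hδ0] at hLlog
      linarith
    have e : (1 / 4 - δ / 128) * L = (1 / 4 - δ / 256) * L - δ / 256 * L := by ring
    linarith
  have hlogY0 : 0 < Real.log Y := lt_of_lt_of_le (by
    have : 0 < 1 / 4 - δ / 128 := by linarith
    positivity) hlogY
  have hGGS := Pool.Agent.H633R2.ggSharp J N Y hY1 hYN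
  have hQ := P2_prs J N
  have hB := P2_big J N
  have hGpos := GG_pos hQ hY1 (Y := Y)
  have hVg : V1 J * (1 / GG (Fm (P2 J N) Y)) ≤ 1 / Real.log Y := by
    rw [mul_one_div, div_le_div_iff₀ hGpos hlogY0, one_mul, mul_comm]
    exact hGGS
  have hVg4 : V1 J * (1 / GG (Fm (P2 J N) Y)) ≤ (4 + δ) / L := by
    refine hVg.trans ?_
    rw [div_le_div_iff₀ hlogY0 hL0, one_mul]
    have h6 : L ≤ (4 + δ / 4) * ((1 / 4 - δ / 128) * L) := alg_a hδ0 hδ1 hL0.le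
    have h7 : (4 + δ / 4) * ((1 / 4 - δ / 128) * L) ≤ (4 + δ) * ((1 / 4 - δ / 128) * L) := by
      apply mul_le_mul_of_nonneg_right (by linarith)
      have : 0 < 1 / 4 - δ / 128 := by linarith
      positivity
    exact (h6.trans h7).trans (mul_le_mul_of_nonneg_left hlogY (by positivity))
  have hUU : UU (P2 J N) ≤ U0 := by
    rw [UU_eq _ hQ, hU0]
    refine le_trans ?_ g1
    apply Finset.prod_le_prod
    · intro p _; positivity
    · intro p hp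
      have h6 : (1 : ℝ) < p := one_lt_cast hQ hp
      have h7 : (8 : ℝ) / p ≤ ((8 : ℕ) : ℝ) / ((p : ℝ) - 1) := by
        push_cast
        apply div_le_div_of_nonneg_left (by norm_num) (by linarith) (by linarith)
      linarith
  have hUU0 := UU_nonneg hQ (Q := P2 J N)
  have hzm : (0 : ℝ) < (2 : ℝ) ^ 2 ^ J - 1 := by linarith
  have hsq : ∑ p ∈ P2 J N, (8 / (p : ℝ) * UU (P2 J N)) ^ 2 ≤ 64 * U0 ^ 2 / ((2 : ℝ) ^ 2 ^ J - 1) := by
    have hz2 : 2 ≤ 2 ^ 2 ^ J := by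
      have : (2 : ℝ) ≤ ((2 ^ 2 ^ J : ℕ) : ℝ) := by rw [hzR]; linarith
      exact_mod_cast this
    have h6 := Pool.Agent.Helper22K9.Trp.sum_inv_sq_gt (y := 2 ^ 2 ^ J - 1) (by omega) (P2 J N) (by
      intro p hp
      have := hB p hp
      omega)
    have e : ((2 ^ 2 ^ J - 1 : ℕ) : ℝ) = (2 : ℝ) ^ 2 ^ J - 1 := by
      rw [Nat.cast_sub Nat.one_le_two_pow]; push_cast; ring
    rw [e] at h6
    have h7 : ∀ p ∈ P2 J N, (8 / (p : ℝ) * UU (P2 J N)) ^ 2 ≤ 64 * U0 ^ 2 * ((p : ℝ) ^ 2)⁻¹ := by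
      intro p hp
      have h8 : (1 : ℝ) < p := one_lt_cast hQ hp
      calc (8 / (p : ℝ) * UU (P2 J N)) ^ 2 ≤ (8 / (p : ℝ) * U0) ^ 2 :=
            pow_le_pow_left₀ (by positivity) (mul_le_mul_of_nonneg_left hUU (by positivity)) 2
        _ = _ := by rw [mul_pow, div_pow, div_eq_mul_inv]; ring
    refine (sum_le_sum h7).trans ?_
    rw [← mul_sum, ← mul_one_div (64 * U0 ^ 2)]
    exact mul_le_mul_of_nonneg_left h6 (by positivity)
  -- the errors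
  have hJ2 : ((J : ℝ) + 2) ≤ 4 * L := by
    have h6 : (2 : ℝ) ^ 2 ^ J ≤ N := by
      refine w1.trans ?_
      calc (N : ℝ) ^ d ≤ (N : ℝ) ^ (1 : ℝ) := Real.rpow_le_rpow_of_exponent_le hN1 (by linarith)
        _ = N := Real.rpow_one _
    have h7 : ((2 ^ J : ℕ) : ℝ) * Real.log 2 ≤ L := by
      have := Real.log_le_log (by positivity) h6
      rw [Real.log_pow] at this
      exact this
    have h8 : (J : ℝ) ≤ ((2 ^ J : ℕ) : ℝ) := by exact_mod_cast Nat.lt_two_pow_self.le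
    have h9 := Real.log_two_gt_d9
    have h10 : (J : ℝ) * (1 / 2) ≤ L := by
      calc (J : ℝ) * (1 / 2) ≤ ((2 ^ J : ℕ) : ℝ) * Real.log 2 := by
            apply mul_le_mul h8 (by linarith) (by norm_num) (Nat.cast_nonneg _)
        _ ≤ L := h7
    linarith
  have hkz : (N : ℝ) ^ (2 : ℝ) ≤ ((2 : ℝ) ^ 2 ^ J) ^ (k + 1) := by
    have h6 : 4 / d ≤ ((k + 1 : ℕ) : ℝ) := by
      have := Nat.le_ceil (4 / d)
      rw [← hk] at this
      push_cast
      linarith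
    calc (N : ℝ) ^ (2 : ℝ) ≤ (N : ℝ) ^ (d / 2 * ((k + 1 : ℕ) : ℝ)) := by
          apply Real.rpow_le_rpow_of_exponent_le hN1
          have : d / 2 * (4 / d) = 2 := by field_simp; norm_num
          calc (2 : ℝ) = d / 2 * (4 / d) := this.symm
            _ ≤ _ := mul_le_mul_of_nonneg_left h6 (by positivity)
      _ = ((N : ℝ) ^ (d / 2)) ^ (k + 1) := by
          rw [Real.rpow_mul hN0.le, Real.rpow_natCast]
      _ ≤ _ := pow_le_pow_left₀ (by positivity) w2 _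
  have hzN : ((2 ^ 2 ^ J : ℕ) : ℝ) ≤ N := by
    have : ((2 ^ 2 ^ J : ℕ) : ℝ) ≤ Y := by exact_mod_cast hzY
    exact this.trans (by exact_mod_cast hYN)
  have hkN : N + 2 ^ 2 ^ J < (2 ^ 2 ^ J) ^ (k + 1) := by
    have h6 : ((N + 2 ^ 2 ^ J : ℕ) : ℝ) < (((2 ^ 2 ^ J) ^ (k + 1) : ℕ) : ℝ) := by
      rw [Nat.cast_add, Nat.cast_pow (2 ^ 2 ^ J)]
      refine lt_of_lt_of_le (alg_c hN16R hzN) ?_
      rw [Real.rpow_two] at hkz
      rw [hzR]
      exact hkz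
    exact_mod_cast h6
  have hkY : Y < (2 ^ 2 ^ J) ^ (k + 1) := by
    have : 0 < 2 ^ 2 ^ J := by positivity
    omega
  have hAA := AA_le hQ hB hY1 hkY
  have hAA0 := AA_nonneg (P2 J N) Y
  have hAA1 : 1 ≤ AA (P2 J N) Y := by
    unfold AA
    have := single_le_sum (f := fun D => |rho (P2 J N) Y D|) (s := Fm (P2 J N) Y) (fun D _ => abs_nonneg _)
      (empty_mem_Fm (P2 J N) hY1)
    rw [rho_empty hQ hY1, abs_one] at this
    exact this
  have hEr : Eg C κ b J ≤ ((C * (κ + 1) : ℕ) : ℝ) ^ (C * (κ + 1)) * (4 * L) * (N : ℝ) ^ (δ / 128) := by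
    unfold Eg
    apply mul_le_mul
    · exact mul_le_mul_of_nonneg_left hJ2 (by positivity)
    · calc ((2 ^ 2 ^ J : ℝ) ^ (C * b)) ^ 2 ≤ (((N : ℝ) ^ d) ^ (C * b)) ^ 2 := by gcongr
        _ = (N : ℝ) ^ (d * ((C * b * 2 : ℕ) : ℝ)) := by
            rw [← pow_mul, Real.rpow_mul hN0.le, Real.rpow_natCast]
        _ ≤ (N : ℝ) ^ (δ / 128) := by
            apply Real.rpow_le_rpow_of_exponent_le hN1
            push_cast
            linarith
    · positivity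
    · positivity
  have hE4 : Eg C κ b J * AA (P2 J N) Y ^ 4 ≤ N / L ^ M := by
    have h6 : AA (P2 J N) Y ^ 4 ≤ (2 ^ k) ^ 4 * (N : ℝ) ^ (1 - δ / 64) := by
      calc AA (P2 J N) Y ^ 4 ≤ (2 ^ k * (N : ℝ) ^ (1 / 4 - δ / 256)) ^ 4 := by
            apply pow_le_pow_left₀ hAA0
            exact hAA.trans (mul_le_mul_of_nonneg_left hYle (by positivity))
        _ = (2 ^ k) ^ 4 * ((N : ℝ) ^ (1 / 4 - δ / 256)) ^ 4 := mul_pow _ _ _
        _ = _ := by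
            congr 1
            rw [← Real.rpow_natCast, ← Real.rpow_mul hN0.le]
            congr 1
            push_cast
            ring
    calc Eg C κ b J * AA (P2 J N) Y ^ 4 ≤
          (((C * (κ + 1) : ℕ) : ℝ) ^ (C * (κ + 1)) * (4 * L) * (N : ℝ) ^ (δ / 128)) *
          ((2 ^ k) ^ 4 * (N : ℝ) ^ (1 - δ / 64)) := mul_le_mul hEr h6 (by positivity) (by positivity)
      _ = (cE * L) * ((N : ℝ) ^ (δ / 128) * (N : ℝ) ^ (1 - δ / 64)) := by rw [hcE]; ring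
      _ = (cE * L) * (N : ℝ) ^ (1 - δ / 128) := by
          rw [← Real.rpow_add hN0]
          congr 2
          ring
      _ ≤ N / L ^ M := by
          rw [le_div_iff₀ (by positivity)]
          calc (cE * L) * (N : ℝ) ^ (1 - δ / 128) * L ^ M = (cE * L ^ (M + 1)) * (N : ℝ) ^ (1 - δ / 128) := by ring
            _ ≤ (N : ℝ) ^ (δ / 128) * (N : ℝ) ^ (1 - δ / 128) :=
                mul_le_mul_of_nonneg_right h1 (by positivity)
            _ = N := by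
                rw [← Real.rpow_add hN0]
                have : δ / 128 + (1 - δ / 128) = 1 := by ring
                rw [this, Real.rpow_one]
  exact ⟨J, Y, hY1, hzY, hY4, w2, hVL, hVg4, hUU, hsq, hkN, hAA1, hE4⟩

end Pool.Agent.L0h43.TB
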