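import Pool.Agent.L0h43.TB.Cnt
import Pool.Agent.L0h43.TA.Gal

/-!
# Averages of the local factors over a class modulo `W`
-/

set_option autoImplicit false

namespace Pool.Agent.L0h43.TB

open Finset Filter Topology Pool.Agent.H387R2 Pool.Agent.H386R2.HL
open Pool.Agent.L0h43.TA

/-- the distance of two natural numbers -/
def ds (a b : ℕ) : ℕ := (a - b) + (b - a)

lemma ds_pos {a b : ℕ} (h : a ≠ b) : 1 ≤ ds a b := by
  unfold ds
  omega

lemma ds_dvd {a b p : ℕ} : p ∣ ds a b ↔ a ≡ b [MOD p] := by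
  unfold ds
  rcases le_total a b with h | h
  · rw [Nat.sub_eq_zero_of_le h, zero_add, ← Nat.modEq_iff_dvd' h]
  · rw [Nat.sub_eq_zero_of_le h, add_zero, ← Nat.modEq_iff_dvd' h]
    exact ⟨fun h => h.symm, fun h => h.symm⟩

/-- the local factor -/
noncomputable def cf (p : ℕ) : ℝ := (1 - 1 / (p : ℝ))⁻¹

/-- the product of the local factors -/
noncomputable def mm (w J r n : ℕ) : ℝ := ∏ p ∈ (Pw w J).filter (fun p => p ∣ n), cf p ^ r

lemma cf_ge_one {p : ℕ} (hp : p.Prime) : 1 ≤ cf p := by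
  have h2 : (2 : ℝ) ≤ p := by exact_mod_cast hp.two_le
  unfold cf
  rw [one_le_inv₀]
  · have : 0 < 1 / (p : ℝ) := by positivity
    linarith
  · have : 1 / (p : ℝ) ≤ 1 / 2 := by
      apply div_le_div_of_nonneg_left (by norm_num) (by norm_num) h2
    linarith

lemma cf_ge2 {p : ℕ} (hp : 2 ≤ p) : 1 ≤ cf p := by
  have h2 : (2 : ℝ) ≤ p := by exact_mod_cast hp
  unfold cf
  rw [one_le_inv₀]
  · have : 0 < 1 / (p : ℝ) := by positivity
    linarith
  · have : 1 / (p : ℝ) ≤ 1 / 2 := by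
      apply div_le_div_of_nonneg_left (by norm_num) (by norm_num) h2
    linarith

lemma prod_cf (y : ℕ) (hy : 1 ≤ y) : ∏ p ∈ Icc 2 y, cf p = y := by
  induction y, hy using Nat.le_induction with
  | base => simp
  | succ y hy ih =>
    rw [prod_Icc_succ_top (by omega), ih]
    unfold cf
    have : (y : ℝ) ≠ 0 := by
      have : (1 : ℝ) ≤ y := by exact_mod_cast hy
      linarith
    have : (y : ℝ) + 1 ≠ 0 := by positivity
    push_cast
    have e : 1 - 1 / ((y : ℝ) + 1) = y / (y + 1) := by field_simp; ring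
    rw [e]
    field_simp

lemma cf_le {p : ℕ} (hp : p.Prime) : cf p ≤ 1 + 2 / p := by
  have h2 : (2 : ℝ) ≤ p := by exact_mod_cast hp.two_le
  unfold cf
  have h3 : 0 < 1 - 1 / (p : ℝ) := by
    have : 1 / (p : ℝ) ≤ 1 / 2 := by
      apply div_le_div_of_nonneg_left (by norm_num) (by norm_num) h2
    linarith
  rw [inv_le_iff_one_le_mul₀ h3]
  have hp0 : (0 : ℝ) < p := by linarith
  have e : (1 + 2 / (p : ℝ)) * (1 - 1 / p) = 1 + (1 / p) * (1 - 2 / p) := by field_simp; ring
  rw [e]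
  have : 0 ≤ 1 - 2 / (p : ℝ) := by
    rw [sub_nonneg, div_le_one hp0]; exact h2
  have : 0 ≤ 1 / (p : ℝ) * (1 - 2 / p) := by positivity
  linarith

lemma one_le_prodR {ι : Type*} (S : Finset ι) (f : ι → ℝ) (h : ∀ i ∈ S, 1 ≤ f i) : 1 ≤ ∏ i ∈ S, f i := by
  calc (1 : ℝ) = ∏ _i ∈ S, 1 := by rw [prod_const_one]
    _ ≤ _ := Finset.prod_le_prod (fun _ _ => zero_le_one) h

lemma mm_ge_one (w J r n : ℕ) : 1 ≤ mm w J r n := by
  unfold mm
  apply one_le_prodR
  intro p hp
  exact one_le_pow₀ (cf_ge_one (Pw_prime (mem_filter.1 hp).1))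

/-- `(1 + x) ^ r ≤ 1 + 2 ^ r x` on `[0, 1]` -/
lemma pow_lin (r : ℕ) {x : ℝ} (hx : 0 ≤ x) (hx1 : x ≤ 1) : (1 + x) ^ r ≤ 1 + 2 ^ r * x := by
  have key : (1 + x) ^ r ≤ 1 + (2 ^ r - 1) * x := by
    induction r with
    | zero => simp
    | succ r ih =>
      have h2 : (1 : ℝ) ≤ 2 ^ r := one_le_pow₀ (by norm_num)
      calc (1 + x) ^ (r + 1) = (1 + x) ^ r * (1 + x) := pow_succ _ _
        _ ≤ (1 + (2 ^ r - 1) * x) * (1 + x) := mul_le_mul_of_nonneg_right ih (by linarith)
        _ = 1 + (2 ^ r - 1) * x + x + ((2 ^ r - 1) * x) * x := by ring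
        _ ≤ 1 + (2 ^ r - 1) * x + x + ((2 ^ r - 1) * x) * 1 := by
            have : 0 ≤ (2 ^ r - 1) * x := mul_nonneg (by linarith) hx
            have := mul_le_mul_of_nonneg_left hx1 this
            linarith
        _ = 1 + (2 ^ (r + 1) - 1) * x := by rw [pow_succ]; ring
  refine key.trans ?_
  linarith

/-- elements of an interval in one class -/
lemma card_cls {F : Finset ℕ} {u H M : ℕ} (hF : F ⊆ Ioc u (u + H))
    (hc : ∀ x ∈ F, ∀ y ∈ F, x ≡ y [MOD M]) : F.card ≤ H / M + 1 := by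
  have h := card_le_card_of_injOn (s := F) (t := range (H / M + 1)) (fun x => (x - u - 1) / M)
    (by
      intro x hx
      have h1 := mem_Ioc.1 (hF hx)
      rw [mem_coe, mem_range]
      have h2 : (x - u - 1) / M ≤ H / M := Nat.div_le_div_right (by omega)
      show (x - u - 1) / M < H / M + 1
      omega)
    (by
      intro x hx y hy hxy
      rw [mem_coe] at hx hy
      have h1 := mem_Ioc.1 (hF hx)
      have h2 := mem_Ioc.1 (hF hy)
      simp only at hxy
      have h3 := hc x hx y hy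
      have h4 : (x - u - 1) ≡ (y - u - 1) [MOD M] := by
        apply Nat.ModEq.add_right_cancel' (u + 1)
        have e1 : x - u - 1 + (u + 1) = x := by omega
        have e2 : y - u - 1 + (u + 1) = y := by omega
        rw [e1, e2]
        exact h3
      unfold Nat.ModEq at h4
      have e1 := Nat.div_add_mod (x - u - 1) M
      have e2 := Nat.div_add_mod (y - u - 1) M
      rw [hxy, h4, e2] at e1
      omega)
  rwa [card_range] at h

/-- the shifts in the interval which keep the class coprime to `W` -/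
def Jv (W ν u H : ℕ) : Finset ℕ := (Ioc u (u + H)).filter (fun h => Nat.Coprime W (ν + h))

lemma Jv_dvd {W w J : ℕ} (hW1 : 0 < W) (hW : ∀ p : ℕ, p.Prime → (p ∣ W ↔ p ≤ w)) {D : Finset ℕ}
    (hD : D ⊆ Pw w J) (ν u H t : ℕ) :
    (((Jv W ν u H).filter (fun h => ∀ p ∈ D, p ∣ ds h t)).card : ℝ) ≤
      Nat.totient W * (H / (W * pd D) + 1) := by
  classical
  have hDp : Prs D := fun p hp => Pw_prime (hD hp)
  obtain ⟨P, hP⟩ : ∃ P, P = ∏ p ∈ D, p := ⟨_, rfl⟩
  have hP0 : 0 < P := by rw [hP]; exact prod_pos' hDp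
  have hWP : Nat.Coprime W P := by
    rw [hP]
    apply Nat.Coprime.prod_right
    intro q hq
    rw [Nat.coprime_comm, (hDp q hq).coprime_iff_not_dvd, hW q (hDp q hq)]
    have := Pw_gt (hD hq)
    omega
  set F := (Jv W ν u H).filter (fun h => ∀ p ∈ D, p ∣ ds h t) with hF
  have h1 := card_eq_sum_card_fiberwise (s := F) (t := (range W).filter (fun a => Nat.Coprime W a))
    (f := fun h => (ν + h) % W) (by
      intro h hh
      rw [mem_coe, hF, mem_filter] at hh
      unfold Jv at hh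
      rw [mem_filter] at hh
      rw [mem_coe, mem_filter, mem_range]
      refine ⟨Nat.mod_lt _ hW1, ?_⟩
      have := hh.1.2
      show Nat.Coprime W ((ν + h) % W)
      unfold Nat.Coprime at this ⊢
      rw [Nat.gcd_comm, ← Nat.gcd_rec]
      exact this)
  have h2 : ∀ a ∈ (range W).filter (fun a => Nat.Coprime W a),
      (F.filter (fun h => (ν + h) % W = a)).card ≤ H / (W * P) + 1 := by
    intro a _
    apply card_cls (u := u)
    · intro x hx
      rw [mem_filter, hF, mem_filter] at hx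
      unfold Jv at hx
      rw [mem_filter] at hx
      exact hx.1.1.1
    · intro x hx y hy
      rw [mem_filter, hF, mem_filter] at hx hy
      apply (Nat.modEq_and_modEq_iff_modEq_mul hWP).1
      constructor
      · have h3 : ν + x ≡ ν + y [MOD W] := by
          unfold Nat.ModEq
          rw [hx.2, hy.2]
        exact Nat.ModEq.add_left_cancel' ν h3
      · have h4 : P ∣ ds x t := by
          rw [hP]
          exact (prod_dvd_iff hDp _).2 hx.1.2
        have h5 : P ∣ ds y t := by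
          rw [hP]
          exact (prod_dvd_iff hDp _).2 hy.1.2
        exact (ds_dvd.1 h4).trans (ds_dvd.1 h5).symm
  have h3 : F.card ≤ Nat.totient W * (H / (W * P) + 1) := by
    rw [h1]
    refine (sum_le_sum h2).trans ?_
    rw [sum_const, smul_eq_mul, card_coprime]
  have h4 : (F.card : ℝ) ≤ Nat.totient W * (((H / (W * P) : ℕ) : ℝ) + 1) := by exact_mod_cast h3
  refine h4.trans ?_
  apply mul_le_mul_of_nonneg_left _ (Nat.cast_nonneg _)
  have h5 := Nat.cast_div_le (α := ℝ) (m := H) (n := W * P)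
  have h6 : ((W * P : ℕ) : ℝ) = W * pd D := by
    rw [Nat.cast_mul, hP, cast_prod]
  rw [h6] at h5
  linarith

/-- expansion of the product -/
lemma prod_exp (S : Finset ℕ) (c : ℕ → ℝ) (n : ℕ) :
    ∏ p ∈ S.filter (fun p => p ∣ n), (1 + c p) =
      ∑ D ∈ S.powerset, (∏ p ∈ D, c p) * (if ∀ p ∈ D, p ∣ n then 1 else 0) := by
  classical
  rw [prod_one_add, ← sum_filter_add_sum_filter_not S.powerset (fun D => ∀ p ∈ D, p ∣ n)]
  have h1 : ∑ D ∈ S.powerset.filter (fun D => ¬ ∀ p ∈ D, p ∣ n),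
      (∏ p ∈ D, c p) * (if ∀ p ∈ D, p ∣ n then (1 : ℝ) else 0) = 0 := by
    apply sum_eq_zero
    intro D hD
    rw [if_neg (mem_filter.1 hD).2, mul_zero]
  rw [h1, add_zero]
  apply sum_congr
  · ext D
    rw [mem_powerset, mem_filter, mem_powerset]
    constructor
    · intro h
      exact ⟨fun p hp => (mem_filter.1 (h hp)).1, fun p hp => (mem_filter.1 (h hp)).2⟩
    · rintro ⟨h1, h2⟩ p hp
      exact mem_filter.2 ⟨h1 hp, h2 p hp⟩
  · intro D hD
    rw [if_pos (mem_filter.1 hD).2, mul_one]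

/-- the small primes on average -/
lemma small_avg {W w J : ℕ} (hW1 : 0 < W) (hW : ∀ p : ℕ, p.Prime → (p ∣ W ↔ p ≤ w)) (hw : 1 ≤ w)
    (r y ν u H t : ℕ) (hy : 1 ≤ y) :
    ∑ h ∈ Jv W ν u H, ∏ p ∈ ((Pw w J).filter (fun p => p ≤ y)).filter (fun p => p ∣ ds h t), cf p ^ r ≤
      Nat.totient W * (H / W * Real.exp (2 ^ (r + 1) / w) + (y : ℝ) ^ r) := by
  classical
  set S := (Pw w J).filter (fun p => p ≤ y) with hS
  set c : ℕ → ℝ := fun p => cf p ^ r - 1 with hc
  have hSp : ∀ p ∈ S, p.Prime := fun p hp => Pw_prime (mem_filter.1 hp).1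
  have hc0 : ∀ p ∈ S, 0 ≤ c p := by
    intro p hp
    have := one_le_pow₀ (cf_ge_one (hSp p hp)) (n := r)
    rw [hc]; simp only; linarith
  have h1 : ∀ h ∈ Jv W ν u H, ∏ p ∈ S.filter (fun p => p ∣ ds h t), cf p ^ r =
      ∑ D ∈ S.powerset, (∏ p ∈ D, c p) * (if ∀ p ∈ D, p ∣ ds h t then 1 else 0) := by
    intro h _
    rw [← prod_exp]
    apply prod_congr rfl
    intro p _
    rw [hc]; ring
  rw [sum_congr rfl h1, sum_comm]
  have h2 : ∀ D ∈ S.powerset, ∑ h ∈ Jv W ν u H, (∏ p ∈ D, c p) * (if ∀ p ∈ D, p ∣ ds h t then (1 : ℝ) else 0) ≤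
      (∏ p ∈ D, c p) * (Nat.totient W * (H / (W * pd D) + 1)) := by
    intro D hD
    rw [mem_powerset] at hD
    rw [← mul_sum]
    apply mul_le_mul_of_nonneg_left _ (prod_nonneg fun p hp => hc0 p (hD hp))
    rw [sum_boole]
    exact Jv_dvd hW1 hW (hD.trans (filter_subset _ _)) ν u H t
  refine (sum_le_sum h2).trans ?_
  have h3 : ∑ D ∈ S.powerset, (∏ p ∈ D, c p) * (Nat.totient W * ((H : ℝ) / (W * pd D) + 1)) =
      Nat.totient W * (H / W * ∏ p ∈ S, (1 + c p / p) + ∏ p ∈ S, (1 + c p)) := by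
    rw [prod_one_add, prod_one_add, mul_sum, ← sum_add_distrib, mul_sum]
    apply sum_congr rfl
    intro D _
    unfold pd
    rw [prod_div_distrib, mul_comm (W : ℝ), ← div_div]
    ring
  rw [h3]
  apply mul_le_mul_of_nonneg_left _ (Nat.cast_nonneg _)
  have hW0 : (0 : ℝ) < W := by exact_mod_cast hW1
  apply add_le_add
  · apply mul_le_mul_of_nonneg_left _ (by positivity)
    have h4 : ∏ p ∈ S, (1 + c p / p) ≤ ∏ p ∈ S, Real.exp (2 ^ (r + 1) * ((p : ℝ) ^ 2)⁻¹) := by
      apply Finset.prod_le_prod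
      · intro p hp
        have := hc0 p hp
        positivity
      · intro p hp
        have h5 := cf_le (hSp p hp)
        have hp2 : (2 : ℝ) ≤ p := by exact_mod_cast (hSp p hp).two_le
        have hp0 : (0 : ℝ) < p := by linarith
        have h6 : cf p ^ r ≤ 1 + 2 ^ r * (2 / p) := by
          refine (pow_le_pow_left₀ (by linarith [cf_ge_one (hSp p hp)]) h5 r).trans ?_
          apply pow_lin r (by positivity)
          rw [div_le_one hp0]; exact hp2
        have h7 : c p / p ≤ 2 ^ (r + 1) * ((p : ℝ) ^ 2)⁻¹ := by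
          rw [div_le_iff₀ hp0]
          have e : 2 ^ (r + 1) * ((p : ℝ) ^ 2)⁻¹ * p = 2 ^ r * (2 / p) := by
            field_simp
            ring
          rw [e, hc]
          simp only
          linarith
        have h8 := Real.add_one_le_exp (2 ^ (r + 1) * ((p : ℝ) ^ 2)⁻¹)
        linarith
    refine h4.trans ?_
    rw [← Real.exp_sum, ← mul_sum]
    apply Real.exp_le_exp.2
    have h5 := Pool.Agent.Helper22K9.Trp.sum_inv_sq_gt hw S (fun p hp => Pw_gt (mem_filter.1 hp).1)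
    calc 2 ^ (r + 1) * ∑ p ∈ S, ((p : ℝ) ^ 2)⁻¹ ≤ 2 ^ (r + 1) * (1 / w) :=
          mul_le_mul_of_nonneg_left h5 (by positivity)
      _ = _ := by ring
  · have h4 : ∏ p ∈ S, (1 + c p) = (∏ p ∈ S, cf p) ^ r := by
      rw [← prod_pow]
      apply prod_congr rfl
      intro p _
      rw [hc]; ring
    rw [h4]
    apply pow_le_pow_left₀ (prod_nonneg fun p hp => by linarith [cf_ge_one (hSp p hp)])
    have h5 : S ⊆ Icc 2 y := by
      intro p hp
      rw [mem_Icc]
      exact ⟨(hSp p hp).two_le, (mem_filter.1 hp).2⟩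
    have h6 : ∏ p ∈ S, cf p ≤ ∏ p ∈ Icc 2 y, cf p := by
      rw [← prod_sdiff h5]
      have h7 : 1 ≤ ∏ p ∈ Icc 2 y \ S, cf p := by
        apply one_le_prodR
        intro p hp
        exact cf_ge2 (mem_Icc.1 (mem_sdiff.1 hp).1).1
      exact le_mul_of_one_le_left (prod_nonneg fun p hp => by linarith [cf_ge_one (hSp p hp)]) h7
    exact h6.trans (le_of_eq (prod_cf y hy))

lemma mm_le (w J r y : ℕ) {n : ℕ} (hn : 1 ≤ n) : mm w J r n ≤
    (∏ p ∈ ((Pw w J).filter (fun p => p ≤ y)).filter (fun p => p ∣ n), cf p ^ r) * tt y n ^ r := by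
  classical
  unfold mm
  have h1 : (Pw w J).filter (fun p => p ∣ n) = ((Pw w J).filter (fun p => p ≤ y)).filter (fun p => p ∣ n) ∪
      ((Pw w J).filter (fun p => p ∣ n)).filter (fun p => y < p) := by
    ext p
    simp only [mem_union, mem_filter]
    constructor
    · rintro ⟨a, b⟩
      rcases Nat.lt_or_ge y p with h | h
      · right; exact ⟨⟨a, b⟩, h⟩
      · left; exact ⟨⟨a, h⟩, b⟩
    · rintro (⟨⟨a, _⟩, b⟩ | ⟨⟨a, b⟩, _⟩)
      · exact ⟨a, b⟩
      · exact ⟨a, b⟩
  have h2 : Disjoint (((Pw w J).filter (fun p => p ≤ y)).filter (fun p => p ∣ n))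
      (((Pw w J).filter (fun p => p ∣ n)).filter (fun p => y < p)) := by
    rw [disjoint_left]
    intro p hp hp2
    simp only [mem_filter] at hp hp2
    omega
  rw [h1, prod_union h2]
  apply mul_le_mul_of_nonneg_left
  · unfold tt
    rw [← prod_pow]
    have h3 : ((Pw w J).filter (fun p => p ∣ n)).filter (fun p => y < p) ⊆
        n.primeFactors.filter (fun p => y < p) := by
      intro p hp
      simp only [mem_filter] at hp
      rw [mem_filter, Nat.mem_primeFactors]
      exact ⟨⟨Pw_prime hp.1.1, hp.1.2, by omega⟩, hp.2⟩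
    rw [← prod_sdiff h3]
    have h4 : 1 ≤ ∏ p ∈ n.primeFactors.filter (fun p => y < p) \
        ((Pw w J).filter (fun p => p ∣ n)).filter (fun p => y < p), (1 - 1 / (p : ℝ))⁻¹ ^ r := by
      apply one_le_prodR
      intro p hp
      have h5 := (mem_filter.1 (mem_sdiff.1 hp).1).1
      exact one_le_pow₀ (cf_ge_one (Nat.prime_of_mem_primeFactors h5))
    apply le_mul_of_one_le_left _ h4
    apply prod_nonneg
    intro p hp
    have := cf_ge_one (Pw_prime (mem_filter.1 (mem_filter.1 hp).1).1)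
    positivity
  · apply prod_nonneg
    intro p hp
    have := cf_ge_one (Pw_prime (mem_filter.1 (mem_filter.1 hp).1).1)
    positivity

/-- **the local factors are `1` on average over the shifts in a class modulo `W`** -/
theorem m_avg (r : ℕ) (δ : ℝ) (hδ : 0 < δ) : ∃ w0 : ℕ, 1 ≤ w0 ∧ ∀ w : ℕ, w0 ≤ w → ∀ W : ℕ, 0 < W →
    (∀ p : ℕ, p.Prime → (p ∣ W ↔ p ≤ w)) → ∀ A : ℝ, 0 ≤ A → ∃ H0 : ℕ, ∀ H : ℕ, H0 ≤ H → ∀ J ν u t : ℕ,
      (∀ h ∈ Ioc u (u + H), (ds h t : ℝ) ≤ (H : ℝ) ^ A) →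
      ∑ h ∈ (Jv W ν u H).filter (fun h => h ≠ t), (mm w J r (ds h t) - 1) ≤
        δ * ((Nat.totient W : ℝ) / W * H) := by
  obtain ⟨w0, hw0⟩ : ∃ w0 : ℕ, ∀ w : ℕ, w0 ≤ w → Real.exp (2 ^ (r + 1) / (w : ℝ)) ≤ 1 + δ / 2 := by
    have t1 : Tendsto (fun w : ℕ => Real.exp (2 ^ (r + 1) / (w : ℝ))) atTop (𝓝 (Real.exp 0)) :=
      (Real.continuous_exp.tendsto 0).comp (tendsto_natCast_atTop_atTop.const_div_atTop _)
    have h1 : Real.exp 0 < 1 + δ / 2 := by rw [Real.exp_zero]; linarith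
    obtain ⟨w0, h2⟩ := eventually_atTop.1 (t1.eventually_lt_const h1)
    exact ⟨w0, fun w hw => (h2 w hw).le⟩
  refine ⟨max w0 1, le_max_right _ _, ?_⟩
  intro w hw W hW1 hW A hA
  have hE := hw0 w ((le_max_left _ _).trans hw)
  have hw1 : 1 ≤ w := (le_max_right _ _).trans hw
  set E := Real.exp (2 ^ (r + 1) / (w : ℝ)) with hEdef
  have hW0 : (0 : ℝ) < W := by exact_mod_cast hW1
  have tD : Tendsto (fun D : ℕ => (D : ℝ)) atTop atTop := tendsto_natCast_atTop_atTop
  have tL : Tendsto (fun D : ℕ => Real.log (D : ℝ)) atTop atTop := Real.tendsto_log_atTop.comp tD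
  have ty : Tendsto (fun D : ℕ => ⌊Real.log (D : ℝ)⌋₊) atTop atTop := tendsto_nat_floor_atTop.comp tL
  have tly : Tendsto (fun D : ℕ => Real.log ((⌊Real.log (D : ℝ)⌋₊ : ℕ) : ℝ)) atTop atTop :=
    Real.tendsto_log_atTop.comp (tendsto_natCast_atTop_atTop.comp ty)
  have t1 : Tendsto (fun D : ℕ => Real.exp (4 * A / Real.log ((⌊Real.log (D : ℝ)⌋₊ : ℕ) : ℝ)) ^ r) atTop
      (𝓝 (Real.exp 0 ^ r)) := by
    apply Tendsto.pow
    exact (Real.continuous_exp.tendsto 0).comp (tly.const_div_atTop _)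
  have t2 : Tendsto (fun D : ℕ => Real.log (D : ℝ) ^ r / (D : ℝ)) atTop (𝓝 0) :=
    ((Real.isLittleO_pow_log_id_atTop (n := r)).tendsto_div_nhds_zero).comp tD
  have t3 : Tendsto (fun D : ℕ => (2 : ℝ) / (D : ℝ)) atTop (𝓝 0) := tD.const_div_atTop 2
  have t4 : Tendsto (fun D : ℕ => Real.exp (4 * A / Real.log ((⌊Real.log (D : ℝ)⌋₊ : ℕ) : ℝ)) ^ r *
      (E + Real.log (D : ℝ) ^ r / (D : ℝ) * W) + 2 / (D : ℝ) * W) atTop (𝓝 (Real.exp 0 ^ r * (E + 0 * W) + 0 * W)) :=
    (t1.mul ((t2.mul_const _).const_add _)).add (t3.mul_const _)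
  have h1 : Real.exp 0 ^ r * (E + 0 * W) + 0 * W < 1 + δ := by
    rw [Real.exp_zero, one_pow]; linarith
  obtain ⟨H0, hH0⟩ := eventually_atTop.1 ((t4.eventually_lt_const h1).and ((ty.eventually_ge_atTop 2).and
    (eventually_ge_atTop 1)))
  refine ⟨H0, ?_⟩
  intro H hH J ν u t hd
  obtain ⟨h2, h3, h4⟩ := hH0 H hH
  obtain ⟨y, hy⟩ : ∃ y : ℕ, y = ⌊Real.log (H : ℝ)⌋₊ := ⟨_, rfl⟩
  rw [← hy] at h2 h3
  have hH1 : (1 : ℝ) ≤ H := by exact_mod_cast h4
  have hHpos : (0 : ℝ) < H := by linarith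
  have hL0 : 0 ≤ Real.log (H : ℝ) := Real.log_nonneg hH1
  have hy2 : (2 : ℝ) ≤ y := by exact_mod_cast h3
  have hlogy : 0 < Real.log y := Real.log_pos (by linarith)
  have hyL : (y : ℝ) ≤ Real.log H := by rw [hy]; exact Nat.floor_le (by positivity)
  have hyL2 : Real.log H ≤ 2 * y := by
    have : Real.log H < y + 1 := by rw [hy]; exact Nat.lt_floor_add_one _
    linarith
  set K := Real.exp (4 * A / Real.log y) with hK
  have hK1 : 1 ≤ K := Real.one_le_exp (by positivity)
  set Rf := (Jv W ν u H).filter (fun h => h ≠ t) with hRf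
  have h5 : ∀ h ∈ Rf, mm w J r (ds h t) ≤
      (∏ p ∈ ((Pw w J).filter (fun p => p ≤ y)).filter (fun p => p ∣ ds h t), cf p ^ r) * K ^ r := by
    intro h hh
    rw [hRf, mem_filter] at hh
    have hd1 := ds_pos hh.2
    have hI : h ∈ Ioc u (u + H) := by
      have := hh.1
      unfold Jv at this
      exact (mem_filter.1 this).1
    refine (mm_le w J r y hd1).trans ?_
    apply mul_le_mul_of_nonneg_left
    · apply pow_le_pow_left₀ (zero_le_one.trans (one_le_tt _ _))
      refine (Uni.tt_le y (ds h t) h3 hd1).trans (Real.exp_le_exp.2 ?_)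
      rw [div_le_div_iff₀ (by positivity) hlogy]
      have h6 : Real.log (ds h t) ≤ A * Real.log H := by
        have := Real.log_le_log (by exact_mod_cast hd1) (hd h hI)
        rwa [Real.log_rpow hHpos] at this
      have h7 : A * Real.log H ≤ A * (2 * y) := mul_le_mul_of_nonneg_left hyL2 hA
      calc 2 * Real.log (ds h t) * Real.log y ≤ 2 * (A * (2 * y)) * Real.log y := by
            apply mul_le_mul_of_nonneg_right _ hlogy.le
            linarith
        _ = 4 * A * (y * Real.log y) := by ring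
    · apply prod_nonneg
      intro p hp
      have := cf_ge_one (Pw_prime (mem_filter.1 (mem_filter.1 hp).1).1)
      positivity
  have h6 := small_avg (J := J) hW1 hW hw1 r y ν u H t (by omega)
  have h7 : ∑ h ∈ Rf, mm w J r (ds h t) ≤ (Nat.totient W * (H / W * E + (y : ℝ) ^ r)) * K ^ r := by
    refine (sum_le_sum h5).trans ?_
    rw [← sum_mul]
    apply mul_le_mul_of_nonneg_right _ (by positivity)
    refine le_trans ?_ h6
    apply sum_le_sum_of_subset_of_nonneg (filter_subset _ _)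
    intro h _ _
    apply prod_nonneg
    intro p hp
    have := cf_ge_one (Pw_prime (mem_filter.1 (mem_filter.1 hp).1).1)
    positivity
  have hφ1 : (1 : ℝ) ≤ Nat.totient W := by exact_mod_cast Nat.totient_pos.2 hW1
  have h8 : (Nat.totient W : ℝ) * (H / W - 1) - 1 ≤ (Rf.card : ℝ) := by
    have h9 := cop_low W ν u H hW1
    have h10 : (Jv W ν u H).card ≤ Rf.card + 1 := by
      have h11 : Jv W ν u H ⊆ insert t Rf := by
        intro h hh
        rw [mem_insert, hRf, mem_filter]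
        by_cases e : h = t
        · left; exact e
        · right; exact ⟨hh, e⟩
      exact (card_le_card h11).trans (card_insert_le _ _)
    have h12 : ((Jv W ν u H).card : ℝ) ≤ (Rf.card : ℝ) + 1 := by exact_mod_cast h10
    unfold Jv at h12
    linarith
  rw [sum_sub_distrib, sum_const, nsmul_eq_mul, mul_one]
  have h9 : (Nat.totient W * (H / W * E + (y : ℝ) ^ r)) * K ^ r - (Nat.totient W * (H / W - 1) - 1) ≤
      δ * ((Nat.totient W : ℝ) / W * H) := by
    have h10 : (y : ℝ) ^ r ≤ Real.log H ^ r := pow_le_pow_left₀ (by positivity) hyL r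
    have h11 : K ^ r * (E + Real.log H ^ r / H * W) + 2 / H * W ≤ 1 + δ := h2.le
    have h12 := mul_le_mul_of_nonneg_left h11 (show 0 ≤ (Nat.totient W : ℝ) / W * H by positivity)
    have e1 : (Nat.totient W : ℝ) / W * H * (K ^ r * (E + Real.log H ^ r / H * W) + 2 / H * W) =
        (Nat.totient W * (H / W * E + Real.log H ^ r)) * K ^ r + 2 * Nat.totient W := by
      field_simp
    rw [e1] at h12
    have h13 : (Nat.totient W * (H / W * E + (y : ℝ) ^ r)) * K ^ r ≤
        (Nat.totient W * (H / W * E + Real.log H ^ r)) * K ^ r := by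
      apply mul_le_mul_of_nonneg_right _ (by positivity)
      apply mul_le_mul_of_nonneg_left _ (Nat.cast_nonneg _)
      linarith
    have e2 : (Nat.totient W : ℝ) / W * H * (1 + δ) = Nat.totient W * (H / W) + δ * ((Nat.totient W : ℝ) / W * H) := by
      ring
    rw [e2] at h12
    have e3 : (Nat.totient W : ℝ) * (H / W - 1) - 1 = Nat.totient W * (H / W) - Nat.totient W - 1 := by ring
    rw [e3]
    linarith
  linarith

end Pool.Agent.L0h43.TB
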