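import Pool.Agent.L0h43.TB.Sing

/-!
# The densities of `T ∪ {h}` and `T ∪ {h1, h2}`
-/

set_option autoImplicit false

namespace Pool.Agent.L0h43.TB

open Finset Filter Topology Pool.Agent.H387R2 Pool.Agent.H386R2.HL
open Pool.Agent.L0h43.TA

/-- the density of the rough numbers -/
noncomputable def V1w (w J : ℕ) : ℝ := ∏ p ∈ Pw w J, (1 - 1 / (p : ℝ))

lemma fac_pos {p : ℕ} (hp : p.Prime) : 0 < 1 - 1 / (p : ℝ) := by
  have h2 : (2 : ℝ) ≤ p := by exact_mod_cast hp.two_le
  have : 1 / (p : ℝ) ≤ 1 / 2 := by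
    apply div_le_div_of_nonneg_left (by norm_num) (by norm_num) h2
  linarith

lemma V1w_pos (w J : ℕ) : 0 < V1w w J := by
  unfold V1w
  exact prod_pos fun p hp => fac_pos (Pw_prime hp)

lemma pmean {ι : Type*} (D : Finset ι) (x : ι → ℝ) (r : ℕ) (hx : ∀ i ∈ D, 1 ≤ x i) (hr : D.card ≤ r) :
    ∏ i ∈ D, x i ≤ 1 + ∑ i ∈ D, (x i ^ r - 1) := by
  rcases D.eq_empty_or_nonempty with rfl | hne
  · simp
  · obtain ⟨m, hm, hmax⟩ := exists_max_image D x hne
    have h1 : ∏ i ∈ D, x i ≤ ∏ _i ∈ D, x m :=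
      Finset.prod_le_prod (fun i hi => by linarith [hx i hi]) (fun i hi => hmax i hi)
    rw [prod_const] at h1
    have h2 : x m ^ D.card ≤ x m ^ r := pow_le_pow_right₀ (hx m hm) hr
    have h3 : x m ^ r - 1 ≤ ∑ i ∈ D, (x i ^ r - 1) := by
      apply single_le_sum (f := fun i => x i ^ r - 1) _ hm
      intro i hi
      have := one_le_pow₀ (hx i hi) (n := r)
      linarith
    linarith

lemma mm_pow (w J a r n : ℕ) : mm w J a n ^ r = mm w J (a * r) n := by
  unfold mm
  rw [← prod_pow]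
  apply prod_congr rfl
  intro p _
  rw [pow_mul]

open Classical in
lemma bad_le (w J r : ℕ) (D : Finset (ℕ × ℕ)) (hr : D.card ≤ r) :
    ∏ p ∈ (Pw w J).filter (fun p => ∃ d ∈ D, p ∣ ds d.1 d.2), cf p ^ 2 ≤
      1 + ∑ d ∈ D, (mm w J (2 * r) (ds d.1 d.2) - 1) := by
  have h1 : ∏ p ∈ (Pw w J).filter (fun p => ∃ d ∈ D, p ∣ ds d.1 d.2), cf p ^ 2 ≤
      ∏ d ∈ D, mm w J 2 (ds d.1 d.2) := by
    have e : ∏ d ∈ D, mm w J 2 (ds d.1 d.2) =
        ∏ p ∈ Pw w J, ∏ d ∈ D, (if p ∣ ds d.1 d.2 then cf p ^ 2 else 1) := by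
      rw [Finset.prod_comm]
      apply prod_congr rfl
      intro d _
      unfold mm
      rw [prod_filter]
    rw [e, prod_filter]
    apply Finset.prod_le_prod
    · intro p hp
      have := cf_ge_one (Pw_prime hp)
      split_ifs <;> positivity
    · intro p hp
      have h2 := cf_ge_one (Pw_prime hp)
      have h3 : 1 ≤ cf p ^ 2 := one_le_pow₀ h2
      have h4 : ∀ d ∈ D, 1 ≤ (if p ∣ ds d.1 d.2 then cf p ^ 2 else 1) := by
        intro d _
        split_ifs
        · exact h3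
        · exact le_rfl
      split_ifs with h
      · obtain ⟨d, hd, hdv⟩ := h
        rw [← mul_prod_erase D _ hd, if_pos hdv]
        apply le_mul_of_one_le_right (by positivity)
        apply one_le_prodR
        intro i hi
        exact h4 i (mem_of_mem_erase hi)
      · exact one_le_prodR _ _ h4
  refine h1.trans ((pmean D _ r (fun d _ => mm_ge_one _ _ _ _) hr).trans (le_of_eq ?_))
  congr 1
  apply sum_congr rfl
  intro d _
  rw [mm_pow]

lemma nuT_ins_le (T : Finset ℕ) (h p : ℕ) : Uni.nuT (insert h T) p ≤ Uni.nuT T p + 1 := by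
  unfold Uni.nuT
  rw [image_insert]
  exact card_insert_le _ _

lemma nuT_le_ins (T : Finset ℕ) (h p : ℕ) : Uni.nuT T p ≤ Uni.nuT (insert h T) p := by
  unfold Uni.nuT
  apply card_le_card
  exact image_subset_image (subset_insert _ _)

lemma nuT_ins_eq (T : Finset ℕ) (h p : ℕ) (hh : ∀ t ∈ T, ¬ p ∣ ds h t) :
    Uni.nuT (insert h T) p = Uni.nuT T p + 1 := by
  unfold Uni.nuT
  rw [image_insert, card_insert_of_notMem]
  rw [mem_image]
  rintro ⟨t, ht, he⟩
  apply hh t ht
  rw [ds_dvd]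
  exact he.symm

lemma prod_one_sub_ge {ι : Type*} (S : Finset ι) (x : ι → ℝ) (h0 : ∀ i ∈ S, 0 ≤ x i) (h1 : ∀ i ∈ S, x i ≤ 1) :
    1 - ∑ i ∈ S, x i ≤ ∏ i ∈ S, (1 - x i) := by
  classical
  induction S using Finset.induction_on with
  | empty => simp
  | insert a S ha ih =>
    rw [sum_insert ha, prod_insert ha]
    have h2 := ih (fun i hi => h0 i (mem_insert_of_mem hi)) (fun i hi => h1 i (mem_insert_of_mem hi))
    have h3 := h0 a (mem_insert_self _ _)
    have h4 := h1 a (mem_insert_self _ _)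
    have h5 : ∏ i ∈ S, (1 - x i) ≤ 1 := by
      apply prod_le_one
      · intro i hi; linarith [h1 i (mem_insert_of_mem hi)]
      · intro i hi; linarith [h0 i (mem_insert_of_mem hi)]
    have h6 : 0 ≤ ∏ i ∈ S, (1 - x i) := by
      apply prod_nonneg
      intro i hi; linarith [h1 i (mem_insert_of_mem hi)]
    nlinarith

/-- lower bound for one more shift -/
lemma Vw_low {w J : ℕ} (T : Finset ℕ) (h : ℕ) (hw : 4 * (T.card + 1) ≤ w) :
    (1 - 4 * T.card / w) * (Vw w J T * V1w w J) ≤ Vw w J (insert h T) := by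
  have hw1 : 1 ≤ w := by omega
  have hw0 : (0 : ℝ) < w := by exact_mod_cast hw1
  have key : ∀ p ∈ Pw w J, (1 - 4 * T.card * ((p : ℝ) ^ 2)⁻¹) * ((1 - (Uni.nuT T p : ℝ) / p) * (1 - 1 / (p : ℝ))) ≤
      1 - (Uni.nuT (insert h T) p : ℝ) / p ∧ 0 ≤ 1 - 4 * T.card * ((p : ℝ) ^ 2)⁻¹ ∧
      0 ≤ (1 - (Uni.nuT T p : ℝ) / p) * (1 - 1 / (p : ℝ)) := by
    intro p hp
    have hpp := Pw_prime hp
    have hpw := Pw_gt hp
    have hp0 : (0 : ℝ) < p := by exact_mod_cast hpp.pos
    have hpw' : (4 * (T.card + 1) : ℝ) ≤ p := by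
      have : 4 * (T.card + 1) ≤ p := by omega
      exact_mod_cast this
    have h1 : (Uni.nuT (insert h T) p : ℝ) ≤ Uni.nuT T p + 1 := by exact_mod_cast nuT_ins_le T h p
    have h2 : (Uni.nuT T p : ℝ) ≤ T.card := by exact_mod_cast nuT_le_card T p
    have h20 : (0 : ℝ) ≤ Uni.nuT T p := Nat.cast_nonneg _
    set a : ℝ := (Uni.nuT T p : ℝ) with ha
    set q : ℝ := 1 / (p : ℝ) with hq
    have hq0 : 0 < q := by rw [hq]; positivity
    have e1 : a / p = a * q := by rw [hq]; ring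
    have e2 : ((p : ℝ) ^ 2)⁻¹ = q ^ 2 := by rw [hq]; field_simp
    have h3 : (a + 1) * q ≤ 1 / 4 := by
      rw [hq, mul_one_div, div_le_iff₀ hp0]
      linarith
    have h4 : (T.card : ℝ) * q ≤ 1 / 4 := by
      rw [hq, mul_one_div, div_le_iff₀ hp0]
      linarith
    have h5 : 1 - (a + 1) * q ≤ 1 - (Uni.nuT (insert h T) p : ℝ) / p := by
      have : (Uni.nuT (insert h T) p : ℝ) / p ≤ (a + 1) / p := div_le_div_of_nonneg_right h1 hp0.le
      have e3 : (a + 1) / p = (a + 1) * q := by rw [hq]; ring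
      linarith
    rw [e1, e2]
    have h6 : a * q ^ 2 ≤ T.card * q ^ 2 := mul_le_mul_of_nonneg_right h2 (by positivity)
    have hq1 : q ≤ 1 / 4 := by nlinarith
    refine ⟨?_, ?_, ?_⟩
    · refine le_trans ?_ h5
      have e4 : (1 - a * q) * (1 - q) = (1 - (a + 1) * q) + a * q ^ 2 := by ring
      rw [e4]
      set X : ℝ := 1 - (a + 1) * q with hX
      have hX4 : 3 / 4 ≤ X := by linarith
      have hc0 : 0 ≤ (T.card : ℝ) * q ^ 2 := by positivity
      have ha0 : 0 ≤ a * q ^ 2 := by positivity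
      have h7 : (T.card : ℝ) * q ^ 2 * (3 / 4) ≤ T.card * q ^ 2 * X := mul_le_mul_of_nonneg_left hX4 hc0
      have e5 : (1 - 4 * T.card * q ^ 2) * (X + a * q ^ 2) =
          X + a * q ^ 2 - 4 * (T.card * q ^ 2 * X) - 4 * (T.card * q ^ 2 * (a * q ^ 2)) := by ring
      rw [e5]
      have h8 : 0 ≤ (T.card : ℝ) * q ^ 2 * (a * q ^ 2) := mul_nonneg hc0 ha0
      linarith
    · have h7 : (T.card : ℝ) * q ^ 2 ≤ 1 / 4 * (1 / 4) := by
        calc (T.card : ℝ) * q ^ 2 = T.card * q * q := by ring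
          _ ≤ 1 / 4 * (1 / 4) := mul_le_mul h4 hq1 hq0.le (by norm_num)
      linarith
    · apply mul_nonneg
      · have : a * q ≤ (a + 1) * q := mul_le_mul_of_nonneg_right (by linarith) hq0.le
        linarith
      · linarith
  have h1 : (∏ p ∈ Pw w J, (1 - 4 * T.card * ((p : ℝ) ^ 2)⁻¹)) * (Vw w J T * V1w w J) ≤ Vw w J (insert h T) := by
    unfold Vw V1w
    rw [← prod_mul_distrib, ← prod_mul_distrib]
    apply Finset.prod_le_prod
    · intro p hp
      exact mul_nonneg (key p hp).2.1 (key p hp).2.2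
    · intro p hp
      exact (key p hp).1
  refine le_trans ?_ h1
  apply mul_le_mul_of_nonneg_right _ (mul_nonneg (Vw_nonneg _ _ _) (V1w_pos _ _).le)
  refine le_trans ?_ (prod_one_sub_ge _ _ (fun p _ => by positivity) (fun p hp => by linarith [(key p hp).2.1]))
  rw [← mul_sum]
  have h2 := Pool.Agent.Helper22K9.Trp.sum_inv_sq_gt hw1 (Pw w J) (fun p hp => Pw_gt hp)
  have h3 := mul_le_mul_of_nonneg_left h2 (show (0 : ℝ) ≤ 4 * T.card by positivity)
  have e : (4 : ℝ) * T.card / w = 4 * T.card * (1 / w) := by ring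
  rw [e]
  linarith

open Classical in
/-- upper bound for one more shift -/
lemma Vw_up1 {w J : ℕ} (T : Finset ℕ) (h : ℕ) (r : ℕ) (hr : T.card ≤ r) :
    Vw w J (insert h T) ≤ Vw w J T * V1w w J * (1 + ∑ t ∈ T, (mm w J (2 * r) (ds h t) - 1)) := by
  set D : Finset (ℕ × ℕ) := T.image (fun t => (h, t)) with hD
  have h1 : Vw w J (insert h T) ≤ Vw w J T * V1w w J *
      ∏ p ∈ (Pw w J).filter (fun p => ∃ d ∈ D, p ∣ ds d.1 d.2), cf p ^ 2 := by
    unfold Vw V1w
    rw [prod_filter, ← prod_mul_distrib, ← prod_mul_distrib]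
    apply Finset.prod_le_prod
    · intro p hp
      have hp0 : (0 : ℝ) < p := by exact_mod_cast (Pw_prime hp).pos
      rw [sub_nonneg, div_le_one hp0]
      exact_mod_cast nuT_le_self _ (Pw_prime hp).pos
    · intro p hp
      have hpp := Pw_prime hp
      have hp0 : (0 : ℝ) < p := by exact_mod_cast hpp.pos
      have hf := fac_pos hpp
      have hν : 0 ≤ 1 - (Uni.nuT T p : ℝ) / p := by
        rw [sub_nonneg, div_le_one hp0]
        exact_mod_cast nuT_le_self _ hpp.pos
      split_ifs with hb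
      · have h2 : (Uni.nuT T p : ℝ) ≤ Uni.nuT (insert h T) p := by exact_mod_cast nuT_le_ins T h p
        have h3 : 1 - (Uni.nuT (insert h T) p : ℝ) / p ≤ 1 - (Uni.nuT T p : ℝ) / p := by
          have := div_le_div_of_nonneg_right h2 hp0.le
          linarith
        refine h3.trans ?_
        have h4 : 1 ≤ (1 - 1 / (p : ℝ)) * cf p ^ 2 := by
          have e : (1 - 1 / (p : ℝ)) * cf p ^ 2 = cf p := by
            unfold cf
            field_simp
          rw [e]; exact cf_ge_one hpp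
        rw [mul_assoc]
        exact le_mul_of_one_le_right hν h4
      · have h2 : Uni.nuT (insert h T) p = Uni.nuT T p + 1 := by
          apply nuT_ins_eq
          intro t ht hd
          apply hb
          exact ⟨(h, t), mem_image.2 ⟨t, ht, rfl⟩, hd⟩
        rw [h2, mul_one]
        push_cast
        have e : (1 - (Uni.nuT T p : ℝ) / p) * (1 - 1 / (p : ℝ)) = 1 - ((Uni.nuT T p : ℝ) + 1) / p +
            (Uni.nuT T p : ℝ) / p * (1 / p) := by ring
        rw [e]
        have : 0 ≤ (Uni.nuT T p : ℝ) / p * (1 / p) := by positivity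
        linarith
  refine h1.trans ?_
  apply mul_le_mul_of_nonneg_left _ (mul_nonneg (Vw_nonneg _ _ _) (V1w_pos _ _).le)
  refine (bad_le w J r D (by rw [hD]; exact card_image_le.trans hr)).trans (le_of_eq ?_)
  rw [hD, sum_image]
  intro a _ b _ hab
  exact (Prod.mk.inj hab).2

lemma fac2 {a q : ℝ} (ha : 0 ≤ a) (hq : 0 ≤ q) (haq : a * q ≤ 1) : 1 - (a + 2) * q ≤ (1 - a * q) * ((1 - q) * (1 - q)) := by
  have e : (1 - a * q) * ((1 - q) * (1 - q)) = 1 - (a + 2) * q + (2 * (a * q) * q + q ^ 2 * (1 - a * q)) := by ring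
  rw [e]
  have h1 : 0 ≤ 2 * (a * q) * q := by positivity
  have h2 : 0 ≤ q ^ 2 * (1 - a * q) := mul_nonneg (sq_nonneg _) (by linarith)
  linarith

open Classical in
/-- upper bound for two more shifts -/
lemma Vw_up2 {w J : ℕ} (T : Finset ℕ) (h1 h2 : ℕ) (r : ℕ) (hr : 2 * T.card + 1 ≤ r) :
    Vw w J (insert h1 (insert h2 T)) ≤ Vw w J T * V1w w J ^ 2 * (1 + ((mm w J (2 * r) (ds h1 h2) - 1) +
      (∑ t ∈ T, (mm w J (2 * r) (ds h1 t) - 1)) + ∑ t ∈ T, (mm w J (2 * r) (ds h2 t) - 1))) := by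
  set D : Finset (ℕ × ℕ) := (insert (h1, h2) (T.image (fun t => (h1, t)))) ∪ T.image (fun t => (h2, t)) with hD
  have key : Vw w J (insert h1 (insert h2 T)) ≤ Vw w J T * V1w w J ^ 2 *
      ∏ p ∈ (Pw w J).filter (fun p => ∃ d ∈ D, p ∣ ds d.1 d.2), cf p ^ 2 := by
    unfold Vw V1w
    rw [prod_filter, ← prod_pow, ← prod_mul_distrib, ← prod_mul_distrib]
    apply Finset.prod_le_prod
    · intro p hp
      have hp0 : (0 : ℝ) < p := by exact_mod_cast (Pw_prime hp).pos
      rw [sub_nonneg, div_le_one hp0]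
      exact_mod_cast nuT_le_self _ (Pw_prime hp).pos
    · intro p hp
      have hpp := Pw_prime hp
      have hp0 : (0 : ℝ) < p := by exact_mod_cast hpp.pos
      have hf := fac_pos hpp
      have hν : 0 ≤ 1 - (Uni.nuT T p : ℝ) / p := by
        rw [sub_nonneg, div_le_one hp0]
        exact_mod_cast nuT_le_self _ hpp.pos
      split_ifs with hb
      · have h2' : (Uni.nuT T p : ℝ) ≤ Uni.nuT (insert h1 (insert h2 T)) p := by
          exact_mod_cast (nuT_le_ins T h2 p).trans (nuT_le_ins _ h1 p)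
        have h3 : 1 - (Uni.nuT (insert h1 (insert h2 T)) p : ℝ) / p ≤ 1 - (Uni.nuT T p : ℝ) / p := by
          have := div_le_div_of_nonneg_right h2' hp0.le
          linarith
        refine h3.trans ?_
        have e : (1 - 1 / (p : ℝ)) ^ 2 * cf p ^ 2 = 1 := by
          rw [← mul_pow]
          unfold cf
          rw [mul_inv_cancel₀ hf.ne', one_pow]
        rw [mul_assoc, e, mul_one]
      · have a1 : Uni.nuT (insert h2 T) p = Uni.nuT T p + 1 := by
          apply nuT_ins_eq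
          intro t ht hd
          apply hb
          exact ⟨(h2, t), mem_union_right _ (mem_image.2 ⟨t, ht, rfl⟩), hd⟩
        have a2 : Uni.nuT (insert h1 (insert h2 T)) p = Uni.nuT (insert h2 T) p + 1 := by
          apply nuT_ins_eq
          intro t ht hd
          rw [mem_insert] at ht
          apply hb
          rcases ht with rfl | ht
          · exact ⟨(h1, t), mem_union_left _ (mem_insert_self _ _), hd⟩
          · exact ⟨(h1, t), mem_union_left _ (mem_insert_of_mem (mem_image.2 ⟨t, ht, rfl⟩)), hd⟩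
        rw [a2, a1, mul_one]
        push_cast
        have h3 := fac2 (a := (Uni.nuT T p : ℝ)) (q := 1 / (p : ℝ)) (Nat.cast_nonneg _) (by positivity) (by
          rw [mul_one_div]; linarith)
        have e1 : ((Uni.nuT T p : ℝ) + 2) * (1 / (p : ℝ)) = ((Uni.nuT T p : ℝ) + 1 + 1) / p := by ring
        have e2 : (Uni.nuT T p : ℝ) * (1 / (p : ℝ)) = (Uni.nuT T p : ℝ) / p := by ring
        rw [e1, e2] at h3
        rw [sq]
        exact h3
  refine key.trans ?_
  apply mul_le_mul_of_nonneg_left _ (mul_nonneg (Vw_nonneg _ _ _) (by positivity))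
  have hcard : D.card ≤ r := by
    rw [hD]
    have b1 := card_union_le (insert (h1, h2) (T.image (fun t => (h1, t)))) (T.image (fun t => (h2, t)))
    have b2 := card_insert_le (h1, h2) (T.image (fun t => (h1, t)))
    have b3 : (T.image (fun t => (h1, t))).card ≤ T.card := card_image_le
    have b4 : (T.image (fun t => (h2, t))).card ≤ T.card := card_image_le
    omega
  refine (bad_le w J r D hcard).trans ?_
  have hnn : ∀ d : ℕ × ℕ, 0 ≤ mm w J (2 * r) (ds d.1 d.2) - 1 := by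
    intro d
    linarith [mm_ge_one w J (2 * r) (ds d.1 d.2)]
  have s1 : ∑ d ∈ D, (mm w J (2 * r) (ds d.1 d.2) - 1) ≤
      ∑ d ∈ insert (h1, h2) (T.image (fun t => (h1, t))), (mm w J (2 * r) (ds d.1 d.2) - 1) +
        ∑ d ∈ T.image (fun t => (h2, t)), (mm w J (2 * r) (ds d.1 d.2) - 1) := by
    rw [hD, ← sum_union_inter]
    have : 0 ≤ ∑ d ∈ insert (h1, h2) (T.image (fun t => (h1, t))) ∩ T.image (fun t => (h2, t)),
        (mm w J (2 * r) (ds d.1 d.2) - 1) := sum_nonneg fun d _ => hnn d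
    linarith
  have s2 : ∑ d ∈ insert (h1, h2) (T.image (fun t => (h1, t))), (mm w J (2 * r) (ds d.1 d.2) - 1) ≤
      (mm w J (2 * r) (ds h1 h2) - 1) + ∑ d ∈ T.image (fun t => (h1, t)), (mm w J (2 * r) (ds d.1 d.2) - 1) := by
    by_cases hm : (h1, h2) ∈ T.image (fun t => (h1, t))
    · rw [insert_eq_of_mem hm]
      have := hnn (h1, h2)
      simp only at this
      linarith
    · rw [sum_insert hm]
  have s3 : ∑ d ∈ T.image (fun t => (h1, t)), (mm w J (2 * r) (ds d.1 d.2) - 1) =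
      ∑ t ∈ T, (mm w J (2 * r) (ds h1 t) - 1) := by
    rw [sum_image]
    intro a _ b _ hab
    exact (Prod.mk.inj hab).2
  have s4 : ∑ d ∈ T.image (fun t => (h2, t)), (mm w J (2 * r) (ds d.1 d.2) - 1) =
      ∑ t ∈ T, (mm w J (2 * r) (ds h2 t) - 1) := by
    rw [sum_image]
    intro a _ b _ hab
    exact (Prod.mk.inj hab).2
  rw [s3] at s2
  rw [s4] at s1
  linarith

end Pool.Agent.L0h43.TB
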