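import Pool.Agent.L0h43.TB.Sing2

/-!
# Sums of the densities of `T ∪ {h}` and `T ∪ {h1, h2}`
-/

set_option autoImplicit false

namespace Pool.Agent.L0h43.TB

open Finset Filter Topology Pool.Agent.H387R2 Pool.Agent.H386R2.HL
open Pool.Agent.L0h43.TA

theorem sum_up1 {W w J ν u H r : ℕ} {T R : Finset ℕ} (hR : R ⊆ Jv W ν u H) (hRT : Disjoint R T)
    (hr : T.card ≤ r) {c : ℝ} (hm : ∀ t ∈ T,
      ∑ h ∈ (Jv W ν u H).filter (fun h => h ≠ t), (mm w J (2 * r) (ds h t) - 1) ≤ c) :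
    ∑ h ∈ R, Vw w J (insert h T) ≤ Vw w J T * V1w w J * (R.card + T.card * c) := by
  classical
  refine (sum_le_sum fun h _ => Vw_up1 T h r hr).trans ?_
  rw [← mul_sum]
  apply mul_le_mul_of_nonneg_left _ (mul_nonneg (Vw_nonneg _ _ _) (V1w_pos _ _).le)
  rw [sum_add_distrib, sum_const, nsmul_eq_mul, mul_one, sum_comm]
  apply add_le_add le_rfl
  have h1 : ∀ t ∈ T, ∑ h ∈ R, (mm w J (2 * r) (ds h t) - 1) ≤ c := by
    intro t ht
    refine le_trans ?_ (hm t ht)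
    apply sum_le_sum_of_subset_of_nonneg
    · intro h hh
      rw [mem_filter]
      refine ⟨hR hh, ?_⟩
      rintro rfl
      exact disjoint_left.1 hRT hh ht
    · intro h _ _
      linarith [mm_ge_one w J (2 * r) (ds h t)]
  refine (sum_le_sum h1).trans ?_
  rw [sum_const, nsmul_eq_mul]

theorem sum_up2 {W w J ν u H r : ℕ} {T R : Finset ℕ} (hR : R ⊆ Jv W ν u H) (hRT : Disjoint R T)
    (hr : 2 * T.card + 1 ≤ r) {c : ℝ} {g : ℕ → ℝ} (hg0 : ∀ h ∈ R, 0 ≤ g h) (hg1 : ∀ h ∈ R, g h ≤ 1)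
    (hm : ∀ t ∈ T ∪ R,
      ∑ h ∈ (Jv W ν u H).filter (fun h => h ≠ t), (mm w J (2 * r) (ds h t) - 1) ≤ c) :
    ∑ x ∈ R.offDiag, g x.1 * g x.2 * Vw w J (insert x.1 (insert x.2 T)) ≤
      Vw w J T * V1w w J ^ 2 * ((∑ h ∈ R, g h) ^ 2 + (2 * T.card + 1) * (R.card * c)) := by
  classical
  have hV : 0 ≤ Vw w J T * V1w w J ^ 2 := mul_nonneg (Vw_nonneg _ _ _) (by positivity)
  have hmm : ∀ a b : ℕ, 0 ≤ mm w J (2 * r) (ds a b) - 1 := fun a b => by
    linarith [mm_ge_one w J (2 * r) (ds a b)]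
  have h1 : ∀ x ∈ R.offDiag, g x.1 * g x.2 * Vw w J (insert x.1 (insert x.2 T)) ≤
      Vw w J T * V1w w J ^ 2 * (g x.1 * g x.2 + ((mm w J (2 * r) (ds x.1 x.2) - 1) +
      (∑ t ∈ T, (mm w J (2 * r) (ds x.1 t) - 1)) + ∑ t ∈ T, (mm w J (2 * r) (ds x.2 t) - 1))) := by
    intro x hx
    rw [mem_offDiag] at hx
    have hgg1 : 0 ≤ g x.1 * g x.2 := mul_nonneg (hg0 _ hx.1) (hg0 _ hx.2.1)
    have hgg2 : g x.1 * g x.2 ≤ 1 := mul_le_one₀ (hg1 _ hx.1) (hg0 _ hx.2.1) (hg1 _ hx.2.1)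
    have h2 := mul_le_mul_of_nonneg_left (Vw_up2 (w := w) (J := J) T x.1 x.2 r hr) hgg1
    refine h2.trans ?_
    set Z : ℝ := (mm w J (2 * r) (ds x.1 x.2) - 1) +
      (∑ t ∈ T, (mm w J (2 * r) (ds x.1 t) - 1)) + ∑ t ∈ T, (mm w J (2 * r) (ds x.2 t) - 1) with hZ
    have hZ0 : 0 ≤ Z := by
      rw [hZ]
      apply add_nonneg (add_nonneg (hmm _ _) (sum_nonneg fun t _ => hmm _ _)) (sum_nonneg fun t _ => hmm _ _)
    have e : g x.1 * g x.2 * (Vw w J T * V1w w J ^ 2 * (1 + Z)) =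
        Vw w J T * V1w w J ^ 2 * (g x.1 * g x.2 + g x.1 * g x.2 * Z) := by ring
    rw [e]
    apply mul_le_mul_of_nonneg_left _ hV
    have := mul_le_mul_of_nonneg_right hgg2 hZ0
    linarith
  refine (sum_le_sum h1).trans ?_
  rw [← mul_sum]
  apply mul_le_mul_of_nonneg_left _ hV
  rw [sum_add_distrib, sum_add_distrib, sum_add_distrib]
  have s0 : ∑ x ∈ R.offDiag, g x.1 * g x.2 ≤ (∑ h ∈ R, g h) ^ 2 := by
    rw [sq, sum_mul_sum, ← sum_product']
    apply sum_le_sum_of_subset_of_nonneg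
    · intro x hx
      rw [mem_offDiag] at hx
      exact mem_product.2 ⟨hx.1, hx.2.1⟩
    · intro x hx _
      rw [mem_product] at hx
      exact mul_nonneg (hg0 _ hx.1) (hg0 _ hx.2)
  have hc' : ∀ t ∈ T ∪ R, ∑ h ∈ R.filter (fun h => h ≠ t), (mm w J (2 * r) (ds h t) - 1) ≤ c := by
    intro t ht
    refine le_trans ?_ (hm t ht)
    apply sum_le_sum_of_subset_of_nonneg
    · intro h hh
      rw [mem_filter] at hh ⊢
      exact ⟨hR hh.1, hh.2⟩
    · intro h _ _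
      exact hmm _ _
  have s1 : ∑ x ∈ R.offDiag, (mm w J (2 * r) (ds x.1 x.2) - 1) ≤ R.card * c := by
    have e : ∑ x ∈ R.offDiag, (mm w J (2 * r) (ds x.1 x.2) - 1) =
        ∑ t ∈ R, ∑ h ∈ R.filter (fun h => h ≠ t), (mm w J (2 * r) (ds h t) - 1) := by
      have e1 : ∀ t ∈ R, ∑ h ∈ R.filter (fun h => h ≠ t), (mm w J (2 * r) (ds h t) - 1) =
          ∑ h ∈ R, (if h ≠ t then (mm w J (2 * r) (ds h t) - 1) else 0) := by
        intro t _
        rw [sum_filter]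
      rw [sum_congr rfl e1, sum_comm, ← sum_product']
      rw [← sum_filter]
      apply sum_congr
      · ext x
        rw [mem_offDiag, mem_filter, mem_product]
        tauto
      · intro x _
        rfl
    rw [e]
    refine (sum_le_sum fun t ht => hc' t (mem_union_right _ ht)).trans ?_
    rw [sum_const, nsmul_eq_mul]
  have hT : ∀ t ∈ T, ∑ h ∈ R, (mm w J (2 * r) (ds h t) - 1) ≤ c := by
    intro t ht
    have h2 := hc' t (mem_union_left _ ht)
    have e : R.filter (fun h => h ≠ t) = R := by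
      apply filter_true_of_mem
      rintro h hh rfl
      exact disjoint_left.1 hRT hh ht
    rwa [e] at h2
  have hTT : ∀ (f : ℕ → ℝ), (∀ a, 0 ≤ f a) → ∑ x ∈ R.offDiag, f x.1 ≤ R.card * ∑ h ∈ R, f h := by
    intro f hf
    have : ∑ x ∈ R.offDiag, f x.1 ≤ ∑ x ∈ R ×ˢ R, f x.1 := by
      apply sum_le_sum_of_subset_of_nonneg
      · intro x hx
        rw [mem_offDiag] at hx
        exact mem_product.2 ⟨hx.1, hx.2.1⟩
      · intro x _ _
        exact hf _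
    refine this.trans (le_of_eq ?_)
    rw [sum_product]
    simp only [sum_const, nsmul_eq_mul]
    rw [mul_sum]
  have hTT2 : ∀ (f : ℕ → ℝ), (∀ a, 0 ≤ f a) → ∑ x ∈ R.offDiag, f x.2 ≤ R.card * ∑ h ∈ R, f h := by
    intro f hf
    have : ∑ x ∈ R.offDiag, f x.2 ≤ ∑ x ∈ R ×ˢ R, f x.2 := by
      apply sum_le_sum_of_subset_of_nonneg
      · intro x hx
        rw [mem_offDiag] at hx
        exact mem_product.2 ⟨hx.1, hx.2.1⟩
      · intro x _ _
        exact hf _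
    refine this.trans (le_of_eq ?_)
    rw [sum_product]
    simp only [sum_const, nsmul_eq_mul]
  have hS : ∑ h ∈ R, ∑ t ∈ T, (mm w J (2 * r) (ds h t) - 1) ≤ T.card * c := by
    rw [sum_comm]
    refine (sum_le_sum hT).trans ?_
    rw [sum_const, nsmul_eq_mul]
  have s2 : ∑ x ∈ R.offDiag, ∑ t ∈ T, (mm w J (2 * r) (ds x.1 t) - 1) ≤ R.card * (T.card * c) :=
    (hTT (fun a => ∑ t ∈ T, (mm w J (2 * r) (ds a t) - 1)) (fun a => sum_nonneg fun t _ => hmm _ _)).trans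
      (mul_le_mul_of_nonneg_left hS (Nat.cast_nonneg _))
  have s3 : ∑ x ∈ R.offDiag, ∑ t ∈ T, (mm w J (2 * r) (ds x.2 t) - 1) ≤ R.card * (T.card * c) :=
    (hTT2 (fun a => ∑ t ∈ T, (mm w J (2 * r) (ds a t) - 1)) (fun a => sum_nonneg fun t _ => hmm _ _)).trans
      (mul_le_mul_of_nonneg_left hS (Nat.cast_nonneg _))
  have e : (2 * (T.card : ℝ) + 1) * (R.card * c) = R.card * c + R.card * (T.card * c) + R.card * (T.card * c) := by
    ring
  rw [e]
  linarith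

end Pool.Agent.L0h43.TB
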